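import Pool.Agent.P.MP_6277db_ag.KEW.CA.EE1

/-!
KEW L4.1 (elementary part): API of `EE`, uniqueness and existence of lifts along etale maps.
Hints.  `UL`: `Algebra.FormallyUnramified.iff_exists_tensorProduct` gives `t : E ⊗ E` killing
`1 ⊗ y - y ⊗ 1` with `mul t = 1`; take `η = lift s s' t`.  `sec_loc`: apply `UL` to the two maps
`E → E ⧸ (ker π) E` given by the projection and by `σ ∘ s`, `σ : D = C ⧸ ker π → E ⧸ (ker π) E`.
`HL0`: `R' = (E ⊗_C R)[1/e]`, `e` from `sec_loc` for `R → R ⧸ I`.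
`EE.of_radical`: an etale map which is bijective modulo a nil ideal is bijective (lift the inverse with
`etale_lift_nil`, compare with `UL`: an `η ≡ 1` modulo a nil ideal is a unit).
`etale_lift_nil`: a finitely presented algebra only sees a finitely generated (so nilpotent) part of `N`:
present `E = C[x]/(f)`, lift the images of the `x`, `N0 = (f(lifts))` is nilpotent, then
`Algebra.FormallySmooth.exists_lift`.
-/

namespace KEW

universe u

open Polynomial

variable {R S T P Z C E D : Type u} [CommRing R] [CommRing S] [CommRing T] [CommRing P] [CommRing Z]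
  [CommRing C] [CommRing E] [CommRing D]

theorem EEApi_lift {p : R →+* S} (hp : Function.Surjective p) (k : R →+* Z)
    (h : ∀ x, p x = 0 → k x = 0) : ∃ d : S →+* Z, d.comp p = k :=
  ⟨p.liftOfSurjective hp ⟨k, h⟩, p.liftOfSurjective_comp hp ⟨k, h⟩⟩

/-- Uniqueness of lifts along an unramified map. -/
theorem UL {ε : C →+* E} (hε : ε.Etale) (s s' : E →+* R) (w : s.comp ε = s'.comp ε) :
    ∃ η : R, (∀ y, η * (s y - s' y) = 0) ∧ η - 1 ∈ Ideal.span (Set.range fun y => s y - s' y) := by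
  let _ := ε.toAlgebra
  let _ := (s.comp ε).toAlgebra
  have : Algebra.Etale C E := hε
  obtain ⟨t, h1, h2⟩ := (Algebra.FormallyUnramified.iff_exists_tensorProduct (R := C) (S := E)).1
    inferInstance
  let a : E →ₐ[C] R := { s with commutes' := fun _ => rfl }
  let a' : E →ₐ[C] R := { s' with commutes' := fun c => (RingHom.congr_fun w c).symm }
  let L : TensorProduct C E E →ₐ[C] R :=
    Algebra.TensorProduct.lift a a' fun _ _ => Commute.all _ _
  have hL : ∀ x y : E, L (x ⊗ₜ[C] y) = s x * s' y := fun x y =>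
    Algebra.TensorProduct.lift_tmul _ _ _ x y
  refine ⟨L t, fun y => ?_, ?_⟩
  · have h3 := congrArg L (h1 y)
    rw [map_mul, map_sub, hL, hL, map_zero, map_one, map_one, one_mul, mul_one] at h3
    linear_combination -h3
  · have h3 : ∀ z : TensorProduct C E E, L z - s (Algebra.TensorProduct.lmul' C z) ∈
        Ideal.span (Set.range fun y => s y - s' y) := by
      intro z
      induction z using TensorProduct.induction_on with
      | zero => simp
      | tmul x y =>
        rw [hL, Algebra.TensorProduct.lmul'_apply_tmul, map_mul]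
        have : s x * s' y - s x * s y = -s x * (s y - s' y) := by ring
        rw [this]
        exact Ideal.mul_mem_left _ _ (Ideal.subset_span ⟨y, rfl⟩)
      | add x y hx hy =>
        have := Ideal.add_mem _ hx hy
        rw [map_add, map_add, map_add]
        convert this using 1
        ring
    have h4 := h3 t
    rwa [h2, map_one] at h4

theorem UL_mod {ε : C →+* E} (hε : ε.Etale) (s s' : E →+* R) (w : s.comp ε = s'.comp ε)
    {I : Ideal R} (hI : ∀ y, s y - s' y ∈ I) :
    ∃ η : R, η - 1 ∈ I ∧ ∀ (Z : Type u) [CommRing Z] (τ : R →+* Z), IsUnit (τ η) →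
      τ.comp s = τ.comp s' := by
  obtain ⟨η, h1, h2⟩ := UL hε s s' w
  refine ⟨η, (Ideal.span_le.2 ?_ : _ ≤ I) h2, fun Z _ τ hτ => RingHom.ext fun y => ?_⟩
  · rintro _ ⟨y, rfl⟩
    exact hI y
  · have h3 := congrArg τ (h1 y)
    rw [map_mul, map_zero, hτ.mul_right_eq_zero, map_sub, sub_eq_zero] at h3
    exact h3

theorem sec_loc {ε : C →+* E} (hε : ε.Etale) {π : C →+* D} (hπ : Function.Surjective π)
    (s : E →+* D) (w : s.comp ε = π) :
    ∃ e : E, s e = 1 ∧ ∀ y, s y = 0 → e * y ∈ (RingHom.ker π).map ε := by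
  have hw : ∀ x, s (ε x) = π x := RingHom.congr_fun w
  obtain ⟨σ, hσ⟩ := EEApi_lift hπ ((Ideal.Quotient.mk ((RingHom.ker π).map ε)).comp ε)
    fun x hx => Ideal.Quotient.eq_zero_iff_mem.2 (Ideal.mem_map_of_mem _ hx)
  have hK : (RingHom.ker π).map ε ≤ RingHom.ker s :=
    Ideal.map_le_iff_le_comap.2 fun x hx => (hw x).trans hx
  obtain ⟨t, ht⟩ := EEApi_lift (Ideal.Quotient.mk_surjective (I := (RingHom.ker π).map ε)) s
    fun x hx => hK (Ideal.Quotient.eq_zero_iff_mem.1 hx)
  have ht' : ∀ y, t (Ideal.Quotient.mk _ y) = s y := RingHom.congr_fun ht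
  have htσ : ∀ d, t (σ d) = d := by
    intro d
    obtain ⟨x, rfl⟩ := hπ d
    have h1 : σ (π x) = Ideal.Quotient.mk _ (ε x) := RingHom.congr_fun hσ x
    rw [h1, ht', hw]
  obtain ⟨η, h1, h2⟩ := UL hε (Ideal.Quotient.mk ((RingHom.ker π).map ε)) (σ.comp s)
    (by rw [RingHom.comp_assoc, w, hσ])
  obtain ⟨e, rfl⟩ := Ideal.Quotient.mk_surjective η
  refine ⟨e, ?_, fun y hy => ?_⟩
  · have h3 : Ideal.span (Set.range fun y =>
        Ideal.Quotient.mk ((RingHom.ker π).map ε) y - (σ.comp s) y) ≤ RingHom.ker t := by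
      rw [Ideal.span_le]
      rintro _ ⟨y, rfl⟩
      change t (_ - σ (s y)) = 0
      rw [map_sub, ht', htσ, sub_self]
    have h4 : t (Ideal.Quotient.mk _ e - 1) = 0 := h3 h2
    rwa [map_sub, ht', map_one, sub_eq_zero] at h4
  · have h3 := h1 y
    rw [RingHom.comp_apply, hy, map_zero, sub_zero, ← map_mul] at h3
    exact Ideal.Quotient.eq_zero_iff_mem.1 h3

/-- An etale neighbourhood of a section becomes `EE` after a localisation. -/
theorem exists_ee_of_section {ε : C →+* E} (hε : ε.Etale) {π : C →+* D}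
    (hπ : Function.Surjective π) (s : E →+* D) (w : s.comp ε = π) :
    ∃ (e : E) (E' : Type u) (_ : CommRing E') (l : E →+* E') (s' : E' →+* D), s e = 1 ∧ IsAway l e ∧
      s'.comp l = s ∧ EE (RingHom.ker π) (l.comp ε) ∧
      RingHom.ker s' = (RingHom.ker π).map (l.comp ε) := by
  obtain ⟨e, he, hk⟩ := sec_loc hε hπ s w
  obtain ⟨E', _, l, hl⟩ := exists_isAway e
  obtain ⟨s', hs'⟩ := hl.exists_lift s (he ▸ isUnit_one)
  have h0 : ∀ y, s' (l y) = s y := RingHom.congr_fun hs'
  have h1 : ∀ x, s' (l (ε x)) = π x := fun x => (h0 _).trans (RingHom.congr_fun w x)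
  have hker : RingHom.ker s' = (RingHom.ker π).map (l.comp ε) := by
    refine le_antisymm (fun z hz => ?_) (Ideal.map_le_iff_le_comap.2 fun x hx => (h1 x).trans hx)
    obtain ⟨x, n, hx⟩ := hl.surj z
    have h2 : s x = 0 := by
      rw [← h0, ← hx, map_mul, (RingHom.mem_ker.1 hz), zero_mul]
    have h3 : l (e * x) ∈ (RingHom.ker π).map (l.comp ε) := by
      rw [← Ideal.map_map]
      exact Ideal.mem_map_of_mem _ (hk x h2)
    rw [map_mul, ← hx, Ideal.unit_mul_mem_iff_mem _ hl.isUnit,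
      Ideal.mul_unit_mem_iff_mem _ (hl.isUnit.pow n)] at h3
    exact h3
  refine ⟨e, E', inferInstance, l, s', he, hl, hs', ⟨etale_comp hε hl.etale, fun y => ?_,
    fun x hx => ?_⟩, hker⟩
  · obtain ⟨x, hx⟩ := hπ (s' y)
    refine ⟨x, hker ▸ ?_⟩
    rw [RingHom.mem_ker, map_sub, RingHom.comp_apply, h1, hx, sub_self]
  · rw [← hker] at hx
    exact (h1 x).symm.trans hx

/-- Lifting along nil ideals. -/
theorem etale_lift_nil {ε : C →+* E} (hε : ε.Etale) (g : C →+* R) {N : Ideal R}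
    (hN : N ≤ nilradical R) (s : E →+* R ⧸ N) (w : s.comp ε = (Ideal.Quotient.mk N).comp g) :
    ∃ s' : E →+* R, s'.comp ε = g ∧ (Ideal.Quotient.mk N).comp s' = s := by
  let _ := ε.toAlgebra
  let _ := g.toAlgebra
  have : Algebra.Etale C E := hε
  obtain ⟨n, p, hp, hfg⟩ := (inferInstance : Algebra.FinitePresentation C E).out
  choose r hr using fun i : Fin n => Ideal.Quotient.mk_surjective (s (p (MvPolynomial.X i)))
  let φ : MvPolynomial (Fin n) C →+* R := MvPolynomial.eval₂Hom g r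
  have hφ : (Ideal.Quotient.mk N).comp φ = s.comp p.toRingHom := by
    refine MvPolynomial.ringHom_ext (fun c => ?_) fun i => ?_
    · have h1 : p (MvPolynomial.C c) = ε c := p.commutes c
      have h2 : s (ε c) = Ideal.Quotient.mk N (g c) := RingHom.congr_fun w c
      simp [φ, h1, h2]
    · simp [φ, hr]
  have hφ' : ∀ x, Ideal.Quotient.mk N (φ x) = s (p x) := RingHom.congr_fun hφ
  let N0 : Ideal R := (RingHom.ker p.toRingHom).map φ
  have hN0 : N0 ≤ N := Ideal.map_le_iff_le_comap.2 fun x hx => by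
    have h1 : p x = 0 := hx
    rw [Ideal.mem_comap, ← Ideal.Quotient.eq_zero_iff_mem, hφ', h1, map_zero]
  have hnil : IsNilpotent N0 :=
    (Ideal.FG.isNilpotent_iff_le_nilradical (hfg.map φ)).2 (hN0.trans hN)
  obtain ⟨s0, hs0⟩ := EEApi_lift (p := p.toRingHom) hp ((Ideal.Quotient.mk N0).comp φ)
    fun x hx => Ideal.Quotient.eq_zero_iff_mem.2 (Ideal.mem_map_of_mem _ hx)
  have hs0' : ∀ x, s0 (p x) = Ideal.Quotient.mk N0 (φ x) := RingHom.congr_fun hs0
  let a : E →ₐ[C] R ⧸ N0 :=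
    { s0 with
      commutes' := fun c => by
        have h1 : p (MvPolynomial.C c) = algebraMap C E c := p.commutes c
        have h2 := hs0' (MvPolynomial.C c)
        rw [h1] at h2
        refine h2.trans ?_
        rw [show φ (MvPolynomial.C c) = g c from MvPolynomial.eval₂Hom_C _ _ _]
        rfl }
  obtain ⟨f, hf⟩ := Algebra.FormallySmooth.exists_lift N0 hnil a
  refine ⟨f.toRingHom, RingHom.ext fun c => f.commutes c, RingHom.ext fun y => ?_⟩
  obtain ⟨x, rfl⟩ := hp y
  have h1 : Ideal.Quotient.mk N0 (f (p x)) = s0 (p x) := AlgHom.congr_fun hf (p x)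
  rw [hs0', Ideal.Quotient.eq] at h1
  rw [← hφ']
  exact Ideal.Quotient.eq.2 (hN0 h1)

theorem EEApi_bij {N : Ideal R} {φ : R →+* S} (h : EE N φ) (hN : N ≤ nilradical R) :
    Function.Bijective φ := by
  obtain ⟨s, hs⟩ := h.exists_retract (Ideal.Quotient.mk N)
    fun x hx => Ideal.Quotient.eq_zero_iff_mem.2 hx
  obtain ⟨s', h1, -⟩ := etale_lift_nil h.etale (RingHom.id R) hN s hs
  have w : (RingHom.id S).comp φ = (φ.comp s').comp φ := by
    rw [RingHom.comp_assoc, h1]
    rfl
  obtain ⟨η, h2, h3⟩ := UL_mod h.etale (RingHom.id S) (φ.comp s') w (h.sub_mem w)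
  have h4 : N.map ((RingHom.id S).comp φ) ≤ nilradical S :=
    Ideal.map_le_iff_le_comap.2 fun x hx => (mem_nilradical.1 (hN hx)).map φ
  have h5 : IsUnit η := by
    have := (mem_nilradical.1 (h4 h2)).isUnit_add_one
    rwa [sub_add_cancel] at this
  have h6 := h3 S (RingHom.id S) h5
  exact Function.bijective_iff_has_inverse.2
    ⟨s', RingHom.congr_fun h1, fun y => (RingHom.congr_fun h6 y).symm⟩

theorem EE.of_radical {I J : Ideal R} {φ : R →+* S} (h : EE J φ) (hJ : J ≤ I.radical) : EE I φ := by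
  refine ee_iff.2 ⟨h.etale, EEApi_bij ((isPO_quot I φ).flip.ee h) ?_⟩
  refine Ideal.map_le_iff_le_comap.2 fun x hx => ?_
  obtain ⟨n, hn⟩ := hJ hx
  exact ⟨n, by rw [← map_pow]; exact Ideal.Quotient.eq_zero_iff_mem.2 hn⟩

/-- Hensel lifting, elementary form. -/
theorem HL0 {ε : C →+* E} (hε : ε.Etale) (g : C →+* R) (I : Ideal R) (s : E →+* R ⧸ I)
    (w : s.comp ε = (Ideal.Quotient.mk I).comp g) :
    ∃ (R' : Type u) (_ : CommRing R') (ρ : R →+* R') (s' : E →+* R'), EE I ρ ∧
      s'.comp ε = ρ.comp g ∧ ∀ y r, s y = Ideal.Quotient.mk I r → s' y - ρ r ∈ I.map ρ := by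
  obtain ⟨P, _, i, j, hP⟩ := exists_isPO ε g
  obtain ⟨d, hi, hj⟩ := hP.exists_lift s (Ideal.Quotient.mk I) w
  obtain ⟨e, E', _, l, s', -, -, hs', hee, hker⟩ :=
    exists_ee_of_section (hP.etale hε) Ideal.Quotient.mk_surjective d hj
  rw [Ideal.mk_ker] at hee hker
  refine ⟨E', inferInstance, l.comp j, l.comp i, hee, ?_, fun y r hy => ?_⟩
  · rw [RingHom.comp_assoc, hP.comm, RingHom.comp_assoc]
  · have h0 : ∀ z, s' (l z) = d z := RingHom.congr_fun hs'
    have h1 : d (i y) = s y := RingHom.congr_fun hi y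
    have h2 : d (j r) = Ideal.Quotient.mk I r := RingHom.congr_fun hj r
    rw [← hker, RingHom.mem_ker, map_sub, RingHom.comp_apply, RingHom.comp_apply, h0, h0, h1, h2,
      hy, sub_self]

/-- Hensel lifting with prescribed coordinates. -/
theorem HL0_etN {ι : Type} {ε : C →+* E} {x : ι → E} (hε : EtN ε x) (g : C →+* R) (I : Ideal R)
    (s : E →+* R ⧸ I) (w : s.comp ε = (Ideal.Quotient.mk I).comp g) (c : ι → R)
    (hc : ∀ k, s (x k) = Ideal.Quotient.mk I (c k)) :
    ∃ (R' : Type u) (_ : CommRing R') (ρ : R →+* R') (s' : E →+* R'), EE I ρ ∧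
      s'.comp ε = ρ.comp g ∧ (∀ k, s' (x k) = ρ (c k)) ∧
      ∀ y r, s y = Ideal.Quotient.mk I r → s' y - ρ r ∈ I.map ρ := by
  obtain ⟨R', _, ρ, s', h1, h2, h3⟩ := HL0 (ε := MvPolynomial.eval₂Hom ε x) hε
    (MvPolynomial.eval₂Hom g c) I s (MvPolynomial.ringHom_ext (fun a => by
      simpa using RingHom.congr_fun w a) fun k => by simpa using hc k)
  refine ⟨R', inferInstance, ρ, s', h1, RingHom.ext fun a => ?_, fun k => ?_, h3⟩
  · simpa using RingHom.congr_fun h2 (MvPolynomial.C a)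
  · simpa using RingHom.congr_fun h2 (MvPolynomial.X k)

/-- Maps out of `EP` algebras lift eventually. -/
theorem HL0_ep {ε : C →+* E} (hε : EP ε) (g : C →+* R) (I : Ideal R) (s : E →+* R ⧸ I)
    (w : s.comp ε = (Ideal.Quotient.mk I).comp g) :
    ∃ (R' : Type u) (_ : CommRing R') (ρ : R →+* R') (s' : E →+* R'), EE I ρ ∧
      s'.comp ε = ρ.comp g ∧ ∀ y r, s y = Ideal.Quotient.mk I r → s' y - ρ r ∈ I.map ρ := by
  obtain ⟨n, x, hx⟩ := hε
  choose c hc using fun k : Fin n => Ideal.Quotient.mk_surjective (s (x k))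
  obtain ⟨R', _, ρ, s', h1, h2, -, h3⟩ := HL0_etN hx g I s w c fun k => (hc k).symm
  exact ⟨R', inferInstance, ρ, s', h1, h2, h3⟩

end KEW
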