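import Pool.Agent.P.MP_6277db_ag.KEW.CA.Norm
import Pool.Agent.P.MP_6277db_ag.KEW.CA.EEApi

/-!
KEW L5.3: the standard chart of an etale neighbourhood of a closed point of the affine line, and curves through
a rational point.
Hints.  `curve_chart`: `E` is etale over `F[X]`, `𝔭 = ω E` is maximal (`EE`).  `Algebra.IsEtaleAt.exists_isStandardEtale`
(or `Algebra.exists_etale..`) gives `f ∉ 𝔭` with `E0 = E[1/f]` standard etale: `E0 = (F[X][w]/p0)[1/g0]`
(`StandardEtalePair.equivAwayAdjoinRoot`), `p0` monic.  Here `AdjoinRoot p0 → E0` need not be injective, but this is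
not required below: take `p = p0`, `Q0 = mk g0`.  `g` is invertible in `E0`, so `Q0^b ∈ (g)` for `b` large; the kernel of
`Et/ω → E0/ω = F[X]/ω` is finitely generated and killed by a power of `Q0`; `Q = Q0^b` with `b` large for both.  Choose
`c ∈ F[X]` with `c Q ≡ 1` in `E0/ω` and `e = c Q`.  For the monic `N` with `Q ∣ N` one needs `Q` to be a nonzerodivisor
of `Et`; so first replace `p0` by a monic factor: over `L = F(X)` the algebra `L[w]/p0` splits as (part where `Q0` is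
a unit) × (part where it is nilpotent); equivalently let `𝔨 = ker (F[X][w] → E0)`; it contains the monic `p0`, the quotient is torsion free
over the normal domain `F[X]`, so `𝔨` is generated by the minimal polynomial `p` of the image of `w`: if `p1` is the monic
generator of `𝔨 L[w]` then `p1 ∣ p0` has coefficients in `F[X]` (`IsIntegrallyClosed.eq_map_mul_C_of_dvd`, or
`Polynomial.Monic.dvd_of_fraction_map_dvd_fraction_map`), and division with remainder by `p1` shows `𝔨 = (p1)`.  Then `j` is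
injective, `N = norm Q` normalised (`dvd_of_norm`, `norm_ne_zero`), last clause by `norm_rank_one`.
`curve_through`: Krull intersection in the local ring at `e` gives a minimal `d` with `f ∉ 𝔪^(d+1)`; `𝔪 = (x)` after
`exists_ee_of_section`; `f ≡ p(x)` mod `𝔪^(d+1)` with `p ≠ 0` of degree `≤ d`, `p ∉ (x)^(d+1)`.  Substitute `x_i = u^(N + (d+1)^i)`
(`N` large), or avoid homogeneity by any substitution `x_i = u^(n_i)` for which the lowest exponent of `p(u^n)` is
smaller than `(d+1) min n_i`; `E0 = E ⊗_{F[x]} F[u]` localised.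
`dvr_of_curve`: Krull intersection and `Et1.monic_regular`.
-/

namespace KEW

universe u

open Polynomial

variable {F U E : Type u} [Field F] [CommRing U] [CommRing E]

/-- A localisation away from an element prime to `σ` is bijective modulo `σ`. -/
theorem Chart_away {R S : Type u} [CommRing R] [CommRing S] {l : R →+* S} {r σ : R}
    (h : IsAway l r) (hc : IsCoprime r σ) :
    (∀ z : S, ∃ x : R, l σ ∣ z - l x) ∧ ∀ x : R, l σ ∣ l x → σ ∣ x := by
  constructor
  · intro z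
    obtain ⟨x, n, hx⟩ := h.surj z
    obtain ⟨a, b, hab⟩ := hc.pow_left (m := n)
    refine ⟨a * x, z * l b, ?_⟩
    have h1 : l a * l r ^ n + l b * l σ = 1 := by
      rw [← map_pow, ← map_mul, ← map_mul, ← map_add, hab, map_one]
    rw [map_mul, ← hx]
    linear_combination (-z) * h1
  · rintro x ⟨z, hz⟩
    obtain ⟨y, n, hy⟩ := h.surj z
    have h1 : l (r ^ n * x - σ * y) = 0 := by
      rw [map_sub, map_mul, map_mul, map_pow, hz, ← hy]
      ring
    obtain ⟨m, hm⟩ := h.eq_zero h1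
    refine (hc.pow_left (m := m + n)).symm.dvd_of_dvd_mul_left ⟨r ^ m * y, ?_⟩
    linear_combination hm

/-- The standard etale chart at a prime. -/
theorem Chart_std {R : Type u} [CommRing R] {φ : R →+* E} (hφ : φ.Etale) (𝔭 : Ideal E)
    [𝔭.IsPrime] :
    ∃ (f : E) (E0 : Type u) (_ : CommRing E0) (l : E →+* E0) (x : E0) (p0 g0 : R[X]), f ∉ 𝔭 ∧
      IsAway l f ∧ p0.Monic ∧ p0.eval₂ (l.comp φ) x = 0 ∧ IsUnit (g0.eval₂ (l.comp φ) x) ∧
      ∀ z : E0, ∃ (q : R[X]) (n : ℕ), z * g0.eval₂ (l.comp φ) x ^ n = q.eval₂ (l.comp φ) x := by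
  let _ := φ.toAlgebra
  have : Algebra.Etale R E := hφ
  obtain ⟨f, hf, ⟨⟨P⟩⟩⟩ := Algebra.IsEtaleAt.exists_isStandardEtale (R := R) 𝔭
  have e : ∀ q : R[X], q.eval₂ ((algebraMap E (Localization.Away f)).comp φ) P.x = aeval P.x q := by
    intro q
    rw [aeval_def, IsScalarTower.algebraMap_eq R E (Localization.Away f)]
    rfl
  refine ⟨f, Localization.Away f, inferInstance, algebraMap _ _, P.x, P.f, P.g, hf,
    (isAway_algebraMap_iff f).2 inferInstance, P.monic_f, ?_, ?_, fun z => ?_⟩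
  · rw [e]
    exact P.hasMap.1
  · rw [e]
    exact P.hasMap.2
  · simp only [e]
    exact P.exists_mul_aeval_x_g_pow_eq_aeval_x z

/-- A saturated ideal of `A[X]` that contains a monic polynomial has a monic generator. -/
theorem Chart_ker {A : Type u} [CommRing A] [IsDomain A] [IsIntegrallyClosed A] (J : Ideal A[X])
    {p0 : A[X]} (hp0 : p0.Monic) (h0 : p0 ∈ J)
    (hs : ∀ a : A, a ≠ 0 → ∀ q, C a * q ∈ J → q ∈ J) :
    ∃ p : A[X], p.Monic ∧ p ∈ J ∧ ∀ q ∈ J, p ∣ q := by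
  classical
  let K := FractionRing A
  have hinj : Function.Injective (algebraMap A K) := IsFractionRing.injective A K
  let _ : Algebra A[X] K[X] := Polynomial.algebra A K
  have hloc : IsLocalization ((nonZeroDivisors A).map (C : A →+* A[X])) K[X] :=
    Polynomial.isLocalization _ K
  have hal : ∀ q : A[X], algebraMap A[X] K[X] q = q.map (algebraMap A K) := fun _ => rfl
  obtain ⟨p1, hp1⟩ := (IsPrincipalIdealRing.principal (J.map (algebraMap A[X] K[X]))).principal
  have hd : ∀ q ∈ J, p1 ∣ q.map (algebraMap A K) := by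
    intro q hq
    have h1 := Ideal.mem_map_of_mem (algebraMap A[X] K[X]) hq
    rw [hp1] at h1
    exact Ideal.mem_span_singleton.1 h1
  have hne : p1 ≠ 0 := ne_zero_of_dvd_ne_zero (hp0.map _).ne_zero (hd p0 h0)
  have hlc : p1.leadingCoeff ≠ 0 := leadingCoeff_ne_zero.2 hne
  obtain ⟨p, hp⟩ := IsIntegrallyClosed.eq_map_mul_C_of_dvd K hp0 (hd p0 h0)
  have hp' : p.map (algebraMap A K) = p1 * C p1.leadingCoeff⁻¹ := by
    conv_rhs => enter [1]; rw [← hp]
    rw [mul_assoc, ← C_mul, mul_inv_cancel₀ hlc, C_1, mul_one]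
  have hm : p.Monic := by
    refine monic_of_injective hinj ?_
    rw [hp']
    exact monic_mul_leadingCoeff_inv hne
  refine ⟨p, hm, ?_, fun q hq => ?_⟩
  · have h1 : algebraMap A[X] K[X] p ∈ J.map (algebraMap A[X] K[X]) := by
      rw [hp1, hal, hp']
      exact Ideal.mul_mem_right _ _ (Ideal.mem_span_singleton_self p1)
    obtain ⟨_, ⟨a, ha, rfl⟩, h2⟩ := (IsLocalization.algebraMap_mem_map_algebraMap_iff
      ((nonZeroDivisors A).map (C : A →+* A[X])) K[X] J p).1 h1
    exact hs a (nonZeroDivisors.ne_zero ha) p h2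
  · rw [← Polynomial.map_dvd_map _ hinj hm]
    exact (Dvd.intro _ hp).trans (hd q hq)

theorem curve_chart {g ω : F[X]} (hω : Irreducible ω) (hc : IsCoprime g ω) {ι : F[X] →+* U}
    (hι : IsAway ι g) {ε : U →+* E} (hε : EE (Ideal.span {ι ω}) ε) :
    ∃ (p : F[X][X]) (Q e : AdjoinRoot p) (N : F[X]) (f : E) (E0 : Type u) (_ : CommRing E0)
      (l : E →+* E0) (j : AdjoinRoot p →+* E0),
      p.Monic ∧ 0 < p.natDegree ∧ IsAway l f ∧ IsCoprime f (ε (ι ω)) ∧ IsAway j Q ∧
      j.comp (AdjoinRoot.of p) = l.comp (ε.comp ι) ∧ AdjoinRoot.of p g ∣ Q ∧ Q ∣ e ∧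
      AdjoinRoot.of p ω ∣ (1 - e) * Q ∧ N.Monic ∧ Q ∣ AdjoinRoot.of p N ∧
      ∀ (S : Type u) [CommRing S] (h : F[X] →+* S) (c : S),
        h ω ∣ Algebra.norm S (1 + amap h p e * AdjoinRoot.of (p.map h) c) - (1 + c) := by
  have hsp : (Ideal.span {ι ω}).map ε = Ideal.span {ε (ι ω)} := by
    rw [Ideal.map_span, Set.image_singleton]
  obtain ⟨a1, a2⟩ := Chart_away hι hc
  have b1 : ∀ y : E, ∃ a, ε (ι ω) ∣ y - ε (ι a) := by
    intro y
    obtain ⟨x, hx⟩ := hε.surj y
    rw [hsp, Ideal.mem_span_singleton] at hx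
    obtain ⟨a, ha⟩ := a1 x
    refine ⟨a, ?_⟩
    have h1 := map_dvd ε ha
    rw [map_sub] at h1
    simpa using hx.add h1
  have b2 : ∀ a, ε (ι ω) ∣ ε (ι a) → ω ∣ a := by
    intro a ha
    refine a2 a (Ideal.mem_span_singleton.1 (hε.inj _ ?_))
    rw [hsp]
    exact Ideal.mem_span_singleton.2 ha
  have hprime : (Ideal.span {ε (ι ω)}).IsPrime := by
    refine ⟨fun h => hω.not_isUnit (isUnit_of_dvd_one (b2 1 ?_)), fun {x y} h => ?_⟩
    · rw [← Ideal.mem_span_singleton, h]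
      trivial
    · simp only [Ideal.mem_span_singleton] at h ⊢
      obtain ⟨a, ha⟩ := b1 x
      obtain ⟨b, hb⟩ := b1 y
      have h1 : ε (ι ω) ∣ ε (ι (a * b)) := by
        have h2 : ε (ι (a * b)) = x * y - (x - ε (ι a)) * y - ε (ι a) * (y - ε (ι b)) := by
          rw [map_mul, map_mul]
          ring
        rw [h2]
        exact (h.sub (ha.mul_right _)).sub (hb.mul_left _)
      rcases hω.prime.dvd_or_dvd (b2 _ h1) with h2 | h2
      · left
        simpa using ha.add (map_dvd ε (map_dvd ι h2))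
      · right
        simpa using hb.add (map_dvd ε (map_dvd ι h2))
  have hφ : (ε.comp ι).Etale := etale_comp hι.etale hε.etale
  obtain ⟨f, E0, _, l, x, p0, g0, hf, hl, hp0, h0, hu, hsur⟩ :=
    Chart_std hφ (Ideal.span {ε (ι ω)})
  rw [Ideal.mem_span_singleton] at hf
  have hfc : IsCoprime f (ε (ι ω)) := by
    obtain ⟨a, z, ha⟩ := b1 f
    have h1 : ¬ω ∣ a := fun h => hf (by
      have h2 : f = ε (ι ω) * z + ε (ι a) := by linear_combination ha
      rw [h2]
      exact (dvd_mul_right _ _).add (map_dvd ε (map_dvd ι h)))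
    obtain ⟨s, t, hst⟩ := ((hω.coprime_iff_not_dvd.2 h1).map ι).map ε
    exact ⟨t, s - t * z, by linear_combination hst + t * ha⟩
  obtain ⟨c1, c2⟩ := Chart_away hl hfc
  set ψ : F[X] →+* E0 := l.comp (ε.comp ι) with hψ
  have d1 : ∀ z : E0, ∃ a, ψ ω ∣ z - ψ a := by
    intro z
    obtain ⟨y, hy⟩ := c1 z
    obtain ⟨a, ha⟩ := b1 y
    refine ⟨a, ?_⟩
    have h1 := map_dvd l ha
    rw [map_sub] at h1
    simpa [hψ] using hy.add h1
  have d2 : ∀ a, ψ ω ∣ ψ a → ω ∣ a := fun a ha => b2 a (c2 _ ha)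
  have hreg : ∀ a : F[X], a ≠ 0 → ∀ z : E0, ψ a * z = 0 → z = 0 := by
    intro a ha z hz
    let _ := ψ.toAlgebra
    have : Module.Flat F[X] E0 := etale_flat (etale_comp hφ hl.etale)
    have h1 := Module.Flat.isSMulRegular_of_nonZeroDivisors (M := E0)
      (mem_nonZeroDivisors_of_ne_zero ha)
    refine h1 ?_
    show a • z = a • (0 : E0)
    rw [smul_zero, Algebra.smul_def]
    exact hz
  obtain ⟨p, hp, hpk, hpd⟩ := Chart_ker (RingHom.ker (eval₂RingHom ψ x)) hp0 h0 (by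
    intro a ha q hq
    rw [RingHom.mem_ker, map_mul, coe_eval₂RingHom, eval₂_C] at hq
    exact hreg a ha _ hq)
  have hpk' : p.eval₂ ψ x = 0 := hpk
  let j : AdjoinRoot p →+* E0 := AdjoinRoot.lift ψ x hpk'
  have hj : ∀ q, j (AdjoinRoot.mk p q) = q.eval₂ ψ x := fun q => AdjoinRoot.lift_mk hpk' q
  have hjo : ∀ a, j (AdjoinRoot.of p a) = ψ a := fun a => AdjoinRoot.lift_of hpk'
  have hinj : Function.Injective j := by
    rw [injective_iff_map_eq_zero]
    intro y hy
    obtain ⟨q, rfl⟩ := AdjoinRoot.mk_surjective y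
    rw [hj] at hy
    exact AdjoinRoot.mk_eq_zero.2 (hpd q hy)
  obtain ⟨Q0, hQ0⟩ : ∃ Q0, Q0 = AdjoinRoot.mk p g0 := ⟨_, rfl⟩
  have hu' : IsUnit (j Q0) := by rwa [hQ0, hj]
  have hsur' : ∀ z : E0, ∃ (y : AdjoinRoot p) (n : ℕ), z * j Q0 ^ n = j y := by
    intro z
    obtain ⟨q, n, h⟩ := hsur z
    exact ⟨AdjoinRoot.mk p q, n, by rw [hQ0, hj, hj, h]⟩
  have hdiv : ∀ y y' : AdjoinRoot p, j y ∣ j y' → ∃ n, y ∣ Q0 ^ n * y' := by
    rintro y y' ⟨z, hz⟩
    obtain ⟨w, n, hw⟩ := hsur' z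
    refine ⟨n, w, hinj ?_⟩
    rw [map_mul, map_mul, map_pow, hz, ← hw]
    ring
  obtain ⟨n, hn⟩ := hdiv (AdjoinRoot.of p g) 1 (by
    rw [hjo, map_one]
    exact ((hι.isUnit.map ε).map l).dvd)
  obtain ⟨z, hz⟩ := hu'.exists_left_inv
  obtain ⟨c, hc'⟩ := d1 z
  have hc1 : ψ ω ∣ 1 - ψ c * j Q0 := by
    have h1 : 1 - ψ c * j Q0 = (z - ψ c) * j Q0 := by linear_combination -hz
    rw [h1]
    exact hc'.mul_right _
  obtain ⟨m, hm⟩ := hdiv (AdjoinRoot.of p ω) (1 - AdjoinRoot.of p c * Q0) (by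
    rw [hjo, map_sub, map_one, map_mul, hjo]
    exact hc1)
  obtain ⟨b, hb⟩ : ∃ b, b = n + m + 1 := ⟨_, rfl⟩
  have hQe : Q0 ^ b ∣ (AdjoinRoot.of p c * Q0) ^ b := pow_dvd_pow_of_dvd (dvd_mul_left _ _) b
  have hωe : AdjoinRoot.of p ω ∣ (1 - (AdjoinRoot.of p c * Q0) ^ b) * Q0 ^ b := by
    rw [mul_comm]
    exact hm.trans (mul_dvd_mul (pow_dvd_pow _ (by omega)) (one_sub_dvd_one_sub_pow _ _))
  have hQ : ∀ y, Q0 ^ b * y = 0 → y = 0 := by
    intro y hy
    apply hinj
    have h1 := congrArg j hy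
    rw [map_mul, map_pow, map_zero] at h1
    rw [map_zero]
    exact (hu'.pow b).mul_right_eq_zero.1 h1
  have hN := norm_ne_zero hp hQ
  have h2 : AdjoinRoot.of p ω ∣
      (AdjoinRoot.of p c * Q0) ^ b * (1 - (AdjoinRoot.of p c * Q0) ^ b) := by
    rw [mul_comm]
    exact hωe.trans (mul_dvd_mul_left _ hQe)
  refine ⟨p, Q0 ^ b, (AdjoinRoot.of p c * Q0) ^ b, _, f, E0, inferInstance, l, j, hp, ?_, hl, hfc,
    ?_, RingHom.ext hjo, ?_, hQe, hωe, monic_mul_leadingCoeff_inv hN, ?_, fun S _ h s => ?_⟩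
  · by_contra h1
    have h3 : p = 1 := hp.natDegree_eq_zero.1 (by omega)
    rw [h3, eval₂_one] at hpk'
    refine hω.not_isUnit (isUnit_of_dvd_one (d2 1 ?_))
    rw [map_one, hpk']
    exact dvd_zero _
  · refine isAway_iff.2 ⟨by rw [map_pow]; exact hu'.pow b, fun w => ?_, fun y hy => ⟨0, ?_⟩⟩
    · obtain ⟨y, k, hy⟩ := hsur' w
      refine ⟨y * Q0 ^ ((n + m) * k), k, ?_⟩
      rw [map_mul, ← hy, map_pow, map_pow, hb]
      ring
    · rw [hinj (hy.trans (map_zero j).symm), mul_zero]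
  · rw [mul_one] at hn
    exact hn.trans (pow_dvd_pow _ (by omega))
  · rw [map_mul]
    exact (dvd_of_norm hp _).mul_right _
  · refine norm_rank_one hp (fun y => ?_) h2 (fun a ha => d2 a ?_) h s
    · obtain ⟨a, ha⟩ := d1 (j y)
      obtain ⟨k, hk⟩ := hdiv (AdjoinRoot.of p ω) (y - AdjoinRoot.of p a) (by
        rw [hjo, map_sub, hjo]
        exact ha)
      refine ⟨a, ?_⟩
      generalize y - AdjoinRoot.of p a = w at hk
      have h3 : Q0 ∣ (AdjoinRoot.of p c * Q0) ^ b := (dvd_pow_self Q0 (by omega)).trans hQe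
      generalize (AdjoinRoot.of p c * Q0) ^ b = e at h2 h3
      have h4 : e * w = e * (1 - e ^ k) * w + e * (e ^ k * w) := by ring
      rw [h4]
      exact ((h2.trans (mul_dvd_mul_left _ (one_sub_dvd_one_sub_pow _ _))).mul_right _).add
        ((hk.trans (mul_dvd_mul_right (pow_dvd_pow_of_dvd h3 k) _)).mul_left _)
    · have h3 := map_dvd j ha
      rw [hjo, map_mul, hjo, map_pow, map_mul, hjo] at h3
      have h4 : ψ a = ψ a * (ψ c * j Q0) ^ b + ψ a * (1 - (ψ c * j Q0) ^ b) := by ring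
      rw [h4]
      exact h3.add ((hc1.trans (one_sub_dvd_one_sub_pow _ _)).mul_left _)

end KEW
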