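import Pool.Agent.P.MP_6277db_ag.KEW.CA.EEApi

/-!
KEW L5.3: the standard chart of an etale neighbourhood of a closed point of the affine line, and curves through
a rational point.
Hints.  `curve_chart`: `E` is etale over `F[X]`, `𝔭 = ω E` is maximal (`EE`).  `Algebra.IsEtaleAt.exists_isStandardEtale`
(or `Algebra.exists_etale..`) gives `f ∉ 𝔭` with `E0 = E[1/f]` standard etale: `E0 = (F[X][w]/p0)[1/g0]`
(`StandardEtalePair.equivAwayAdjoinRoot`), `p0` monic.  Here `AdjoinRoot p0 → E0` need not be injective, but this is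
not required below: take `p = p0`, `Q0 = mk g0`.  `g` is invertible in `E0`, so `Q0^b ∈ (g)` for `b` large; the kernel of
`Et/ω → E0/ω = F[X]/ω` is finitely generated and killed by a power of `Q0`; `Q = Q0^b` with `b` large for both.  Choose
`c ∈ F[X]` with `c Q ≡ 1` in `E0/ω` and `e = c Q`.  For the monic `N` with `Q ∣ N` one needs `Q` to be a nonzerodivisor
of `Et`; so first replace `p0` by a monic factor: over `L = F(X)` the algebra `L[w]/p0` splits as (part where `Q0` is
a unit) × (part where it is nilpotent); equivalently let `𝔨 = ker (F[X][w] → E0)`; it contains the monic `p0`, the quotient is torsion free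
over the normal domain `F[X]`, so `𝔨` is generated by the minimal polynomial `p` of the image of `w`: if `p1` is the monic
generator of `𝔨 L[w]` then `p1 ∣ p0` has coefficients in `F[X]` (`IsIntegrallyClosed.eq_map_mul_C_of_dvd`, or
`Polynomial.Monic.dvd_of_fraction_map_dvd_fraction_map`), and division with remainder by `p1` shows `𝔨 = (p1)`.  Then `j` is
injective, `N = norm Q` normalised (`dvd_of_norm`, `norm_ne_zero`), last clause by `norm_rank_one`.
`curve_through`: Krull intersection in the local ring at `e` gives a minimal `d` with `f ∉ 𝔪^(d+1)`; `𝔪 = (x)` after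
`exists_ee_of_section`; `f ≡ p(x)` mod `𝔪^(d+1)` with `p ≠ 0` of degree `≤ d`, `p ∉ (x)^(d+1)`.  Substitute `x_i = u^(N + (d+1)^i)`
(`N` large), or avoid homogeneity by any substitution `x_i = u^(n_i)` for which the lowest exponent of `p(u^n)` is
smaller than `(d+1) min n_i`; `E0 = E ⊗_{F[x]} F[u]` localised.
`dvr_of_curve`: Krull intersection and `Et1.monic_regular`.
-/

namespace KEW

universe u

open Polynomial

variable {F U E : Type u} [Field F] [CommRing U] [CommRing E]

/-- Krull intersection at a rational point. -/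
theorem Chart2_krull [IsNoetherianRing E] (e : E →+* F) {I : Ideal E} (hI : I ≤ RingHom.ker e)
    {y : E} (h : ∀ k : ℕ, ∃ s, e s ≠ 0 ∧ s * y ∈ I ^ k) : ∃ s, e s ≠ 0 ∧ s * y = 0 := by
  haveI : (RingHom.ker e).IsPrime := RingHom.ker_isPrime e
  have hne : I.map (algebraMap E (Localization.AtPrime (RingHom.ker e))) ≠ ⊤ := by
    refine ne_top_of_le_ne_top (IsLocalRing.maximalIdeal.isMaximal _).ne_top ?_
    rw [← Localization.AtPrime.map_eq_maximalIdeal]
    exact Ideal.map_mono hI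
  have h1 : algebraMap E (Localization.AtPrime (RingHom.ker e)) y = 0 := by
    rw [← Ideal.mem_bot, ← Ideal.iInf_pow_eq_bot_of_isLocalRing _ hne, Ideal.mem_iInf]
    intro k
    obtain ⟨s, hs, hk⟩ := h k
    have h2 := Ideal.mem_map_of_mem (algebraMap E (Localization.AtPrime (RingHom.ker e))) hk
    rw [Ideal.map_pow, map_mul] at h2
    exact (Ideal.unit_mul_mem_iff_mem _ (IsLocalization.map_units
      (Localization.AtPrime (RingHom.ker e)) (⟨s, hs⟩ : (RingHom.ker e).primeCompl))).1 h2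
  obtain ⟨s, hs⟩ := (IsLocalization.map_eq_zero_iff (RingHom.ker e).primeCompl _ y).1 h1
  exact ⟨s, s.2, hs⟩

/-- The local ring of an etale curve at a rational point is a discrete valuation ring. -/
theorem dvr_of_curve {ι : F →+* E} {u : E} (hu : Et1 ι u) {e : E →+* F}
    (he : e.comp ι = RingHom.id F) (h0 : e u = 0) (y : E) :
    (∃ s, e s ≠ 0 ∧ s * y = 0) ∨ ∃ (k : ℕ) (s w : E), e s ≠ 0 ∧ e w ≠ 0 ∧ s * y = w * u ^ k := by
  haveI : IsNoetherianRing E := noeth_of_finiteType hu.finiteType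
  have hw : e.comp (Polynomial.eval₂RingHom ι u) = Polynomial.evalRingHom 0 := by
    refine Polynomial.ringHom_ext (fun a => ?_) ?_
    · simpa using RingHom.congr_fun he a
    · simpa using h0
  obtain ⟨t, ht, hty⟩ := sec_loc hu (fun a => ⟨C a, by simp⟩) e hw
  have hd : ∀ z, e z = 0 → ∃ z', t * z = z' * u := fun z hz => by
    have h1 := hty z hz
    rw [Polynomial.ker_evalRingHom, Ideal.map_span, Set.image_singleton,
      Ideal.mem_span_singleton'] at h1
    obtain ⟨a, ha⟩ := h1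
    exact ⟨a, by simpa using ha.symm⟩
  by_contra hn
  rw [not_or] at hn
  have h1 : ∀ k : ℕ, ∃ w, t ^ k * y = w * u ^ k := fun k => by
    induction k with
    | zero => exact ⟨y, by simp⟩
    | succ k ih =>
      obtain ⟨w, hw⟩ := ih
      have h2 : e w = 0 := by
        by_contra h3
        exact hn.2 ⟨k, t ^ k, w, by simp [ht], h3, hw⟩
      obtain ⟨w', hw'⟩ := hd w h2
      exact ⟨w', by linear_combination t * hw + u ^ k * hw'⟩
  refine hn.1 (Chart2_krull e (I := Ideal.span {u}) ?_ fun k => ?_)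
  · rw [Ideal.span_le, Set.singleton_subset_iff]
    exact h0
  · obtain ⟨w, hw⟩ := h1 k
    refine ⟨t ^ k, by simp [ht], ?_⟩
    rw [Ideal.span_singleton_pow, Ideal.mem_span_singleton']
    exact ⟨w, hw.symm⟩

/-- The generic point of the local curve. -/
theorem curve_generic {ι : F →+* E} {u : E} (hu : Et1 ι u) {e : E →+* F}
    (he : e.comp ι = RingHom.id F) (h0 : e u = 0) {Eu : Type u} [CommRing Eu] {l : E →+* Eu}
    (hl : IsAway l u) :
    ∃ (K : Type u) (_ : Field K) (k : Eu →+* K) (M : Submonoid Eu), IsLoc k M ∧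
      ∀ s ∈ M, ∃ s0 : E, e s0 ≠ 0 ∧ l s0 = s := by
  haveI : (RingHom.ker e).IsPrime := RingHom.ker_isPrime e
  obtain ⟨K, _, k, hk⟩ := exists_isLoc ((RingHom.ker e).primeCompl.map l)
  obtain ⟨k1, k2, k3⟩ := isLoc_iff.1 hk
  have hu1 : ∀ s, e s ≠ 0 → IsUnit (k (l s)) := fun s hs => k1 _ ⟨s, hs, rfl⟩
  have hu2 : IsUnit (k (l u)) := hl.isUnit.map k
  have hK : IsField K := by
    refine ⟨⟨1, 0, fun h => ?_⟩, mul_comm, fun {z} hz => ?_⟩
    · obtain ⟨_, ⟨s, hs, rfl⟩, h1⟩ := k3 1 (by rw [map_one, h])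
      obtain ⟨n, hn⟩ := hl.eq_zero ((mul_one _).symm.trans h1)
      have h2 : s = 0 := hu.monic_regular (monic_X_pow n) (by rwa [eval₂_X_pow])
      exact hs (h2 ▸ zero_mem _)
    · refine isUnit_iff_exists_inv.1 ?_
      obtain ⟨x, _, ⟨m, hm, rfl⟩, h1⟩ := k2 z
      obtain ⟨y, n, h2⟩ := hl.surj x
      have h3 : z * (k (l m) * k (l u) ^ n) = k (l y) := by
        rw [← mul_assoc, h1, ← map_pow, ← map_mul, h2]
      rcases dvr_of_curve hu he h0 y with ⟨s, hs, h4⟩ | ⟨j, s, w, hs, hw, h4⟩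
      · have h5 : k (l y) = 0 := by
          refine (hu1 s hs).mul_right_eq_zero.1 ?_
          rw [← map_mul, ← map_mul, h4, map_zero, map_zero]
        rw [h5] at h3
        exact absurd (((hu1 m hm).mul (hu2.pow n)).mul_left_eq_zero.1 h3) hz
      · have h5 : IsUnit (k (l s) * k (l y)) := by
          rw [← map_mul, ← map_mul, h4, map_mul, map_mul, map_pow, map_pow]
          exact (hu1 w hw).mul (hu2.pow j)
        have h6 := isUnit_of_mul_isUnit_right h5
        rw [← h3] at h6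
        exact isUnit_of_mul_isUnit_left h6
  exact ⟨K, hK.toField, k, _, hk, fun s ⟨s0, h1, h2⟩ => ⟨s0, h1, h2⟩⟩

/-- The coefficients of `p (x T)`. -/
theorem Chart2_coeff {σ : Type} {I : Ideal (MvPolynomial σ F)} (hI : ∀ i, MvPolynomial.X i ∈ I)
    (p : MvPolynomial σ F) (j : ℕ) :
    (MvPolynomial.eval₂Hom ((C : MvPolynomial σ F →+* _).comp MvPolynomial.C)
      (fun i => C (MvPolynomial.X i) * X) p).coeff j ∈ I ^ j := by
  induction p using MvPolynomial.induction_on generalizing j with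
  | C a =>
    rw [MvPolynomial.eval₂Hom_C, RingHom.comp_apply, coeff_C]
    split_ifs with h
    · rw [h, pow_zero, Ideal.one_eq_top]
      exact Submodule.mem_top
    · exact zero_mem _
  | add p q hp hq =>
    rw [map_add, coeff_add]
    exact add_mem (hp j) (hq j)
  | mul_X p i hp =>
    rw [map_mul, MvPolynomial.eval₂Hom_X', ← mul_assoc]
    rcases j with _ | j
    · rw [pow_zero, Ideal.one_eq_top]
      exact Submodule.mem_top
    · rw [coeff_mul_X, coeff_mul_C, pow_succ]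
      exact Ideal.mul_mem_mul (hp j) (hI i)

theorem Chart2_not_dvd {P : F[X][X]} {j D : ℕ} (hj : j < D) (hP : P.coeff j ≠ 0) :
    ∃ N, 0 < N ∧ ¬ (X : F[X]) ^ (N * D) ∣ P.eval (X ^ N) := by
  have hP0 : P ≠ 0 := fun h => hP (by rw [h, coeff_zero])
  obtain ⟨q, h1, h2⟩ := exists_eq_pow_rootMultiplicity_mul_and_not_dvd P hP0 0
  rw [map_zero, sub_zero] at h1 h2
  generalize P.rootMultiplicity 0 = m at h1
  have hm : m ≤ j := by
    by_contra h
    exact hP (X_pow_dvd_iff.1 ⟨q, h1⟩ j (not_le.1 h))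
  have hq : q.eval 0 ≠ 0 := by rwa [← coeff_zero_eq_eval_zero, Ne, ← X_dvd_iff]
  refine ⟨(q.eval 0).natDegree + 1, Nat.succ_pos _, fun h => ?_⟩
  generalize hN : (q.eval 0).natDegree + 1 = N at h
  have h3 : (X : F[X]) ^ (N * m) * X ^ N ∣ X ^ (N * m) * q.eval (X ^ N) := by
    rw [← pow_add, ← Nat.mul_succ]
    refine (pow_dvd_pow X (Nat.mul_le_mul_left N (show m + 1 ≤ D by omega))).trans ?_
    rwa [h1, eval_mul, eval_pow, eval_X, ← pow_mul] at h
  have h4 := (mul_dvd_mul_iff_left (pow_ne_zero _ X_ne_zero)).1 h3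
  have h5 := sub_dvd_eval_sub (X ^ N) 0 q
  rw [sub_zero] at h5
  have h6 := natDegree_le_of_dvd ((dvd_sub_right h4).1 h5) hq
  rw [natDegree_X_pow] at h6
  omega

/-- A curve along which `p` vanishes to small order. -/
theorem Chart2_subst {σ : Type} {π : MvPolynomial σ F →+* F}
    (hC : ∀ a, π (MvPolynomial.C a) = a) (hX : ∀ i, π (MvPolynomial.X i) = 0)
    {p : MvPolynomial σ F} {D : ℕ} (hp : p ∉ RingHom.ker π ^ D) :
    ∃ (φ : MvPolynomial σ F →+* F[X]) (N : ℕ), 0 < N ∧ (∀ a, φ (MvPolynomial.C a) = C a) ∧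
      (RingHom.ker π).map φ ≤ Ideal.span {X ^ N} ∧ (evalRingHom 0).comp φ = π ∧
      ¬ (X : F[X]) ^ (N * D) ∣ φ p := by
  obtain ⟨ψ, hψ⟩ : ∃ ψ : MvPolynomial σ F →+* (MvPolynomial σ F)[X],
      ψ = MvPolynomial.eval₂Hom ((C : MvPolynomial σ F →+* _).comp MvPolynomial.C)
        fun i => C (MvPolynomial.X i) * X := ⟨_, rfl⟩
  have hψC : ∀ a, ψ (MvPolynomial.C a) = C (MvPolynomial.C a) := fun a => by
    rw [hψ, MvPolynomial.eval₂Hom_C, RingHom.comp_apply]
  have hψX : ∀ i, ψ (MvPolynomial.X i) = C (MvPolynomial.X i) * X := fun i => by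
    rw [hψ, MvPolynomial.eval₂Hom_X']
  have h1 : (evalRingHom 1).comp ψ = RingHom.id _ := by
    refine MvPolynomial.ringHom_ext (fun a => ?_) fun i => ?_
    · simp [hψC]
    · simp [hψX]
  obtain ⟨j, hj, hc⟩ : ∃ j < D, (ψ p).coeff j ≠ 0 := by
    by_contra hn
    push Not at hn
    refine hp ?_
    have h2 : p = (ψ p).eval 1 := (RingHom.congr_fun h1 p).symm
    rw [h2, eval_eq_sum_range]
    refine sum_mem fun i _ => Ideal.mul_mem_right _ _ ?_
    rcases lt_or_ge i D with h | h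
    · rw [hn i h]
      exact zero_mem _
    · refine Ideal.pow_le_pow_right h ?_
      rw [hψ]
      exact Chart2_coeff hX p i
  obtain ⟨r, hr⟩ : ∃ r : σ → F[X], MvPolynomial.eval₂Hom C r ((ψ p).coeff j) ≠ 0 := by
    by_contra hn
    push Not at hn
    refine hc (MvPolynomial.map_injective (C : F →+* F[X]) C_injective ?_)
    rw [map_zero]
    refine MvPolynomial.funext fun r => ?_
    rw [MvPolynomial.eval_map, map_zero]
    exact hn r
  obtain ⟨N, hN, hd⟩ := Chart2_not_dvd (P := (ψ p).map (MvPolynomial.eval₂Hom C r)) hj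
    (by rwa [coeff_map])
  obtain ⟨φ, hφ⟩ : ∃ φ : MvPolynomial σ F →+* F[X], φ = (evalRingHom (X ^ N)).comp
      ((mapRingHom (MvPolynomial.eval₂Hom C r)).comp ψ) := ⟨_, rfl⟩
  have hφC : ∀ a, φ (MvPolynomial.C a) = C a := fun a => by simp [hφ, hψC]
  have hφX : ∀ i, φ (MvPolynomial.X i) = r i * X ^ N := fun i => by simp [hφ, hψX]
  refine ⟨φ, N, hN, hφC, ?_, ?_, by rw [hφ]; exact hd⟩
  · have h2 : (Ideal.Quotient.mk (Ideal.span {(X : F[X]) ^ N})).comp φ =
        ((Ideal.Quotient.mk (Ideal.span {(X : F[X]) ^ N})).comp C).comp π := by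
      refine MvPolynomial.ringHom_ext (fun a => ?_) fun i => ?_
      · simp only [RingHom.comp_apply, hφC, hC]
      · simp only [RingHom.comp_apply, hφX, hX, map_zero]
        exact Ideal.Quotient.eq_zero_iff_mem.2
          (Ideal.mul_mem_left _ _ (Ideal.mem_span_singleton_self _))
    rw [Ideal.map_le_iff_le_comap]
    intro q hq
    have h3 := RingHom.congr_fun h2 q
    simp only [RingHom.comp_apply, RingHom.mem_ker.1 hq, map_zero] at h3
    exact Ideal.mem_comap.2 (Ideal.Quotient.eq_zero_iff_mem.1 h3)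
  · refine MvPolynomial.ringHom_ext (fun a => ?_) fun i => ?_
    · simp [hφC, hC]
    · simp [hφX, hX, hN.ne']

theorem curve_through {σ : Type} [Finite σ] {ι : F →+* E} {x : σ → E} (hx : EtN ι x) {e : E →+* F}
    (he : e.comp ι = RingHom.id F) (h0 : ∀ i, e (x i) = 0) {f : E}
    (hf : ∀ s, e s ≠ 0 → s * f ≠ 0) :
    ∃ (E0 : Type u) (_ : CommRing E0) (g : E →+* E0) (u : E0) (e0 : E0 →+* F) (k : ℕ),
      Et1 (g.comp ι) u ∧ e0.comp g = e ∧ e0 u = 0 ∧ g f ∣ u ^ k := by
  haveI : IsNoetherianRing E := noeth_of_finiteType hx.ep.finiteType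
  obtain ⟨ε, hε⟩ : ∃ ε : MvPolynomial σ F →+* E, ε = MvPolynomial.eval₂Hom ι x := ⟨_, rfl⟩
  have hεe : ε.Etale := hε ▸ hx
  have hεC : ∀ a, ε (MvPolynomial.C a) = ι a := fun a => by rw [hε, MvPolynomial.eval₂Hom_C]
  have hC : ∀ a, e.comp ε (MvPolynomial.C a) = a := fun a => by
    rw [RingHom.comp_apply, hεC]
    exact RingHom.congr_fun he a
  have hX : ∀ i, e.comp ε (MvPolynomial.X i) = 0 := fun i => by
    rw [RingHom.comp_apply, hε, MvPolynomial.eval₂Hom_X', h0]
  obtain ⟨t, E', _, l, e', ht, hl, he', hE, -⟩ :=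
    exists_ee_of_section hεe (π := e.comp ε) (fun a => ⟨_, hC a⟩) e rfl
  generalize hn : RingHom.ker (e.comp ε) = 𝔫 at hE
  obtain ⟨D, hD⟩ : ∃ D : ℕ, ∀ s, e s ≠ 0 → s * f ∉ 𝔫.map ε ^ D := by
    by_contra hc
    push Not at hc
    obtain ⟨s, hs, h1⟩ := Chart2_krull e (I := 𝔫.map ε)
      (Ideal.map_le_iff_le_comap.2 fun q hq => by rw [← hn] at hq; exact hq) hc
    exact hf s hs h1
  have hD0 : D ≠ 0 := by
    rintro rfl
    exact hD 1 (by simp) (by simp)
  have hE1 : EE (𝔫 ^ D) (l.comp ε) :=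
    hE.of_radical (by rw [Ideal.radical_pow _ hD0]; exact Ideal.le_radical)
  obtain ⟨p, hp⟩ := hE1.surj (l f)
  have hp1 : p ∉ 𝔫 ^ D := fun h => by
    have h1 := add_mem hp (Ideal.mem_map_of_mem (l.comp ε) h)
    rw [sub_add_cancel, ← Ideal.map_map, hl.mem_map_iff, Ideal.map_pow] at h1
    obtain ⟨n, h2⟩ := h1
    exact hD _ (by simp [ht]) h2
  obtain ⟨φ, N, hN, hφC, hφ, hφ0, hd⟩ := Chart2_subst hC hX (D := D) (hn ▸ hp1)
  rw [hn] at hφ
  obtain ⟨E1, _, i, j, hPO⟩ := exists_isPO (l.comp ε) φ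
  obtain ⟨e1, a1, a2⟩ := hPO.exists_lift e' (evalRingHom 0)
    (by rw [hφ0, ← RingHom.comp_assoc, he'])
  have hle : (𝔫 ^ D).map φ ≤ Ideal.span {X ^ (N * D)} := by
    rw [Ideal.map_pow, pow_mul, ← Ideal.span_singleton_pow]
    exact Ideal.pow_right_mono hφ D
  have hE2 : EE (Ideal.span {X ^ (N * D)}) j := (hPO.ee hE1).mono hle
  have hjC : j.comp C = (i.comp l).comp ι := by
    ext a
    have h1 := hPO.comm_apply (MvPolynomial.C a)
    rw [hφC, RingHom.comp_apply, hεC] at h1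
    exact h1.symm
  have hu : Et1 ((i.comp l).comp ι) (j X) := hjC ▸ et1_of_etale hE2.etale
  have hej : ∀ q, e1 (j q) = q.eval 0 := fun q => RingHom.congr_fun a2 q
  have he1 : e1.comp (i.comp l) = e := by rw [← RingHom.comp_assoc, a1, he']
  have hu0 : e1 (j X) = 0 := by rw [hej, eval_X]
  rcases dvr_of_curve hu (e := e1) (by rw [← RingHom.comp_assoc, he1, he]) hu0 (i (l f)) with
    ⟨s, hs, h1⟩ | ⟨k, s, w, -, hw, h1⟩
  · exfalso
    have h2 : i (l f) - j (φ p) ∈ (Ideal.span {X ^ (N * D)}).map j := by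
      have h3 := Ideal.mem_map_of_mem i hp
      rw [map_sub, hPO.comm_apply, Ideal.map_map, hPO.comm, ← Ideal.map_map] at h3
      exact Ideal.map_mono hle h3
    obtain ⟨q, hq⟩ := hE2.surj s
    have h3 : j (q * φ p) ∈ (Ideal.span {X ^ (N * D)}).map j := by
      have h4 : j (q * φ p) = -(s * (i (l f) - j (φ p))) - (s - j q) * j (φ p) := by
        rw [map_mul]
        linear_combination h1
      rw [h4]
      exact sub_mem (neg_mem (Ideal.mul_mem_left _ _ h2)) (Ideal.mul_mem_right _ _ hq)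
    have h4 : e1 (s - j q) = 0 := by
      have h5 : (Ideal.span {X ^ (N * D)}).map j ≤ RingHom.ker e1 := by
        rw [Ideal.map_span, Set.image_singleton, Ideal.span_le, Set.singleton_subset_iff]
        show e1 (j (X ^ (N * D))) = 0
        rw [map_pow, map_pow, hu0, zero_pow (Nat.mul_ne_zero hN.ne' hD0)]
      exact h5 hq
    rw [map_sub, hej, sub_eq_zero] at h4
    refine hd (Polynomial.prime_X.pow_dvd_of_dvd_mul_left _ (a := q) ?_
      (Ideal.mem_span_singleton.1 (hE2.inj _ h3)))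
    rw [X_dvd_iff, coeff_zero_eq_eval_zero, ← h4]
    exact hs
  · obtain ⟨E0, _, l1, hl1⟩ := exists_isAway w
    obtain ⟨e0, he0⟩ := hl1.exists_lift e1 (IsUnit.mk0 _ hw)
    refine ⟨E0, inferInstance, l1.comp (i.comp l), l1 (j X), e0, k, hu.comp hl1.etale, ?_, ?_, ?_⟩
    · rw [← RingHom.comp_assoc, he0, he1]
    · exact (RingHom.congr_fun he0 _).trans hu0
    · refine (hl1.isUnit.dvd_mul_left).1 ⟨l1 s, ?_⟩
      rw [← map_pow, ← map_mul, ← h1, map_mul, mul_comm]
      rfl

end KEW
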