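import Pool.Agent.P.MP_6277db_ag.KEW.CA.Pres
import Pool.Agent.P.MP_6277db_ag.KEW.CA.EEApi

/-!
KEW L4/L7: coordinates at a point of a smooth variety over a perfect field.
Hints.  `etale_over_loc`: `etale_presentation`, clear denominators of the coefficients, `etN_of_jacobian`.
`chart_exists`: `F` is essentially of finite type over the perfect field `k`, so formally smooth (RingTheory/Smooth/Field).
With `O` the local ring at `p = ker r`, the sequence `0 → m/m^2 → F ⊗ Ω[O⁄k] → Ω[F⁄k] → 0` is exact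
(`KaehlerDifferential.exact_kerCotangentToTensor_mapBaseChange`, `Algebra.FormallySmooth.kerCotangentToTensor_injective_iff`).
Extend `t` to a basis `x` of `m/m^2` taken in `p`; choose among the coordinates `z` of `B` a subfamily `w` whose
differentials are a basis of `Ω[F⁄k]`.  Then `d w, d x` is a basis of `F ⊗ Ω`, so `jac_core` (after a bijection of index
types) shows that `B1 = B[1/d]` is etale over `k[w, x]`, `r d ≠ 0`.  `B1/(x)` is etale, so flat, over `k[w]` and its local ring at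
`p` is `F` (Nakayama), hence the `r w` are algebraically independent and `F` is a localisation of an etale
`k(w)`-algebra, so finite separable, so etale over `k(w)` (RingTheory/Etale/Field).  `B0` = localisation of `B1` at the
nonzero polynomials in `w` (etale over `k(w)[x]`; a composite of localisations is the localisation at the preimage of
the units), `E = B0 ⊗_{k(w)} F`, `e = (r, id)`.
-/

namespace KEW

universe u

variable {k B B0 E F : Type u} [CommRing B] [CommRing B0] [CommRing E]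

theorem etale_over_loc {l : B →+* B0} {M : Submonoid B} (hl : IsLoc l M) {ε : B0 →+* E}
    (hε : ε.Etale) :
    ∃ (B' : Type u) (_ : CommRing B') (ε' : B →+* B') (l' : B' →+* E), ε'.Etale ∧ IsPO ε' l l' ε := by
  classical
  obtain ⟨n, x, f, hsurj, hker, hdet⟩ := etale_presentation hε
  have hP : IsLoc (MvPolynomial.map (σ := Fin n) l) (M.map (MvPolynomial.C : B →+* _)) :=
    (isPO_mvPolynomial (Fin n) l).flip.isLoc hl
  obtain ⟨hu, -, -⟩ := isLoc_iff.mp hl
  obtain ⟨-, hs, -⟩ := isLoc_iff.mp hP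
  have hs' : ∀ i, ∃ (g : MvPolynomial (Fin n) B) (m : B), m ∈ M ∧
      MvPolynomial.map l g = MvPolynomial.C (l m) * f i := by
    intro i
    obtain ⟨g, y, ⟨m, hm, rfl⟩, h⟩ := hs (f i)
    exact ⟨g, m, hm, by rw [← h, MvPolynomial.map_C, mul_comm]⟩
  choose g m hm hg using hs'
  obtain ⟨B1, _, l1, hl1⟩ :=
    exists_isAway (Matrix.det (Matrix.of fun i j => MvPolynomial.pderiv j (g i)))
  have het := (etN_of_jacobian g hl1).etale_quotient
  set θ' : MvPolynomial (Fin n) B0 →+* E := MvPolynomial.eval₂Hom ε x with hθ'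
  have hθC : ∀ b, θ' (MvPolynomial.C b) = ε b := fun b => by simp [hθ']
  have hf0 : ∀ i, θ' (f i) = 0 := fun i => by
    rw [← RingHom.mem_ker, hker]
    exact Ideal.subset_span ⟨i, rfl⟩
  have hunit : IsUnit ((θ'.comp (MvPolynomial.map l))
      (Matrix.det (Matrix.of fun i j => MvPolynomial.pderiv j (g i)))) := by
    rw [RingHom.comp_apply, RingHom.map_det]
    have : (MvPolynomial.map l).mapMatrix (Matrix.of fun i j => MvPolynomial.pderiv j (g i)) =
        Matrix.of fun i j => MvPolynomial.C (l (m i)) *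
          (Matrix.of fun i j => MvPolynomial.pderiv j (f i)) i j := by
      ext1 i j
      simp only [RingHom.mapMatrix_apply, Matrix.map_apply, Matrix.of_apply]
      rw [← MvPolynomial.pderiv_map, hg, MvPolynomial.pderiv_C_mul]
    rw [this, Matrix.det_mul_column, map_mul, map_prod]
    refine IsUnit.mul ?_ hdet
    refine IsUnit.prod_iff.mpr fun i _ => ?_
    rw [hθC]
    exact (hu _ (hm i)).map ε
  obtain ⟨θ1, hθ1⟩ := hl1.exists_lift _ hunit
  have hθ1' : ∀ p, θ1 (l1 p) = θ' (MvPolynomial.map l p) := fun p => RingHom.congr_fun hθ1 p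
  have hkill : ∀ a ∈ Ideal.span (Set.range fun i => l1 (g i)), θ1 a = 0 := by
    intro a ha
    have : Ideal.span (Set.range fun i => l1 (g i)) ≤ RingHom.ker θ1 := by
      rw [Ideal.span_le]
      rintro _ ⟨i, rfl⟩
      change θ1 (l1 (g i)) = 0
      rw [hθ1', hg, map_mul, hf0, mul_zero]
    exact this ha
  refine ⟨B1 ⧸ Ideal.span (Set.range fun i => l1 (g i)), inferInstance, _,
    Ideal.Quotient.lift _ θ1 hkill, het, IsPO.of_universal ?_ ?_ ?_⟩
  · ext b
    simp only [RingHom.comp_apply, Ideal.Quotient.lift_mk]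
    rw [hθ1', MvPolynomial.map_C, hθC]
  · intro Z _ kk ll w
    set φ : MvPolynomial (Fin n) B0 →+* Z := MvPolynomial.eval₂Hom ll
      (fun j => kk (Ideal.Quotient.mk _ (l1 (MvPolynomial.X j)))) with hφ
    have h1 : φ.comp (MvPolynomial.map l) = (kk.comp (Ideal.Quotient.mk _)).comp l1 := by
      refine MvPolynomial.ringHom_ext (fun b => ?_) (fun j => ?_)
      · have := RingHom.congr_fun w b
        simp only [RingHom.comp_apply] at this ⊢
        rw [this, MvPolynomial.map_C, hφ, MvPolynomial.eval₂Hom_C]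
      · simp only [RingHom.comp_apply]
        rw [MvPolynomial.map_X, hφ, MvPolynomial.eval₂Hom_X']
    have h2 : RingHom.ker θ' ≤ RingHom.ker φ := by
      rw [hker, Ideal.span_le]
      rintro _ ⟨i, rfl⟩
      change φ (f i) = 0
      have h3 := RingHom.congr_fun h1 (g i)
      simp only [RingHom.comp_apply] at h3
      have h5 : Ideal.Quotient.mk (Ideal.span (Set.range fun i => l1 (g i))) (l1 (g i)) = 0 :=
        Ideal.Quotient.eq_zero_iff_mem.mpr (Ideal.subset_span ⟨i, rfl⟩)
      rw [hg, map_mul, h5, map_zero, hφ, MvPolynomial.eval₂Hom_C] at h3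
      exact ((hu _ (hm i)).map ll).mul_right_eq_zero.mp h3
    have h4 : (θ'.liftOfSurjective hsurj ⟨φ, h2⟩).comp θ' = φ :=
      RingHom.liftOfSurjective_comp θ' hsurj ⟨φ, h2⟩
    refine ⟨θ'.liftOfSurjective hsurj ⟨φ, h2⟩, ?_, ?_⟩
    · refine Ideal.Quotient.ringHom_ext (hl1.hom_ext ?_)
      rw [← h1]
      refine RingHom.ext fun p => ?_
      simp only [RingHom.comp_apply, Ideal.Quotient.lift_mk]
      rw [hθ1']
      exact RingHom.congr_fun h4 _
    · ext b
      rw [RingHom.comp_apply, ← hθC]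
      exact (RingHom.congr_fun h4 _).trans (by rw [hφ, MvPolynomial.eval₂Hom_C])
  · intro Z _ d d' h1 h2
    have : d.comp θ' = d'.comp θ' := by
      refine MvPolynomial.ringHom_ext (fun b => ?_) (fun j => ?_)
      · simp only [RingHom.comp_apply, hθC]
        exact RingHom.congr_fun h2 b
      · have := RingHom.congr_fun h1 (Ideal.Quotient.mk _ (l1 (MvPolynomial.X j)))
        simp only [RingHom.comp_apply, Ideal.Quotient.lift_mk] at this ⊢
        rwa [hθ1', MvPolynomial.map_X] at this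
    ext y
    obtain ⟨p, rfl⟩ := hsurj y
    exact RingHom.congr_fun this p

/-- A composite of localisations is a localisation. -/
theorem Coord_isLoc_comp {l : B →+* B0} {M : Submonoid B} (h : IsLoc l M) {l' : B0 →+* E}
    {N : Submonoid B0} (h' : IsLoc l' N) : ∃ M' : Submonoid B, IsLoc (l'.comp l) M' := by
  obtain ⟨hu, hs, hz⟩ := isLoc_iff.mp h
  obtain ⟨hu', hs', hz'⟩ := isLoc_iff.mp h'
  have key : ∀ y ∈ N, ∀ m ∈ M, ∀ a, y * l m = l a → ∀ m' ∈ M, IsUnit (l' (l (m' * a))) := by
    intro y hy m hm a e m' hm'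
    rw [map_mul, map_mul, ← e, map_mul]
    exact ((hu _ hm').map l').mul ((hu' _ hy).mul ((hu _ hm).map l'))
  refine ⟨(IsUnit.submonoid E).comap (l'.comp l), isLoc_iff.mpr ⟨fun y hy => hy, fun z => ?_,
    fun x hx => ?_⟩⟩
  · obtain ⟨x, y, hy, e⟩ := hs' z
    obtain ⟨a1, m1, hm1, e1⟩ := hs y
    obtain ⟨a2, m2, hm2, e2⟩ := hs x
    refine ⟨a2 * m1, m2 * a1, key y hy m1 hm1 a1 e1 m2 hm2, ?_⟩
    simp only [RingHom.comp_apply, map_mul, ← e1, ← e2, ← e]
    ring
  · obtain ⟨y, hy, e⟩ := hz' _ hx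
    obtain ⟨a, m, hm, e1⟩ := hs y
    have : l (a * x) = 0 := by
      rw [map_mul, ← e1, mul_right_comm, e, zero_mul]
    obtain ⟨m', hm', e2⟩ := hz _ this
    exact ⟨m' * a, key y hy m hm a e1 m' hm', by rw [mul_assoc, e2]⟩

/-- The local ring at the kernel of `r`. -/
theorem Coord_locPrime [Field F] (r : B →+* F)
    (hr : ∀ y : F, ∃ a b : B, r b ≠ 0 ∧ y * r b = r a) :
    ∃ (O : Type u) (_ : CommRing O) (l : B →+* O) (r' : O →+* F) (M : Submonoid B),
      IsLoc l M ∧ r'.comp l = r ∧ Function.Surjective r' ∧ ∀ y ∈ M, r y ≠ 0 := by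
  obtain ⟨O, _, l, hl⟩ := exists_isLoc ((IsUnit.submonoid F).comap r)
  obtain ⟨r', hr'⟩ := hl.exists_lift r (fun y hy => hy)
  refine ⟨O, inferInstance, l, r', _, hl, hr', fun y => ?_, fun y hy => IsUnit.ne_zero hy⟩
  obtain ⟨a, b, hb, e⟩ := hr y
  obtain ⟨c, hc⟩ := ((isLoc_iff.mp hl).1 b (IsUnit.mk0 _ hb)).exists_right_inv
  have h1 : ∀ z, r' (l z) = r z := fun z => RingHom.congr_fun hr' z
  refine ⟨l a * c, ?_⟩
  rw [map_mul, h1, ← e, ← h1 b, mul_assoc, ← map_mul, hc, map_one, mul_one]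

theorem Coord_ker_loc [CommRing F] {l : B →+* B0} {M : Submonoid B} (h : IsLoc l M)
    (r1 : B0 →+* F) : RingHom.ker r1 ≤ (RingHom.ker (r1.comp l)).map l := by
  intro y hy
  obtain ⟨hu, hs, -⟩ := isLoc_iff.mp h
  obtain ⟨a, m, hm, e⟩ := hs y
  obtain ⟨c, hc⟩ := (hu m hm).exists_right_inv
  have : y = l a * c := by rw [← e, mul_assoc, hc, mul_one]
  rw [this]
  refine Ideal.mul_mem_right _ _ (Ideal.mem_map_of_mem _ ?_)
  rw [RingHom.mem_ker] at hy ⊢
  rw [RingHom.comp_apply, ← e, map_mul, hy, zero_mul]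

/-- Ring maps which kill `ker r` and invert its complement factor through `F`. -/
theorem Coord_factor [Field F] (r : B →+* F)
    (hr : ∀ y : F, ∃ a b : B, r b ≠ 0 ∧ y * r b = r a) (Φ : B →+* E)
    (h0 : ∀ y, r y = 0 → Φ y = 0) (h1 : ∀ y, r y ≠ 0 → IsUnit (Φ y)) :
    ∃ Ψ : F →+* E, Ψ.comp r = Φ := by
  obtain ⟨O, _, l, r', M, hl, hr', hs, hM⟩ := Coord_locPrime r hr
  obtain ⟨Φ', hΦ'⟩ := hl.exists_lift Φ (fun y hy => h1 y (hM y hy))
  have hk : RingHom.ker r' ≤ RingHom.ker Φ' := by
    refine (Coord_ker_loc hl r').trans ?_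
    rw [Ideal.map_le_iff_le_comap, hr']
    intro y hy
    change Φ' (l y) = 0
    exact (RingHom.congr_fun hΦ' y).trans (h0 y hy)
  refine ⟨r'.liftOfSurjective hs ⟨Φ', hk⟩, ?_⟩
  rw [← hr', ← RingHom.comp_assoc, RingHom.liftOfSurjective_comp, hΦ']

/-- Independence in the cotangent space passes to localisations. -/
theorem Coord_hind_loc [Field F] {l : B →+* B0} {M : Submonoid B} (h : IsLoc l M)
    {r : B →+* F} {r1 : B0 →+* F} (w : r1.comp l = r) {ι0 : Type} [Fintype ι0] {t : ι0 → B}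
    (hind : ∀ c : ι0 → B, ∑ i, c i * t i ∈ RingHom.ker r ^ 2 → ∀ i, r (c i) = 0)
    (c : ι0 → B0) (hc : ∑ i, c i * l (t i) ∈ RingHom.ker r1 ^ 2) (i : ι0) : r1 (c i) = 0 := by
  classical
  obtain ⟨hu, hs, -⟩ := isLoc_iff.mp h
  have h1 : ∀ z, r1 (l z) = r z := fun z => RingHom.congr_fun w z
  have hM : ∀ y ∈ M, r y ≠ 0 := fun y hy => by
    rw [← h1]
    exact ((hu y hy).map r1).ne_zero
  choose a m hm e using fun i => hs (c i)
  have e' : ∀ i, c i * l (∏ j, m j) = l (a i * ∏ j ∈ Finset.univ.erase i, m j) := by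
    intro i
    rw [← Finset.mul_prod_erase _ _ (Finset.mem_univ i), map_mul, map_mul, ← mul_assoc, e]
  have h2 : l (∑ i, (a i * ∏ j ∈ Finset.univ.erase i, m j) * t i) ∈ (RingHom.ker r ^ 2).map l := by
    have : l (∑ i, (a i * ∏ j ∈ Finset.univ.erase i, m j) * t i) =
        l (∏ j, m j) * ∑ i, c i * l (t i) := by
      rw [map_sum, Finset.mul_sum]
      refine Finset.sum_congr rfl fun i _ => ?_
      rw [map_mul, ← e']
      ring
    rw [this, Ideal.map_pow]
    refine Ideal.mul_mem_left _ _ (Ideal.pow_right_mono ?_ 2 hc)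
    rw [← w]
    exact Coord_ker_loc h r1
  obtain ⟨y, hy, h3⟩ := (h.mem_map_iff _ _).mp h2
  rw [Finset.mul_sum] at h3
  simp only [← mul_assoc] at h3
  have h4 := hind _ h3 i
  rw [mul_assoc, map_mul, ← h1 (a i * _), ← e', map_mul, h1] at h4
  have h5 := (mul_eq_zero.mp h4).resolve_left (hM y hy)
  exact (mul_eq_zero.mp h5).resolve_right (hM _ (prod_mem fun j _ => hm j))

/-- Partial derivatives with respect to etale coordinates. -/
theorem Coord_partial [CommRing k] {β : k →+* B} {n : ℕ} {z : Fin n → B} (h : EtN β z) :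
    ∃ P : B →+ (Fin n → B), (∀ a b, P (a * b) = a • P b + b • P a) ∧ (∀ c, P (β c) = 0) ∧
      (∀ i, P (z i) = Pi.single i 1) ∧
      (∀ (Q : Type u) [CommRing Q] (τ : B →+* Q) (δ : B →+ Q),
        (∀ a b, δ (a * b) = τ a * δ b + τ b * δ a) → (∀ c, δ (β c) = 0) →
        ∀ b, δ b = ∑ j, τ (P b j) * δ (z j)) ∧
      ∀ (f : Fin n → B) (B1 : Type u) [CommRing B1] (l : B →+* B1),
        IsAway l (Matrix.of fun i j => P (f i) j).det → EtN (l.comp β) (fun i => l (f i)) := by
  classical
  let := β.toAlgebra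
  have h' : EtN (algebraMap k B) z := h
  obtain ⟨b, hb⟩ := h'.exists_basis
  have hD : ∀ y, KaehlerDifferential.D k B y =
      ∑ j, b.equivFun (KaehlerDifferential.D k B y) j • KaehlerDifferential.D k B (z j) := by
    intro y
    conv_lhs => rw [← b.sum_equivFun (KaehlerDifferential.D k B y)]
    simp only [hb]
  refine ⟨b.equivFun.toLinearMap.toAddMonoidHom.comp
    (KaehlerDifferential.D k B).toLinearMap.toAddMonoidHom, fun x y => ?_, fun c => ?_,
    fun i => ?_, fun Q _ τ δ h1 h2 y => ?_, fun f B1 _ l hl => ?_⟩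
  · change b.equivFun (KaehlerDifferential.D k B (x * y)) =
      x • b.equivFun (KaehlerDifferential.D k B y) + y • b.equivFun (KaehlerDifferential.D k B x)
    rw [Derivation.leibniz, map_add, map_smul, map_smul]
  · change b.equivFun (KaehlerDifferential.D k B (algebraMap k B c)) = 0
    rw [Derivation.map_algebraMap, map_zero]
  · change b.equivFun (KaehlerDifferential.D k B (z i)) = _
    rw [← hb]
    ext j
    rw [Module.Basis.equivFun_self, Pi.single_apply]
    simp only [eq_comm]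
  · let := τ.toAlgebra
    let := (τ.comp β).toAlgebra
    have : IsScalarTower k B Q := IsScalarTower.of_algebraMap_eq fun _ => rfl
    let D : Derivation k B Q := Derivation.mk'
      { toFun := δ
        map_add' := δ.map_add
        map_smul' := fun c x => by
          rw [Algebra.smul_def, Algebra.smul_def]
          change δ (β c * x) = τ (β c) * δ x
          rw [h1, h2, mul_zero, add_zero] }
      (fun x y => h1 x y)
    have h3 : ∀ x, D.liftKaehlerDifferential (KaehlerDifferential.D k B x) = δ x :=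
      fun x => D.liftKaehlerDifferential_comp_D x
    rw [← h3 y, hD y, map_sum]
    refine Finset.sum_congr rfl fun j _ => ?_
    rw [map_smul, h3]
    rfl
  · exact jac_core h' _ (fun i => hD (f i)) hl dvd_rfl

theorem Coord_nilp [CommRing F] (π : E →+* F) (h : ∀ a b, π a = 0 → π b = 0 → a * b = 0) :
    IsNilpotent (RingHom.ker π) := by
  refine ⟨2, ?_⟩
  rw [pow_two, Ideal.zero_eq_bot, eq_bot_iff, Ideal.mul_le]
  exact fun a ha b hb => h a b ha hb

/-- Lifting along square zero thickenings, for an etale map after a localisation. -/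
theorem Coord_fs [CommRing F] {lam : B →+* B0} {M : Submonoid B} (hl : IsLoc lam M)
    {κ : B0 →+* F} (hκ : κ.Etale) (π : E →+* F) (g : B →+* E) (hπ : Function.Surjective π)
    (hsq : ∀ a b, π a = 0 → π b = 0 → a * b = 0) (w : π.comp g = κ.comp lam) :
    ∃ σ : F →+* E, π.comp σ = RingHom.id F ∧ σ.comp (κ.comp lam) = g := by
  have hn := Coord_nilp π hsq
  let := lam.toAlgebra
  let := κ.toAlgebra
  let := (κ.comp lam).toAlgebra
  let := g.toAlgebra
  have : IsScalarTower B B0 F := IsScalarTower.of_algebraMap_eq fun _ => rfl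
  have : IsLocalization M B0 := hl
  have : Algebra.Etale B0 F := hκ
  have : Algebra.FormallySmooth B B0 := .of_isLocalization M
  have : Algebra.FormallySmooth B F := .comp B B0 F
  let π' : E →ₐ[B] F := { π with commutes' := fun b => RingHom.congr_fun w b }
  let σ := Algebra.FormallySmooth.liftOfSurjective (AlgHom.id B F) π' hπ hn
  refine ⟨σ, RingHom.ext fun y => ?_, RingHom.ext fun b => σ.commutes b⟩
  exact Algebra.FormallySmooth.liftOfSurjective_apply (AlgHom.id B F) π' hπ hn y

theorem Coord_fu [CommRing F] {lam : B →+* B0} {M : Submonoid B} (hl : IsLoc lam M)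
    {κ : B0 →+* F} (hκ : κ.Etale) (π : E →+* F) (hsq : ∀ a b, π a = 0 → π b = 0 → a * b = 0)
    (σ σ' : F →+* E) (w1 : π.comp σ = π.comp σ')
    (w2 : σ.comp (κ.comp lam) = σ'.comp (κ.comp lam)) : σ = σ' := by
  have w3 : σ.comp κ = σ'.comp κ := hl.hom_ext w2
  let := κ.toAlgebra
  let := (σ.comp κ).toAlgebra
  have : Algebra.Etale B0 F := hκ
  let s : F →ₐ[B0] E := { σ with commutes' := fun _ => rfl }
  let s' : F →ₐ[B0] E := { σ' with commutes' := fun b => (RingHom.congr_fun w3 b).symm }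
  have : s = s' := Algebra.FormallyUnramified.lift_unique_of_ringHom π (Coord_nilp π hsq) s s' w1
  exact RingHom.ext fun y => AlgHom.congr_fun this y

/-- A separating transcendence basis. -/
theorem Coord_field [Field k] [PerfectField k] [Field F] {β : k →+* B} (hβ : β.FiniteType)
    (r : B →+* F) (hr : ∀ y : F, ∃ a b : B, r b ≠ 0 ∧ y * r b = r a) :
    ∃ (m : ℕ) (s : Fin m → F) (K0 : Type u) (_ : CommRing K0)
      (lam : MvPolynomial (Fin m) k →+* K0) (κ : K0 →+* F) (M : Submonoid (MvPolynomial (Fin m) k)),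
      IsLoc lam M ∧ κ.Etale ∧ κ.comp lam = MvPolynomial.eval₂Hom (r.comp β) s := by
  classical
  let := β.toAlgebra
  let := (r.comp β).toAlgebra
  have : Algebra.FiniteType k B := hβ
  let r' : B →ₐ[k] F := { r with commutes' := fun _ => rfl }
  have : Algebra.EssFiniteType k F := by
    obtain ⟨T, hT⟩ := Algebra.FiniteType.out (R := k) (A := B)
    have hm : ∀ b, r b ∈ Algebra.adjoin k ((T.image r' : Finset F) : Set F) := by
      intro b
      rw [Finset.coe_image, Algebra.adjoin_image, hT]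
      exact ⟨b, trivial, rfl⟩
    refine (Algebra.essFiniteType_iff k F).mpr ⟨T.image r', fun y => ?_⟩
    obtain ⟨a, b, hb, e⟩ := hr y
    exact ⟨r b, hm b, IsUnit.mk0 _ hb, e ▸ hm a⟩
  obtain ⟨S, hS, hsep⟩ := exists_isTranscendenceBasis_and_isSeparable_of_perfectField k F
  let s : Fin S.card → F := fun i => (S.equivFin.symm i : F)
  have hs : AlgebraicIndependent k s := hS.1.comp _ S.equivFin.symm.injective
  have hrange : Set.range s = (S : Set F) := by
    ext y
    constructor
    · rintro ⟨i, rfl⟩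
      exact (S.equivFin.symm i).2
    · intro hy
      exact ⟨S.equivFin ⟨y, hy⟩, by simp [s]⟩
  rw [← hrange] at hsep
  have hmem : ∀ p : MvPolynomial (Fin S.card) k,
      MvPolynomial.aeval s p ∈ IntermediateField.adjoin k (Set.range s) := fun p =>
    (IntermediateField.mem_adjoin_range_iff k s _).mpr ⟨p, 1, by simp⟩
  let lam : MvPolynomial (Fin S.card) k →+* IntermediateField.adjoin k (Set.range s) :=
    (MvPolynomial.aeval s : MvPolynomial (Fin S.card) k →ₐ[k] F).toRingHom.codRestrict _ hmem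
  have hlam : ∀ p, (lam p : F) = MvPolynomial.aeval s p := fun _ => rfl
  have hinj : ∀ p, lam p = 0 → p = 0 := fun p hp =>
    algebraicIndependent_iff.mp hs p (by rw [← hlam, hp]; rfl)
  refine ⟨S.card, s, IntermediateField.adjoin k (Set.range s), inferInstance, lam,
    algebraMap _ F, nonZeroDivisors _, isLoc_iff.mpr ⟨fun y hy => ?_, fun y => ?_, fun p hp => ?_⟩,
    ?_, ?_⟩
  · exact IsUnit.mk0 _ fun h => nonZeroDivisors.ne_zero hy (hinj y h)
  · obtain ⟨p, q, e⟩ := (IntermediateField.mem_adjoin_range_iff k s _).mp y.2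
    by_cases hq : q = 0
    · refine ⟨0, 1, one_mem _, Subtype.ext ?_⟩
      simp [e, hq]
    · refine ⟨p, q, mem_nonZeroDivisors_of_ne_zero hq, Subtype.ext ?_⟩
      have : MvPolynomial.aeval s q ≠ 0 := fun h => hq (algebraicIndependent_iff.mp hs q h)
      change (y : F) * MvPolynomial.aeval s q = MvPolynomial.aeval s p
      rw [e, div_mul_cancel₀ _ this]
  · exact ⟨1, one_mem _, by rw [hinj p hp, mul_zero]⟩
  · rw [RingHom.etale_algebraMap]
    have : Algebra.FormallyEtale (IntermediateField.adjoin k (Set.range s)) F :=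
      Algebra.FormallyEtale.of_isSeparable _ F
    have : Algebra.EssFiniteType (IntermediateField.adjoin k (Set.range s)) F :=
      .of_comp k _ F
    have : Module.Finite (IntermediateField.adjoin k (Set.range s)) F :=
      Algebra.finite_of_essFiniteType_of_isAlgebraic
    have : Algebra.FinitePresentation (IntermediateField.adjoin k (Set.range s)) F :=
      Algebra.FinitePresentation.of_finiteType.mp inferInstance
    exact ⟨inferInstance, inferInstance⟩
  · rfl

/-- Extension of an independent family by elements of a spanning set. -/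
theorem Coord_extend [Field F] {n : ℕ} {ι : Type} (v : ι → Fin n → F)
    (hv : LinearIndependent F v) (T : Set (Fin n → F))
    (hT : ⊤ ≤ Submodule.span F (Set.range v ∪ T)) :
    ∃ (n' : ℕ) (y : Fin n' → Fin n → F) (e : Fin n ≃ ι ⊕ Fin n'), (∀ j, y j ∈ T) ∧
      (Matrix.of fun i j => Sum.elim v y (e i) j).det ≠ 0 := by
  classical
  obtain ⟨b, hb1, hb2, hb3, hb4⟩ := exists_linearIndepOn_id_extension hv.linearIndepOn_id
    (Set.subset_union_left : Set.range v ⊆ Set.range v ∪ T)
  have hfin : b.Finite := hb4.finite_of_isNoetherian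
  have hfin' : (b \ Set.range v).Finite := hfin.subset Set.sdiff_subset
  obtain ⟨n', y, hy, hy'⟩ := hfin'.fin_param
  have hmem : ∀ j, y j ∈ b \ Set.range v := fun j => hy' ▸ Set.mem_range_self j
  have hinj : Function.Injective (Sum.elim v y) :=
    hv.injective.sumElim hy fun i j h => (hmem j).2 ⟨i, h⟩
  have hrange : Set.range (Sum.elim v y) = b := by
    rw [Set.Sum.elim_range, hy', Set.union_sdiff_cancel hb2]
  have hli : LinearIndependent F (Sum.elim v y) := by
    rw [← linearIndepOn_id_range_iff hinj, hrange]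
    exact hb4
  have hsp : ⊤ ≤ Submodule.span F (Set.range (Sum.elim v y)) := by
    rw [hrange]
    exact hT.trans (Submodule.span_le.mpr hb3)
  let e : Fin n ≃ ι ⊕ Fin n' := (Pi.basisFun F (Fin n)).indexEquiv (Module.Basis.mk hli hsp)
  refine ⟨n', y, e, fun j => ((hb1 (hmem j).1).resolve_left (hmem j).2), ?_⟩
  refine IsUnit.ne_zero ((Matrix.isUnit_iff_isUnit_det _).mp ?_)
  exact Matrix.linearIndependent_rows_iff_isUnit.mp (hli.comp e e.injective)

/-- The differentials of `w` and `t` are independent at the point. -/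
theorem Coord_indep [Field k] [Field F] {β : k →+* B} {n : ℕ} {z : Fin n → B} (r : B →+* F)
    (hr : ∀ y : F, ∃ a b : B, r b ≠ 0 ∧ y * r b = r a) (P : B →+ (Fin n → B))
    (hP : ∀ (Q : Type u) [CommRing Q] (τ : B →+* Q) (δ : B →+ Q),
      (∀ a b, δ (a * b) = τ a * δ b + τ b * δ a) → (∀ c, δ (β c) = 0) →
      ∀ b, δ b = ∑ j, τ (P b j) * δ (z j))
    {m : ℕ} (w : Fin m → B) {lam : MvPolynomial (Fin m) k →+* B0}
    {M : Submonoid (MvPolynomial (Fin m) k)} (hl : IsLoc lam M) {κ : B0 →+* F} (hκ : κ.Etale)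
    (hw : κ.comp lam = r.comp (MvPolynomial.eval₂Hom β w)) {ι0 : Type} [Fintype ι0] (t : ι0 → B)
    (ht : ∀ i, r (t i) = 0)
    (hind : ∀ c : ι0 → B, ∑ i, c i * t i ∈ RingHom.ker r ^ 2 → ∀ i, r (c i) = 0) :
    LinearIndependent F (fun (i : Fin m ⊕ ι0) j => r (P (Sum.elim w t i) j)) := by
  classical
  rw [Fintype.linearIndependent_iff]
  intro c hc
  have key : ∀ (Q : Type u) [CommRing Q] (ρ : F →+* Q) (δ : B →+ Q),
      (∀ a b, δ (a * b) = ρ (r a) * δ b + ρ (r b) * δ a) → (∀ c, δ (β c) = 0) →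
      ∑ i, ρ (c (Sum.inl i)) * δ (w i) + ∑ i, ρ (c (Sum.inr i)) * δ (t i) = 0 := by
    intro Q _ ρ δ h1 h2
    have h3 : ∀ b, δ b = ∑ j, ρ (r (P b j)) * δ (z j) := hP Q (ρ.comp r) δ h1 h2
    have h4 : ∑ i, ρ (c i) * δ (Sum.elim w t i) = 0 := by
      have h5 : ∀ i, ρ (c i) * δ (Sum.elim w t i) =
          ∑ j, ρ (c i * r (P (Sum.elim w t i) j)) * δ (z j) := by
        intro i
        rw [h3, Finset.mul_sum]
        exact Finset.sum_congr rfl fun j _ => by rw [map_mul, mul_assoc]
      rw [Finset.sum_congr rfl fun i _ => h5 i, Finset.sum_comm]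
      refine Finset.sum_eq_zero fun j _ => ?_
      have h6 := congr_fun hc j
      simp only [Finset.sum_apply, Pi.smul_apply, smul_eq_mul, Pi.zero_apply] at h6
      rw [← Finset.sum_mul, ← map_sum, h6, map_zero, zero_mul]
    rwa [Fintype.sum_sum_type] at h4
  have hwC : ∀ c, κ (lam (MvPolynomial.C c)) = r (β c) := fun c => by
    simpa using RingHom.congr_fun hw (MvPolynomial.C c)
  have hwX : ∀ i, κ (lam (MvPolynomial.X i)) = r (w i) := fun i => by
    simpa using RingHom.congr_fun hw (MvPolynomial.X i)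
  rintro (i0 | i0)
  · -- a derivation of `F` dual to the transcendence basis
    let π : TrivSqZeroExt F F →+* F := (TrivSqZeroExt.fstHom F F F).toRingHom
    have hπ : ∀ y, π y = y.fst := fun _ => rfl
    have hn : ∀ a b, π a = 0 → π b = 0 → a * b = 0 := by
      intro a b ha hb
      rw [hπ] at ha hb
      ext <;> simp [ha, hb]
    obtain ⟨σ, hσ1, hσ2⟩ := Coord_fs hl hκ π
      (MvPolynomial.eval₂Hom ((TrivSqZeroExt.inlHom F F).comp (r.comp β))
        (fun i => TrivSqZeroExt.inl (r (w i)) + TrivSqZeroExt.inr (if i = i0 then 1 else 0)))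
      (fun y => ⟨TrivSqZeroExt.inl y, rfl⟩) hn (by
        refine MvPolynomial.ringHom_ext (fun c => ?_) (fun i => ?_)
        · simp [hπ, hwC]
        · rw [RingHom.comp_apply, RingHom.comp_apply, MvPolynomial.eval₂Hom_X', hwX, hπ,
            TrivSqZeroExt.fst_add, TrivSqZeroExt.fst_inl, TrivSqZeroExt.fst_inr, add_zero])
    have h1 : ∀ y, (σ y).fst = y := fun y => RingHom.congr_fun hσ1 y
    have h2 := key F (RingHom.id F)
      (((TrivSqZeroExt.sndHom F F).toAddMonoidHom.comp σ.toAddMonoidHom).comp r.toAddMonoidHom)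
      (fun a b => by
        change (σ (r (a * b))).snd = r a * (σ (r b)).snd + r b * (σ (r a)).snd
        rw [map_mul, map_mul, TrivSqZeroExt.snd_mul, h1, h1, smul_eq_mul, op_smul_eq_mul,
          mul_comm _ (r b)])
      (fun c => by
        change (σ (r (β c))).snd = 0
        have := RingHom.congr_fun hσ2 (MvPolynomial.C c)
        rw [RingHom.comp_apply, RingHom.comp_apply, hwC, MvPolynomial.eval₂Hom_C] at this
        rw [this]
        rfl)
    have h3 : ∀ i, (σ (r (w i))).snd = if i = i0 then 1 else 0 := fun i => by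
      have := RingHom.congr_fun hσ2 (MvPolynomial.X i)
      rw [RingHom.comp_apply, RingHom.comp_apply, hwX, MvPolynomial.eval₂Hom_X'] at this
      rw [this, TrivSqZeroExt.snd_add, TrivSqZeroExt.snd_inl, TrivSqZeroExt.snd_inr, zero_add]
    change ∑ i, c (Sum.inl i) * (σ (r (w i))).snd + ∑ i, c (Sum.inr i) * (σ (r (t i))).snd = 0 at h2
    simpa [h3, ht] using h2
  · -- the section of `O ⧸ m ^ 2 → F`
    obtain ⟨O, _, l, r', M', hl', hr', hs, -⟩ := Coord_locPrime r hr
    have h0 : ∀ y, r' (l y) = r y := fun y => RingHom.congr_fun hr' y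
    let q := Ideal.Quotient.mk (RingHom.ker r' ^ 2)
    let π : O ⧸ RingHom.ker r' ^ 2 →+* F :=
      Ideal.Quotient.lift _ r' fun a ha => Ideal.pow_le_self two_ne_zero ha
    have hπ : ∀ y, π (q y) = r' y := fun _ => rfl
    have hsq : ∀ a b, π a = 0 → π b = 0 → a * b = 0 := by
      intro a b ha hb
      obtain ⟨a, rfl⟩ := Ideal.Quotient.mk_surjective a
      obtain ⟨b, rfl⟩ := Ideal.Quotient.mk_surjective b
      rw [← map_mul, Ideal.Quotient.eq_zero_iff_mem, pow_two]
      exact Ideal.mul_mem_mul ha hb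
    obtain ⟨σ, hσ1, hσ2⟩ := Coord_fs hl hκ π ((q.comp l).comp (MvPolynomial.eval₂Hom β w))
      (fun y => (hs y).imp' q fun _ h => h) hsq (by rw [hw, ← hr']; rfl)
    have h1 : ∀ y, π (σ y) = y := fun y => RingHom.congr_fun hσ1 y
    have h2 : ∀ y, π (q y - σ (r' y)) = 0 := fun y => by rw [map_sub, hπ, h1, sub_self]
    have h3 : ∀ p, σ (r (MvPolynomial.eval₂Hom β w p)) = q (l (MvPolynomial.eval₂Hom β w p)) :=
      fun p => by
        have := RingHom.congr_fun hσ2 p
        rw [hw] at this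
        exact this
    have h4 := key _ σ ((q.comp l).toAddMonoidHom - (σ.comp r).toAddMonoidHom)
      (fun a b => by
        change q (l (a * b)) - σ (r (a * b)) =
          σ (r a) * (q (l b) - σ (r b)) + σ (r b) * (q (l a) - σ (r a))
        have := hsq _ _ (h2 (l a)) (h2 (l b))
        rw [h0, h0] at this
        simp only [map_mul]
        linear_combination this)
      (fun c => by
        change q (l (β c)) - σ (r (β c)) = 0
        have := h3 (MvPolynomial.C c)
        rw [MvPolynomial.eval₂Hom_C] at this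
        rw [this, sub_self])
    change ∑ i, σ (c (Sum.inl i)) * (q (l (w i)) - σ (r (w i))) +
      ∑ i, σ (c (Sum.inr i)) * (q (l (t i)) - σ (r (t i))) = 0 at h4
    have h5 : ∀ i, σ (r (w i)) = q (l (w i)) := fun i => by
      simpa only [MvPolynomial.eval₂Hom_X'] using h3 (MvPolynomial.X i)
    simp only [h5, ht, sub_self, mul_zero, Finset.sum_const_zero, zero_add, map_zero,
      sub_zero] at h4
    choose c' hc' using fun i => hs (c (Sum.inr i))
    rw [← hc']
    refine Coord_hind_loc hl' hr' hind c' ?_ i0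
    rw [← Ideal.Quotient.eq_zero_iff_mem, ← h4, map_sum]
    refine Finset.sum_congr rfl fun i _ => ?_
    have := hsq _ (q (l (t i))) (h2 (c' i)) (by rw [hπ, h0, ht])
    rw [hc'] at this
    rw [map_mul]
    linear_combination this

/-- The differentials of `w` and of generators of `ker r` span. -/
theorem Coord_span [Field k] [Field F] {β : k →+* B} {n : ℕ} {z : Fin n → B} (r : B →+* F)
    (hr : ∀ y : F, ∃ a b : B, r b ≠ 0 ∧ y * r b = r a) (P : B →+ (Fin n → B))
    (hP1 : ∀ a b, P (a * b) = a • P b + b • P a) (hP2 : ∀ c, P (β c) = 0)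
    (hP3 : ∀ i, P (z i) = Pi.single i 1)
    {m : ℕ} (w : Fin m → B) {lam : MvPolynomial (Fin m) k →+* B0}
    {M : Submonoid (MvPolynomial (Fin m) k)} (hl : IsLoc lam M) {κ : B0 →+* F} (hκ : κ.Etale)
    (hw : κ.comp lam = r.comp (MvPolynomial.eval₂Hom β w)) (G : Set B) (hG : ∀ y ∈ G, r y = 0)
    (hG' : RingHom.ker r ≤ Ideal.span G) (W : Submodule F (Fin n → F))
    (hW1 : ∀ i, (fun j => r (P (w i) j)) ∈ W) (hW2 : ∀ y ∈ G, (fun j => r (P y j)) ∈ W) :
    ⊤ ≤ W := by
  classical
  by_contra hne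
  obtain ⟨φ, hφ0, hφ⟩ := W.exists_le_ker_of_lt_top (lt_top_iff_ne_top.mpr fun h => hne h.ge)
  let δ : B → F := fun b => φ fun j => r (P b j)
  have hadd : ∀ a b, δ (a + b) = δ a + δ b := fun a b => by
    simp only [δ, ← map_add φ]
    congr 1
    ext j
    simp
  have hmul : ∀ a b, δ (a * b) = r a * δ b + r b * δ a := fun a b => by
    simp only [δ, ← smul_eq_mul (α := F), ← map_smul, ← map_add φ]
    congr 1
    ext j
    simp [hP1]
  have hc : ∀ c, δ (β c) = 0 := fun c => by
    simp only [δ, hP2, Pi.zero_apply, map_zero]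
    exact map_zero φ
  let Φ : B →+* TrivSqZeroExt F F :=
    { toFun := fun b => TrivSqZeroExt.inl (r b) + TrivSqZeroExt.inr (δ b)
      map_one' := by
        have := hc 1
        rw [map_one] at this
        simp [this]
      map_mul' := fun a b => by ext <;> simp [hmul, mul_comm]
      map_zero' := by
        have := hc 0
        rw [map_zero] at this
        simp [this]
      map_add' := fun a b => by ext <;> simp [hadd] }
  have hΦ1 : ∀ b, (Φ b).fst = r b := fun b => by simp [Φ]
  have hΦ2 : ∀ b, (Φ b).snd = δ b := fun b => by simp [Φ]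
  have hker : Ideal.span G ≤ RingHom.ker Φ := by
    rw [Ideal.span_le]
    intro y hy
    change Φ y = 0
    ext
    · rw [hΦ1, hG y hy]
      rfl
    · rw [hΦ2]
      exact hφ (hW2 y hy)
  obtain ⟨Ψ, hΨ⟩ := Coord_factor r hr Φ (fun y hy => hker (hG' hy)) (fun y hy => by
    rw [TrivSqZeroExt.isUnit_iff_isUnit_fst, hΦ1]
    exact IsUnit.mk0 _ hy)
  let π : TrivSqZeroExt F F →+* F := (TrivSqZeroExt.fstHom F F F).toRingHom
  have hπ : ∀ y, π y = y.fst := fun _ => rfl
  have hn : ∀ a b, π a = 0 → π b = 0 → a * b = 0 := by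
    intro a b ha hb
    rw [hπ] at ha hb
    ext <;> simp [ha, hb]
  have hΨ' : ∀ b, Ψ (r b) = Φ b := fun b => RingHom.congr_fun hΨ b
  have hΨ2 : Ψ = TrivSqZeroExt.inlHom F F := by
    refine Coord_fu hl hκ π hn _ _ (RingHom.ext fun y => ?_) ?_
    · obtain ⟨a, b, hb, e⟩ := hr y
      have := congr_arg (fun y => π (Ψ y)) e
      simp only [map_mul, hΨ', hπ (Φ _), hΦ1] at this
      rw [← e] at this
      exact mul_right_cancel₀ hb this
    · rw [hw]
      refine MvPolynomial.ringHom_ext (fun c => ?_) (fun i => ?_)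
      · simp only [RingHom.comp_apply, MvPolynomial.eval₂Hom_C, hΨ']
        ext
        · exact hΦ1 _
        · exact (hΦ2 _).trans (hc c)
      · simp only [RingHom.comp_apply, MvPolynomial.eval₂Hom_X', hΨ']
        ext
        · exact hΦ1 _
        · exact (hΦ2 _).trans (hφ (hW1 i))
  refine hφ0 ((Pi.basisFun F (Fin n)).ext fun i => ?_)
  have h1 : δ (z i) = 0 := by
    rw [← hΦ2, ← hΨ', hΨ2]
    rfl
  rw [LinearMap.zero_apply, ← h1]
  simp only [δ, hP3, Pi.basisFun_apply]
  congr 1
  ext j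
  simp [Pi.single_apply, apply_ite r]

/-- Coordinates `w, t, x` near the point. -/
theorem Coord_core [Field k] [Field F] {β : k →+* B} (hβ : EP β) (r : B →+* F)
    (hr : ∀ y : F, ∃ a b : B, r b ≠ 0 ∧ y * r b = r a)
    {m : ℕ} (w : Fin m → B) {lam : MvPolynomial (Fin m) k →+* B0}
    {M : Submonoid (MvPolynomial (Fin m) k)} (hl : IsLoc lam M) {κ : B0 →+* F} (hκ : κ.Etale)
    (hw : κ.comp lam = r.comp (MvPolynomial.eval₂Hom β w)) {ι0 : Type} [Fintype ι0] (t : ι0 → B)
    (ht : ∀ i, r (t i) = 0)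
    (hind : ∀ c : ι0 → B, ∑ i, c i * t i ∈ RingHom.ker r ^ 2 → ∀ i, r (c i) = 0)
    (G : Set B) (hG : ∀ y ∈ G, r y = 0) (hG' : RingHom.ker r ≤ Ideal.span G) :
    ∃ (n : ℕ) (x : Fin n → B) (d : B), (∀ j, x j ∈ G) ∧ r d ≠ 0 ∧
      ∀ (B1 : Type u) [CommRing B1] (l : B →+* B1), IsAway l d →
        EtN (MvPolynomial.eval₂Hom (l.comp β) (fun i => l (w i))) (fun j => l (Sum.elim t x j)) := by
  classical
  obtain ⟨n, z, hz⟩ := hβ
  obtain ⟨P, hP1, hP2, hP3, hP4, hP5⟩ := Coord_partial hz
  obtain ⟨n', y, e, hy, hdet⟩ := Coord_extend _ (Coord_indep r hr P hP4 w hl hκ hw t ht hind)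
    ((fun y j => r (P y j)) '' G)
    (Coord_span r hr P hP1 hP2 hP3 w hl hκ hw G hG hG' _
      (fun i => Submodule.subset_span (Or.inl ⟨Sum.inl i, rfl⟩))
      (fun y hy => Submodule.subset_span (Or.inr ⟨y, hy, rfl⟩)))
  choose x hx hx' using hy
  refine ⟨n', x, (Matrix.of fun i j => P (Sum.elim (Sum.elim w t) x (e i)) j).det, hx, ?_,
    fun B1 _ l hl' => ?_⟩
  · rw [RingHom.map_det]
    convert hdet using 2
    ext i j
    simp only [RingHom.mapMatrix_apply, Matrix.map_apply, Matrix.of_apply]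
    rcases e i with a | a
    · rfl
    · exact congr_fun (hx' a) j
  · have h1 := (hP5 _ B1 l hl').equiv ((Equiv.sumAssoc _ _ _).symm.trans e.symm)
    rw [← etN_sum_iff]
    convert h1 using 1
    ext i
    rcases i with a | a | a <;> simp

/-- `t` is a family of elements of `ker r` whose classes in the cotangent space are independent. -/
theorem chart_exists [Field k] [PerfectField k] [Field F] {β : k →+* B} (hβ : EP β) (r : B →+* F)
    (hr : ∀ y : F, ∃ a b : B, r b ≠ 0 ∧ y * r b = r a) {ι0 : Type} [Fintype ι0] (t : ι0 → B)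
    (ht : ∀ i, r (t i) = 0)
    (hind : ∀ c : ι0 → B, ∑ i, c i * t i ∈ RingHom.ker r ^ 2 → ∀ i, r (c i) = 0) :
    ∃ (n : ℕ) (x : ι0 ⊕ Fin n → B) (M : Submonoid B) (B0 : Type u) (_ : CommRing B0) (l : B →+* B0)
      (E : Type u) (_ : CommRing E) (ε : B0 →+* E) (ι : F →+* E) (e : E →+* F),
      (∀ i, x (Sum.inl i) = t i) ∧ (∀ j, r (x j) = 0) ∧ IsLoc l M ∧ ε.Etale ∧
      (ε.comp l).comp β = ι.comp (r.comp β) ∧ EtN ι (fun j => ε (l (x j))) ∧
      e.comp ι = RingHom.id F ∧ e.comp (ε.comp l) = r := by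
  classical
  obtain ⟨m, s, K0, _, lam, κ, M0, hlam, hκ, hs⟩ := Coord_field hβ.finiteType r hr
  choose a b hb hab using fun i => hr (s i)
  -- invert the denominators of the transcendence basis
  obtain ⟨B1, _, l1, hl1⟩ := exists_isAway (∏ i, b i)
  obtain ⟨r1, hr1⟩ := hl1.exists_lift r (by
    rw [map_prod]
    exact IsUnit.mk0 _ (Finset.prod_ne_zero_iff.mpr fun i _ => hb i))
  have h1 : ∀ y, r1 (l1 y) = r y := fun y => RingHom.congr_fun hr1 y
  have hw : ∀ i, ∃ w : B1, r1 w = s i := by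
    intro i
    obtain ⟨c, hc⟩ := (isUnit_of_dvd_unit
      (map_dvd l1 (Finset.dvd_prod_of_mem b (Finset.mem_univ i))) hl1.isUnit).exists_right_inv
    refine ⟨l1 (a i) * c, ?_⟩
    rw [map_mul, h1, ← hab, ← h1 (b i), mul_assoc, ← map_mul, hc, map_one, mul_one]
  choose w hw using hw
  have hw' : κ.comp lam = r1.comp (MvPolynomial.eval₂Hom (l1.comp β) w) := by
    rw [hs]
    refine MvPolynomial.ringHom_ext (fun c => ?_) (fun i => ?_) <;> simp [h1, hw]
  obtain ⟨n, x1, d, hx1, hd, het⟩ := Coord_core (hβ.comp (ep_of_etale hl1.etale)) r1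
    (fun y => by
      obtain ⟨a, b, hb, e⟩ := hr y
      exact ⟨l1 a, l1 b, by rwa [h1], by rwa [h1, h1]⟩)
    w hlam hκ hw' (fun i => l1 (t i)) (fun i => by rw [h1, ht])
    (Coord_hind_loc hl1 hr1 hind) (l1 '' RingHom.ker r)
    (by rintro _ ⟨y, hy, rfl⟩; rw [h1]; exact hy)
    (by have := Coord_ker_loc hl1 r1; rwa [hr1] at this)
  choose x hx hx' using hx1
  obtain ⟨B2, _, l2, hl2⟩ := exists_isAway d
  obtain ⟨r2, hr2⟩ := hl2.exists_lift r1 (IsUnit.mk0 _ hd)
  have h2 : ∀ y, r2 (l2 y) = r1 y := fun y => RingHom.congr_fun hr2 y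
  have het2 := het B2 l2 hl2
  set α := MvPolynomial.eval₂Hom (l2.comp (l1.comp β)) (fun i => l2 (w i)) with hα
  obtain ⟨B0, _, i, j, hP⟩ := exists_isPO α lam
  obtain ⟨E, _, ε, ι, hQ⟩ := exists_isPO j κ
  have hrα : r2.comp α = κ.comp lam := by
    rw [hw', hα]
    refine MvPolynomial.ringHom_ext (fun c => ?_) (fun i => ?_) <;> simp [h2]
  obtain ⟨r0, hr0, hr0'⟩ := hP.exists_lift r2 κ hrα
  obtain ⟨e, he, he'⟩ := hQ.exists_lift r0 (RingHom.id F) (by rw [hr0', RingHom.id_comp])
  obtain ⟨M1, hM1⟩ := Coord_isLoc_comp hl1 hl2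
  obtain ⟨M2, hM2⟩ := Coord_isLoc_comp hM1 (hP.flip.isLoc hlam)
  refine ⟨n, Sum.elim t x, M2, B0, inferInstance, i.comp (l2.comp l1), E, inferInstance, ε, ι, e,
    fun _ => rfl, ?_, hM2, hQ.flip.etale hκ, ?_, ?_, he', ?_⟩
  · rintro (c | c)
    · exact ht c
    · exact hx c
  · refine RingHom.ext fun c => ?_
    have h3 := hP.comm_apply (MvPolynomial.C c)
    have h4 := RingHom.congr_fun hs (MvPolynomial.C c)
    rw [hα, MvPolynomial.eval₂Hom_C] at h3
    rw [MvPolynomial.eval₂Hom_C] at h4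
    simp only [RingHom.comp_apply] at h3 h4 ⊢
    rw [h3, hQ.comm_apply, h4]
  · convert hQ.etN (hP.etN het2) using 1
    ext c
    rcases c with c | c
    · rfl
    · simp [hx']
  · rw [← RingHom.comp_assoc, he, ← RingHom.comp_assoc, hr0, ← RingHom.comp_assoc, hr2, hr1]

end KEW
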