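import Mathlib

/-!
KEW project, layer L4 (commutative algebra): definitions.
Conventions: all rings live in one universe `u` and are unbundled; all maps are ring homomorphisms
(no algebra instances in the statements); structure maps are explicit.
-/

namespace KEW

universe u

open Polynomial

variable {R S T P : Type u} [CommRing R] [CommRing S] [CommRing T] [CommRing P]

/-- The square `i ∘ f = j ∘ g` is a pushout of commutative rings: `P = S ⊗_R T`. -/
def IsPO (f : R →+* S) (g : R →+* T) (i : S →+* P) (j : T →+* P) : Prop :=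
  CategoryTheory.IsPushout (CommRingCat.ofHom f) (CommRingCat.ofHom g) (CommRingCat.ofHom i)
    (CommRingCat.ofHom j)

/-- `l` is a localisation at the submonoid `M`. -/
def IsLoc (l : R →+* S) (M : Submonoid R) : Prop :=
  @IsLocalization R _ M S _ l.toAlgebra

/-- `l` is a localisation away from `r`. -/
def IsAway (l : R →+* S) (r : R) : Prop :=
  IsLoc l (Submonoid.powers r)

/-- `φ` is etale and an isomorphism modulo `I`. -/
structure EE (I : Ideal R) (φ : R →+* S) : Prop where
  etale : φ.Etale
  surj : ∀ y : S, ∃ x : R, y - φ x ∈ I.map φ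
  inj : ∀ x : R, φ x ∈ I.map φ → x ∈ I

/-- `S` is etale over `R[X]` via `X ↦ u`. -/
def Et1 (φ : R →+* S) (u : S) : Prop :=
  (Polynomial.eval₂RingHom φ u).Etale

/-- `S` is etale over the polynomial ring in the coordinates `x`. -/
def EtN {ι : Type} (φ : R →+* S) (x : ι → S) : Prop :=
  (MvPolynomial.eval₂Hom φ x).Etale

/-- `S` is etale over a polynomial ring over `R`. -/
def EP (φ : R →+* S) : Prop :=
  ∃ (n : ℕ) (x : Fin n → S), EtN φ x

/-- Every map from a finitely presented `R`-algebra to `S` factors through an `EP` algebra. -/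
def IndEP (a : R →+* S) : Prop :=
  ∀ (D : Type u) [CommRing D] (d : R →+* D) (f : D →+* S), d.FinitePresentation → f.comp d = a →
    ∃ (B : Type u) (_ : CommRing B) (g : D →+* B) (h : B →+* S), EP (g.comp d) ∧ h.comp g = f

/-- `S ⧸ J` is finite over `R`. -/
def FinMod (φ : R →+* S) (J : Ideal S) : Prop :=
  ((Ideal.Quotient.mk J).comp φ).Finite

/-- The map induced by `g` on the quotients by `σ` and `σ' = g σ`. -/
def qmap (g : S →+* T) {σ : S} {σ' : T} (h : g σ = σ') :
    S ⧸ Ideal.span {σ} →+* T ⧸ Ideal.span {σ'} :=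
  Ideal.quotientMap (Ideal.span {σ'}) g (by
    rw [Ideal.span_le, Set.singleton_subset_iff]
    change g σ ∈ Ideal.span {σ'}
    rw [h]
    exact Ideal.mem_span_singleton_self σ')

@[simp] theorem qmap_mk (g : S →+* T) {σ : S} {σ' : T} (h : g σ = σ') (y : S) :
    qmap g h (Ideal.Quotient.mk _ y) = Ideal.Quotient.mk _ (g y) := rfl

/-- Valuative boundedness of the zero locus of the line `σ0 + s (σ1 - σ0)`. -/
def VB (φ : R →+* S) (σ0 σ1 : S) : Prop :=
  ∀ (K : Type u) [Field K] (O : ValuationSubring K) (x : S →+* K) (s : K),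
    (∀ r, x (φ r) ∈ O) → s ∈ O → x σ0 + s * (x σ1 - x σ0) = 0 → ∀ y, x y ∈ O

/-- `y` has degree less than `d` in `u`, valuatively. -/
def DegLT (φ : R →+* S) (u y : S) (d : ℕ) : Prop :=
  ∀ (K : Type u) [Field K] (O : ValuationSubring K) (x : S →+* K),
    (∀ r, x (φ r) ∈ O) → x u ∉ O → O.valuation (x y) < O.valuation (x u) ^ d

/-- Base change map of `AdjoinRoot`. -/
noncomputable def amap (f : R →+* S) (p : R[X]) : AdjoinRoot p →+* AdjoinRoot (p.map f) :=
  AdjoinRoot.map f p (p.map f) dvd_rfl

@[simp] theorem amap_of (f : R →+* S) (p : R[X]) (r : R) :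
    amap f p (AdjoinRoot.of p r) = AdjoinRoot.of (p.map f) (f r) :=
  AdjoinRoot.map_of f p _ _ r

@[simp] theorem amap_root (f : R →+* S) (p : R[X]) :
    amap f p (AdjoinRoot.root p) = AdjoinRoot.root (p.map f) :=
  AdjoinRoot.map_root f p _ _

end KEW
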