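import Pool.Agent.P.MP_6277db_ag.KEW.CA.Jac0

/-!
KEW L4.3: standard form, overconvergence, lifting of etale algebras along surjections.
Hints.  An etale algebra has a presentation `S[x_1..x_n]/(f_1..f_n)` with invertible Jacobian
(`Algebra.Etale.iff_isStandardSmoothOfRelativeDimension_zero`, `Algebra.SubmersivePresentation`); prove
`etale_presentation` first.
`std_form`: `r_i ∈ S` with `x_i ≡ r_i` mod `π`; `f(r) = π c` (`EE.inj`), `Δ = det J(r)` is a unit mod `π`:
`d Δ = 1 + π n`.  Taylor: `f(r + π w) = π (c + J(r) w + π h(w))`.  Use variables `y_1..y_n, y_0`, put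
`c' = d adj(J) c`, `v = 1 + y_0`, `w = y - c'`, equations `y_0 = - π n (1 + y_0)` (so `v (1 + π n) = 1`) and
`y = π (n c' - n y - d adj(J) h(y - c'))`; they give `d adj(J) (c + J w + π h(w)) = 0`, multiply by `v J`.
`etale_lift_surj`: lift the `f_i`, `E = R[x]/(f)[1/Δ]`; etale by `jac`-type argument or
`Algebra.PreSubmersivePresentation`/`Algebra.IsStandardSmoothOfRelativeDimension`, or by `jac` with
`𝔟 = ⊥`-like choices; `EtN (l ∘ C) f` on the locus where the Jacobian is invertible and `EtN.etale_quotient`.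
-/

namespace KEW

universe u

variable {R S E E1 R0 E0 : Type u} [CommRing R] [CommRing S] [CommRing E] [CommRing E1] [CommRing R0]
  [CommRing E0]

theorem etale_presentation {ε : S →+* E} (hε : ε.Etale) :
    ∃ (n : ℕ) (x : Fin n → E) (f : Fin n → MvPolynomial (Fin n) S),
      Function.Surjective (MvPolynomial.eval₂Hom ε x) ∧
      RingHom.ker (MvPolynomial.eval₂Hom ε x) = Ideal.span (Set.range f) ∧
      IsUnit (MvPolynomial.eval₂Hom ε x (Matrix.det (Matrix.of fun i j => MvPolynomial.pderiv j (f i)))) := by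
  let := ε.toAlgebra
  have : Algebra.Etale S E := hε
  obtain ⟨ι, σ, _, _, P, hP⟩ :=
    (Algebra.Etale.iff_isStandardSmoothOfRelativeDimension_zero.1 this).out
  have hb : Function.Bijective P.map :=
    P.map_inj.bijective_of_nat_card_le (Nat.sub_eq_zero_iff_le.1 hP)
  let Q := P.reindex ((Finite.equivFin σ).symm.trans (Equiv.ofBijective P.map hb))
    (Finite.equivFin σ).symm
  have hQ : ∀ i, Q.map i = i := fun i =>
    ((Finite.equivFin σ).symm.trans (Equiv.ofBijective P.map hb)).symm_apply_apply i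
  refine ⟨_, Q.val, Q.relation, Q.aeval_val_surjective,
    (Q.span_range_relation_eq_ker.trans Q.ker_eq_ker_aeval_val).symm, ?_⟩
  have h := Q.jacobian_isUnit
  rw [Q.jacobian_eq_jacobiMatrix_det, Q.algebraMap_apply, ← Matrix.det_transpose] at h
  have h' : Q.jacobiMatrix.transpose =
      Matrix.of fun i j => MvPolynomial.pderiv j (Q.relation i) := by
    ext1 i j
    rw [Matrix.transpose_apply, Q.jacobiMatrix_apply, hQ, Matrix.of_apply]
  rw [h'] at h
  exact h

/-- The converse: the locus where the Jacobian is invertible is etale. -/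
theorem etN_of_jacobian {n : ℕ} (f : Fin n → MvPolynomial (Fin n) S) {B1 : Type u} [CommRing B1]
    {l : MvPolynomial (Fin n) S →+* B1}
    (hl : IsAway l (Matrix.det (Matrix.of fun i j => MvPolynomial.pderiv j (f i)))) :
    EtN (l.comp MvPolynomial.C) (fun k => l (f k)) := by
  refine jac_core (R := S) (etN_X (Fin n)) _ (fun k => ?_) hl dvd_rfl
  rw [← (KaehlerDifferential.mvPolynomialBasis S (Fin n)).sum_repr
    (KaehlerDifferential.D S _ (f k))]
  simp only [KaehlerDifferential.mvPolynomialBasis_repr_apply,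
    KaehlerDifferential.mvPolynomialBasis_apply, Matrix.of_apply]

theorem etale_lift_surj {p : R →+* R0} (hp : Function.Surjective p) {ε0 : R0 →+* E0} (hε : ε0.Etale) :
    ∃ (E : Type u) (_ : CommRing E) (ε : R →+* E) (q : E →+* E0), ε.Etale ∧ IsPO ε p q ε0 := by
  obtain ⟨n, x0, f0, hs, hk, hu⟩ := etale_presentation hε
  have hp' := MvPolynomial.map_surjective (σ := Fin n) p hp
  choose f hf using fun k => hp' (f0 k)
  obtain ⟨B, _, l, hl⟩ :=
    exists_isAway (Matrix.det (Matrix.of fun i j => MvPolynomial.pderiv j (f i)))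
  obtain ⟨d, hd⟩ := hl.exists_lift ((MvPolynomial.eval₂Hom ε0 x0).comp (MvPolynomial.map p)) (by
    rw [RingHom.comp_apply, RingHom.map_det]
    convert hu using 3
    ext1 i j
    simp [← hf, MvPolynomial.pderiv_map])
  have hd' : ∀ b, d (l b) = MvPolynomial.eval₂Hom ε0 x0 (MvPolynomial.map p b) :=
    RingHom.congr_fun hd
  have hJ : ∀ z ∈ Ideal.span (Set.range fun k => l (f k)), d z = 0 := by
    refine Ideal.span_le (I := RingHom.ker d).2 ?_
    rintro _ ⟨k, rfl⟩
    change d (l (f k)) = 0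
    rw [hd', hf, ← RingHom.mem_ker, hk]
    exact Ideal.subset_span ⟨k, rfl⟩
  refine ⟨_, inferInstance, _, Ideal.Quotient.lift _ d hJ, (etN_of_jacobian f hl).etale_quotient,
    (isPO_of_surjective ?_ hp (fun y => ?_) fun y hy => ?_).flip⟩
  · ext r
    simp [hd']
  · obtain ⟨b0, rfl⟩ := hs y
    obtain ⟨b, rfl⟩ := hp' b0
    exact ⟨Ideal.Quotient.mk _ (l b), hd' b⟩
  · obtain ⟨z, rfl⟩ := Ideal.Quotient.mk_surjective y
    obtain ⟨b, m, hb⟩ := hl.surj z
    have h1 : d z = 0 := hy
    have h2 : MvPolynomial.map p b ∈ (Ideal.span (Set.range f)).map (MvPolynomial.map p) := by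
      rw [Ideal.map_span, ← Set.range_comp, show MvPolynomial.map p ∘ f = f0 from funext hf, ← hk,
        RingHom.mem_ker, ← hd', ← hb, map_mul, h1, zero_mul]
    rw [← Ideal.mem_comap, Ideal.comap_map_of_surjective _ hp', ← RingHom.ker_eq_comap_bot,
      MvPolynomial.ker_map] at h2
    obtain ⟨b1, h3, b2, h4, rfl⟩ := Submodule.mem_sup.1 h2
    have h5 : Ideal.Quotient.mk (Ideal.span (Set.range fun k => l (f k))) (l b1) = 0 := by
      have h6 := Ideal.mem_map_of_mem l h3
      rw [Ideal.map_span, ← Set.range_comp] at h6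
      exact Ideal.Quotient.eq_zero_iff_mem.2 h6
    rw [← Ideal.mul_unit_mem_iff_mem _ ((hl.isUnit.pow m).map (Ideal.Quotient.mk _)), ← map_mul, hb,
      map_add, map_add, h5, zero_add, ← Ideal.map_map, ← Ideal.map_map]
    exact Ideal.mem_map_of_mem _ (Ideal.mem_map_of_mem _ h4)

theorem etN_lift {p : R →+* R0} (hp : Function.Surjective p) {ι : Type} {ε0 : R0 →+* E0}
    {x0 : ι → E0} (hε : EtN ε0 x0) :
    ∃ (E : Type u) (_ : CommRing E) (ε : R →+* E) (q : E →+* E0) (x : ι → E), EtN ε x ∧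
      IsPO ε p q ε0 ∧ ∀ k, q (x k) = x0 k := by
  obtain ⟨E, _, ε, q, h1, h2⟩ := etale_lift_surj (MvPolynomial.map_surjective (σ := ι) p hp) hε
  refine ⟨E, _, ε.comp MvPolynomial.C, q, fun k => ε (MvPolynomial.X k), ?_, ?_, fun k => ?_⟩
  · have h3 : MvPolynomial.eval₂Hom (ε.comp MvPolynomial.C) (fun k => ε (MvPolynomial.X k)) = ε :=
      MvPolynomial.ringHom_ext (by simp) (by simp)
    rwa [EtN, h3]
  · simpa only [MvPolynomial.eval₂Hom_comp_C] using (isPO_mvPolynomial ι p).paste' h2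
  · simpa using h2.comm_apply (MvPolynomial.X k)

theorem et1_lift {p : R →+* R0} (hp : Function.Surjective p) {ε0 : R0 →+* E0} {u0 : E0}
    (hε : Et1 ε0 u0) :
    ∃ (E : Type u) (_ : CommRing E) (ε : R →+* E) (q : E →+* E0) (u : E), Et1 ε u ∧
      IsPO ε p q ε0 ∧ q u = u0 := by
  obtain ⟨E, _, ε, q, x, h1, h2, h3⟩ :=
    etN_lift hp (x0 := fun _ : Unit => u0) (etN_unique_iff.2 hε)
  exact ⟨E, _, ε, q, x default, etN_unique_iff.1 h1, h2, h3 _⟩

theorem ep_lift {p : R →+* R0} (hp : Function.Surjective p) {ε0 : R0 →+* E0} (hε : EP ε0) :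
    ∃ (E : Type u) (_ : CommRing E) (ε : R →+* E) (q : E →+* E0), EP ε ∧ IsPO ε p q ε0 := by
  obtain ⟨n, x0, h⟩ := hε
  obtain ⟨E, _, ε, q, x, h1, h2, -⟩ := etN_lift hp h
  exact ⟨E, _, ε, q, ⟨n, x, h1⟩, h2⟩

end KEW
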