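import Pool.Agent.P.MP_6277db_ag.KEW.CA.Desc0
import Pool.Agent.P.MP_6277db_ag.KEW.CA.Pres

/-!
KEW L4.1: descent (noetherian approximation) over an `IndEP` ring.
Setting: `f : B → R` with `B` finitely presented over `κ`, `R` `IndEP` over `κ`, `Y = Y0 ⊗_B R`.
Hints.  `desc_base`: apply `IndEP` to `D`.  `desc_zero`: let `Π = MvPolynomial R B ↠ R` with kernel `𝔨`;
`Y = MvPolynomial R Y0 ⧸ 𝔨` (`isPO_mvPolynomial`, `IsPO.cancel`, `IsPO.ker_eq`), so `C z = Σ p_i * map k_i`; only finitely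
many variables `s` occur (`MvPolynomial.exists_finset_rename`, `killCompl`), `B1 = MvPolynomial s B ⧸ (k_i)` is
finitely presented and kills `z`; factor `B1 → R` through an `EP` algebra.
`desc_elt`: `IsPO.induction`.  `desc_map`: generators by `desc_elt`, relations by `desc_zero`.
`desc_etN`: `etale_presentation` over `MvPolynomial ι R`; adjoin the finitely many coefficients of the `f_i` to `B`,
take the locus where the Jacobian is invertible (`etN_of_jacobian`, `EtN.etale_quotient`).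
`desc_finMod`: monic equations of algebra generators modulo `J`, coefficients by `desc_base`, cofactors by
`desc_elt`, the equations by `desc_zero`.
-/

namespace KEW

universe u

variable {κ B R Y0 Y : Type u} [CommRing κ] [CommRing B] [CommRing R] [CommRing Y0] [CommRing Y]

theorem Desc_range {β : κ →+* B} {f : B →+* R} (hR : IndEP (f.comp β))
    (hβ : β.FinitePresentation) {s : Set R} (hs : s.Finite) :
    ∃ (B' : Type u) (_ : CommRing B') (g : B →+* B') (f' : B' →+* R), EP (g.comp β) ∧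
      f'.comp g = f ∧ s ⊆ Set.range f' := by
  obtain ⟨B', _, Y', _, g, f', φ', ξ1, ξ2, st, h⟩ := desc_elt hR hβ (isPO_id f).flip hs.toFinset
  refine ⟨B', inferInstance, g, f', st.ep, st.fac, fun y hy => ?_⟩
  obtain ⟨y', rfl⟩ := h y (hs.mem_toFinset.2 hy)
  obtain ⟨b, rfl⟩ := (st.po1.surjective Function.surjective_id) y'
  exact ⟨b, (st.po2.comm_apply b).symm⟩

theorem Desc_etale {A' A : Type u} [CommRing A'] [CommRing A] (μ : A' →+* A) {ε : A →+* Y} {n : ℕ}
    {y : Fin n → Y} {F : Fin n → MvPolynomial (Fin n) A'}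
    (h1 : Function.Surjective (MvPolynomial.eval₂Hom ε y))
    (h2 : RingHom.ker (MvPolynomial.eval₂Hom ε y) =
      Ideal.span (Set.range fun i => MvPolynomial.map μ (F i)))
    (h3 : IsUnit (MvPolynomial.eval₂Hom ε y (Matrix.det (Matrix.of fun i j =>
      MvPolynomial.pderiv j (MvPolynomial.map μ (F i)))))) :
    ∃ (Y' : Type u) (_ : CommRing Y') (ε' : A' →+* Y') (ξ : Y' →+* Y), ε'.Etale ∧
      IsPO ε' μ ξ ε := by
  obtain ⟨B1, _, l, hl⟩ := exists_isAway
    (Matrix.det (Matrix.of fun i j => MvPolynomial.pderiv j (F i)))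
  have het := (etN_of_jacobian F hl).etale_quotient
  set π := MvPolynomial.eval₂Hom ε y with hπ
  have hu : IsUnit ((π.comp (MvPolynomial.map μ))
      (Matrix.det (Matrix.of fun i j => MvPolynomial.pderiv j (F i)))) := by
    rw [RingHom.comp_apply, RingHom.map_det]
    convert h3 using 3
    ext1 i j
    simp [MvPolynomial.pderiv_map]
  obtain ⟨d, hd⟩ := hl.exists_lift _ hu
  have hF : ∀ i, π (MvPolynomial.map μ (F i)) = 0 := fun i => by
    rw [← RingHom.mem_ker, h2]
    exact Ideal.subset_span ⟨i, rfl⟩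
  have hI : ∀ a ∈ Ideal.span (Set.range fun k => l (F k)), d a = 0 := by
    intro a ha
    refine (Ideal.span_le.2 ?_ : _ ≤ RingHom.ker d) ha
    rintro _ ⟨k, rfl⟩
    exact (RingHom.congr_fun hd (F k)).trans (hF k)
  set q := Ideal.Quotient.mk (Ideal.span (Set.range fun k => l (F k))) with hq
  have hξ : ((Ideal.Quotient.lift _ d hI).comp q).comp l = π.comp (MvPolynomial.map μ) := by
    rw [← hd]
    rfl
  have hC : π.comp MvPolynomial.C = ε := by
    ext a
    simp [hπ]
  refine ⟨_, inferInstance, _, Ideal.Quotient.lift _ d hI, het, IsPO.of_universal ?_ ?_ ?_⟩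
  · ext a
    have := RingHom.congr_fun hξ (MvPolynomial.C a)
    simpa [hπ] using this
  · intro Z _ k m hw
    set θ := MvPolynomial.eval₂Hom m fun j => k (q (l (MvPolynomial.X j))) with hθ
    have e : θ.comp (MvPolynomial.map μ) = (k.comp q).comp l := by
      refine MvPolynomial.ringHom_ext (fun a => ?_) fun j => by simp [hθ]
      have := RingHom.congr_fun hw a
      simpa [hθ] using this.symm
    have hk : RingHom.ker π ≤ RingHom.ker θ := by
      rw [h2, Ideal.span_le]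
      rintro _ ⟨i, rfl⟩
      refine (RingHom.congr_fun e (F i)).trans ?_
      have : q (l (F i)) = 0 := Ideal.Quotient.eq_zero_iff_mem.2 (Ideal.subset_span ⟨i, rfl⟩)
      simp [this]
    obtain ⟨ω, e2⟩ : ∃ ω : Y →+* Z, ω.comp π = θ :=
      ⟨π.liftOfSurjective h1 ⟨θ, hk⟩, π.liftOfRightInverse_comp _ _ _⟩
    refine ⟨ω, ?_, ?_⟩
    · refine Ideal.Quotient.ringHom_ext (hl.hom_ext ?_)
      rw [← e, ← e2, RingHom.comp_assoc _ π, ← hξ]
      rfl
    · rw [← hC, ← RingHom.comp_assoc, e2]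
      ext a
      simp [hθ]
  · intro Z _ k k' e1 e2
    refine (RingHom.cancel_right h1).1 (MvPolynomial.ringHom_ext (fun a => ?_) fun j => ?_)
    · simpa [hπ] using RingHom.congr_fun e2 a
    · have e3 := RingHom.congr_fun hξ (MvPolynomial.X j)
      have e4 := RingHom.congr_fun e1 (q (l (MvPolynomial.X j)))
      simp only [RingHom.comp_apply, MvPolynomial.map_X] at e3 e4 ⊢
      rwa [e3] at e4

theorem Desc_finite {β : κ →+* B} {f : B →+* R} (hR : IndEP (f.comp β))
    (hβ : β.FinitePresentation) {φ0 : B →+* Y0} {ξ : Y0 →+* Y} {φ : R →+* Y} (h : IsPO φ0 f ξ φ)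
    (hφ0 : φ0.FiniteType) (hφ : φ.Finite) :
    ∃ (B' : Type u) (_ : CommRing B') (g : B →+* B') (f' : B' →+* R), EP (g.comp β) ∧
      f'.comp g = f ∧ ∀ (Y' : Type u) [CommRing Y'] (φ' : B' →+* Y') (ξ1 : Y0 →+* Y'),
        IsPO φ0 g ξ1 φ' → φ'.Finite := by
  classical
  let _ := φ0.toAlgebra
  obtain ⟨t, ht⟩ := (show Algebra.FiniteType B Y0 from hφ0).out
  choose p hp hp0 using fun y : Y0 => hφ.to_isIntegral (ξ y)
  obtain ⟨B1, _, g1, f1, e1, fac1, hs⟩ := Desc_range hR hβ
    (s := ⋃ y ∈ t, ((p y).coeffs : Set R)) (t.finite_toSet.biUnion fun y _ => Finset.finite_toSet _)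
  have hl : ∀ y ∈ t, ∃ q : Polynomial B1, q.map f1 = p y ∧ q.Monic := fun y hy => by
    obtain ⟨q, a, -, b⟩ := Polynomial.lifts_and_natDegree_eq_and_monic
      ((Polynomial.lifts_iff_coeffs_subset_range (f := f1) (p y)).2
        ((Set.subset_biUnion_of_mem (u := fun y => ((p y).coeffs : Set R)) hy).trans hs)) (hp y)
    exact ⟨q, a, b⟩
  choose! q hq hqm using hl
  obtain ⟨Y1, _, ξ1, φ1, po1⟩ := exists_isPO φ0 g1
  obtain ⟨ξ2, a1, a2⟩ := po1.exists_lift ξ (φ.comp f1) (by
    rw [RingHom.comp_assoc, fac1, h.comm])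
  have po2 : IsPO φ1 f1 ξ2 φ := po1.cancel a2 (by rwa [fac1, a1])
  obtain ⟨B2, _, Y2, _, g2, f2, φ2, η1, η2, st, hz⟩ := desc_zero (β := g1.comp β)
    (by rwa [← RingHom.comp_assoc, fac1]) e1.finitePresentation po2
    (t.image fun y => (q y).eval₂ φ1 (ξ1 y)) (by
      intro z hz
      obtain ⟨y, hy, rfl⟩ := Finset.mem_image.1 hz
      rw [Polynomial.hom_eval₂, a2, ← Polynomial.eval₂_map, hq y hy, ← RingHom.comp_apply, a1]
      exact hp0 y)
  have po := po1.paste st.po1
  refine ⟨B2, inferInstance, g2.comp g1, f2, st.ep, by rw [← RingHom.comp_assoc, st.fac, fac1],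
    fun Y' _ φ' ξ' po' => ?_⟩
  obtain ⟨e, -, he⟩ := po.exists_equiv po'
  rw [← he]
  refine RingHom.Finite.comp (RingHom.Finite.of_surjective _ e.surjective)
    (RingHom.IsIntegral.to_finite ?_ (po.finiteType hφ0))
  let _ := φ2.toAlgebra
  intro z
  refine po.mem_subring (integralClosure B2 Y2).toSubring (fun y => ?_)
    (fun b => (integralClosure B2 Y2).algebraMap_mem b) z
  have hy : y ∈ Algebra.adjoin B (t : Set Y0) := ht ▸ Algebra.mem_top
  induction hy using Algebra.adjoin_induction with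
  | mem y hy =>
    refine ⟨(q y).map g2, (hqm y hy).map _, ?_⟩
    have := hz _ (Finset.mem_image_of_mem _ hy)
    rw [Polynomial.hom_eval₂, st.po1.comm, ← Polynomial.eval₂_map] at this
    exact this
  | algebraMap b =>
    have := po.comm_apply b
    change (η1.comp ξ1) (φ0 b) ∈ _
    rw [this]
    exact (integralClosure B2 Y2).algebraMap_mem _
  | add x y _ _ hx hy =>
    rw [map_add]
    exact add_mem hx hy
  | mul x y _ _ hx hy =>
    rw [map_mul]
    exact mul_mem hx hy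

theorem desc_etN {β : κ →+* B} {f : B →+* R} (hR : IndEP (f.comp β)) (hβ : β.FinitePresentation)
    {ι : Type} [Finite ι] {φ : R →+* Y} {x : ι → Y} (hx : EtN φ x) :
    ∃ (B' : Type u) (_ : CommRing B') (Y' : Type u) (_ : CommRing Y') (g : B →+* B') (f' : B' →+* R)
      (φ' : B' →+* Y') (ξ2 : Y' →+* Y) (x' : ι → Y'), EP (g.comp β) ∧ f'.comp g = f ∧
        IsPO φ' f' ξ2 φ ∧ EtN φ' x' ∧ ∀ k, ξ2 (x' k) = x k := by
  classical
  obtain ⟨n, y, F, h1, h2, h3⟩ := etale_presentation hx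
  obtain ⟨B', _, g, f', e1, fac, hs⟩ := Desc_range hR hβ
    (s := ⋃ i, ⋃ c ∈ (F i).coeffs, (c.coeffs : Set R))
    (Set.finite_iUnion fun i => (Finset.finite_toSet _).biUnion fun _ _ => Finset.finite_toSet _)
  have hl : ∀ i, F i ∈ Set.range (MvPolynomial.map (σ := Fin n) (MvPolynomial.map (σ := ι) f')) :=
    fun i => MvPolynomial.mem_range_map_iff_coeffs_subset.2 fun c hc =>
      MvPolynomial.mem_range_map_iff_coeffs_subset.2 fun r hr =>
        hs (Set.mem_iUnion.2 ⟨i, Set.mem_biUnion hc hr⟩)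
  choose F' hF' using hl
  obtain rfl : (fun i => MvPolynomial.map (MvPolynomial.map f') (F' i)) = F := funext hF'
  obtain ⟨Y', _, ε', ξ, het, po⟩ := Desc_etale _ h1 h2 h3
  refine ⟨B', inferInstance, Y', inferInstance, g, f', ε'.comp MvPolynomial.C, ξ,
    fun k => ε' (MvPolynomial.X k), e1, fac, ?_, ?_, fun k => ?_⟩
  · have := (isPO_mvPolynomial ι f').paste' po
    convert this using 1
    ext r
    simp
  · unfold EtN
    convert het using 1
    exact MvPolynomial.ringHom_ext (fun a => by simp) fun j => by simp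
  · simpa using po.comm_apply (MvPolynomial.X k)

theorem desc_et1 {β : κ →+* B} {f : B →+* R} (hR : IndEP (f.comp β)) (hβ : β.FinitePresentation)
    {φ : R →+* Y} {u : Y} (hu : Et1 φ u) :
    ∃ (B' : Type u) (_ : CommRing B') (Y' : Type u) (_ : CommRing Y') (g : B →+* B') (f' : B' →+* R)
      (φ' : B' →+* Y') (ξ2 : Y' →+* Y) (u' : Y'), EP (g.comp β) ∧ f'.comp g = f ∧
        IsPO φ' f' ξ2 φ ∧ Et1 φ' u' ∧ ξ2 u' = u := by
  obtain ⟨B', _, Y', _, g, f', φ', ξ2, x', a, b, c, d, e⟩ :=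
    desc_etN hR hβ (ι := Unit) (x := fun _ => u) (etN_unique_iff.2 hu)
  exact ⟨B', inferInstance, Y', inferInstance, g, f', φ', ξ2, x' default, a, b, c,
    etN_unique_iff.1 d, e _⟩

theorem desc_finMod {β : κ →+* B} {f : B →+* R} (hR : IndEP (f.comp β))
    (hβ : β.FinitePresentation) {φ0 : B →+* Y0} {ξ : Y0 →+* Y} {φ : R →+* Y} (h : IsPO φ0 f ξ φ)
    (hφ0 : φ0.FiniteType) (J : Ideal Y0) (hJ : FinMod φ (J.map ξ)) :
    ∃ (B' : Type u) (_ : CommRing B') (Y' : Type u) (_ : CommRing Y') (g : B →+* B') (f' : B' →+* R)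
      (φ' : B' →+* Y') (ξ1 : Y0 →+* Y') (ξ2 : Y' →+* Y), IsStage β f φ0 ξ φ g f' φ' ξ1 ξ2 ∧
        FinMod φ' (J.map ξ1) := by
  obtain ⟨B', _, g, f', e1, fac, hfin⟩ := Desc_finite hR hβ (h.quotient J)
    (RingHom.FiniteType.comp_surjective hφ0 Ideal.Quotient.mk_surjective) hJ
  obtain ⟨Y', _, ξ1, φ', po1⟩ := exists_isPO φ0 g
  obtain ⟨ξ2, a1, a2⟩ := po1.exists_lift ξ (φ.comp f') (by rw [RingHom.comp_assoc, fac, h.comm])
  exact ⟨B', inferInstance, Y', inferInstance, g, f', φ', ξ1, ξ2,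
    ⟨e1, fac, po1, po1.cancel a2 (by rwa [fac, a1]), a1⟩, hfin _ _ _ (po1.quotient J)⟩

end KEW
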