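import Pool.Agent.P.MP_6277db_ag.KEW.CA.Et

/-!
KEW L4.1: descent (noetherian approximation) over an `IndEP` ring.
Setting: `f : B → R` with `B` finitely presented over `κ`, `R` `IndEP` over `κ`, `Y = Y0 ⊗_B R`.
Hints.  `desc_base`: apply `IndEP` to `D`.  `desc_zero`: let `Π = MvPolynomial R B ↠ R` with kernel `𝔨`;
`Y = MvPolynomial R Y0 ⧸ 𝔨` (`isPO_mvPolynomial`, `IsPO.cancel`, `IsPO.ker_eq`), so `C z = Σ p_i * map k_i`; only finitely
many variables `s` occur (`MvPolynomial.exists_finset_rename`, `killCompl`), `B1 = MvPolynomial s B ⧸ (k_i)` is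
finitely presented and kills `z`; factor `B1 → R` through an `EP` algebra.
`desc_elt`: `IsPO.induction`.  `desc_map`: generators by `desc_elt`, relations by `desc_zero`.
`desc_etN`: `etale_presentation` over `MvPolynomial ι R`; adjoin the finitely many coefficients of the `f_i` to `B`,
take the locus where the Jacobian is invertible (`etN_of_jacobian`, `EtN.etale_quotient`).
`desc_finMod`: monic equations of algebra generators modulo `J`, coefficients by `desc_base`, cofactors by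
`desc_elt`, the equations by `desc_zero`.
-/

namespace KEW

universe u

variable {κ B R Y0 Y : Type u} [CommRing κ] [CommRing B] [CommRing R] [CommRing Y0] [CommRing Y]

/-- A stage: `B → B' → R` with `B'` an `EP` algebra, `Y' = Y0 ⊗_B B'`. -/
structure IsStage {B' Y' : Type u} [CommRing B'] [CommRing Y'] (β : κ →+* B) (f : B →+* R)
    (φ0 : B →+* Y0) (ξ : Y0 →+* Y) (φ : R →+* Y) (g : B →+* B') (f' : B' →+* R) (φ' : B' →+* Y')
    (ξ1 : Y0 →+* Y') (ξ2 : Y' →+* Y) : Prop where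
  ep : EP (g.comp β)
  fac : f'.comp g = f
  po1 : IsPO φ0 g ξ1 φ'
  po2 : IsPO φ' f' ξ2 φ
  fac2 : ξ2.comp ξ1 = ξ

theorem desc_base {β : κ →+* B} {f : B →+* R} (hR : IndEP (f.comp β)) (hβ : β.FinitePresentation)
    {D : Type u} [CommRing D] {δ : B →+* D} (hδ : δ.FinitePresentation) (w : D →+* R)
    (hw : w.comp δ = f) :
    ∃ (B' : Type u) (_ : CommRing B') (g : D →+* B') (f' : B' →+* R),
      EP ((g.comp δ).comp β) ∧ f'.comp g = w :=
  hR D (δ.comp β) w (hδ.comp hβ) (by rw [← hw]; rfl)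

/-- The stage attached to a finitely presented algebra mapping to `R`. -/
theorem Desc0_stage {β : κ →+* B} {f : B →+* R} (hR : IndEP (f.comp β))
    (hβ : β.FinitePresentation) {φ0 : B →+* Y0} {ξ : Y0 →+* Y} {φ : R →+* Y}
    (h : IsPO φ0 f ξ φ) {D : Type u} [CommRing D] {δ : B →+* D} (hδ : δ.FinitePresentation)
    (w : D →+* R) (hw : w.comp δ = f) :
    ∃ (B' : Type u) (_ : CommRing B') (Y' : Type u) (_ : CommRing Y') (g : D →+* B')
      (f' : B' →+* R) (φ' : B' →+* Y') (ξ1 : Y0 →+* Y') (ξ2 : Y' →+* Y),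
      IsStage β f φ0 ξ φ (g.comp δ) f' φ' ξ1 ξ2 ∧ f'.comp g = w := by
  obtain ⟨B', _, g, f', hep, hfac⟩ := desc_base hR hβ hδ w hw
  obtain ⟨Y', _, ξ1, φ', hpo⟩ := exists_isPO φ0 (g.comp δ)
  have hf : f'.comp (g.comp δ) = f := by rw [← hw, ← hfac]; rfl
  obtain ⟨ξ2, h1, h2⟩ := hpo.exists_lift ξ (φ.comp f') (by rw [h.comm, ← hf]; rfl)
  exact ⟨B', inferInstance, Y', inferInstance, g, f', φ', ξ1, ξ2,
    ⟨hep, hf, hpo, hpo.cancel h2 (by rw [hf, h1]; exact h), h1⟩, hfac⟩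

theorem Desc0_isPO_mv (ι : Type u) (g : B →+* Y0) :
    IsPO (MvPolynomial.C : B →+* MvPolynomial ι B) g (MvPolynomial.map g)
      (MvPolynomial.C : Y0 →+* MvPolynomial ι Y0) := by
  refine IsPO.of_universal (RingHom.ext fun b => MvPolynomial.map_C g b)
    (fun Z _ k l w => ⟨MvPolynomial.eval₂Hom l fun r => k (MvPolynomial.X r), ?_, ?_⟩)
    fun Z _ d d' h1 h2 => ?_
  · refine MvPolynomial.ringHom_ext (fun b => ?_) fun r => ?_
    · have := RingHom.congr_fun w b
      simp only [RingHom.comp_apply] at this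
      simp [this]
    · simp
  · exact RingHom.ext fun y => by simp
  · refine MvPolynomial.ringHom_ext (fun y => RingHom.congr_fun h2 y) fun r => ?_
    have := RingHom.congr_fun h1 (MvPolynomial.X r)
    simpa using this

theorem Desc0_fp_C (ι : Type u) [Finite ι] :
    (MvPolynomial.C : B →+* MvPolynomial ι B).FinitePresentation := by
  change (algebraMap B (MvPolynomial ι B)).FinitePresentation
  rw [RingHom.finitePresentation_algebraMap]
  infer_instance

/-- Finitely many elements of an extended ideal come from finitely many generators. -/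
theorem Desc0_finset {P P' : Type u} [CommRing P] [CommRing P'] (m : P →+* P') (I : Ideal P)
    (s : Finset P') (hs : ∀ z ∈ s, z ∈ I.map m) :
    ∃ K : Finset P, (∀ k ∈ K, k ∈ I) ∧ ∀ z ∈ s, z ∈ Ideal.span (m '' (K : Set P)) := by
  classical
  have h1 : ∀ z ∈ I.map m, ∃ K : Finset P, (∀ k ∈ K, k ∈ I) ∧
      z ∈ Ideal.span (m '' (K : Set P)) := by
    intro z hz
    obtain ⟨t, ht, hz'⟩ := Submodule.mem_span_finite_of_mem_span hz
    obtain ⟨K, hK, rfl⟩ := Finset.subset_set_image_iff.1 ht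
    exact ⟨K, fun k hk => hK hk, by rwa [Finset.coe_image] at hz'⟩
  choose! K hK hK' using h1
  refine ⟨s.biUnion K, fun k hk => ?_, fun z hz => ?_⟩
  · obtain ⟨z, hz, hk'⟩ := Finset.mem_biUnion.1 hk
    exact hK z (hs z hz) k hk'
  · refine Ideal.span_mono (Set.image_mono ?_) (hK' z (hs z hz))
    exact Finset.coe_subset.2 (Finset.subset_biUnion_of_mem K hz)

theorem desc_zero {β : κ →+* B} {f : B →+* R} (hR : IndEP (f.comp β)) (hβ : β.FinitePresentation)
    {φ0 : B →+* Y0} {ξ : Y0 →+* Y} {φ : R →+* Y} (h : IsPO φ0 f ξ φ) (s : Finset Y0)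
    (hs : ∀ z ∈ s, ξ z = 0) :
    ∃ (B' : Type u) (_ : CommRing B') (Y' : Type u) (_ : CommRing Y') (g : B →+* B') (f' : B' →+* R)
      (φ' : B' →+* Y') (ξ1 : Y0 →+* Y') (ξ2 : Y' →+* Y), IsStage β f φ0 ξ φ g f' φ' ξ1 ξ2 ∧
        ∀ z ∈ s, ξ1 z = 0 := by
  classical
  let π : MvPolynomial R B →+* R := MvPolynomial.eval₂Hom f id
  let θ : MvPolynomial R Y0 →+* Y := MvPolynomial.eval₂Hom ξ φ
  have hπ : Function.Surjective π := fun r => ⟨MvPolynomial.X r, by simp [π]⟩
  have hπC : π.comp MvPolynomial.C = f := RingHom.ext fun b => by simp [π]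
  have hθC : θ.comp MvPolynomial.C = ξ := RingHom.ext fun b => by simp [θ]
  have hpo : IsPO π (MvPolynomial.map φ0) φ θ := by
    refine (Desc0_isPO_mv R φ0).cancel' ?_ (by rw [hπC, hθC]; exact h.flip)
    refine MvPolynomial.ringHom_ext (fun b => ?_) fun r => ?_
    · simp [π, θ, h.comm_apply]
    · simp [π, θ]
  obtain ⟨K, hK, hK'⟩ := Desc0_finset (MvPolynomial.map φ0) (RingHom.ker π)
    (s.image MvPolynomial.C) (by
      intro z hz
      obtain ⟨y, hy, rfl⟩ := Finset.mem_image.1 hz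
      rw [← hpo.ker_eq hπ, RingHom.mem_ker]
      exact (RingHom.congr_fun hθC y).trans (hs y hy))
  let t : Finset R := K.biUnion MvPolynomial.vars
  let ρ : MvPolynomial R B →+* MvPolynomial t B := MvPolynomial.eval₂Hom MvPolynomial.C
    fun r => if hr : r ∈ t then MvPolynomial.X ⟨r, hr⟩ else 0
  let π' : MvPolynomial t B →+* R := MvPolynomial.eval₂Hom f Subtype.val
  let J : Ideal (MvPolynomial t B) := Ideal.span (ρ '' (K : Set (MvPolynomial R B)))
  have hJ : ∀ a ∈ J, π' a = 0 := by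
    intro a ha
    refine (Ideal.span_le.2 ?_ : J ≤ RingHom.ker π') ha
    rintro _ ⟨k, hk, rfl⟩
    have h1 : (π'.comp ρ) k = π k := by
      refine MvPolynomial.hom_congr_vars (RingHom.ext fun b => by simp [π, π', ρ])
        (fun r hr _ => ?_) rfl
      have h2 : r ∈ t := Finset.mem_biUnion.2 ⟨k, hk, hr⟩
      simp [π, π', ρ, h2]
    exact h1.trans (hK k hk)
  have hδ : ((Ideal.Quotient.mk J).comp MvPolynomial.C).FinitePresentation := by
    refine RingHom.FinitePresentation.comp_surjective (Desc0_fp_C t) Ideal.Quotient.mk_surjective ?_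
    rw [Ideal.mk_ker]
    exact Submodule.fg_span (K.finite_toSet.image ρ)
  obtain ⟨B', _, Y', _, g, f', φ', ξ1, ξ2, hst, _⟩ := Desc0_stage hR hβ h hδ
    (Ideal.Quotient.lift J π' hJ) (RingHom.ext fun b => by simp [π'])
  refine ⟨B', inferInstance, Y', inferInstance, _, f', φ', ξ1, ξ2, hst, fun z hz => ?_⟩
  let m : MvPolynomial R B →+* Y' := φ'.comp (g.comp ((Ideal.Quotient.mk J).comp ρ))
  let θ' : MvPolynomial R Y0 →+* Y' := MvPolynomial.eval₂Hom ξ1 fun r => m (MvPolynomial.X r)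
  have hm : θ'.comp (MvPolynomial.map φ0) = m := by
    refine MvPolynomial.ringHom_ext (fun b => ?_) fun r => ?_
    · have h1 := hst.po1.comm_apply b
      simp only [RingHom.comp_apply] at h1
      simp [θ', m, ρ, h1]
    · simp [θ']
  have h1 : θ' (MvPolynomial.C z) = 0 := by
    refine (Ideal.span_le.2 ?_ : Ideal.span _ ≤ RingHom.ker θ')
      (hK' _ (Finset.mem_image_of_mem _ hz))
    rintro _ ⟨k, hk, rfl⟩
    have h2 : Ideal.Quotient.mk J (ρ k) = 0 :=
      Ideal.Quotient.eq_zero_iff_mem.2 (Ideal.subset_span ⟨k, hk, rfl⟩)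
    refine (RingHom.congr_fun hm k).trans ?_
    change φ' (g (Ideal.Quotient.mk J (ρ k))) = 0
    rw [h2, map_zero, map_zero]
  simpa [θ'] using h1

theorem desc_elt {β : κ →+* B} {f : B →+* R} (hR : IndEP (f.comp β)) (hβ : β.FinitePresentation)
    {φ0 : B →+* Y0} {ξ : Y0 →+* Y} {φ : R →+* Y} (h : IsPO φ0 f ξ φ) (s : Finset Y) :
    ∃ (B' : Type u) (_ : CommRing B') (Y' : Type u) (_ : CommRing Y') (g : B →+* B') (f' : B' →+* R)
      (φ' : B' →+* Y') (ξ1 : Y0 →+* Y') (ξ2 : Y' →+* Y), IsStage β f φ0 ξ φ g f' φ' ξ1 ξ2 ∧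
        ∀ y ∈ s, ∃ y', ξ2 y' = y := by
  classical
  have hmono : ∀ t t' : Finset R, t ⊆ t' →
      Subring.closure (Set.range ξ ∪ φ '' (t : Set R)) ≤
        Subring.closure (Set.range ξ ∪ φ '' (t' : Set R)) := fun t t' ht =>
    Subring.closure_mono (Set.union_subset_union_right _ (Set.image_mono ht))
  have h1 : ∀ y : Y, ∃ t : Finset R, y ∈ Subring.closure (Set.range ξ ∪ φ '' (t : Set R)) := by
    intro y
    refine h.induction
      (q := fun y => ∃ t : Finset R, y ∈ Subring.closure (Set.range ξ ∪ φ '' (t : Set R)))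
      ⟨∅, zero_mem _⟩ (fun a r => ⟨{r}, mul_mem (Subring.subset_closure (Or.inl ⟨a, rfl⟩))
        (Subring.subset_closure (Or.inr ⟨r, by simp, rfl⟩))⟩) ?_ y
    rintro x y ⟨t, ht⟩ ⟨t', ht'⟩
    exact ⟨t ∪ t', add_mem (hmono _ _ Finset.subset_union_left ht)
      (hmono _ _ Finset.subset_union_right ht')⟩
  choose T hT using h1
  let t : Finset R := s.biUnion T
  obtain ⟨B', _, Y', _, g, f', φ', ξ1, ξ2, hst, hfac⟩ := Desc0_stage hR hβ h (Desc0_fp_C t)
    (MvPolynomial.eval₂Hom f Subtype.val) (RingHom.ext fun b => by simp)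
  refine ⟨B', inferInstance, Y', inferInstance, _, f', φ', ξ1, ξ2, hst, fun y hy => ?_⟩
  have h2 : Subring.closure (Set.range ξ ∪ φ '' (t : Set R)) ≤ ξ2.range := by
    refine Subring.closure_le.2 ?_
    rintro _ (⟨a, rfl⟩ | ⟨r, hr, rfl⟩)
    · exact ⟨ξ1 a, RingHom.congr_fun hst.fac2 a⟩
    · refine ⟨φ' (g (MvPolynomial.X ⟨r, hr⟩)), ?_⟩
      have h3 := RingHom.congr_fun hfac (MvPolynomial.X ⟨r, hr⟩)
      simp only [RingHom.comp_apply, MvPolynomial.coe_eval₂Hom, MvPolynomial.eval₂_X] at h3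
      rw [hst.po2.comm_apply, h3]
  exact h2 (hmono _ _ (Finset.subset_biUnion_of_mem T hy) (hT y))

/-- Stages compose. -/
theorem Desc0_trans {β : κ →+* B} {f : B →+* R} {φ0 : B →+* Y0} {ξ : Y0 →+* Y} {φ : R →+* Y}
    {B1 Y1 B2 Y2 : Type u} [CommRing B1] [CommRing Y1] [CommRing B2] [CommRing Y2]
    {g1 : B →+* B1} {f1 : B1 →+* R} {φ1 : B1 →+* Y1} {ξ1 : Y0 →+* Y1} {ξ2 : Y1 →+* Y}
    {g2 : B1 →+* B2} {f2 : B2 →+* R} {φ2 : B2 →+* Y2} {η1 : Y1 →+* Y2} {η2 : Y2 →+* Y}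
    (h1 : IsStage β f φ0 ξ φ g1 f1 φ1 ξ1 ξ2) (h2 : IsStage (g1.comp β) f1 φ1 ξ2 φ g2 f2 φ2 η1 η2) :
    IsStage β f φ0 ξ φ (g2.comp g1) f2 φ2 (η1.comp ξ1) η2 :=
  ⟨h2.ep, by rw [← h1.fac, ← h2.fac]; rfl, h1.po1.paste h2.po1, h2.po2,
    by rw [← h1.fac2, ← h2.fac2]; rfl⟩

theorem desc_map {β : κ →+* B} {f : B →+* R} (hR : IndEP (f.comp β)) (hβ : β.FinitePresentation)
    {φ0 : B →+* Y0} {ξ : Y0 →+* Y} {φ : R →+* Y} (h : IsPO φ0 f ξ φ) {D0 D : Type u} [CommRing D0]
    [CommRing D] (d0 : D0 →+* Y0) {δ : D0 →+* D} (hδ : δ.FinitePresentation) (w : D →+* Y)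
    (hw : w.comp δ = ξ.comp d0) :
    ∃ (B' : Type u) (_ : CommRing B') (Y' : Type u) (_ : CommRing Y') (g : B →+* B') (f' : B' →+* R)
      (φ' : B' →+* Y') (ξ1 : Y0 →+* Y') (ξ2 : Y' →+* Y), IsStage β f φ0 ξ φ g f' φ' ξ1 ξ2 ∧
        ∃ w' : D →+* Y', ξ2.comp w' = w ∧ w'.comp δ = ξ1.comp d0 := by
  classical
  have h0 : ∃ (n : ℕ) (π : MvPolynomial (Fin n) D0 →+* D), Function.Surjective π ∧
      π.comp MvPolynomial.C = δ ∧ (RingHom.ker π).FG := by
    let _ := δ.toAlgebra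
    obtain ⟨n, π, h1, h2⟩ := Algebra.FinitePresentation.out (self := hδ)
    exact ⟨n, π.toRingHom, h1, RingHom.ext fun a => π.commutes a, h2⟩
  obtain ⟨n, π, hπ, hπC, K, hK⟩ := h0
  obtain ⟨B1, _, Y1, _, g1, f1, φ1, ξ1, ξ2, h1, hy⟩ := desc_elt hR hβ h
    (Finset.univ.image fun i => w (π (MvPolynomial.X i)))
  choose y hy using fun i : Fin n => hy _ (Finset.mem_image_of_mem _ (Finset.mem_univ i))
  let v : MvPolynomial (Fin n) D0 →+* Y1 := MvPolynomial.eval₂Hom (ξ1.comp d0) y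
  have hv : ξ2.comp v = w.comp π := by
    refine MvPolynomial.ringHom_ext (fun a => ?_) fun i => ?_
    · have e1 := RingHom.congr_fun hw a
      have e2 := RingHom.congr_fun hπC a
      have e3 := RingHom.congr_fun h1.fac2 (d0 a)
      simp only [RingHom.comp_apply] at e1 e2 e3
      simp [v, e1, e2, e3]
    · simp [v, hy]
  have hR1 : IndEP (f1.comp (g1.comp β)) := by
    rw [← RingHom.comp_assoc, h1.fac]
    exact hR
  obtain ⟨B2, _, Y2, _, g2, f2, φ2, η1, η2, h2, hz⟩ := desc_zero hR1 h1.ep.finitePresentation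
    h1.po2 (K.image v) (by
      intro z hz
      obtain ⟨k, hk, rfl⟩ := Finset.mem_image.1 hz
      have e1 : π k = 0 := by
        rw [← RingHom.mem_ker, ← hK]
        exact Ideal.subset_span hk
      refine (RingHom.congr_fun hv k).trans ?_
      rw [RingHom.comp_apply, e1, map_zero])
  have hker : RingHom.ker π ≤ RingHom.ker (η1.comp v) := by
    rw [← hK, Ideal.span_le]
    exact fun k hk => hz _ (Finset.mem_image_of_mem v hk)
  let w' : D →+* Y2 := π.liftOfSurjective hπ ⟨η1.comp v, hker⟩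
  have hw' : ∀ p, w' (π p) = η1 (v p) := fun p =>
    π.liftOfRightInverse_comp_apply _ _ ⟨η1.comp v, hker⟩ p
  refine ⟨B2, inferInstance, Y2, inferInstance, _, f2, φ2, _, η2, Desc0_trans h1 h2, w',
    RingHom.ext fun a => ?_, RingHom.ext fun a => ?_⟩
  · obtain ⟨p, rfl⟩ := hπ a
    rw [RingHom.comp_apply, hw']
    exact (RingHom.congr_fun h2.fac2 (v p)).trans (RingHom.congr_fun hv p)
  · rw [← hπC]
    refine (hw' (MvPolynomial.C a)).trans ?_
    simp [v]

end KEW
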