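import Pool.Agent.P.MP_6277db_ag.KEW.CA.Et

/-!
KEW L4.1 (elementary part): API of `EE`, uniqueness and existence of lifts along etale maps.
Hints.  `UL`: `Algebra.FormallyUnramified.iff_exists_tensorProduct` gives `t : E ⊗ E` killing
`1 ⊗ y - y ⊗ 1` with `mul t = 1`; take `η = lift s s' t`.  `sec_loc`: apply `UL` to the two maps
`E → E ⧸ (ker π) E` given by the projection and by `σ ∘ s`, `σ : D = C ⧸ ker π → E ⧸ (ker π) E`.
`HL0`: `R' = (E ⊗_C R)[1/e]`, `e` from `sec_loc` for `R → R ⧸ I`.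
`EE.of_radical`: an etale map which is bijective modulo a nil ideal is bijective (lift the inverse with
`etale_lift_nil`, compare with `UL`: an `η ≡ 1` modulo a nil ideal is a unit).
`etale_lift_nil`: a finitely presented algebra only sees a finitely generated (so nilpotent) part of `N`:
present `E = C[x]/(f)`, lift the images of the `x`, `N0 = (f(lifts))` is nilpotent, then
`Algebra.FormallySmooth.exists_lift`.
-/

namespace KEW

universe u

open Polynomial

variable {R S T P Z C E D : Type u} [CommRing R] [CommRing S] [CommRing T] [CommRing P] [CommRing Z]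
  [CommRing C] [CommRing E] [CommRing D]

theorem EE1_bij_iff {I : Ideal R} {J : Ideal S} {φ : R →+* S} (h : I ≤ J.comap φ) :
    Function.Bijective (Ideal.quotientMap J φ h) ↔
      (∀ y : S, ∃ x : R, y - φ x ∈ J) ∧ ∀ x : R, φ x ∈ J → x ∈ I := by
  constructor
  · rintro ⟨h1, h2⟩
    refine ⟨fun y => ?_, fun x hx => ?_⟩
    · obtain ⟨q, hq⟩ := h2 (Ideal.Quotient.mk J y)
      obtain ⟨x, rfl⟩ := Ideal.Quotient.mk_surjective q
      rw [Ideal.quotientMap_mk] at hq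
      exact ⟨x, Ideal.Quotient.eq.1 hq.symm⟩
    · rw [← Ideal.Quotient.eq_zero_iff_mem]
      apply h1
      rw [Ideal.quotientMap_mk, map_zero, Ideal.Quotient.eq_zero_iff_mem]
      exact hx
  · rintro ⟨h1, h2⟩
    refine ⟨(injective_iff_map_eq_zero _).2 fun q hq => ?_, fun q => ?_⟩
    · obtain ⟨x, rfl⟩ := Ideal.Quotient.mk_surjective q
      rw [Ideal.quotientMap_mk, Ideal.Quotient.eq_zero_iff_mem] at hq
      exact Ideal.Quotient.eq_zero_iff_mem.2 (h2 x hq)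
    · obtain ⟨y, rfl⟩ := Ideal.Quotient.mk_surjective q
      obtain ⟨x, hx⟩ := h1 y
      refine ⟨Ideal.Quotient.mk I x, ?_⟩
      rw [Ideal.quotientMap_mk]
      exact (Ideal.Quotient.eq.2 hx).symm

theorem EE1_kill {I : Ideal R} {φ : R →+* S} {s : S →+* Z} (hs : ∀ x ∈ I, s (φ x) = 0) {y : S}
    (hy : y ∈ I.map φ) : s y = 0 :=
  (Ideal.map_le_iff_le_comap.2 (fun x hx => hs x hx) : I.map φ ≤ RingHom.ker s) hy

theorem EE1_mem_comp {I : Ideal R} {φ : R →+* S} (ψ : S →+* T) {y : S} (hy : y ∈ I.map φ) :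
    ψ y ∈ I.map (ψ.comp φ) := by
  rw [← Ideal.map_map]
  exact Ideal.mem_map_of_mem ψ hy

theorem ee_iff {I : Ideal R} {φ : R →+* S} : EE I φ ↔
    φ.Etale ∧ Function.Bijective (Ideal.quotientMap (I.map φ) φ Ideal.le_comap_map) := by
  rw [EE1_bij_iff]
  exact ⟨fun h => ⟨h.etale, h.surj, h.inj⟩, fun h => ⟨h.1, h.2.1, h.2.2⟩⟩

theorem EE1_retract {I : Ideal R} {φ : R →+* S} (h : EE I φ) (s : R →+* Z)
    (hs : ∀ x ∈ I, s x = 0) : ∃ s' : S →+* Z, s'.comp φ = s := by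
  let e := RingEquiv.ofBijective _ (ee_iff.1 h).2
  refine ⟨((Ideal.Quotient.lift I s hs).comp e.symm.toRingHom).comp (Ideal.Quotient.mk _), ?_⟩
  ext x
  have h1 : e.symm (Ideal.Quotient.mk _ (φ x)) = Ideal.Quotient.mk I x :=
    e.symm_apply_eq.2 rfl
  change Ideal.Quotient.lift I s hs (e.symm (Ideal.Quotient.mk _ (φ x))) = s x
  rw [h1, Ideal.Quotient.lift_mk]

theorem ee_span_iff {σ : R} {σ' : S} {φ : R →+* S} (hσ : φ σ = σ') : EE (Ideal.span {σ}) φ ↔
    φ.Etale ∧ Function.Bijective (qmap φ hσ) := by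
  have h1 : (Ideal.span {σ}).map φ = Ideal.span {σ'} := by
    rw [Ideal.map_span, Set.image_singleton, hσ]
  unfold qmap
  rw [EE1_bij_iff, ← h1]
  exact ⟨fun h => ⟨h.etale, h.surj, h.inj⟩, fun h => ⟨h.1, h.2.1, h.2.2⟩⟩

theorem ee_of_bijective (I : Ideal R) {φ : R →+* S} (h : Function.Bijective φ) : EE I φ := by
  refine ⟨RingHom.Etale.of_bijective h, fun y => ?_, fun x hx => ?_⟩
  · obtain ⟨x, rfl⟩ := h.2 y
    exact ⟨x, by rw [sub_self]; exact zero_mem _⟩
  · rw [← Ideal.comap_map_of_bijective φ h (I := I)]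
    exact hx

theorem ee_id (I : Ideal R) : EE I (RingHom.id R) := ee_of_bijective I Function.bijective_id

theorem ee_bot_iff {φ : R →+* S} : EE ⊥ φ ↔ Function.Bijective φ := by
  refine ⟨fun h => ⟨(injective_iff_map_eq_zero _).2 fun x hx => ?_, fun y => ?_⟩,
    ee_of_bijective ⊥⟩
  · exact Ideal.mem_bot.1 (h.inj x (by rw [hx]; exact zero_mem _))
  · obtain ⟨x, hx⟩ := h.surj y
    rw [Ideal.map_bot, Ideal.mem_bot, sub_eq_zero] at hx
    exact ⟨x, hx.symm⟩

theorem EE.comp {I : Ideal R} {φ : R →+* S} {ψ : S →+* T} (h : EE I φ) (h' : EE (I.map φ) ψ) :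
    EE I (ψ.comp φ) := by
  refine ⟨etale_comp h.etale h'.etale, fun y => ?_, fun x hx => ?_⟩
  · obtain ⟨s, hs⟩ := h'.surj y
    obtain ⟨x, hx⟩ := h.surj s
    rw [Ideal.map_map] at hs
    have h1 := add_mem hs (EE1_mem_comp ψ hx)
    rw [map_sub, sub_add_sub_cancel] at h1
    exact ⟨x, h1⟩
  · rw [← Ideal.map_map] at hx
    exact h.inj x (h'.inj _ hx)

theorem EE.cancel {I : Ideal R} {φ : R →+* S} {ψ : S →+* T} (h : EE I φ) (h' : EE I (ψ.comp φ)) :
    EE (I.map φ) ψ := by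
  refine ⟨etale_cancel h.etale h'.etale, fun y => ?_, fun s hs => ?_⟩
  · obtain ⟨x, hx⟩ := h'.surj y
    rw [Ideal.map_map]
    exact ⟨φ x, hx⟩
  · obtain ⟨x, hx⟩ := h.surj s
    rw [Ideal.map_map] at hs
    have h1 := sub_mem hs (EE1_mem_comp ψ hx)
    rw [map_sub, sub_sub_cancel] at h1
    have h2 := add_mem hx (Ideal.mem_map_of_mem φ (h'.inj x h1))
    rwa [sub_add_cancel] at h2

theorem EE.mono {I J : Ideal R} {φ : R →+* S} (h : EE I φ) (hIJ : I ≤ J) : EE J φ := by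
  refine ⟨h.etale, fun y => ?_, fun x hx => ?_⟩
  · obtain ⟨x, hx⟩ := h.surj y
    exact ⟨x, Ideal.map_mono hIJ hx⟩
  · obtain ⟨s, hs⟩ := EE1_retract h (Ideal.Quotient.mk J)
      fun x hx => Ideal.Quotient.eq_zero_iff_mem.2 (hIJ hx)
    have h1 : ∀ x, s (φ x) = Ideal.Quotient.mk J x := RingHom.congr_fun hs
    rw [← Ideal.Quotient.eq_zero_iff_mem, ← h1]
    exact EE1_kill (fun z hz => by rw [h1]; exact Ideal.Quotient.eq_zero_iff_mem.2 hz) hx

theorem IsPO.ee {f : R →+* S} {g : R →+* T} {i : S →+* P} {j : T →+* P} (h : IsPO f g i j)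
    {I : Ideal R} (hf : EE I f) : EE (I.map g) j := by
  refine ⟨h.etale hf.etale, fun p => ?_, fun t ht => ?_⟩
  · refine h.induction (q := fun p => ∃ x : T, p - j x ∈ (I.map g).map j)
      ⟨0, by rw [map_zero, sub_zero]; exact zero_mem _⟩ (fun s t => ?_) ?_ p
    · obtain ⟨r, hr⟩ := hf.surj s
      have h1 := EE1_mem_comp i hr
      rw [h.comm, ← Ideal.map_map, map_sub, h.comm_apply] at h1
      refine ⟨g r * t, ?_⟩
      rw [map_mul, ← sub_mul]
      exact Ideal.mul_mem_right _ _ h1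
    · rintro x y ⟨a, ha⟩ ⟨b, hb⟩
      refine ⟨a + b, ?_⟩
      rw [map_add, add_sub_add_comm]
      exact add_mem ha hb
  · obtain ⟨k, hk⟩ := EE1_retract hf ((Ideal.Quotient.mk (I.map g)).comp g)
      fun x hx => Ideal.Quotient.eq_zero_iff_mem.2 (Ideal.mem_map_of_mem g hx)
    obtain ⟨d, -, hd⟩ := h.exists_lift k (Ideal.Quotient.mk (I.map g)) hk
    have h1 : ∀ x, d (j x) = Ideal.Quotient.mk (I.map g) x := RingHom.congr_fun hd
    rw [← Ideal.Quotient.eq_zero_iff_mem, ← h1]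
    exact EE1_kill (fun z hz => by rw [h1]; exact Ideal.Quotient.eq_zero_iff_mem.2 hz) ht

theorem IsAway.ee {l : R →+* S} {r : R} (h : IsAway l r) {I : Ideal R}
    (hr : ∃ c, c * r - 1 ∈ I) : EE I l := by
  obtain ⟨c, hc⟩ := hr
  have hp : ∀ n : ℕ, (c * r) ^ n - 1 ∈ I := fun n =>
    I.mem_of_dvd (sub_one_dvd_pow_sub_one (c * r) n) hc
  refine ⟨h.etale, fun z => ?_, fun x hx => ?_⟩
  · obtain ⟨x, n, hx⟩ := h.surj z
    refine ⟨c ^ n * x, ?_⟩
    have h1 : z - l (c ^ n * x) = -z * l ((c * r) ^ n - 1) := by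
      rw [map_mul, ← hx, map_sub, map_one, map_pow, map_pow, map_mul]
      ring
    rw [h1]
    exact Ideal.mul_mem_left _ _ (Ideal.mem_map_of_mem l (hp n))
  · obtain ⟨n, hn⟩ := (h.mem_map_iff I x).1 hx
    have h1 : x = c ^ n * (r ^ n * x) - ((c * r) ^ n - 1) * x := by ring
    rw [h1]
    exact sub_mem (I.mul_mem_left _ hn) (I.mul_mem_right _ (hp n))

/-- Elements which are units modulo `I` become units eventually. -/
theorem exists_ee_isUnit (I : Ideal R) {r : R} (hr : ∃ c, c * r - 1 ∈ I) :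
    ∃ (R' : Type u) (_ : CommRing R') (ρ : R →+* R'), EE I ρ ∧ IsAway ρ r := by
  obtain ⟨R', _, ρ, h⟩ := exists_isAway r
  exact ⟨R', _, ρ, h.ee hr, h⟩

/-- Common refinement. -/
theorem EE.common {I : Ideal R} {φ : R →+* S} {ψ : R →+* T} (h : EE I φ) (h' : EE I ψ) :
    ∃ (P : Type u) (_ : CommRing P) (i : S →+* P) (j : T →+* P), IsPO φ ψ i j ∧
      EE (I.map φ) i ∧ EE (I.map ψ) j ∧ EE I (i.comp φ) := by
  obtain ⟨P, _, i, j, hp⟩ := exists_isPO φ ψ
  exact ⟨P, _, i, j, hp, hp.flip.ee h', hp.ee h, h.comp (hp.flip.ee h')⟩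

theorem EE.noeth {I : Ideal R} {φ : R →+* S} (h : EE I φ) [IsNoetherianRing R] :
    IsNoetherianRing S := noeth_of_finiteType (etale_finiteType h.etale)

theorem EE.exists_retract {I : Ideal R} {φ : R →+* S} (h : EE I φ) (s : R →+* Z)
    (hs : ∀ x ∈ I, s x = 0) : ∃ s' : S →+* Z, s'.comp φ = s := EE1_retract h s hs

theorem EE.hom_ext {I : Ideal R} {φ : R →+* S} (h : EE I φ) {s s' : S →+* Z}
    (hs : ∀ x ∈ I, s (φ x) = 0) (w : s.comp φ = s'.comp φ) : s = s' := by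
  have h1 : ∀ x, s (φ x) = s' (φ x) := RingHom.congr_fun w
  ext y
  obtain ⟨x, hx⟩ := h.surj y
  have h2 := EE1_kill hs hx
  have h3 := EE1_kill (s := s') (fun z hz => by rw [← h1, hs z hz]) hx
  rw [map_sub, sub_eq_zero] at h2 h3
  rw [h2, h3, h1]

/-- Two maps which agree on `R` are congruent modulo `I`. -/
theorem EE.sub_mem {I : Ideal R} {φ : R →+* S} (h : EE I φ) {s s' : S →+* Z}
    (w : s.comp φ = s'.comp φ) (y : S) : s y - s' y ∈ I.map (s.comp φ) := by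
  have h1 : ∀ x, s (φ x) = s' (φ x) := RingHom.congr_fun w
  obtain ⟨x, hx⟩ := h.surj y
  have h2 := EE1_mem_comp s' hx
  rw [← w] at h2
  have h3 := Ideal.sub_mem _ (EE1_mem_comp s hx) h2
  rwa [map_sub, map_sub, h1, sub_sub_sub_cancel_right] at h3

/-- A point with kernel `I` extends, with kernel `I S`. -/
theorem EE.point {φ : R →+* S} {e : R →+* Z} (h : EE (RingHom.ker e) φ) :
    ∃ e' : S →+* Z, e'.comp φ = e ∧ RingHom.ker e' = (RingHom.ker e).map φ := by
  obtain ⟨e', he⟩ := EE1_retract h e fun _ hx => hx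
  have h1 : ∀ x, e' (φ x) = e x := RingHom.congr_fun he
  have h2 : ∀ y ∈ (RingHom.ker e).map φ, e' y = 0 := fun y hy =>
    EE1_kill (fun z hz => by rw [h1]; exact hz) hy
  refine ⟨e', he, le_antisymm (fun y hy => ?_) h2⟩
  obtain ⟨x, hx⟩ := h.surj y
  have h3 := h2 _ hx
  rw [map_sub, RingHom.mem_ker.1 hy, zero_sub, neg_eq_zero, h1] at h3
  have h4 := add_mem hx (Ideal.mem_map_of_mem φ (RingHom.mem_ker.2 h3))
  rwa [sub_add_cancel] at h4

end KEW
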