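import Pool.Agent.P.MP_6277db_ag.KEW.CA.Loc

/-!
KEW L4: API of `IsLoc`, `IsAway`, etale maps, `Et1`, `EtN`, `EP`, `FinMod`.
-/

namespace KEW

universe u

open Polynomial

variable {R S T P Z : Type u} [CommRing R] [CommRing S] [CommRing T] [CommRing P] [CommRing Z]

theorem etale_comp {f : R →+* S} {g : S →+* T} (hf : f.Etale) (hg : g.Etale) : (g.comp f).Etale :=
  RingHom.Etale.stableUnderComposition f g hf hg

theorem etale_cancel {f : R →+* S} {g : S →+* T} (hf : f.Etale) (h : (g.comp f).Etale) : g.Etale := by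
  algebraize [f, g, g.comp f]
  exact Algebra.Etale.of_restrictScalars R S T

theorem etale_finitePresentation {f : R →+* S} (hf : f.Etale) : f.FinitePresentation :=
  (RingHom.Etale.iff_flat_and_formallyUnramified.1 hf).2.2

theorem etale_finiteType {f : R →+* S} (hf : f.Etale) : f.FiniteType :=
  RingHom.FiniteType.of_finitePresentation (etale_finitePresentation hf)

theorem etale_flat {f : R →+* S} (hf : f.Etale) : f.Flat :=
  (RingHom.Etale.iff_flat_and_formallyUnramified.1 hf).1

theorem noeth_of_finiteType {f : R →+* S} (hf : f.FiniteType) [IsNoetherianRing R] :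
    IsNoetherianRing S := by
  algebraize [f]
  exact Algebra.FiniteType.isNoetherianRing R S

theorem Et_congr {f g : R →+* S} (h : f.Etale) (e : f = g) : g.Etale := e ▸ h

theorem Et_bij (f : R →+* S) (g : S →+* R) (h : f.comp g = RingHom.id S)
    (h' : g.comp f = RingHom.id R) : Function.Bijective f :=
  Function.bijective_iff_has_inverse.2 ⟨g, RingHom.congr_fun h', RingHom.congr_fun h⟩

theorem Et_iff {e : R →+* S} {g : S →+* T} {f : R →+* T} (he : Function.Bijective e)
    (w : g.comp e = f) : f.Etale ↔ g.Etale :=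
  ⟨fun h => etale_cancel (.of_bijective he) (Et_congr h w.symm),
    fun h => Et_congr (etale_comp (.of_bijective he) h) w⟩

theorem Et_ev1 (φ : R →+* S) (u : S) (g : S →+* T) :
    g.comp (eval₂RingHom φ u) = eval₂RingHom (g.comp φ) (g u) := by
  ext <;> simp

theorem Et_map1 (ρ : R →+* S) (φ : S →+* T) (u : T) :
    (eval₂RingHom φ u).comp (mapRingHom ρ) = eval₂RingHom (φ.comp ρ) u := by
  ext <;> simp

theorem Et_mapN {ι : Type} (ρ : R →+* S) (φ : S →+* T) (x : ι → T) :
    (MvPolynomial.eval₂Hom φ x).comp (MvPolynomial.map ρ) =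
      MvPolynomial.eval₂Hom (φ.comp ρ) x := by
  refine MvPolynomial.ringHom_ext (fun _ => ?_) (fun _ => ?_) <;> simp

theorem Et_ubij {ι : Type} [Unique ι] :
    Function.Bijective (MvPolynomial.eval₂Hom (C : R →+* R[X]) fun _ : ι => X) := by
  refine Et_bij _ (eval₂RingHom MvPolynomial.C (MvPolynomial.X default)) ?_ ?_
  · ext <;> simp
  · refine MvPolynomial.ringHom_ext (fun _ => ?_) (fun k => ?_)
    · simp
    · simp [Unique.eq_default k]

theorem Et_unique {ι : Type} [Unique ι] {φ : R →+* S} {x : ι → S} :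
    EtN φ x ↔ Et1 φ (x default) := by
  refine Et_iff Et_ubij (MvPolynomial.ringHom_ext (fun _ => ?_) (fun k => ?_))
  · simp
  · simp [Unique.eq_default k]

theorem Et_smooth {φ : R →+* S} (h : EP φ) : φ.Smooth := by
  obtain ⟨n, x, h⟩ := h
  have h1 : (MvPolynomial.C : R →+* MvPolynomial (Fin n) R).Smooth :=
    RingHom.smooth_algebraMap.2 {}
  have := h1.comp ((RingHom.etale_iff_formallyUnramified_and_smooth _).1 h).2
  rwa [MvPolynomial.eval₂Hom_comp_C] at this

theorem Et_fin {f : R →+* S} {e : S →+* T} (he : Function.Bijective e) (h : (e.comp f).Finite) :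
    f.Finite := by
  have := (RingHom.Finite.of_surjective (RingEquiv.ofBijective e he).symm.toRingHom
    (RingEquiv.ofBijective e he).symm.surjective).comp h
  convert this using 1
  ext r
  exact ((RingEquiv.ofBijective e he).symm_apply_apply _).symm

theorem Et_root {p : R[X]} (hp : p.Monic) : (AdjoinRoot.of p).Finite :=
  (RingHom.finite_algebraMap (A := R) (B := AdjoinRoot p)).2 hp.finite_adjoinRoot

theorem Et1.comp {φ : R →+* S} {u : S} (h : Et1 φ u) {g : S →+* T} (hg : g.Etale) :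
    Et1 (g.comp φ) (g u) :=
  Et_congr (etale_comp h hg) (Et_ev1 φ u g)

theorem Et1.cancel {φ : R →+* S} {u : S} (h : Et1 φ u) {g : S →+* T}
    (h' : Et1 (g.comp φ) (g u)) : g.Etale :=
  etale_cancel h (Et_congr h' (Et_ev1 φ u g).symm)

/-- Passing to an etale extension of the base. -/
theorem Et1.of_etale_base {ρ : R →+* S} {φ : S →+* T} {u : T} (hρ : ρ.Etale)
    (h : Et1 (φ.comp ρ) u) : Et1 φ u :=
  etale_cancel ((isPO_polynomial ρ).flip.etale hρ) (Et_congr h (Et_map1 ρ φ u).symm)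

theorem Et1.comp_etale_base {ρ : R →+* S} {φ : S →+* T} {u : T} (hρ : ρ.Etale) (h : Et1 φ u) :
    Et1 (φ.comp ρ) u :=
  Et_congr (etale_comp ((isPO_polynomial ρ).flip.etale hρ) h) (Et_map1 ρ φ u)

theorem Et1.sub_const {φ : R →+* S} {u : S} (h : Et1 φ u) (c : R) : Et1 φ (u - φ c) := by
  refine Et_congr (etale_comp (f := eval₂RingHom C (X - C c)) (.of_bijective
    (Et_bij _ (eval₂RingHom C (X + C c)) ?_ ?_)) h) ?_ <;> ext <;> simp

theorem Et1.finitePresentation {φ : R →+* S} {u : S} (h : Et1 φ u) : φ.FinitePresentation := by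
  have := (etale_finitePresentation h).comp (f := (C : R →+* R[X]))
    (RingHom.finitePresentation_algebraMap.2 inferInstance)
  rwa [(by ext; simp : (eval₂RingHom φ u).comp C = φ)] at this

theorem Et1.finiteType {φ : R →+* S} {u : S} (h : Et1 φ u) : φ.FiniteType :=
  RingHom.FiniteType.of_finitePresentation h.finitePresentation

theorem Et1.ep {φ : R →+* S} {u : S} (h : Et1 φ u) : EP φ :=
  ⟨1, fun _ => u, Et_unique.2 h⟩

theorem et1_X : Et1 (C : R →+* R[X]) X :=
  Et_congr (RingHom.Etale.of_bijective (f := RingHom.id _) Function.bijective_id) (by ext <;> simp)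

theorem et1_of_etale {ι : R[X] →+* S} (h : ι.Etale) : Et1 (ι.comp C) (ι X) :=
  Et_congr h (by ext <;> simp)

/-- Monic polynomials in the coordinate are nonzerodivisors. -/
theorem Et1.monic_regular {φ : R →+* S} {u : S} (h : Et1 φ u) {p : R[X]} (hp : p.Monic) {y : S}
    (hy : p.eval₂ φ u * y = 0) : y = 0 := by
  have hf := etale_flat h
  algebraize [eval₂RingHom φ u]
  refine Module.Flat.isSMulRegular_of_isRegular (M := S) hp.isRegular ?_
  simp only [Algebra.smul_def, mul_zero]
  exact hy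

/-- Fibre over `u = φ c`. -/
theorem Et1.etale_quotient {φ : R →+* S} {u : S} (h : Et1 φ u) (c : R) :
    ((Ideal.Quotient.mk (Ideal.span {u - φ c})).comp φ).Etale := by
  refine (isPO_of_surjective (f := evalRingHom c) (g := eval₂RingHom φ u) ?_
    (fun r => ⟨C r, by simp⟩) Ideal.Quotient.mk_surjective ?_).flip.etale h
  · ext
    · simp
    · simpa using (Ideal.Quotient.eq.2 (Ideal.mem_span_singleton_self (u - φ c))).symm
  · rw [Ideal.mk_ker, Ideal.span_le, Set.singleton_subset_iff]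
    simpa using Ideal.mem_map_of_mem (eval₂RingHom φ u)
      (show X - C c ∈ RingHom.ker (evalRingHom c) by simp [RingHom.mem_ker])

theorem EtN.comp {ι : Type} {φ : R →+* S} {x : ι → S} (h : EtN φ x) {g : S →+* T} (hg : g.Etale) :
    EtN (g.comp φ) (fun k => g (x k)) :=
  Et_congr (etale_comp h hg) (MvPolynomial.comp_eval₂Hom _ _ _)

theorem EtN.cancel {ι : Type} {φ : R →+* S} {x : ι → S} (h : EtN φ x) {g : S →+* T}
    (h' : EtN (g.comp φ) (fun k => g (x k))) : g.Etale :=
  etale_cancel h (Et_congr h' (MvPolynomial.comp_eval₂Hom _ _ _).symm)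

theorem EtN.of_etale_base {ι : Type} {ρ : R →+* S} {φ : S →+* T} {x : ι → T} (hρ : ρ.Etale)
    (h : EtN (φ.comp ρ) x) : EtN φ x :=
  etale_cancel ((isPO_mvPolynomial ι ρ).flip.etale hρ) (Et_congr h (Et_mapN ρ φ x).symm)

theorem EtN.sub_const {ι : Type} {φ : R →+* S} {x : ι → S} (h : EtN φ x) (c : ι → R) :
    EtN φ (fun k => x k - φ (c k)) := by
  refine Et_congr (etale_comp
    (f := MvPolynomial.eval₂Hom MvPolynomial.C fun k => MvPolynomial.X k - MvPolynomial.C (c k))
    (.of_bijective (Et_bij _ (MvPolynomial.eval₂Hom MvPolynomial.C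
      fun k => MvPolynomial.X k + MvPolynomial.C (c k)) ?_ ?_)) h) ?_ <;>
  refine MvPolynomial.ringHom_ext (fun _ => ?_) (fun _ => ?_) <;> simp

theorem EtN.equiv {ι ι' : Type} {φ : R →+* S} {x : ι → S} (h : EtN φ x) (e : ι' ≃ ι) :
    EtN φ (fun k => x (e k)) := by
  refine Et_congr (etale_comp (f := (MvPolynomial.renameEquiv R e).toRingEquiv.toRingHom)
    (.of_bijective (MvPolynomial.renameEquiv R e).bijective) h) ?_
  refine MvPolynomial.ringHom_ext (fun _ => ?_) (fun _ => ?_) <;> simp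

theorem etN_sum_iff {ι ι' : Type} {φ : R →+* S} {x : ι → S} {x' : ι' → S} :
    EtN φ (Sum.elim x x') ↔ EtN (MvPolynomial.eval₂Hom φ x) x' := by
  refine Et_iff (e := MvPolynomial.eval₂Hom (MvPolynomial.C.comp MvPolynomial.C)
    (Sum.elim (fun k => MvPolynomial.C (MvPolynomial.X k)) MvPolynomial.X))
    (Et_bij _ (MvPolynomial.eval₂Hom (MvPolynomial.eval₂Hom MvPolynomial.C
      fun k => MvPolynomial.X (.inl k)) fun k => MvPolynomial.X (.inr k)) ?_ ?_) ?_
  · refine MvPolynomial.ringHom_ext' (MvPolynomial.ringHom_ext (fun _ => ?_) (fun _ => ?_))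
      (fun _ => ?_) <;> simp
  · refine MvPolynomial.ringHom_ext (fun _ => ?_) (fun k => ?_)
    · simp
    · cases k <;> simp
  · refine MvPolynomial.ringHom_ext (fun _ => ?_) (fun k => ?_)
    · simp
    · cases k <;> simp

theorem EtN.trans {ι ι' : Type} {φ : R →+* S} {x : ι → S} (h : EtN φ x) {ψ : S →+* T}
    {x' : ι' → T} (h' : EtN ψ x') : EtN (ψ.comp φ) (Sum.elim (fun k => ψ (x k)) x') := by
  rw [etN_sum_iff, ← MvPolynomial.comp_eval₂Hom]
  exact Et_congr (etale_comp ((isPO_mvPolynomial ι' _).flip.etale h) h') (Et_mapN _ ψ x')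

theorem etN_unique_iff {ι : Type} [Unique ι] {φ : R →+* S} {x : ι → S} :
    EtN φ x ↔ Et1 φ (x default) := Et_unique

theorem etN_isEmpty_iff {ι : Type} [IsEmpty ι] {φ : R →+* S} {x : ι → S} : EtN φ x ↔ φ.Etale := by
  refine (Et_iff (e := MvPolynomial.C)
    (Et_bij _ (MvPolynomial.eval₂Hom (RingHom.id R) isEmptyElim) ?_ ?_) ?_).symm
  · refine MvPolynomial.ringHom_ext (fun _ => ?_) isEmptyElim
    simp
  · ext; simp
  · ext; simp

/-- Singling out one coordinate, first form. -/
theorem EtN.et1 {ι : Type} {φ : R →+* S} {x : ι → S} (h : EtN φ x) (k0 : ι) :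
    Et1 (MvPolynomial.eval₂Hom φ (fun k : {k // k ≠ k0} => x k)) (x k0) := by
  classical
  have h1 := h.equiv ((Equiv.optionEquivSumPUnit.{0} _).symm.trans (Equiv.optionSubtypeNe k0))
  have h2 : EtN φ (Sum.elim (fun k : {k // k ≠ k0} => x k) fun _ : Unit => x k0) := by
    convert h1 using 2 with k
    cases k <;> simp
  exact etN_unique_iff.1 (etN_sum_iff.1 h2)

/-- Singling out one coordinate, second form. -/
theorem EtN.etN_erase {ι : Type} {φ : R →+* S} {x : ι → S} (h : EtN φ x) (k0 : ι) :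
    EtN (Polynomial.eval₂RingHom φ (x k0)) (fun k : {k // k ≠ k0} => x k) := by
  classical
  have h1 := h.equiv ((Equiv.sumComm _ _).trans
    ((Equiv.optionEquivSumPUnit.{0} _).symm.trans (Equiv.optionSubtypeNe k0)))
  have h2 : EtN φ (Sum.elim (fun _ : Unit => x k0) fun k : {k // k ≠ k0} => x k) := by
    convert h1 using 2 with k
    cases k <;> simp
  refine EtN.of_etale_base (.of_bijective (Et_ubij (ι := Unit))) ?_
  convert etN_sum_iff.1 h2 using 1
  refine MvPolynomial.ringHom_ext (fun _ => ?_) (fun _ => ?_) <;> simp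

/-- Fibre over the origin. -/
theorem EtN.etale_quotient {ι : Type} {φ : R →+* S} {x : ι → S} (h : EtN φ x) :
    ((Ideal.Quotient.mk (Ideal.span (Set.range x))).comp φ).Etale := by
  refine (isPO_of_surjective (f := MvPolynomial.constantCoeff) (g := MvPolynomial.eval₂Hom φ x) ?_
    (fun r => ⟨MvPolynomial.C r, by simp⟩) Ideal.Quotient.mk_surjective ?_).flip.etale h
  · refine MvPolynomial.ringHom_ext (fun _ => by simp) (fun k => ?_)
    simp
  · rw [Ideal.mk_ker, Ideal.span_le]
    rintro _ ⟨k, rfl⟩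
    simpa using Ideal.mem_map_of_mem (MvPolynomial.eval₂Hom φ x)
      (show MvPolynomial.X k ∈ RingHom.ker (MvPolynomial.constantCoeff (R := R)) by
        simp [RingHom.mem_ker])

theorem etN_X (ι : Type) : EtN (MvPolynomial.C : R →+* MvPolynomial ι R) MvPolynomial.X := by
  refine Et_congr (RingHom.Etale.of_bijective (f := RingHom.id _) Function.bijective_id) ?_
  refine MvPolynomial.ringHom_ext (fun _ => ?_) (fun _ => ?_) <;> simp

theorem EtN.ep {ι : Type} [Finite ι] {φ : R →+* S} {x : ι → S} (h : EtN φ x) : EP φ :=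
  ⟨_, _, h.equiv (Finite.equivFin ι).symm⟩

theorem ep_of_etale {φ : R →+* S} (h : φ.Etale) : EP φ :=
  ⟨0, Fin.elim0, etN_isEmpty_iff.2 h⟩

theorem ep_id : EP (RingHom.id R) := ep_of_etale (.of_bijective Function.bijective_id)

theorem EP.comp {φ : R →+* S} {ψ : S →+* T} (h : EP φ) (h' : EP ψ) : EP (ψ.comp φ) := by
  obtain ⟨_, _, h⟩ := h
  obtain ⟨_, _, h'⟩ := h'
  exact (h.trans h').ep

theorem EP.of_etale_base {ρ : R →+* S} {φ : S →+* T} (hρ : ρ.Etale) (h : EP (φ.comp ρ)) : EP φ := by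
  obtain ⟨_, _, h⟩ := h
  exact ⟨_, _, h.of_etale_base hρ⟩

theorem EP.finitePresentation {φ : R →+* S} (h : EP φ) : φ.FinitePresentation :=
  (Et_smooth h).finitePresentation

theorem EP.finiteType {φ : R →+* S} (h : EP φ) : φ.FiniteType :=
  RingHom.FiniteType.of_finitePresentation h.finitePresentation

theorem EP.smooth {φ : R →+* S} (h : EP φ) : φ.Smooth := Et_smooth h

theorem ep_polynomial : EP (C : R →+* R[X]) := et1_X.ep

theorem FinMod.mono {φ : R →+* S} {J J' : Ideal S} (h : FinMod φ J) (hJ : J ≤ J') : FinMod φ J' :=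
  (RingHom.Finite.of_surjective _ (Ideal.Quotient.factor_surjective hJ)).comp h

theorem FinMod.of_dvd {φ : R →+* S} {σ σ' : S} (h : FinMod φ (Ideal.span {σ'})) (hd : σ ∣ σ') :
    FinMod φ (Ideal.span {σ}) :=
  h.mono (Ideal.span_singleton_le_span_singleton.2 hd)

theorem FinMod.mul {φ : R →+* S} {σ σ' : S} (h : FinMod φ (Ideal.span {σ}))
    (h' : FinMod φ (Ideal.span {σ'})) : FinMod φ (Ideal.span {σ * σ'}) := by
  let := φ.toAlgebra
  have : Module.Finite R (S ⧸ Ideal.span {σ}) := h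
  have : Module.Finite R (S ⧸ Ideal.span {σ'}) := h'
  have hle : Ideal.span {σ * σ'} ≤ Ideal.span {σ} :=
    Ideal.span_singleton_le_span_singleton.2 (dvd_mul_right _ _)
  let f : (S ⧸ Ideal.span {σ'}) →ₗ[S] S ⧸ Ideal.span {σ * σ'} :=
    Submodule.mapQ _ _ (LinearMap.mulLeft S σ) fun y hy => by
      obtain ⟨z, rfl⟩ := Ideal.mem_span_singleton.1 hy
      exact Ideal.mem_span_singleton.2 ⟨z, (mul_assoc _ _ _).symm⟩
  change Module.Finite R (S ⧸ Ideal.span {σ * σ'})
  refine Module.Finite.of_exact (f := f.restrictScalars R)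
    (g := (Ideal.Quotient.factorₐ R hle).toLinearMap) (fun y => ⟨fun hy => ?_, ?_⟩)
    (Ideal.Quotient.factor_surjective hle)
  · obtain ⟨y, rfl⟩ := Ideal.Quotient.mk_surjective y
    obtain ⟨z, rfl⟩ := Ideal.mem_span_singleton.1 (Ideal.Quotient.eq_zero_iff_mem.1 hy)
    exact ⟨Ideal.Quotient.mk _ z, rfl⟩
  · rintro ⟨z, rfl⟩
    obtain ⟨z, rfl⟩ := Ideal.Quotient.mk_surjective z
    exact Ideal.Quotient.eq_zero_iff_mem.2 (Ideal.mem_span_singleton.2 ⟨z, rfl⟩)

theorem finMod_of_section {φ : R →+* S} {s : S →+* R} (hs : s.comp φ = RingHom.id R) :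
    FinMod φ (RingHom.ker s) := by
  refine RingHom.Finite.of_surjective _ fun y => ?_
  obtain ⟨y, rfl⟩ := Ideal.Quotient.mk_surjective y
  refine ⟨s y, Ideal.Quotient.eq.2 ?_⟩
  rw [RingHom.mem_ker, map_sub, ← s.comp_apply, hs, RingHom.id_apply, sub_self]

theorem finMod_ker {φ : R →+* S} {θ : S →+* T} (hθ : Function.Surjective θ)
    (h : (θ.comp φ).Finite) : FinMod φ (RingHom.ker θ) := by
  refine Et_fin (e := RingHom.kerLift θ) ⟨RingHom.kerLift_injective θ, fun t => ?_⟩ h
  obtain ⟨y, rfl⟩ := hθ t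
  exact ⟨Ideal.Quotient.mk _ y, rfl⟩

theorem FinMod.of_surjective {φ : R →+* S} {g : S →+* T} {σ : S} {σ' : T} (hσ : g σ = σ')
    (h : FinMod φ (Ideal.span {σ})) (hg : Function.Surjective (qmap g hσ)) :
    FinMod (g.comp φ) (Ideal.span {σ'}) :=
  (RingHom.Finite.of_surjective _ hg).comp h

theorem FinMod.of_bijective {φ : R →+* S} {g : S →+* T} {σ : S} {σ' : T} (hσ : g σ = σ')
    (h : FinMod (g.comp φ) (Ideal.span {σ'})) (hg : Function.Bijective (qmap g hσ)) :
    FinMod φ (Ideal.span {σ}) := Et_fin hg h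

theorem finMod_top (φ : R →+* S) : FinMod φ ⊤ :=
  RingHom.Finite.of_surjective _ fun _ => ⟨0, Subsingleton.elim _ _⟩

theorem finMod_monic {p : R[X]} (hp : p.Monic) : FinMod (C : R →+* R[X]) (Ideal.span {p}) :=
  Et_root hp

theorem finite_adjoinRoot_of {p : R[X]} (hp : p.Monic) : (AdjoinRoot.of p).Finite :=
  Et_root hp

end KEW
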