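import Pool.Agent.P.MP_6277db_ag.KEW.CA.Et

/-!
KEW L4.1: Zariski's main theorem along a closed subset.
Hints.  For every prime `p ⊇ 𝔟`, `Algebra.ZariskisMainProperty.of_finiteType` and
`Algebra.zariskisMainProperty_iff` give `r_p ∉ p` integral over `S` with `r_p^n y` integral for all `y`.
Finitely many `r_i` generate the unit ideal of `W = E ⧸ 𝔟`.  Let `W0` be the image in `W` of the integral
closure `S'`; `W` is integral over `W0`, so the `r_i^N` generate the unit ideal of `W0` (lying over):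
`Q = Σ c_i r_i^N ≡ 1` mod `𝔟` with `c_i ∈ S'` and `N` so large that `r_i^N y_j ∈ S'` for the algebra
generators `y_j`.  `St` is generated over `S` by `Q` and the `Q y_j`.
`zmt_fibre`: quasi-finiteness at `p ⊇ I E` from finiteness of `E ⧸ I E`
(`Algebra.QuasiFiniteAt.of_quasiFiniteAt_residueField`, `Algebra.WeaklyQuasiFiniteAt`,
`ZariskisMainProperty.of_finiteType_of_weaklyQuasiFiniteAt`).
-/

namespace KEW

universe u

variable {S E : Type u} [CommRing S] [CommRing E]

/-- Conclusion of the theorem: a finite subalgebra `St` and `Q ∈ St`, `Q ≡ 1` mod `𝔟`, with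
`St[1/Q] = E[1/Q]`. -/
def ZData (φ : S →+* E) (𝔟 : Ideal E) : Prop :=
  ∃ (St : Type u) (_ : CommRing St) (φ0 : S →+* St) (ι : St →+* E) (Q : St),
    ι.comp φ0 = φ ∧ φ0.Finite ∧ Function.Injective ι ∧ ι Q - 1 ∈ 𝔟 ∧
      ∀ y : E, ∃ (n : ℕ) (z : St), ι Q ^ n * y = ι z

/-- The elements of the integral closure that multiply a finite set into the integral closure. -/
def ZMT_cond [Algebra S E] (s : Finset E) : Ideal (integralClosure S E) where
  carrier := {r | ∀ y ∈ s, IsIntegral S ((r : E) * y)}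
  zero_mem' := fun y _ => by simpa using isIntegral_zero
  add_mem' := fun {a b} ha hb y hy => by
    simpa [add_mul] using (ha y hy).add (hb y hy)
  smul_mem' := fun c a ha y hy => by
    have := IsIntegral.mul (show IsIntegral S (c : E) from c.2) (ha y hy)
    simpa [mul_assoc] using this

theorem ZMT_pow [Algebra S E] (s : Finset E) {r : E} (hr : IsIntegral S r)
    (h : ∀ x, ∃ m : ℕ, IsIntegral S (r ^ m * x)) :
    ∃ N : ℕ, ∀ y ∈ s, IsIntegral S (r ^ N * y) := by
  choose m hm using h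
  refine ⟨s.sup m, fun y hy => ?_⟩
  obtain ⟨k, hk⟩ := Nat.exists_eq_add_of_le (Finset.le_sup (f := m) hy)
  rw [hk, add_comm, pow_add, mul_assoc]
  exact (hr.pow k).mul (hm y)

theorem ZMT_exists [Algebra S E] [Algebra.FiniteType S E] (𝔟 : Ideal E)
    (hfin : FinMod (algebraMap S E) 𝔟)
    (hq : ∀ (p : Ideal E) [p.IsPrime], 𝔟 ≤ p → Algebra.QuasiFiniteAt S p) (s : Finset E) :
    ∃ Q : E, IsIntegral S Q ∧ (∀ y ∈ s, IsIntegral S (Q * y)) ∧ Q - 1 ∈ 𝔟 := by
  have hF : Module.Finite S (E ⧸ 𝔟) := RingHom.finite_algebraMap.1 hfin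
  have hI : Algebra.IsIntegral (integralClosure S E) (E ⧸ 𝔟) :=
    ⟨fun x => (Algebra.IsIntegral.isIntegral (R := S) x).tower_top⟩
  have htop : ZMT_cond (S := S) s ⊔
      RingHom.ker (algebraMap (integralClosure S E) (E ⧸ 𝔟)) = ⊤ := by
    by_contra hne
    obtain ⟨m, hm, hle⟩ := Ideal.exists_le_maximal _ hne
    obtain ⟨P, hP, hPm⟩ := Ideal.exists_ideal_over_maximal_of_isIntegral (S := E ⧸ 𝔟) m
      (le_sup_right.trans hle)
    have hp : (P.comap (Ideal.Quotient.mk 𝔟)).IsPrime := Ideal.comap_isPrime _ _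
    have hb : 𝔟 ≤ P.comap (Ideal.Quotient.mk 𝔟) := fun x hx => by
      rw [Ideal.mem_comap, Ideal.Quotient.eq_zero_iff_mem.2 hx]
      exact P.zero_mem
    have := hq _ hb
    obtain ⟨r, hrp, hr, hx⟩ := Algebra.zariskisMainProperty_iff.1
      (Algebra.ZariskisMainProperty.of_finiteType (R := S) (P.comap (Ideal.Quotient.mk 𝔟)))
    obtain ⟨N, hN⟩ := ZMT_pow s hr hx
    have h1 : (⟨r ^ N, hr.pow N⟩ : integralClosure S E) ∈ m := (le_sup_left.trans hle) hN
    rw [← hPm] at h1
    exact hrp (hp.mem_of_pow_mem N h1)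
  obtain ⟨c, hc, b, hb, hcb⟩ := Submodule.mem_sup.1 ((Ideal.eq_top_iff_one _).1 htop)
  refine ⟨c, c.2, hc, ?_⟩
  have h1 : (c : E) - 1 = -(b : E) := by
    have := congrArg (fun x : integralClosure S E => (x : E)) hcb
    simp only [Subalgebra.coe_add, Subalgebra.coe_one] at this
    linear_combination this
  rw [h1]
  exact 𝔟.neg_mem (Ideal.Quotient.eq_zero_iff_mem.1 hb)

theorem zmt_of_quasiFiniteAt [Algebra S E] [Algebra.FiniteType S E] (𝔟 : Ideal E)
    (hfin : FinMod (algebraMap S E) 𝔟)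
    (hq : ∀ (p : Ideal E) [p.IsPrime], 𝔟 ≤ p → Algebra.QuasiFiniteAt S p) :
    ZData (algebraMap S E) 𝔟 := by
  classical
  obtain ⟨s, hs⟩ := Algebra.FiniteType.out (R := S) (A := E)
  obtain ⟨Q, hQ, hQs, hQ1⟩ := ZMT_exists 𝔟 hfin hq s
  let t : Finset E := insert Q (s.image fun y => Q * y)
  have ht : ∀ x ∈ (t : Set E), IsIntegral S x := by
    intro x hx
    rcases Finset.mem_insert.1 (Finset.mem_coe.1 hx) with rfl | hx
    · exact hQ
    · obtain ⟨y, hy, rfl⟩ := Finset.mem_image.1 hx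
      exact hQs y hy
  let St : Subalgebra S E := Algebra.adjoin S (t : Set E)
  have hSt : Module.Finite S St :=
    Algebra.finite_adjoin_of_finite_of_isIntegral t.finite_toSet ht
  have hQt : Q ∈ St := Algebra.subset_adjoin (Finset.mem_coe.2 (Finset.mem_insert_self _ _))
  have key : ∀ y : E, ∃ n : ℕ, Q ^ n * y ∈ St := by
    intro y
    have hy : y ∈ Algebra.adjoin S (s : Set E) := hs ▸ Algebra.mem_top
    induction hy using Algebra.adjoin_induction with
    | mem x hx =>
      refine ⟨1, Algebra.subset_adjoin (Finset.mem_coe.2 (Finset.mem_insert_of_mem ?_))⟩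
      exact Finset.mem_image.2 ⟨x, hx, by rw [pow_one]⟩
    | algebraMap r => exact ⟨0, by simp⟩
    | add x y _ _ hx hy =>
      obtain ⟨n, hn⟩ := hx
      obtain ⟨k, hk⟩ := hy
      refine ⟨n + k, ?_⟩
      have : Q ^ (n + k) * (x + y) = Q ^ k * (Q ^ n * x) + Q ^ n * (Q ^ k * y) := by ring
      rw [this]
      exact St.add_mem (St.mul_mem (St.pow_mem hQt k) hn) (St.mul_mem (St.pow_mem hQt n) hk)
    | mul x y _ _ hx hy =>
      obtain ⟨n, hn⟩ := hx
      obtain ⟨k, hk⟩ := hy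
      refine ⟨n + k, ?_⟩
      have : Q ^ (n + k) * (x * y) = (Q ^ n * x) * (Q ^ k * y) := by ring
      rw [this]
      exact St.mul_mem hn hk
  refine ⟨St, inferInstance, algebraMap S St, St.val.toRingHom, ⟨Q, hQt⟩, ?_,
    RingHom.finite_algebraMap.2 hSt, Subtype.val_injective, hQ1, fun y => ?_⟩
  · ext x
    rfl
  · obtain ⟨n, hn⟩ := key y
    exact ⟨n, ⟨_, hn⟩, rfl⟩

theorem zmt_etale {φ : S →+* E} (hφ : φ.Etale) (𝔟 : Ideal E) (hfin : FinMod φ 𝔟) : ZData φ 𝔟 := by
  let _ := φ.toAlgebra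
  have : Algebra.Etale S E := hφ
  exact zmt_of_quasiFiniteAt 𝔟 hfin fun p _ _ => inferInstance

theorem zmt_fibre {φ : S →+* E} (hφ : φ.FiniteType) (I : Ideal S) (hfin : FinMod φ (I.map φ)) :
    ZData φ (I.map φ) := by
  let _ := φ.toAlgebra
  have : Algebra.FiniteType S E := hφ
  refine zmt_of_quasiFiniteAt (I.map φ) hfin fun p _ hp => ?_
  have hF : Module.Finite S (E ⧸ I.map φ) := hfin
  have hle : I.map φ ≤ (p.under S).map (algebraMap S E) :=
    Ideal.map_mono (Ideal.map_le_iff_le_comap.1 hp)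
  have hF' : Module.Finite S (E ⧸ (p.under S).map (algebraMap S E)) :=
    Module.Finite.of_surjective (Ideal.Quotient.factorₐ S hle).toLinearMap
      (Ideal.Quotient.factor_surjective hle)
  have : Algebra.WeaklyQuasiFiniteAt S p := inferInstance
  exact Algebra.QuasiFiniteAt.of_weaklyQuasiFiniteAt p

end KEW
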