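import Pool.Agent.P.MP_6277db_ag.KEW.CA.IL
import Pool.Agent.P.MP_6277db_ag.KEW.CA.ZMT

/-!
KEW L4.1: finite parts.
Hints.  `FP`: `Z = Y ⧸ 𝔞`, `zmt_fibre` gives `St ⊆ Z`, `Q ≡ 1` mod `I Z`; `Q^n (1 - Q) ∈ I St`, so
`b = Q^n` (`n ≥ 1`) is idempotent mod `I St`; `IL` gives an idempotent `e ≡ b` in `St' = St ⊗ R1`; in the
finite algebra `St' ⧸ (1 - e)` the element `Q` is a unit mod `I`, hence after inverting some `1 + i`
(`unit_of_unit_mod`).  With `R' = R1[1/(1+i)]`, `Y1 = Y ⊗ R'`, lift `e` to `f ∈ 1 + I Y1` and put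
`Y' = Y1[1/f]`: `Y' ⧸ 𝔞 Y'` is a quotient of `(St ⊗ R') ⧸ (1 - e)`.
`FP3_iso`: surjective after inverting `1 + i` by Nakayama (`Submodule.exists_sub_one_mem_and_smul_eq_zero_of_fg_of_le_smul`);
kernel: after inverting `w1` the map is a surjective etale map, its kernel `K` is finitely generated
(`Algebra.FinitePresentation.ker_fg_of_surjective`) and idempotent (`Algebra.FormallyEtale.iff_of_surjective`), so
generated by an idempotent `e`, and `e ∈ I D` by `EE.inj`; so `1 - e` is a unit mod `I` (`unit_of_unit_mod`).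
`Cof`: replace `J` by `I D` (`EE.of_radical`), apply `FP` with `𝔞 = ⊥` to `D1`, then `FP3_iso` to
`D ⊗ R' → D1'`.  `HL`: `HL0` followed by `Cof`.
`FP3`: lifts: the image of `Spec E1 → Spec E` is open
(`PrimeSpectrum.isOpenMap_comap_of_hasGoingDown_of_finitePresentation`) and contains `V(I E)`, so its
complement is `V(𝔟)` with some `b ∈ 𝔟`, `b ≡ 1` mod `I E`; `unit_of_unit_mod` in `E ⧸ 𝔞`; a nonzero finite type
algebra over an algebraically closed field has a point.  Injectivity: `UL` for the two maps from `E1` to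
the finite `R`-algebra `E1/𝔞1 ⊗_E E1/𝔞1`, `η ≡ 1` mod `I` by `EE.sub_mem`.
-/

namespace KEW

universe u

variable {R Y D D1 E E1 C : Type u} [CommRing R] [CommRing Y] [CommRing D] [CommRing D1]
  [CommRing E] [CommRing E1] [CommRing C]

/-- In an integral algebra, a unit modulo `I` divides some `1 + i`. -/
theorem unit_of_unit_mod {δ : R →+* D} (hδ : δ.IsIntegral) (I : Ideal R) {y : D}
    (hy : ∃ c, c * y - 1 ∈ I.map δ) : ∃ w : R, w - 1 ∈ I ∧ y ∣ δ w := by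
  have htop : (Ideal.span {y}).comap δ ⊔ I = ⊤ := by
    by_contra hne
    obtain ⟨m, hm, hle⟩ := Ideal.exists_le_maximal _ hne
    let _ := δ.toAlgebra
    have : Algebra.IsIntegral R D := ⟨hδ⟩
    obtain ⟨q, hq1, hq2, hq3⟩ := Ideal.exists_ideal_over_prime_of_isIntegral m (Ideal.span {y})
      (le_sup_left.trans hle)
    obtain ⟨c, hc⟩ := hy
    have h1 : I.map δ ≤ q := Ideal.map_le_iff_le_comap.2
      ((le_sup_right.trans hle).trans (le_of_eq hq3.symm))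
    have h2 : c * y ∈ q := q.mul_mem_left c (hq1 (Ideal.mem_span_singleton_self y))
    have h3 := sub_mem h2 (h1 hc)
    rw [sub_sub_cancel] at h3
    exact hq2.ne_top ((Ideal.eq_top_iff_one q).2 h3)
  obtain ⟨w, hw, i, hi, hs⟩ := Submodule.mem_sup.1 ((Ideal.eq_top_iff_one _).1 htop)
  refine ⟨w, ?_, Ideal.mem_span_singleton.1 hw⟩
  rw [← hs, sub_add_cancel_left]
  exact neg_mem hi

theorem FP_clear {St Z : Type u} [CommRing St] [CommRing Z] (φ0 : R →+* St) (ι : St →+* Z)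
    (Q : St) (h : ∀ y : Z, ∃ (n : ℕ) (z : St), ι Q ^ n * y = ι z) (I : Ideal R) {x : Z}
    (hx : x ∈ I.map (ι.comp φ0)) : ∃ (n : ℕ) (z : St), z ∈ I.map φ0 ∧ ι Q ^ n * x = ι z := by
  induction hx using Submodule.span_induction with
  | mem x hx =>
    obtain ⟨r, hr, rfl⟩ := hx
    exact ⟨0, φ0 r, Ideal.mem_map_of_mem _ hr, by simp⟩
  | zero => exact ⟨0, 0, zero_mem _, by simp⟩
  | add x y _ _ h1 h2 =>
    obtain ⟨n, z, hz, e1⟩ := h1
    obtain ⟨m, z', hz', e2⟩ := h2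
    refine ⟨n + m, Q ^ m * z + Q ^ n * z',
      add_mem (Ideal.mul_mem_left _ _ hz) (Ideal.mul_mem_left _ _ hz'), ?_⟩
    rw [map_add, map_mul, map_mul, map_pow, map_pow, ← e1, ← e2]
    ring
  | smul a x _ h1 =>
    obtain ⟨n, z, hz, e1⟩ := h1
    obtain ⟨m, z', e2⟩ := h a
    refine ⟨n + m, z' * z, Ideal.mul_mem_left _ _ hz, ?_⟩
    rw [map_mul, ← e1, ← e2, smul_eq_mul]
    ring

theorem FP_map_mem {A B : Type u} [CommRing A] [CommRing B] {α : R →+* A} {β : R →+* B}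
    (g : A →+* B) (w : g.comp α = β) {I : Ideal R} {x : A} (hx : x ∈ I.map α) :
    g x ∈ I.map β := by
  rw [← w, ← Ideal.map_map]
  exact Ideal.mem_map_of_mem g hx

theorem FP {φ : R →+* Y} (hφ : φ.FiniteType) (I : Ideal R) (𝔞 : Ideal Y)
    (hfin : FinMod φ (𝔞 ⊔ I.map φ)) :
    ∃ (R' : Type u) (_ : CommRing R') (ρ : R →+* R') (Y1 : Type u) (_ : CommRing Y1)
      (ξ : Y →+* Y1) (φ1 : R' →+* Y1) (f : Y1) (Y' : Type u) (_ : CommRing Y') (l : Y1 →+* Y'),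
      EE I ρ ∧ IsPO φ ρ ξ φ1 ∧ f - 1 ∈ I.map (ξ.comp φ) ∧ IsAway l f ∧
        FinMod (l.comp φ1) (𝔞.map (l.comp ξ)) := by
  have hZ : FinMod ((Ideal.Quotient.mk 𝔞).comp φ) (I.map ((Ideal.Quotient.mk 𝔞).comp φ)) := by
    let g : Y ⧸ (𝔞 ⊔ I.map φ) →+* (Y ⧸ 𝔞) ⧸ I.map ((Ideal.Quotient.mk 𝔞).comp φ) :=
      Ideal.Quotient.lift _ ((Ideal.Quotient.mk _).comp (Ideal.Quotient.mk 𝔞)) fun a ha => by
        obtain ⟨a1, h1, a2, h2, rfl⟩ := Submodule.mem_sup.1 ha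
        rw [RingHom.comp_apply, map_add, Ideal.Quotient.eq_zero_iff_mem.2 h1, zero_add,
          Ideal.Quotient.eq_zero_iff_mem]
        exact FP_map_mem _ rfl h2
    have hg : Function.Surjective g := fun z => by
      obtain ⟨z, rfl⟩ := Ideal.Quotient.mk_surjective z
      obtain ⟨z, rfl⟩ := Ideal.Quotient.mk_surjective z
      exact ⟨Ideal.Quotient.mk _ z, rfl⟩
    exact (RingHom.Finite.of_surjective g hg).comp hfin
  obtain ⟨St, _, φ0, ι, Q, hι, hφ0, hinj, hQ, hden⟩ :=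
    zmt_fibre (hφ.comp_surjective Ideal.Quotient.mk_surjective) I hZ
  obtain ⟨n, z, hz, hzQ⟩ := FP_clear φ0 ι Q hden I (hι ▸ hQ)
  have hQn : Q ^ n * (Q - 1) ∈ I.map φ0 := by
    have : Q ^ n * (Q - 1) = z := hinj (by rw [← hzQ, map_mul, map_pow, map_sub, map_one])
    rwa [this]
  have hb : Q ^ (n + 1) * Q ^ (n + 1) - Q ^ (n + 1) ∈ I.map φ0 := by
    obtain ⟨c, hc⟩ := sub_one_dvd_pow_sub_one Q (n + 1)
    have : Q ^ (n + 1) * Q ^ (n + 1) - Q ^ (n + 1) = Q * c * (Q ^ n * (Q - 1)) := by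
      linear_combination Q ^ (n + 1) * hc
    rw [this]
    exact Ideal.mul_mem_left _ _ hQn
  obtain ⟨R1, _, ρ1, hρ1, hIL⟩ := IL hφ0.to_isIntegral I hb
  obtain ⟨St1, _, j, δ1, hpo1⟩ := exists_isPO φ0 ρ1
  obtain ⟨e, he, heb⟩ := hIL St1 j δ1 hpo1.comm
  have hfin1 : ((Ideal.Quotient.mk (Ideal.span {1 - e})).comp δ1).Finite :=
    (RingHom.Finite.of_surjective _ Ideal.Quotient.mk_surjective).comp (hpo1.finite hφ0)
  obtain ⟨w, hw, t, ht⟩ := unit_of_unit_mod hfin1.to_isIntegral (I.map ρ1)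
    (y := Ideal.Quotient.mk _ (j Q)) ⟨Ideal.Quotient.mk _ (j Q ^ n), by
      have h1 := FP_map_mem (Ideal.Quotient.mk (Ideal.span {1 - e})) rfl (neg_mem heb)
      have h2 : Ideal.Quotient.mk (Ideal.span {1 - e}) e = 1 :=
        (Ideal.Quotient.eq.2 (Ideal.mem_span_singleton_self (1 - e))).symm
      rw [hpo1.comm, neg_sub, map_sub, h2, map_pow, pow_succ, map_mul] at h1
      rw [Ideal.map_map]
      exact h1⟩
  obtain ⟨t, rfl⟩ := Ideal.Quotient.mk_surjective t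
  obtain ⟨s, hs⟩ := Ideal.mem_span_singleton'.1 (Ideal.Quotient.eq.1
    (show Ideal.Quotient.mk (Ideal.span {1 - e}) (δ1 w) = Ideal.Quotient.mk _ (j Q * t) from ht))
  obtain ⟨R', _, l1, hl1⟩ := exists_isAway w
  have hρ : EE I (l1.comp ρ1) := hρ1.comp (hl1.ee ⟨1, by rwa [one_mul]⟩)
  obtain ⟨Y1, _, ξ, φ1, hpo⟩ := exists_isPO φ (l1.comp ρ1)
  let qm : Y ⧸ 𝔞 →+* Y1 ⧸ 𝔞.map ξ := Ideal.quotientMap (𝔞.map ξ) ξ Ideal.le_comap_map
  have hqm : qm.comp (ι.comp φ0) = (Ideal.Quotient.mk (𝔞.map ξ)).comp (ξ.comp φ) := by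
    rw [hι]
    rfl
  obtain ⟨κ, hκ1, hκ2⟩ := hpo1.exists_lift (qm.comp ι)
    ((Ideal.Quotient.mk (𝔞.map ξ)).comp (φ1.comp l1)) (by
      rw [RingHom.comp_assoc, hqm, hpo.comm]
      rfl)
  have hκe : κ e - 1 ∈ (I.map (ξ.comp φ)).map (Ideal.Quotient.mk (𝔞.map ξ)) := by
    rw [Ideal.map_map]
    have h1 := FP_map_mem κ (β := (Ideal.Quotient.mk (𝔞.map ξ)).comp (ξ.comp φ))
      (by rw [← RingHom.comp_assoc, hκ1, RingHom.comp_assoc, hqm]) heb
    have h2 := FP_map_mem qm hqm (hι ▸ hQ)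
    obtain ⟨c, hc⟩ := sub_one_dvd_pow_sub_one (qm (ι Q)) (n + 1)
    have h3 : κ (j Q) = qm (ι Q) := RingHom.congr_fun hκ1 Q
    rw [map_sub, map_pow, map_pow, h3] at h1
    rw [map_sub, map_one] at h2
    have h4 := add_mem h1 (Ideal.mul_mem_right c _ h2)
    rwa [← hc, sub_add_sub_cancel] at h4
  obtain ⟨x, hx, hxe⟩ := (Ideal.mem_map_iff_of_surjective _ Ideal.Quotient.mk_surjective).1 hκe
  obtain ⟨Y', _, l, hl⟩ := exists_isAway (x + 1)
  refine ⟨R', inferInstance, l1.comp ρ1, Y1, inferInstance, ξ, φ1, x + 1, Y', inferInstance, l,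
    hρ, hpo, by rwa [add_sub_cancel_right], hl, ?_⟩
  let π : Y1 ⧸ 𝔞.map ξ →+* Y' ⧸ 𝔞.map (l.comp ξ) := Ideal.quotientMap (𝔞.map (l.comp ξ)) l
    (by rw [← Ideal.map_map]; exact Ideal.le_comap_map)
  have hf1 : Ideal.Quotient.mk (𝔞.map (l.comp ξ)) (l (x + 1)) = π (κ e) := by
    have : κ e = Ideal.Quotient.mk _ (x + 1) := by rw [map_add, hxe, map_one, sub_add_cancel]
    rw [this]
    rfl
  have he1 : π (κ e) = 1 := by
    have h1 : IsUnit (π (κ e)) := hf1 ▸ hl.isUnit.map _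
    exact h1.mul_left_cancel (by rw [← map_mul, ← map_mul, he.eq, mul_one])
  obtain ⟨St', _, j', δ', hpo'⟩ := exists_isPO φ0 (l1.comp ρ1)
  obtain ⟨θ, hθ1, hθ2⟩ := hpo'.exists_lift (π.comp (qm.comp ι))
    ((Ideal.Quotient.mk (𝔞.map (l.comp ξ))).comp (l.comp φ1)) (by
      rw [RingHom.comp_assoc, RingHom.comp_assoc, hqm, hpo.comm]
      rfl)
  have hA : ∀ a, π (qm (ι a)) ∈ θ.range := fun a => ⟨j' a, RingHom.congr_fun hθ1 a⟩
  have hB : ∀ r, Ideal.Quotient.mk (𝔞.map (l.comp ξ)) (l (φ1 r)) ∈ θ.range := fun r =>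
    ⟨δ' r, RingHom.congr_fun hθ2 r⟩
  have hκδ : ∀ r, π (κ (δ1 r)) = Ideal.Quotient.mk (𝔞.map (l.comp ξ)) (l (φ1 (l1 r))) :=
    fun r => congrArg π (RingHom.congr_fun hκ2 r)
  have hκj : ∀ a, π (κ (j a)) = π (qm (ι a)) := fun a => congrArg π (RingHom.congr_fun hκ1 a)
  have hC : π (κ t) ∈ θ.range := hpo1.mem_subring (θ.range.comap (π.comp κ))
    (fun a => by rw [Subring.mem_comap, RingHom.comp_apply, hκj]; exact hA a)
    (fun r => by rw [Subring.mem_comap, RingHom.comp_apply, hκδ]; exact hB _) t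
  obtain ⟨v, hv, hvQ⟩ : ∃ v ∈ θ.range, v * π (qm (ι Q)) = 1 := by
    obtain ⟨w', hw'⟩ := hl1.isUnit.exists_left_inv
    refine ⟨_, mul_mem (hB w') hC, ?_⟩
    have h1 := congrArg (fun a => π (κ a)) hs
    simp only [map_mul, map_sub, map_one, he1, sub_self, mul_zero, hκδ, hκj] at h1
    have h2 := congrArg (fun a => Ideal.Quotient.mk (𝔞.map (l.comp ξ)) (l (φ1 a))) hw'
    simp only [map_mul, map_one] at h2
    linear_combination h2 + Ideal.Quotient.mk (𝔞.map (l.comp ξ)) (l (φ1 w')) * h1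
  have hD : ∀ y, Ideal.Quotient.mk (𝔞.map (l.comp ξ)) (l (ξ y)) ∈ θ.range := fun y => by
    obtain ⟨m, a, ha⟩ := hden (Ideal.Quotient.mk 𝔞 y)
    have h1 := congrArg (fun a => v ^ m * π (qm a)) ha
    simp only [map_mul, map_pow] at h1
    rw [← mul_assoc, ← mul_pow, hvQ, one_pow, one_mul] at h1
    have h2 := mul_mem (pow_mem hv m) (hA a)
    rw [← h1] at h2
    exact h2
  have hsurj : Function.Surjective θ := fun y => by
    obtain ⟨y, rfl⟩ := Ideal.Quotient.mk_surjective y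
    refine hl.mem_subring (θ.range.comap (Ideal.Quotient.mk (𝔞.map (l.comp ξ))))
      (hpo.mem_subring ((θ.range.comap (Ideal.Quotient.mk (𝔞.map (l.comp ξ)))).comap l) hD hB)
      (fun a ha => ?_) y
    have h1 := congrArg (Ideal.Quotient.mk (𝔞.map (l.comp ξ))) ha
    rw [map_mul, hf1, he1, mul_one, map_one] at h1
    rw [Subring.mem_comap, h1]
    exact one_mem _
  have h1 := (RingHom.Finite.of_surjective θ hsurj).comp (hpo'.finite hφ0)
  rw [hθ2] at h1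
  exact h1

/-- Short form of `FP`. -/
theorem FP' {φ : R →+* Y} (hφ : φ.FiniteType) (I : Ideal R) (𝔞 : Ideal Y)
    (hfin : FinMod φ (𝔞 ⊔ I.map φ)) :
    ∃ (R' : Type u) (_ : CommRing R') (ρ : R →+* R') (Y' : Type u) (_ : CommRing Y')
      (ξ : Y →+* Y') (φ' : R' →+* Y'), EE I ρ ∧ ξ.comp φ = φ'.comp ρ ∧ EE (I.map φ) ξ ∧
        FinMod φ' (𝔞.map ξ) := by
  obtain ⟨R', _, ρ, Y1, _, ξ, φ1, f, Y', _, l, hρ, hpo, hf, hl, hF⟩ := FP hφ I 𝔞 hfin
  refine ⟨R', inferInstance, ρ, Y', inferInstance, l.comp ξ, l.comp φ1, hρ, ?_,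
    (hpo.flip.ee hρ).comp (hl.ee ⟨1, by rwa [one_mul, Ideal.map_map]⟩), hF⟩
  rw [RingHom.comp_assoc, hpo.comm, RingHom.comp_assoc]

end KEW
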