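import Pool.Agent.P.MP_6277db_ag.KEW.CA.FP

/-!
KEW L4.1: finite parts.
Hints.  `FP`: `Z = Y ⧸ 𝔞`, `zmt_fibre` gives `St ⊆ Z`, `Q ≡ 1` mod `I Z`; `Q^n (1 - Q) ∈ I St`, so
`b = Q^n` (`n ≥ 1`) is idempotent mod `I St`; `IL` gives an idempotent `e ≡ b` in `St' = St ⊗ R1`; in the
finite algebra `St' ⧸ (1 - e)` the element `Q` is a unit mod `I`, hence after inverting some `1 + i`
(`unit_of_unit_mod`).  With `R' = R1[1/(1+i)]`, `Y1 = Y ⊗ R'`, lift `e` to `f ∈ 1 + I Y1` and put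
`Y' = Y1[1/f]`: `Y' ⧸ 𝔞 Y'` is a quotient of `(St ⊗ R') ⧸ (1 - e)`.
`FP3_iso`: surjective after inverting `1 + i` by Nakayama (`Submodule.exists_sub_one_mem_and_smul_eq_zero_of_fg_of_le_smul`);
kernel: after inverting `w1` the map is a surjective etale map, its kernel `K` is finitely generated
(`Algebra.FinitePresentation.ker_fg_of_surjective`) and idempotent (`Algebra.FormallyEtale.iff_of_surjective`), so
generated by an idempotent `e`, and `e ∈ I D` by `EE.inj`; so `1 - e` is a unit mod `I` (`unit_of_unit_mod`).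
`Cof`: replace `J` by `I D` (`EE.of_radical`), apply `FP` with `𝔞 = ⊥` to `D1`, then `FP3_iso` to
`D ⊗ R' → D1'`.  `HL`: `HL0` followed by `Cof`.
`FP3`: lifts: the image of `Spec E1 → Spec E` is open
(`PrimeSpectrum.isOpenMap_comap_of_hasGoingDown_of_finitePresentation`) and contains `V(I E)`, so its
complement is `V(𝔟)` with some `b ∈ 𝔟`, `b ≡ 1` mod `I E`; `unit_of_unit_mod` in `E ⧸ 𝔞`; a nonzero finite type
algebra over an algebraically closed field has a point.  Injectivity: `UL` for the two maps from `E1` to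
the finite `R`-algebra `E1/𝔞1 ⊗_E E1/𝔞1`, `η ≡ 1` mod `I` by `EE.sub_mem`.
-/

namespace KEW

universe u

variable {R Y D D1 E E1 C : Type u} [CommRing R] [CommRing Y] [CommRing D] [CommRing D1]
  [CommRing E] [CommRing E1] [CommRing C]

/-- The image of the spectrum of an `EE J` map contains a basic open neighbourhood of `V(J)`. -/
theorem FP3_open {J : Ideal E} {ε : E →+* E1} (hε : EE J ε) :
    ∃ b : E, b - 1 ∈ J ∧ ∀ p : Ideal E, p.IsPrime → b ∉ p →
      ∃ q : Ideal E1, q.IsPrime ∧ q.comap ε = p := by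
  have hfl := etale_flat hε.etale
  have hfp := etale_finitePresentation hε.etale
  have hopen : IsOpenMap (PrimeSpectrum.comap ε) := by
    algebraize [ε]
    exact PrimeSpectrum.isOpenMap_comap_of_hasGoingDown_of_finitePresentation
  have hcl : IsClosed (Set.range (PrimeSpectrum.comap ε))ᶜ := hopen.isOpen_range.isClosed_compl
  obtain ⟨𝔟, h𝔟⟩ := (PrimeSpectrum.isClosed_iff_zeroLocus_ideal _).1 hcl
  have htop : 𝔟 ⊔ J = ⊤ := by
    by_contra hne
    obtain ⟨m, hm, hle⟩ := Ideal.exists_le_maximal _ hne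
    obtain ⟨s', hs'⟩ := hε.exists_retract (Ideal.Quotient.mk m)
      (fun x hx => Ideal.Quotient.eq_zero_iff_mem.2 (hle (Ideal.mem_sup_right hx)))
    have hmem : (⟨m, hm.isPrime⟩ : PrimeSpectrum E) ∈ PrimeSpectrum.zeroLocus (𝔟 : Set E) :=
      (PrimeSpectrum.mem_zeroLocus _ _).2 (fun x hx => hle (Ideal.mem_sup_left hx))
    rw [← h𝔟] at hmem
    apply hmem
    have := hm.isPrime
    refine ⟨⟨RingHom.ker s', RingHom.ker_isPrime s'⟩, ?_⟩
    ext x
    change s' (ε x) = 0 ↔ x ∈ m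
    rw [← RingHom.comp_apply, hs', Ideal.Quotient.eq_zero_iff_mem]
  obtain ⟨b, hb, c, hc, hbc⟩ := Submodule.mem_sup.1 ((Ideal.eq_top_iff_one _).1 htop)
  refine ⟨b, ?_, fun p hp hbp => ?_⟩
  · have : b - 1 = -c := by rw [← hbc]; ring
    rw [this]
    exact J.neg_mem hc
  · have hmem : (⟨p, hp⟩ : PrimeSpectrum E) ∉ PrimeSpectrum.zeroLocus (𝔟 : Set E) :=
      fun h => hbp ((PrimeSpectrum.mem_zeroLocus _ _).1 h hb)
    rw [← h𝔟, Set.notMem_compl_iff] at hmem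
    obtain ⟨q, hq⟩ := hmem
    exact ⟨q.asIdeal, q.isPrime, congrArg PrimeSpectrum.asIdeal hq⟩

/-- The kernel of a flat map is killed by a power of `b` if `D(b)` is in the image. -/
theorem FP3_ker {ε : D →+* D1} (hfl : ε.Flat) {b : D}
    (hb : ∀ p : Ideal D, p.IsPrime → b ∉ p → ∃ q : Ideal D1, q.IsPrime ∧ q.comap ε = p)
    {x : D} (hx : ε x = 0) : ∃ n : ℕ, b ^ n * x = 0 := by
  algebraize [ε]
  have hrel : ∑ _i : Unit, x • (1 : D1) = 0 := by
    rw [Fintype.sum_unique, Algebra.smul_def, mul_one]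
    exact hx
  obtain ⟨k, a, y, hy, ha⟩ :=
    Module.Flat.isTrivialRelation_of_sum_smul_eq_zero (f := fun _ : Unit => x)
      (x := fun _ : Unit => (1 : D1)) hrel
  have hrad : b ∈ Ideal.radical (LinearMap.ker (LinearMap.toSpanSingleton D D x)) := by
    rw [Ideal.radical_eq_sInf, Ideal.mem_sInf]
    rintro p ⟨hle, hp⟩
    by_contra hbp
    obtain ⟨q, hq, hqp⟩ := hb p hp hbp
    apply hq.ne_top
    have hy1 : (1 : D1) = ∑ j, a () j • y j := hy ()
    rw [Ideal.eq_top_iff_one, hy1]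
    refine q.sum_mem fun j _ => ?_
    rw [Algebra.smul_def]
    refine q.mul_mem_right _ ?_
    have : a () j ∈ q.comap ε := by
      rw [hqp]
      apply hle
      have h2 := ha j
      rw [Fintype.sum_unique] at h2
      change a () j * x = 0
      rw [mul_comm]
      exact h2
    exact this
  obtain ⟨n, hn⟩ := hrad
  exact ⟨n, hn⟩

/-- Nakayama: surjectivity after inverting some `1 + i`. -/
theorem FP3_surj {δ : R →+* D} {ε : D →+* D1} (h1 : (ε.comp δ).Finite)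
    (I : Ideal R) (hs : ∀ y : D1, ∃ x : D, y - ε x ∈ (I.map δ).map ε) :
    ∃ w : R, w - 1 ∈ I ∧ ∀ y : D1, ∃ x : D, ε (δ w) * y = ε x := by
  let : Algebra R D1 := (ε.comp δ).toAlgebra
  have : Module.Finite R D1 := h1
  let N : Submodule R D1 :=
    { carrier := Set.range ε
      add_mem' := by
        rintro _ _ ⟨a, rfl⟩ ⟨b, rfl⟩
        exact ⟨a + b, map_add ε a b⟩
      zero_mem' := ⟨0, map_zero ε⟩
      smul_mem' := by
        rintro c _ ⟨a, rfl⟩
        exact ⟨δ c * a, map_mul ε _ _⟩ }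
  have hle : (⊤ : Submodule R D1) ≤ N ⊔ I • (⊤ : Submodule R D1) := by
    intro y _
    obtain ⟨x, hx⟩ := hs y
    rw [Ideal.map_map] at hx
    have h2 : y - ε x ∈ I • (⊤ : Submodule R D1) := by
      rw [Ideal.smul_top_eq_map]
      exact hx
    have h3 : y = ε x + (y - ε x) := by ring
    rw [h3]
    exact Submodule.add_mem_sup (show ε x ∈ N from ⟨x, rfl⟩) h2
  obtain ⟨w, hw, hwN⟩ := Submodule.exists_sub_one_mem_and_smul_le_of_fg_of_le_sup
    Module.Finite.fg_top le_rfl hle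
  refine ⟨w, hw, fun y => ?_⟩
  obtain ⟨x, hx⟩ := hwN (Submodule.smul_mem_pointwise_smul y w ⊤ Submodule.mem_top)
  exact ⟨x, hx.symm⟩

theorem FP3_mul_sub_one {I : Ideal R} {a b : R} (ha : a - 1 ∈ I) (hb : b - 1 ∈ I) :
    a * b - 1 ∈ I := by
  have : a * b - 1 = a * (b - 1) + (a - 1) := by ring
  rw [this]
  exact I.add_mem (I.mul_mem_left _ hb) ha

/-- A geometric point whose kernel lifts to a prime lifts. -/
theorem FP3_point {ε : E →+* E1} (hε : ε.FiniteType) {K : Type u} [Field K] [IsAlgClosed K]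
    (x : E →+* K) {q : Ideal E1} (hq : q.IsPrime) (hqx : q.comap ε = RingHom.ker x) :
    ∃ x1 : E1 →+* K, x1.comp ε = x := by
  let a : E ⧸ RingHom.ker x →+* E1 ⧸ q := Ideal.quotientMap q ε hqx.ge
  let k : E ⧸ RingHom.ker x →+* K := RingHom.kerLift x
  have ha : Function.Injective a := Ideal.quotientMap_injective' hqx.le
  have hk : Function.Injective k := RingHom.kerLift_injective x
  have haft : a.FiniteType := by
    have h2 : (a.comp (Ideal.Quotient.mk (RingHom.ker x))).FiniteType :=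
      hε.comp_surjective (g := Ideal.Quotient.mk q) Ideal.Quotient.mk_surjective
    exact h2.of_comp_finiteType
  let := a.toAlgebra
  let := k.toAlgebra
  have : Nontrivial (TensorProduct (E ⧸ RingHom.ker x) (E1 ⧸ q) K) :=
    Algebra.TensorProduct.nontrivial_of_algebraMap_injective_of_isDomain _ _ _ ha hk
  have hpo := isPO_tensor (R := E ⧸ RingHom.ker x) (S := E1 ⧸ q) (T := K)
  generalize (Algebra.TensorProduct.includeLeftRingHom :
    E1 ⧸ q →+* TensorProduct (E ⧸ RingHom.ker x) (E1 ⧸ q) K) = i at hpo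
  generalize (Algebra.TensorProduct.includeRight : K →ₐ[E ⧸ RingHom.ker x]
    TensorProduct (E ⧸ RingHom.ker x) (E1 ⧸ q) K).toRingHom = j at hpo
  obtain ⟨m, hm⟩ := Ideal.exists_maximal (TensorProduct (E ⧸ RingHom.ker x) (E1 ⧸ q) K)
  let := Ideal.Quotient.field m
  have hft : ((Ideal.Quotient.mk m).comp j).FiniteType :=
    (hpo.finiteType haft).comp_surjective Ideal.Quotient.mk_surjective
  have hbij : Function.Bijective ((Ideal.Quotient.mk m).comp j) :=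
    IsAlgClosed.ringHom_bijective_of_isIntegral _
      (RingHom.finite_iff_finiteType_of_isJacobsonRing.2 hft).to_isIntegral
  let e := RingEquiv.ofBijective _ hbij
  refine ⟨(e.symm : _ →+* K).comp (((Ideal.Quotient.mk m).comp i).comp (Ideal.Quotient.mk q)), ?_⟩
  ext y
  change e.symm (Ideal.Quotient.mk m (i (Ideal.Quotient.mk q (ε y)))) = x y
  rw [RingEquiv.symm_apply_eq]
  change _ = Ideal.Quotient.mk m (j (x y))
  congr 1
  exact hpo.comm_apply (Ideal.Quotient.mk _ y)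

/-- Lifting part of `FP3`. -/
theorem FP3_lift {φ : R →+* E} {ε : E →+* E1} (I : Ideal R) (hε : EE (I.map φ) ε) {𝔞 : Ideal E}
    (h : FinMod φ 𝔞) :
    ∃ w : R, w - 1 ∈ I ∧
      ∀ (K : Type u) [Field K] [IsAlgClosed K] (x : E →+* K), (∀ y ∈ 𝔞, x y = 0) →
        x (φ w) ≠ 0 → ∃ x1 : E1 →+* K, x1.comp ε = x := by
  obtain ⟨b, hb1, hb⟩ := FP3_open hε
  have hfin : ((Ideal.Quotient.mk 𝔞).comp φ).Finite := h
  obtain ⟨w, hw, c, hc⟩ := unit_of_unit_mod hfin.to_isIntegral I (y := Ideal.Quotient.mk 𝔞 b)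
    ⟨1, by
      rw [one_mul, ← Ideal.map_map, ← map_one (Ideal.Quotient.mk 𝔞), ← map_sub]
      exact Ideal.mem_map_of_mem _ hb1⟩
  refine ⟨w, hw, fun K _ _ x hx hxw => ?_⟩
  have hbx : b ∉ RingHom.ker x := by
    intro hb0
    apply hxw
    have h2 := congrArg (Ideal.Quotient.lift 𝔞 x hx) hc
    rw [map_mul, Ideal.Quotient.lift_mk, RingHom.comp_apply, Ideal.Quotient.lift_mk,
      RingHom.mem_ker.1 hb0, zero_mul] at h2
    exact h2
  obtain ⟨q, hq, hqx⟩ := hb _ (RingHom.ker_isPrime x) hbx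
  exact FP3_point (etale_finiteType hε.etale) x hq hqx

/-- Injectivity part of `FP3`. -/
theorem FP3_inj {φ : R →+* E} {ε : E →+* E1} (I : Ideal R) (hε : EE (I.map φ) ε)
    {𝔞1 : Ideal E1} (h1 : FinMod (ε.comp φ) 𝔞1) :
    ∃ w : R, w - 1 ∈ I ∧
      ∀ (K : Type u) [Field K] (x1 x2 : E1 →+* K), (∀ y ∈ 𝔞1, x1 y = 0) → (∀ y ∈ 𝔞1, x2 y = 0) →
        x1.comp ε = x2.comp ε → x1 (ε (φ w)) ≠ 0 → x1 = x2 := by
  have hfin : (((Ideal.Quotient.mk 𝔞1).comp ε).comp φ).Finite := h1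
  obtain ⟨P, _, i, j, hpo⟩ := exists_isPO ((Ideal.Quotient.mk 𝔞1).comp ε)
    ((Ideal.Quotient.mk 𝔞1).comp ε)
  have hi : i.Finite := hpo.flip.finite hfin.of_comp_finite
  have hP : (((i.comp (Ideal.Quotient.mk 𝔞1)).comp ε).comp φ).Finite := hi.comp hfin
  have w0 : (i.comp (Ideal.Quotient.mk 𝔞1)).comp ε = (j.comp (Ideal.Quotient.mk 𝔞1)).comp ε :=
    hpo.comm
  obtain ⟨η, hη1, hη⟩ := UL_mod hε.etale _ _ w0 (hε.sub_mem w0)
  rw [Ideal.map_map] at hη1
  obtain ⟨w, hw, c, hc⟩ := unit_of_unit_mod hP.to_isIntegral I (y := η) ⟨1, by rwa [one_mul]⟩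
  refine ⟨w, hw, fun K _ x1 x2 hx1 hx2 hx hxw => ?_⟩
  obtain ⟨τ, hτi, hτj⟩ := hpo.exists_lift (Ideal.Quotient.lift 𝔞1 x1 hx1)
    (Ideal.Quotient.lift 𝔞1 x2 hx2) (by
      ext y
      exact RingHom.congr_fun hx y)
  have e1 : τ.comp (i.comp (Ideal.Quotient.mk 𝔞1)) = x1 := by
    rw [← RingHom.comp_assoc, hτi]
    ext y
    rfl
  have e2 : τ.comp (j.comp (Ideal.Quotient.mk 𝔞1)) = x2 := by
    rw [← RingHom.comp_assoc, hτj]
    ext y
    rfl
  have hu : IsUnit (τ η) := by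
    rw [isUnit_iff_ne_zero]
    intro h0
    apply hxw
    have h2 := congrArg τ hc
    rw [map_mul, h0, zero_mul] at h2
    rw [← e1]
    exact h2
  rw [← e1, ← e2]
  exact hη K τ hu

/-- An `EE` map of finite `R`-algebras becomes bijective after inverting some `1 + i`. -/
theorem FP3_iso {δ : R →+* D} {ε : D →+* D1} (hδ : δ.Finite) (h1 : (ε.comp δ).Finite)
    (I : Ideal R) (hε : EE (I.map δ) ε) :
    ∃ w : R, w - 1 ∈ I ∧ (∀ y : D1, ∃ x : D, ε (δ w) * y = ε x) ∧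
      ∀ x : D, ε x = 0 → ∃ n : ℕ, δ w ^ n * x = 0 := by
  obtain ⟨w1, hw1, hs⟩ := FP3_surj h1 I hε.surj
  obtain ⟨b, hb1, hb⟩ := FP3_open hε
  obtain ⟨w2, hw2, c, hc⟩ := unit_of_unit_mod hδ.to_isIntegral I (y := b) ⟨1, by rwa [one_mul]⟩
  refine ⟨w1 * w2, FP3_mul_sub_one hw1 hw2, fun y => ?_, fun x hx => ?_⟩
  · obtain ⟨x, hx⟩ := hs y
    refine ⟨δ w2 * x, ?_⟩
    rw [map_mul, map_mul, map_mul, ← hx]
    ring
  · obtain ⟨n, hn⟩ := FP3_ker (etale_flat hε.etale) hb hx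
    refine ⟨n, ?_⟩
    rw [map_mul, hc]
    calc (δ w1 * (b * c)) ^ n * x = (δ w1 * c) ^ n * (b ^ n * x) := by ring
      _ = 0 := by rw [hn, mul_zero]

/-- Geometric points of two finite closed parts. -/
theorem FP3 {φ : R →+* E} {ε : E →+* E1} (I : Ideal R) (hε : EE (I.map φ) ε) {𝔞 : Ideal E}
    {𝔞1 : Ideal E1} (h : FinMod φ 𝔞) (h1 : FinMod (ε.comp φ) 𝔞1) :
    ∃ w : R, w - 1 ∈ I ∧
      (∀ (K : Type u) [Field K] [IsAlgClosed K] (x : E →+* K), (∀ y ∈ 𝔞, x y = 0) →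
        x (φ w) ≠ 0 → ∃ x1 : E1 →+* K, x1.comp ε = x) ∧
      ∀ (K : Type u) [Field K] (x1 x2 : E1 →+* K), (∀ y ∈ 𝔞1, x1 y = 0) → (∀ y ∈ 𝔞1, x2 y = 0) →
        x1.comp ε = x2.comp ε → x1 (ε (φ w)) ≠ 0 → x1 = x2 := by
  obtain ⟨w1, hw1, hl⟩ := FP3_lift I hε h
  obtain ⟨w2, hw2, hi⟩ := FP3_inj I hε h1
  refine ⟨w1 * w2, FP3_mul_sub_one hw1 hw2, fun K _ _ x hx hxw => ?_,
    fun K _ x1 x2 hx1 hx2 hx hxw => ?_⟩
  · rw [map_mul, map_mul] at hxw
    exact hl K x hx (left_ne_zero_of_mul hxw)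
  · rw [map_mul, map_mul, map_mul] at hxw
    exact hi K x1 x2 hx1 hx2 hx (right_ne_zero_of_mul hxw)

/-- Neighbourhoods coming from the base are cofinal for a finite algebra. -/
theorem Cof {δ : R →+* D} (hδ : δ.Finite) (I : Ideal R) {J : Ideal D}
    (hJ : J ≤ (I.map δ).radical) {ε : D →+* D1} (hε : EE J ε) :
    ∃ (R' : Type u) (_ : CommRing R') (ρ : R →+* R'), EE I ρ ∧
      ∀ (D' : Type u) [CommRing D'] (j : D →+* D') (δ' : R' →+* D'), j.comp δ = δ'.comp ρ →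
        ∃ s : D1 →+* D', s.comp ε = j := by
  have hε' : EE (I.map δ) ε := hε.of_radical hJ
  have hft : (ε.comp δ).FiniteType :=
    (etale_finiteType hε.etale).comp (RingHom.FiniteType.of_finite hδ)
  have hfin : FinMod (ε.comp δ) (⊥ ⊔ I.map (ε.comp δ)) := by
    have hsurj : Function.Surjective ((Ideal.Quotient.mk (⊥ ⊔ I.map (ε.comp δ))).comp ε) := by
      intro z
      obtain ⟨y, rfl⟩ := Ideal.Quotient.mk_surjective z
      obtain ⟨x, hx⟩ := hε'.surj y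
      rw [Ideal.map_map] at hx
      refine ⟨x, ?_⟩
      rw [RingHom.comp_apply, eq_comm, Ideal.Quotient.eq]
      exact Ideal.mem_sup_right hx
    exact (RingHom.Finite.of_surjective _ hsurj).comp hδ
  obtain ⟨R1, _, ρ, Y', _, ξ, φ', hρ, hw, hξ, hφ'⟩ := FP' hft I ⊥ hfin
  have hφfin : φ'.Finite := by
    rw [Ideal.map_bot] at hφ'
    have h2 : ((Ideal.Quotient.mk (⊥ : Ideal Y')).comp φ').Finite := hφ'
    have h3 := (RingHom.Finite.of_surjective
      ((RingEquiv.quotientBot Y' : Y' ⧸ (⊥ : Ideal Y') ≃+* Y') : Y' ⧸ (⊥ : Ideal Y') →+* Y')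
      (RingEquiv.quotientBot Y').surjective).comp h2
    exact h3
  obtain ⟨D2, _, i, j2, hpo⟩ := exists_isPO δ ρ
  obtain ⟨θ, hθi, hθj⟩ := hpo.exists_lift (ξ.comp ε) φ' hw
  have hi : EE (I.map δ) i := hpo.flip.ee hρ
  have hθ : EE ((I.map ρ).map j2) θ := by
    have h2 : EE (I.map δ) (θ.comp i) := by
      rw [hθi]
      refine hε'.comp ?_
      rwa [Ideal.map_map]
    have h3 := hi.cancel h2
    rwa [Ideal.map_map, hpo.comm, ← Ideal.map_map] at h3
  obtain ⟨w, hw1, hs, hk⟩ := FP3_iso (hpo.finite hδ) (by rwa [hθj]) (I.map ρ) hθ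
  obtain ⟨R2, _, ρ2, hρ2, haw⟩ := exists_ee_isUnit (I.map ρ) (r := w) ⟨1, by rwa [one_mul]⟩
  obtain ⟨L, _, l, hl⟩ := exists_isAway (θ (j2 w))
  have hlθ : IsAway (l.comp θ) (j2 w) := by
    refine isAway_iff.2 ⟨hl.isUnit, fun z => ?_, fun x hx => ?_⟩
    · obtain ⟨y, n, hy⟩ := hl.surj z
      obtain ⟨x, hx⟩ := hs y
      refine ⟨x, n + 1, ?_⟩
      rw [RingHom.comp_apply, RingHom.comp_apply, ← hx, map_mul, ← hy]
      ring
    · obtain ⟨n, hn⟩ := hl.eq_zero hx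
      obtain ⟨m, hm⟩ := hk (j2 w ^ n * x) (by rwa [map_mul, map_pow])
      exact ⟨m + n, by rw [pow_add, mul_assoc, hm]⟩
  refine ⟨R2, inferInstance, ρ2.comp ρ, hρ.comp hρ2, fun D' _ j δ' hj => ?_⟩
  obtain ⟨k, hki, hkj⟩ := hpo.exists_lift j (δ'.comp ρ2) hj
  have hu : IsUnit (k (j2 w)) := by
    rw [← RingHom.comp_apply, hkj]
    exact haw.isUnit.map δ'
  obtain ⟨d, hd⟩ := hlθ.exists_lift k hu
  refine ⟨(d.comp l).comp ξ, ?_⟩
  rw [RingHom.comp_assoc, ← hθi, ← hki, ← hd]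
  rfl

/-- Hensel lifting into a finite algebra. -/
theorem HL {δ : R →+* D} (hδ : δ.Finite) (I : Ideal R) {J : Ideal D}
    (hJ : J ≤ (I.map δ).radical) {ε : C →+* E} (hε : ε.Etale) (g : C →+* D) (s : E →+* D ⧸ J)
    (w : s.comp ε = (Ideal.Quotient.mk J).comp g) :
    ∃ (R' : Type u) (_ : CommRing R') (ρ : R →+* R'), EE I ρ ∧
      ∀ (D' : Type u) [CommRing D'] (j : D →+* D') (δ' : R' →+* D'), j.comp δ = δ'.comp ρ →
        ∃ s' : E →+* D', s'.comp ε = j.comp g ∧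
          ∀ y d, s y = Ideal.Quotient.mk J d → s' y - j d ∈ J.map j := by
  obtain ⟨D1, _, ρ1, s1, hρ1, hs1, hc⟩ := HL0 hε g J s w
  obtain ⟨R', _, ρ, hρ, hcof⟩ := Cof hδ I hJ hρ1
  refine ⟨R', inferInstance, ρ, hρ, fun D' _ j δ' hj => ?_⟩
  obtain ⟨s2, hs2⟩ := hcof D' j δ' hj
  refine ⟨s2.comp s1, ?_, fun y d hy => ?_⟩
  · rw [RingHom.comp_assoc, hs1, ← RingHom.comp_assoc, hs2]
  · have h2 := Ideal.mem_map_of_mem s2 (hc y d hy)
    rw [Ideal.map_map, hs2, map_sub, ← RingHom.comp_apply s2 ρ1, hs2] at h2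
    exact h2

end KEW
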