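import Pool.Agent.P.MP_6277db_ag.KEW.CA.EEApi

/-!
KEW L4.1: idempotents of `D ⧸ I D` lift eventually (`D` integral over `R`).
Hints.  `x = b^2 - b ∈ I D` is integral over the ideal `I`: there is a monic `g` with `g(x) = 0`,
`g ≡ T^n` mod `I` (work in a finite subalgebra `D0` containing `b` and the coefficients of `x ∈ I D`,
`LinearMap.exists_monic_and_coeff_mem_pow_and_aeval_eq_zero_of_range_le_smul`).  So `p = g(T^2 - T)` is
monic, `p(b) = 0`, `p ≡ T^n (T-1)^n`.  Factor `p = p0 p1` over the etale algebra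
`Polynomial.UniversalCoprimeFactorizationRing` (RingTheory/Polynomial/UniversalFactorizationRing) and use
`HL0` (or `exists_ee_of_section`) for the point given by the factorisation modulo `I`;
`a0 p0 + a1 p1 = 1`, `e = (a0 p0)(b)` is idempotent, `e ≡ b` (modulo `I`, `b` is idempotent, `p0(b) ≡ b`,
`p1(b) ≡ ±(b-1)`).  The trivial ring / `n = 0` cases are harmless.
-/

namespace KEW

universe u

variable {R D : Type u} [CommRing R] [CommRing D]

open Polynomial

theorem IL_deg {p : R[X]} (hp : p.Monic) {N : ℕ} (h : Nontrivial R → p.natDegree = N) :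
    p.coeff N = 1 ∧ ∀ i > N, p.coeff i = 0 := by
  cases subsingleton_or_nontrivial R with
  | inl _ => exact ⟨Subsingleton.elim _ _, fun _ _ => Subsingleton.elim _ _⟩
  | inr hR => exact (MonicDegreeEq.mk p hp (h hR)).2

theorem IL_poly {δ : R →+* D} (hδ : δ.IsIntegral) (I : Ideal R) {b : D}
    (hb : b * b - b ∈ I.map δ) :
    ∃ (n : ℕ) (p : MonicDegreeEq R (n + 1 + (n + 1))), p.1.eval₂ δ b = 0 ∧
      p.1.map (Ideal.Quotient.mk I) = X ^ (n + 1) * (X - C 1) ^ (n + 1) := by
  let := δ.toAlgebra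
  have : Algebra.IsIntegral R D := ⟨hδ⟩
  obtain ⟨g, hg, e, h⟩ := exists_monic_aeval_eq_zero_forall_mem_pow_of_mem_map (I := I) hb
  have hq : (X * (X - C 1) : R[X]).Monic := monic_X.mul (monic_X_sub_C 1)
  have hd : Nontrivial R → (X * (X - C 1) : R[X]).natDegree = 2 := fun _ => by
    rw [monic_X.natDegree_mul (monic_X_sub_C 1), natDegree_X, natDegree_X_sub_C]
  have hm : ((g * X).comp (X * (X - C 1))).Monic := by
    cases subsingleton_or_nontrivial R with
    | inl _ => exact monic_of_subsingleton _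
    | inr hR => exact (hg.mul monic_X).comp hq (by rw [hd hR]; norm_num)
  have hI : g.map (Ideal.Quotient.mk I) = X ^ g.natDegree := by
    ext i
    rw [coeff_map, coeff_X_pow]
    split_ifs with hi
    · rw [hi, hg.coeff_natDegree, map_one]
    · rcases lt_or_gt_of_ne hi with hi | hi
      · exact Ideal.Quotient.eq_zero_iff_mem.2 (Ideal.pow_le_self (by omega) (h i))
      · rw [coeff_eq_zero_of_natDegree_lt hi, map_zero]
  refine ⟨g.natDegree, ⟨_, IL_deg hm fun hR => ?_⟩, ?_, ?_⟩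
  · rw [natDegree_comp_eq_of_mul_ne_zero, hd hR, hg.natDegree_mul monic_X, natDegree_X]
    · ring
    · rw [(hg.mul monic_X).leadingCoeff, hq.leadingCoeff]; simp
  · change aeval b ((g * X).comp (X * (X - C 1))) = 0
    rw [aeval_comp, map_mul, (by simp; ring : aeval b (X * (X - C 1) : R[X]) = b * b - b), e,
      zero_mul]
  · simp [Polynomial.map_comp, hI, mul_pow, pow_succ]
    ring

theorem IL {δ : R →+* D} (hδ : δ.IsIntegral) (I : Ideal R) {b : D} (hb : b * b - b ∈ I.map δ) :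
    ∃ (R' : Type u) (_ : CommRing R') (ρ : R →+* R'), EE I ρ ∧
      ∀ (D' : Type u) [CommRing D'] (j : D →+* D') (δ' : R' →+* D'), j.comp δ = δ'.comp ρ →
        ∃ e : D', IsIdempotentElem e ∧ e - j b ∈ I.map (j.comp δ) := by
  obtain ⟨n, p, hp0, hpI⟩ := IL_poly hδ I hb
  let U := UniversalCoprimeFactorizationRing (n + 1) (n + 1) rfl p
  let q0 : MonicDegreeEq (R ⧸ I) (n + 1) :=
    ⟨X ^ (n + 1), IL_deg (monic_X_pow _) fun _ => natDegree_X_pow _⟩
  let q1 : MonicDegreeEq (R ⧸ I) (n + 1) :=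
    ⟨(X - C 1) ^ (n + 1), IL_deg ((monic_X_sub_C 1).pow _) fun _ => by
      rw [(monic_X_sub_C 1).natDegree_pow, natDegree_X_sub_C, mul_one]⟩
  have hc : IsCoprime q0.1 q1.1 :=
    IsCoprime.pow (x := X) (y := X - C 1) ⟨1, -1, by rw [C_1]; ring⟩
  let s : U →ₐ[R] R ⧸ I :=
    (UniversalCoprimeFactorizationRing.homEquiv (R ⧸ I) (n + 1) (n + 1) rfl p).symm
      ⟨(q0, q1), hpI.symm, hc⟩
  obtain ⟨F, hF⟩ : ∃ F, F = UniversalCoprimeFactorizationRing.homEquiv U (n + 1) (n + 1) rfl p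
    (AlgHom.id R U) := ⟨_, rfl⟩
  have h0 := UniversalCoprimeFactorizationRing.homEquiv_comp_fst U (n + 1) (n + 1) rfl p
    (AlgHom.id R U) s
  have h1 := UniversalCoprimeFactorizationRing.homEquiv_comp_snd U (n + 1) (n + 1) rfl p
    (AlgHom.id R U) s
  rw [AlgHom.comp_id, Equiv.apply_symm_apply, ← hF] at h0 h1
  obtain ⟨⟨F0, F1⟩, hm, a0, a1, ha⟩ := F
  have h0' : F0.1.map (s : U →+* R ⧸ I) = (X ^ (n + 1) : R[X]).map (Ideal.Quotient.mk I) := by
    rw [Polynomial.map_pow, map_X]; exact (congrArg Subtype.val h0).symm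
  have h1' : F1.1.map (s : U →+* R ⧸ I) =
      ((X - C 1) ^ (n + 1) : R[X]).map (Ideal.Quotient.mk I) := by
    rw [Polynomial.map_pow, Polynomial.map_sub, map_X, map_C, map_one]
    exact (congrArg Subtype.val h1).symm
  obtain ⟨R', _, ρ, s', hρ, hs, hs'⟩ := HL0 (ε := algebraMap R U)
    (RingHom.etale_algebraMap.2 inferInstance) (RingHom.id R) I (s : U →+* R ⧸ I)
    (RingHom.ext s.commutes)
  refine ⟨R', inferInstance, ρ, hρ, fun D' _ j δ' w => ?_⟩
  let φ : U[X] →+* D' := eval₂RingHom (δ'.comp s') (j b)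
  let π := Ideal.Quotient.mk (I.map (j.comp δ))
  have key : ∀ (G : U[X]) (q : R[X]), G.map (s : U →+* R ⧸ I) = q.map (Ideal.Quotient.mk I) →
      π (φ G) = q.eval₂ (π.comp (j.comp δ)) (π (j b)) := by
    intro G q hG
    have : G.map (π.comp (δ'.comp s')) = q.map (π.comp (j.comp δ)) := by
      ext i
      have h := hs' (G.coeff i) (q.coeff i) (by simpa using congrArg (coeff · i) hG)
      have h' := Ideal.mem_map_of_mem δ' h
      rw [Ideal.map_map, ← w, map_sub, ← δ'.comp_apply ρ, ← w] at h'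
      rw [coeff_map, coeff_map]
      exact Ideal.Quotient.eq.2 h'
    rw [eval₂_eq_eval_map, ← this, ← eval₂_eq_eval_map]
    exact hom_eval₂ _ _ _ _
  have k0 := key _ _ h0'
  have k1 := key _ _ h1'
  simp only [eval₂_pow, eval₂_sub, eval₂_X, map_one, eval₂_one] at k0 k1
  have kp : φ F0.1 * φ F1.1 = 0 := by
    rw [← map_mul, hm]
    change (p.1.map _).eval₂ _ _ = 0
    rw [eval₂_map, RingHom.comp_assoc, hs, RingHom.comp_id, ← w, ← hom_eval₂, hp0, map_zero]
  have ka : φ a0 * φ F0.1 + φ a1 * φ F1.1 = 1 := by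
    rw [← map_mul, ← map_mul, ← map_add, ha, map_one]
  have kb : π (j b) * (π (j b) - 1) = 0 := by
    have := Ideal.mem_map_of_mem j hb
    rw [Ideal.map_map] at this
    rw [mul_sub, mul_one, ← map_mul, ← map_sub, ← map_mul, ← map_sub]
    exact Ideal.Quotient.eq_zero_iff_mem.2 this
  refine ⟨φ a0 * φ F0.1, ?_, Ideal.Quotient.eq.1 ?_⟩
  · unfold IsIdempotentElem
    linear_combination (φ a0 * φ F0.1) * ka - φ a0 * φ a1 * kp
  · have ka' := congrArg π ka
    rw [map_add, map_mul, map_mul, k0, k1, map_one] at ka'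
    change π _ = π _
    rw [map_mul, k0]
    linear_combination π (j b) * ka' -
      (π (φ a0) * π (j b) ^ n + π (φ a1) * (π (j b) - 1) ^ n) * kb

end KEW
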