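import Pool.Agent.P.MP_6277db_ag.KEW.CA.Desc

/-!
KEW L4.1: closure properties of `IndEP`; fields over a perfect field.
Hints.  `IndEP.comp_ep`: `desc_etN` (with `B = κ`), then `desc_map`.
`IsLoc.exists_away_factor`: a map from a finitely presented algebra to `M⁻¹ R` factors through some
`R[1/s]` (common denominator of the generators, then kill the relations).
`field_chart`: let `D1` be the image of `D` in `K` (a finitely generated domain), `K0` its fraction field; a
separating transcendence basis exists over a perfect field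
(`exists_isTranscendenceBasis_and_isSeparable_of_perfectField` or FieldTheory/SeparablyGenerated,
`Algebra.FormallySmooth` for fields in RingTheory/Smooth/Field); so `D1` is smooth at the generic point,
`Algebra.IsSmoothAt.exists_isStandardEtale_mvPolynomial` (or `exists_notMem_isStandardSmooth` with
`IsStandardSmooth.exists_etale_mvPolynomial`) gives `B = D1[1/s]`.
-/

namespace KEW

universe u

open Polynomial

variable {κ R S T : Type u} [CommRing κ] [CommRing R] [CommRing S] [CommRing T]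

theorem EP.indEP {a : κ →+* R} (h : EP a) : IndEP a := fun _ _ _ f _ w =>
  ⟨R, inferInstance, f, RingHom.id R, w ▸ h, RingHom.id_comp f⟩

theorem IndEP.comp_ep {a : κ →+* R} (h : IndEP a) {φ : R →+* S} (hφ : EP φ) : IndEP (φ.comp a) := by
  obtain ⟨n, x, hx⟩ := hφ
  intro D _ d w hd hw
  obtain ⟨B, _, Y, _, g, f, ψ, ξ, x', h1, h2, h3, h4, -⟩ :=
    desc_etN (β := RingHom.id κ) (f := a) h (RingHom.FinitePresentation.id κ) hx
  rw [RingHom.comp_id] at h1
  obtain ⟨B', _, Y', _, g', f', ψ', ξ1, ξ2, h5, w', h6, h7⟩ :=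
    desc_map (β := g) (f := f) (h2 ▸ h) h1.finitePresentation h3 (ψ.comp g) hd w (by
      rw [hw, ← RingHom.comp_assoc, h3.comm, RingHom.comp_assoc, h2])
  refine ⟨Y', inferInstance, w', ξ2, ?_, h6⟩
  rw [h7, ← RingHom.comp_assoc, h5.po1.comm, RingHom.comp_assoc]
  exact h5.ep.comp (h5.po1.ep h4.ep)

theorem IndEP.comp_etale {a : κ →+* R} (h : IndEP a) {φ : R →+* S} (hφ : φ.Etale) :
    IndEP (φ.comp a) := h.comp_ep (ep_of_etale hφ)

theorem IndEP.comp_et1 {a : κ →+* R} (h : IndEP a) {φ : R →+* S} {u : S} (hφ : Et1 φ u) :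
    IndEP (φ.comp a) := h.comp_ep hφ.ep

theorem IndEP.comp_etN {a : κ →+* R} (h : IndEP a) {ι : Type} [Finite ι] {φ : R →+* S} {x : ι → S}
    (hφ : EtN φ x) : IndEP (φ.comp a) := h.comp_ep hφ.ep

theorem IndEP.polynomial {a : κ →+* R} (h : IndEP a) : IndEP ((C : R →+* R[X]).comp a) :=
  h.comp_ep ep_polynomial

theorem Ind_pres {δ : R →+* S} (hδ : δ.FinitePresentation) :
    ∃ (n : ℕ) (p : MvPolynomial (Fin n) R →+* S), Function.Surjective p ∧
      p.comp MvPolynomial.C = δ ∧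
      ∃ Z : Finset (MvPolynomial (Fin n) R), Ideal.span (Z : Set _) = RingHom.ker p := by
  let := δ.toAlgebra
  obtain ⟨n, p, h1, h2⟩ := (show Algebra.FinitePresentation R S from hδ).out
  exact ⟨n, p.toRingHom, h1, p.comp_algebraMap, h2⟩

theorem IsLoc.exists_away_factor {l : R →+* T} {M : Submonoid R} (hl : IsLoc l M) {D0 D : Type u}
    [CommRing D0] [CommRing D] (d0 : D0 →+* R) {δ : D0 →+* D} (hδ : δ.FinitePresentation)
    (w : D →+* T) (hw : w.comp δ = l.comp d0) :
    ∃ s ∈ M, ∀ (R1 : Type u) [CommRing R1] (l1 : R →+* R1) (l2 : R1 →+* T), IsAway l1 s →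
      l2.comp l1 = l → ∃ w1 : D →+* R1, l2.comp w1 = w ∧ w1.comp δ = l1.comp d0 := by
  classical
  obtain ⟨hu, hs, hz⟩ := isLoc_iff.1 hl
  obtain ⟨n, p, hp, hpδ, Z, hZ⟩ := Ind_pres hδ
  choose x y hy hxy using fun i : Fin n => hs (w (p (MvPolynomial.X i)))
  have hyM : ∏ i, y i ∈ M := prod_mem fun i _ => hy i
  obtain ⟨R0, _, l0, h0⟩ := exists_isAway (∏ i, y i)
  obtain ⟨k0, hk0⟩ := h0.exists_lift l (hu _ hyM)
  have hk0' : ∀ r, k0 (l0 r) = l r := RingHom.congr_fun hk0
  have hy0 : ∀ i, IsUnit (l0 (y i)) := fun i =>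
    isUnit_of_dvd_unit (map_dvd l0 (Finset.dvd_prod_of_mem y (Finset.mem_univ i))) h0.isUnit
  choose v hv using fun i => (hy0 i).exists_right_inv
  obtain ⟨p0, hp0⟩ : ∃ p0, p0 = MvPolynomial.eval₂Hom (l0.comp d0) fun i => l0 (x i) * v i :=
    ⟨_, rfl⟩
  have h1 : k0.comp p0 = w.comp p := by
    refine MvPolynomial.ringHom_ext (fun r => ?_) fun i => ?_
    · have e1 := RingHom.congr_fun hpδ r
      have e2 := RingHom.congr_fun hw r
      simp only [RingHom.comp_apply] at e1 e2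
      simp [hp0, hk0', e1, e2]
    · have e1 := congrArg k0 (hv i)
      rw [map_mul, map_one, hk0'] at e1
      simp [hp0, hk0', ← hxy, mul_assoc, e1]
  have h2 : ∀ z : Z, ∃ t ∈ M, ∃ (r : R) (m : ℕ), t * r = 0 ∧ p0 z * l0 (∏ i, y i) ^ m = l0 r := by
    intro z
    obtain ⟨r, m, e⟩ := h0.surj (p0 z)
    have e1 : p z = 0 := by
      rw [← RingHom.mem_ker, ← hZ]
      exact Ideal.subset_span z.2
    have e2 := RingHom.congr_fun h1 z
    rw [RingHom.comp_apply, RingHom.comp_apply, e1, map_zero] at e2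
    obtain ⟨t, ht, e3⟩ := hz r (by rw [← hk0', ← e, map_mul, e2, zero_mul])
    exact ⟨t, ht, r, m, e3, e⟩
  choose t ht r m htr hrm using h2
  refine ⟨(∏ i, y i) * ∏ z, t z, mul_mem hyM (prod_mem fun z _ => ht z),
    fun R1 _ l1 l2 h3 h4 => ?_⟩
  have h5 := h3.isUnit
  rw [map_mul, IsUnit.mul_iff] at h5
  obtain ⟨k, hk⟩ := h0.exists_lift l1 h5.1
  have hk' : ∀ r, k (l0 r) = l1 r := RingHom.congr_fun hk
  have h6 : l2.comp k = k0 := h0.hom_ext (by rw [RingHom.comp_assoc, hk, h4, hk0])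
  have h7 : RingHom.ker p ≤ RingHom.ker (k.comp p0) := by
    rw [← hZ, Ideal.span_le]
    intro z hz
    have e1 : IsUnit (l1 (t ⟨z, hz⟩)) := isUnit_of_dvd_unit
      (map_dvd l1 (Finset.dvd_prod_of_mem t (Finset.mem_univ _))) h5.2
    have e2 : l1 (r ⟨z, hz⟩) = 0 := e1.mul_right_eq_zero.1 (by rw [← map_mul, htr, map_zero])
    have e3 := congrArg k (hrm ⟨z, hz⟩)
    rw [map_mul, map_pow, hk', hk', e2] at e3
    exact (h5.1.pow _).mul_left_eq_zero.1 e3
  have h8 := p.liftOfSurjective_comp hp ⟨_, h7⟩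
  refine ⟨p.liftOfSurjective hp ⟨_, h7⟩, (RingHom.cancel_right hp).1 ?_, ?_⟩
  · rw [RingHom.comp_assoc, h8, ← RingHom.comp_assoc, h6, h1]
  · rw [← hpδ, ← RingHom.comp_assoc, h8, RingHom.comp_assoc, hp0, MvPolynomial.eval₂Hom_comp_C,
      ← RingHom.comp_assoc, hk]

theorem IndEP.comp_isLoc {a : κ →+* R} (h : IndEP a) {l : R →+* T} {M : Submonoid R}
    (hl : IsLoc l M) : IndEP (l.comp a) := fun D _ d w hd hw => by
  obtain ⟨s, hs, h1⟩ := hl.exists_away_factor a hd w hw
  obtain ⟨R1, _, l1, h2⟩ := exists_isAway s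
  obtain ⟨l2, h3⟩ := h2.exists_lift l ((isLoc_iff.1 hl).1 s hs)
  obtain ⟨w1, h4, h5⟩ := h1 R1 l1 l2 h2 h3
  obtain ⟨B, _, g, k, h6, h7⟩ := h.comp_etale h2.etale D d w1 hd h5
  exact ⟨B, inferInstance, g, l2.comp k, h6, by rw [RingHom.comp_assoc, h7, h4]⟩

theorem IndEP.trans {a : κ →+* R} (h : IndEP a) {φ : R →+* S} (hφ : IndEP φ) : IndEP (φ.comp a) :=
  fun D _ d w hd hw => by
  obtain ⟨D', _, i, j, p⟩ := exists_isPO d a
  obtain ⟨w', h1, h2⟩ := p.exists_lift w φ hw
  obtain ⟨B, _, g, k, h3, h4⟩ := hφ D' j w' (p.finitePresentation hd) h2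
  obtain ⟨B', _, g', k', h5, h6⟩ := h.comp_ep h3 D d (g.comp i) hd (by
    rw [RingHom.comp_assoc, p.comm, RingHom.comp_assoc])
  exact ⟨B', inferInstance, g', k.comp k', h5, by
    rw [RingHom.comp_assoc, h6, ← RingHom.comp_assoc, h4, h1]⟩

theorem indEP_of_subsingleton [Subsingleton R] (a : κ →+* R) : IndEP a :=
  (ep_of_etale (IsAway.etale (r := 0) (isAway_iff.2 ⟨isUnit_of_subsingleton _,
    fun _ => ⟨0, 0, Subsingleton.elim _ _⟩, fun _ _ => ⟨1, by simp⟩⟩))).indEP

theorem Ind_dom (k A : Type u) [Field k] [PerfectField k] [CommRing A] [IsDomain A] [Algebra k A]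
    [Algebra.FiniteType k A] :
    ∃ s : A, s ≠ 0 ∧ EP ((algebraMap A (Localization.Away s)).comp (algebraMap k A)) := by
  have : Algebra.FinitePresentation k A := Algebra.FinitePresentation.of_finiteType.1 ‹_›
  have : IsFractionRing A (Localization.AtPrime (⊥ : Ideal A)) := by
    rw [IsFractionRing, ← Ideal.primeCompl_bot]
    infer_instance
  have : Algebra.EssFiniteType A (FractionRing A) := .of_isLocalization _ (nonZeroDivisors A)
  have : Algebra.EssFiniteType k (FractionRing A) := .comp k A _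
  have : Algebra.IsSmoothAt k (⊥ : Ideal A) := Algebra.FormallySmooth.of_equiv
    ((FractionRing.algEquiv A (Localization.AtPrime (⊥ : Ideal A))).restrictScalars k)
  obtain ⟨s, hs, h⟩ := Algebra.IsSmoothAt.exists_notMem_isStandardSmooth k (⊥ : Ideal A)
  obtain ⟨n, g, h1, h2⟩ := RingHom.IsStandardSmooth.exists_etale_mvPolynomial
    (f := algebraMap k (Localization.Away s)) (RingHom.isStandardSmooth_algebraMap.2 h)
  refine ⟨s, hs, n, fun i => g (MvPolynomial.X i), ?_⟩
  rw [← IsScalarTower.algebraMap_eq, ← h1, EtN]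
  convert h2
  exact MvPolynomial.ringHom_ext (fun r => by simp) fun i => by simp

theorem field_chart {k K D : Type u} [Field k] [PerfectField k] [Field K] [CommRing D]
    {d : k →+* D} (hd : d.FiniteType) (f : D →+* K) :
    ∃ (B : Type u) (_ : CommRing B) (g : D →+* B) (h : B →+* K), EP (g.comp d) ∧ h.comp g = f ∧
      Function.Injective h := by
  have := RingHom.ker_isPrime f
  let := ((Ideal.Quotient.mk (RingHom.ker f)).comp d).toAlgebra
  have : Algebra.FiniteType k (D ⧸ RingHom.ker f) :=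
    hd.comp_surjective Ideal.Quotient.mk_surjective
  obtain ⟨s, hs, h1⟩ := Ind_dom k (D ⧸ RingHom.ker f)
  have h2 := (isAway_algebraMap_iff (S := Localization.Away s) s).2 inferInstance
  have h3 := RingHom.kerLift_injective f
  obtain ⟨h, h4⟩ := h2.exists_lift f.kerLift ((map_ne_zero_iff _ h3).2 hs).isUnit
  refine ⟨Localization.Away s, inferInstance,
    (algebraMap _ _).comp (Ideal.Quotient.mk (RingHom.ker f)), h, h1, ?_,
    (injective_iff_map_eq_zero h).2 fun z hz => ?_⟩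
  · rw [← RingHom.comp_assoc, h4]
    exact RingHom.ext fun y => RingHom.kerLift_mk f y
  · obtain ⟨y, n, e⟩ := h2.surj z
    have e1 := RingHom.congr_fun h4 y
    rw [RingHom.comp_apply, ← e, map_mul, hz, zero_mul, eq_comm, map_eq_zero_iff _ h3] at e1
    rw [e1, map_zero] at e
    exact (h2.isUnit.pow n).mul_left_eq_zero.1 e

theorem indEP_field {k K : Type u} [Field k] [PerfectField k] [Field K] (a : k →+* K) : IndEP a :=
  fun _ _ _ f hd _ => by
  obtain ⟨B, _, g, h, h1, h2, -⟩ := field_chart (RingHom.FiniteType.of_finitePresentation hd) f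
  exact ⟨B, inferInstance, g, h, h1, h2⟩

end KEW
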