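import Pool.Agent.P.MP_6277db_ag.KEW.CA.Jac0
import Pool.Agent.P.MP_6277db_ag.KEW.CA.EEApi

/-!
KEW L4: Jacobian criterion for a change of coordinates and the implicit function theorem.
Hints.  `jac`: `Ω[B⁄R]` is free on the `d z_j` (`KaehlerDifferential.tensorKaehlerEquivOfFormallyEtale`,
`KaehlerDifferential.mvPolynomialBasis`); write `d f_k = Σ J_kj d z_j`.  From `hz`, `A J ≡ 1` modulo
`𝔟 ⊔ I B` (the derivation kills `φ I`-multiples modulo `I`, and `𝔟^2` modulo `𝔟`), so `det J` is a unit modulo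
this ideal; `d = c * det J ≡ 1`.  On `B1 = B[1/d]` the `d f_k` form a basis of `Ω[B1⁄R]`; the Jacobi-Zariski
sequence (`Algebra.H1Cotangent.exact_map_δ`, `exact_δ_mapBaseChange`,
`KaehlerDifferential.exact_mapBaseChange_map`) for `R → R[y] → B1` gives `Ω = 0` and `H1Cotangent = 0`, so
formally etale (alternatively check the lifting property directly, correcting a lift by a derivation);
finite presentation by `of_restrict_scalars_finitePresentation`.
`IFT`: `B1 ⧸ (f)` is etale over `R` (`EtN.etale_quotient`); the point `B → R ⧸ I` extends; finish with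
`exists_ee_of_section`.
`ift_fix`: `IFT` for the polynomial ring and `f k = X k - z k`.
`coord_change`: `ker e = (x) + (ker e)^2` by `sec_loc`; write `t ≡ Σ φ(c_k) x_k`, some `c_k0 ≠ 0`; `jac` with `I = ⊥`.
-/

namespace KEW

universe u

variable {R B : Type u} [CommRing R] [CommRing B]

theorem Jac_der [Algebra R B] (δ : Derivation R B B) (I : Ideal R) (𝔟 : Ideal B) {y : B}
    (hy : y ∈ 𝔟 ^ 2 ⊔ I.map (algebraMap R B)) : δ y ∈ 𝔟 ⊔ I.map (algebraMap R B) := by
  obtain ⟨a, ha, c, hc, rfl⟩ := Submodule.mem_sup.1 hy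
  rw [map_add]
  refine Submodule.add_mem_sup ?_ ?_
  · rw [pow_two] at ha
    refine Submodule.mul_induction_on ha (fun m hm n hn => ?_) fun x y hx hy => ?_
    · rw [Derivation.leibniz, smul_eq_mul, smul_eq_mul]
      exact 𝔟.add_mem (𝔟.mul_mem_right _ hm) (𝔟.mul_mem_right _ hn)
    · rw [map_add]
      exact 𝔟.add_mem hx hy
  · clear hy
    induction hc using Submodule.span_induction with
    | mem x hx =>
      obtain ⟨r, -, rfl⟩ := hx
      simp
    | zero => simp
    | add x y _ _ hx hy =>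
      rw [map_add]
      exact Ideal.add_mem _ hx hy
    | smul r x hx ih =>
      rw [smul_eq_mul, Derivation.leibniz, smul_eq_mul, smul_eq_mul]
      exact Ideal.add_mem _ (Ideal.mul_mem_left _ _ ih) (Ideal.mul_mem_right _ _ hx)

theorem jac {ι : Type} [Finite ι] {φ : R →+* B} {z f : ι → B} (h : EtN φ z) (I : Ideal R)
    (𝔟 : Ideal B) (hf : ∀ k, f k ∈ 𝔟 ⊔ I.map φ)
    (hz : ∀ k, z k ∈ Ideal.span (Set.range f) ⊔ 𝔟 ^ 2 ⊔ I.map φ) :
    ∃ d : B, d - 1 ∈ 𝔟 ⊔ I.map φ ∧ ∀ (B1 : Type u) [CommRing B1] (l : B →+* B1), IsAway l d →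
      EtN (l.comp φ) (fun k => l (f k)) := by
  classical
  have := Fintype.ofFinite ι
  let _ : Algebra R B := φ.toAlgebra
  obtain ⟨b, hb⟩ := EtN.exists_basis (R := R) (B := B) h
  let δ : ι → Derivation R B B := fun j => (b.coord j).compDer (KaehlerDifferential.D R B)
  have hδ : ∀ j y, δ j y = b.repr (KaehlerDifferential.D R B y) j := fun _ _ => rfl
  let J : Matrix ι ι B := Matrix.of fun k j => δ j (f k)
  have ex : ∀ k, ∃ a : ι → B, z k - ∑ m, a m * f m ∈ 𝔟 ^ 2 ⊔ I.map φ := fun k => by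
    have h1 := hz k
    rw [sup_assoc] at h1
    obtain ⟨y, hy, c, hc, e⟩ := Submodule.mem_sup.1 h1
    obtain ⟨a, rfl⟩ := Ideal.mem_span_range_iff_exists_fun.1 hy
    exact ⟨a, by rw [← e, add_sub_cancel_left]; exact hc⟩
  choose A hA using ex
  have key : (Ideal.Quotient.mk (𝔟 ⊔ I.map φ)).mapMatrix (Matrix.of A * J) = 1 := by
    ext k j
    have h1 : δ j (z k - ∑ m, A k m * f m) ∈ 𝔟 ⊔ I.map φ := Jac_der (δ j) I 𝔟 (hA k)
    have h2 : δ j (z k) = (1 : Matrix ι ι B) k j := by
      rw [hδ, ← hb, b.repr_self, Finsupp.single_apply, Matrix.one_apply]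
    have h3 : ∀ m, Ideal.Quotient.mk (𝔟 ⊔ I.map φ) (f m) = 0 := fun m =>
      Ideal.Quotient.eq_zero_iff_mem.2 (hf m)
    rw [← Ideal.Quotient.eq_zero_iff_mem, map_sub, map_sum, h2] at h1
    simp only [Derivation.leibniz, smul_eq_mul, map_sub, map_sum, map_add, map_mul, h3, zero_mul,
      add_zero, sub_eq_zero] at h1
    simp only [RingHom.mapMatrix_apply, Matrix.map_apply, Matrix.mul_apply, Matrix.of_apply, J,
      map_sum, map_mul, ← h1, Matrix.one_apply]
    split_ifs <;> simp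
  refine ⟨(Matrix.of A * J).det, ?_, fun B1 _ l hl => jac_core (R := R) h J (fun k => ?_) hl ?_⟩
  · rw [← Ideal.Quotient.eq, RingHom.map_det, key, Matrix.det_one, map_one]
  · simp only [J, Matrix.of_apply, hδ, ← hb]
    exact (b.sum_repr _).symm
  · rw [Matrix.det_mul]
    exact dvd_mul_left _ _

theorem IFT {ι : Type} [Finite ι] {φ : R →+* B} {z f : ι → B} (h : EtN φ z) (I : Ideal R)
    (e : B →+* R ⧸ I) (he : e.comp φ = Ideal.Quotient.mk I) (hf : ∀ k, e (f k) = 0)
    (hz : ∀ k, z k ∈ Ideal.span (Set.range f) ⊔ RingHom.ker e ^ 2 ⊔ I.map φ) :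
    ∃ (R' : Type u) (_ : CommRing R') (ψ : B →+* R'), EE I (ψ.comp φ) ∧ (∀ k, ψ (f k) = 0) ∧
      ∀ y, e y = 0 → ψ y ∈ I.map (ψ.comp φ) := by
  obtain ⟨d, hd, hj⟩ := jac h I (RingHom.ker e) (fun k => Ideal.mem_sup_left (hf k)) hz
  have hI : I.map φ ≤ RingHom.ker e := Ideal.map_le_iff_le_comap.2 fun r hr =>
    (RingHom.congr_fun he r).trans (Ideal.Quotient.eq_zero_iff_mem.2 hr)
  rw [sup_eq_left.2 hI, RingHom.mem_ker, map_sub, map_one, sub_eq_zero] at hd
  obtain ⟨B1, _, l, hl⟩ := exists_isAway d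
  obtain ⟨e1, he1⟩ := hl.exists_lift e (hd ▸ isUnit_one)
  have h1 : ∀ y, e1 (l y) = e y := RingHom.congr_fun he1
  have hk : ∀ y ∈ Ideal.span (Set.range fun k => l (f k)), e1 y = 0 := fun y hy =>
    (Ideal.span_le (I := RingHom.ker e1)).2 (by
      rintro _ ⟨k, rfl⟩
      exact (h1 _).trans (hf k)) hy
  obtain ⟨-, E', _, l', s', -, -, w, hee, hker⟩ := exists_ee_of_section (hj B1 l hl).etale_quotient
    (Ideal.Quotient.mk_surjective (I := I)) (Ideal.Quotient.lift _ e1 hk)
    (RingHom.ext fun r => (h1 _).trans (RingHom.congr_fun he r))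
  rw [Ideal.mk_ker] at hee hker
  refine ⟨E', inferInstance, l'.comp ((Ideal.Quotient.mk _).comp l), hee, fun k => ?_,
    fun y hy => ?_⟩
  · simp only [RingHom.comp_apply]
    rw [Ideal.Quotient.eq_zero_iff_mem.2 (Ideal.subset_span (Set.mem_range_self k)), map_zero]
  · refine hker.le ?_
    exact (RingHom.congr_fun w _).trans ((h1 y).trans hy)

/-- Fixed point equations with coefficients in `I` can be solved eventually. -/
theorem ift_fix {ι : Type} [Finite ι] (I : Ideal R) (z : ι → MvPolynomial ι R)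
    (hz : ∀ k m, (z k).coeff m ∈ I) :
    ∃ (R' : Type u) (_ : CommRing R') (ρ : R →+* R') (y : ι → R'), EE I ρ ∧
      ∀ k, y k = MvPolynomial.eval₂ ρ y (z k) := by
  have hz' : ∀ k, z k ∈ I.map (MvPolynomial.C : R →+* MvPolynomial ι R) := fun k =>
    MvPolynomial.mem_map_C_iff.2 (hz k)
  have he : (MvPolynomial.eval₂Hom (Ideal.Quotient.mk I) (fun _ : ι => 0)).comp MvPolynomial.C =
      Ideal.Quotient.mk I := RingHom.ext fun r => by simp
  have hI : I.map (MvPolynomial.C : R →+* MvPolynomial ι R) ≤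
      RingHom.ker (MvPolynomial.eval₂Hom (Ideal.Quotient.mk I) (fun _ : ι => 0)) :=
    Ideal.map_le_iff_le_comap.2 fun r hr =>
      (RingHom.congr_fun he r).trans (Ideal.Quotient.eq_zero_iff_mem.2 hr)
  obtain ⟨R', _, ψ, h1, h2, -⟩ := IFT (f := fun k => MvPolynomial.X k - z k) (etN_X (R := R) ι) I _
    he (fun k => by rw [map_sub, RingHom.mem_ker.1 (hI (hz' k))]; simp) fun k => by
      rw [← sub_add_cancel (MvPolynomial.X k) (z k)]
      exact Submodule.add_mem_sup (Ideal.mem_sup_left (Ideal.subset_span ⟨k, rfl⟩)) (hz' k)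
  refine ⟨R', inferInstance, ψ.comp MvPolynomial.C, fun k => ψ (MvPolynomial.X k), h1,
    fun k => ?_⟩
  have h3 := h2 k
  rw [map_sub, sub_eq_zero] at h3
  exact h3.trans (MvPolynomial.map_mvPolynomial_eq_eval₂ ψ (z k))

/-- Change of one coordinate at a rational point: any `t` with `dt ≠ 0` is a coordinate. -/
theorem coord_change {F : Type u} [Field F] {ι : Type} [Finite ι] [DecidableEq ι] {φ : F →+* B}
    {x : ι → B} (h : EtN φ x) (e : B →+* F) (he : e.comp φ = RingHom.id F) (hx : ∀ k, e (x k) = 0)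
    {t : B} (ht : e t = 0) (ht2 : t ∉ RingHom.ker e ^ 2) :
    ∃ (k0 : ι) (d : B), e d = 1 ∧ ∀ (B1 : Type u) [CommRing B1] (l : B →+* B1), IsAway l d →
      EtN (l.comp φ) (fun k => l (Function.update x k0 t k)) := by
  have := Fintype.ofFinite ι
  have he' : ∀ c, e (φ c) = c := RingHom.congr_fun he
  have hk : ∀ y ∈ Ideal.span (Set.range x), e y = 0 := fun y hy =>
    (Ideal.span_le (I := RingHom.ker e)).2 (by
      rintro _ ⟨k, rfl⟩
      exact hx k) hy
  obtain ⟨η, hη, hη'⟩ := sec_loc h.etale_quotient (π := RingHom.id F) Function.surjective_id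
    (Ideal.Quotient.lift _ e hk) (RingHom.ext he')
  obtain ⟨η, rfl⟩ := Ideal.Quotient.mk_surjective η
  have hη1 : e η = 1 := hη
  have h1 := hη' (Ideal.Quotient.mk _ t) ht
  rw [(RingHom.injective_iff_ker_eq_bot _).1 (RingHom.id F).injective, Ideal.map_bot,
    Ideal.mem_bot, ← map_mul, Ideal.Quotient.eq_zero_iff_mem] at h1
  obtain ⟨a, ha⟩ := Ideal.mem_span_range_iff_exists_fun.1 h1
  have sq : ∀ y y', e y = 0 → e y' = 0 → y * y' ∈ RingHom.ker e ^ 2 := fun y y' h1 h2 => by
    rw [pow_two]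
    exact Ideal.mul_mem_mul h1 h2
  have h2 : t - ∑ k, φ (e (a k)) * x k ∈ RingHom.ker e ^ 2 := by
    have : t - ∑ k, φ (e (a k)) * x k = (1 - η) * t + ∑ k, (a k - φ (e (a k))) * x k := by
      simp only [sub_mul, Finset.sum_sub_distrib, ha]
      ring
    rw [this]
    exact Ideal.add_mem _ (sq _ _ (by simp [hη1]) ht)
      (Ideal.sum_mem _ fun k _ => sq _ _ (by simp [he']) (hx k))
  obtain ⟨k0, hk0⟩ : ∃ k0, e (a k0) ≠ 0 := by
    by_contra hn
    push Not at hn
    exact ht2 (by simpa [hn] using h2)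
  obtain ⟨d, hd, hj⟩ := jac (f := Function.update x k0 t) h ⊥ (RingHom.ker e)
    (fun k => Ideal.mem_sup_left (by
      by_cases hk : k = k0
      · rw [hk, Function.update_self]
        exact ht
      · rw [Function.update_of_ne hk]
        exact hx k)) fun k => Ideal.mem_sup_left (by
      have hs : ∀ k, k ≠ k0 → x k ∈ Ideal.span (Set.range (Function.update x k0 t)) :=
        fun k hk => Ideal.subset_span ⟨k, Function.update_of_ne hk _ _⟩
      by_cases hk : k = k0
      · have : x k0 = φ (e (a k0))⁻¹ * ((t - ∑ k ∈ Finset.univ.erase k0, φ (e (a k)) * x k) +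
            -(t - ∑ k, φ (e (a k)) * x k)) := by
          rw [← Finset.add_sum_erase _ _ (Finset.mem_univ k0)]
          have h3 : φ (e (a k0))⁻¹ * φ (e (a k0)) = 1 := by
            rw [← map_mul, inv_mul_cancel₀ hk0, map_one]
          linear_combination (-x k0) * h3
        rw [hk, this]
        refine Ideal.mul_mem_left _ _ (Submodule.add_mem_sup (Ideal.sub_mem _
          (Ideal.subset_span ⟨k0, Function.update_self _ _ _⟩) (Ideal.sum_mem _ fun k hk => ?_))
          (Submodule.neg_mem _ h2))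
        exact Ideal.mul_mem_left _ _ (hs k (Finset.ne_of_mem_erase hk))
      · exact Ideal.mem_sup_left (hs k hk))
  rw [Ideal.map_bot, sup_bot_eq, RingHom.mem_ker, map_sub, map_one, sub_eq_zero] at hd
  exact ⟨k0, d, hd, hj⟩

end KEW
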