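import Pool.Agent.P.MP_6277db_ag.KEW.CA.Et

/-!
KEW L4: Jacobian criterion for a change of coordinates and the implicit function theorem.
Hints.  `jac`: `Ω[B⁄R]` is free on the `d z_j` (`KaehlerDifferential.tensorKaehlerEquivOfFormallyEtale`,
`KaehlerDifferential.mvPolynomialBasis`); write `d f_k = Σ J_kj d z_j`.  From `hz`, `A J ≡ 1` modulo
`𝔟 ⊔ I B` (the derivation kills `φ I`-multiples modulo `I`, and `𝔟^2` modulo `𝔟`), so `det J` is a unit modulo
this ideal; `d = c * det J ≡ 1`.  On `B1 = B[1/d]` the `d f_k` form a basis of `Ω[B1⁄R]`; the Jacobi-Zariski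
sequence (`Algebra.H1Cotangent.exact_map_δ`, `exact_δ_mapBaseChange`,
`KaehlerDifferential.exact_mapBaseChange_map`) for `R → R[y] → B1` gives `Ω = 0` and `H1Cotangent = 0`, so
formally etale (alternatively check the lifting property directly, correcting a lift by a derivation);
finite presentation by `of_restrict_scalars_finitePresentation`.
`IFT`: `B1 ⧸ (f)` is etale over `R` (`EtN.etale_quotient`); the point `B → R ⧸ I` extends; finish with
`exists_ee_of_section`.
`ift_fix`: `IFT` for the polynomial ring and `f k = X k - z k`.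
`coord_change`: `ker e = (x) + (ker e)^2` by `sec_loc`; write `t ≡ Σ φ(c_k) x_k`, some `c_k0 ≠ 0`; `jac` with `I = ⊥`.
-/

namespace KEW

universe u

variable {R B : Type u} [CommRing R] [CommRing B]

/-- A smooth algebra is etale over the polynomial ring in elements whose differentials form a basis. -/
theorem etN_of_basis [Algebra R B] [Algebra.Smooth R B] {ι : Type} [Finite ι] (f : ι → B)
    (b : Module.Basis ι B (KaehlerDifferential R B))
    (hb : ∀ k, b k = KaehlerDifferential.D R B (f k)) : EtN (algebraMap R B) f := by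
  letI : Algebra (MvPolynomial ι R) B := (MvPolynomial.eval₂Hom (algebraMap R B) f).toAlgebra
  haveI : IsScalarTower R (MvPolynomial ι R) B := .of_algebraMap_eq fun r =>
    (MvPolynomial.eval₂Hom_C (algebraMap R B) f r).symm
  have hX : ∀ k, algebraMap (MvPolynomial ι R) B (MvPolynomial.X k) = f k := fun k =>
    MvPolynomial.eval₂Hom_X' (algebraMap R B) f k
  have hm : KaehlerDifferential.mapBaseChange R (MvPolynomial ι R) B =
      (((KaehlerDifferential.mvPolynomialBasis R ι).baseChange B).equiv b
        (Equiv.refl ι)).toLinearMap := by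
    refine ((KaehlerDifferential.mvPolynomialBasis R ι).baseChange B).ext fun k => ?_
    rw [LinearEquiv.coe_coe, Module.Basis.equiv_apply, Equiv.refl_apply, hb,
      Module.Basis.baseChange_apply, KaehlerDifferential.mvPolynomialBasis_apply,
      KaehlerDifferential.mapBaseChange_tmul, one_smul, KaehlerDifferential.map_D, hX]
  have hbij : Function.Bijective (KaehlerDifferential.mapBaseChange R (MvPolynomial ι R) B) := by
    rw [hm]
    exact LinearEquiv.bijective _
  have h1 : Subsingleton (KaehlerDifferential (MvPolynomial ι R) B) := by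
    refine subsingleton_of_forall_eq 0 fun y => ?_
    obtain ⟨x, rfl⟩ := KaehlerDifferential.map_surjective R (MvPolynomial ι R) B y
    exact (KaehlerDifferential.exact_mapBaseChange_map R (MvPolynomial ι R) B x).2 (hbij.2 x)
  have h2 : Subsingleton (Algebra.H1Cotangent (MvPolynomial ι R) B) := by
    refine subsingleton_of_forall_eq 0 fun y => ?_
    have h3 : Algebra.H1Cotangent.δ R (MvPolynomial ι R) B y = 0 := by
      refine hbij.1 ?_
      rw [map_zero]
      exact (Algebra.H1Cotangent.exact_δ_mapBaseChange R (MvPolynomial ι R) B _).2 ⟨y, rfl⟩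
    obtain ⟨x, rfl⟩ := (Algebra.H1Cotangent.exact_map_δ R (MvPolynomial ι R) B y).1 h3
    rw [Subsingleton.elim x 0, map_zero]
  exact (⟨⟨h1, h2⟩, Algebra.FinitePresentation.of_restrict_scalars_finitePresentation R
    (MvPolynomial ι R) B⟩ : Algebra.Etale (MvPolynomial ι R) B)

theorem EtN.exists_basis [Algebra R B] {ι : Type} {z : ι → B} (h : EtN (algebraMap R B) z) :
    ∃ b : Module.Basis ι B (KaehlerDifferential R B), ∀ k, b k = KaehlerDifferential.D R B (z k) := by
  letI : Algebra (MvPolynomial ι R) B := (MvPolynomial.eval₂Hom (algebraMap R B) z).toAlgebra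
  haveI : IsScalarTower R (MvPolynomial ι R) B := .of_algebraMap_eq fun r =>
    (MvPolynomial.eval₂Hom_C (algebraMap R B) z r).symm
  have hX : ∀ k, algebraMap (MvPolynomial ι R) B (MvPolynomial.X k) = z k := fun k =>
    MvPolynomial.eval₂Hom_X' (algebraMap R B) z k
  haveI : Algebra.Etale (MvPolynomial ι R) B := h
  refine ⟨((KaehlerDifferential.mvPolynomialBasis R ι).baseChange B).map
    (KaehlerDifferential.tensorKaehlerEquivOfFormallyEtale R (MvPolynomial ι R) B), fun k => ?_⟩
  rw [Module.Basis.map_apply, Module.Basis.baseChange_apply,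
    KaehlerDifferential.mvPolynomialBasis_apply,
    KaehlerDifferential.tensorKaehlerEquivOfFormallyEtale_apply,
    KaehlerDifferential.mapBaseChange_tmul, one_smul, KaehlerDifferential.map_D, hX]

/-- If `d f = J d z` then `f` are coordinates where `det J` is invertible. -/
theorem jac_core [Algebra R B] {ι : Type} [Fintype ι] [DecidableEq ι] {z f : ι → B}
    (h : EtN (algebraMap R B) z) (J : Matrix ι ι B)
    (hJ : ∀ k, KaehlerDifferential.D R B (f k) = ∑ j, J k j • KaehlerDifferential.D R B (z j))
    {B1 : Type u} [CommRing B1] {l : B →+* B1} {d : B} (hl : IsAway l d) (hd : J.det ∣ d) :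
    EtN (l.comp (algebraMap R B)) (fun k => l (f k)) := by
  letI : Algebra B B1 := l.toAlgebra
  letI : Algebra R B1 := (l.comp (algebraMap R B)).toAlgebra
  haveI : IsScalarTower R B B1 := .of_algebraMap_eq' rfl
  haveI : IsLocalization.Away d B1 := hl
  have he : l.Etale := (Algebra.Etale.of_isLocalizationAway d : Algebra.Etale B B1)
  have h1 : EtN (algebraMap R B1) fun k => l (z k) := h.comp he
  obtain ⟨b, hb⟩ := h1.exists_basis
  haveI : Algebra.Smooth R B1 := h1.ep.smooth
  have hu : IsUnit (J.map l).det := by
    rw [← RingHom.mapMatrix_apply, ← RingHom.map_det]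
    exact isUnit_of_dvd_unit (map_dvd l hd) (IsLocalization.Away.algebraMap_isUnit d)
  have hD : ∀ k, KaehlerDifferential.D R B1 (l (f k)) = ∑ j, l (J k j) • b j := fun k => by
    have h2 := congrArg (KaehlerDifferential.map R R B B1) (hJ k)
    rw [KaehlerDifferential.map_D, map_sum] at h2
    refine h2.trans (Finset.sum_congr rfl fun j _ => ?_)
    rw [map_smul, KaehlerDifferential.map_D, hb, ← IsScalarTower.algebraMap_smul B1]
    rfl
  have hM : b.toMatrix (fun k => KaehlerDifferential.D R B1 (l (f k))) = (J.map l).transpose := by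
    ext j k
    rw [Module.Basis.toMatrix_apply, hD, b.repr_sum_self]
    rfl
  have hdet : IsUnit (b.det fun k => KaehlerDifferential.D R B1 (l (f k))) := by
    rw [Module.Basis.det_apply, hM, Matrix.det_transpose]
    exact hu
  obtain ⟨hi, hs⟩ := (b.is_basis_iff_det).2 hdet
  exact etN_of_basis (R := R) (B := B1) _ (Module.Basis.mk hi hs.ge) fun k =>
    Module.Basis.mk_apply hi hs.ge k

end KEW
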