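import Pool.Agent.P.MP_6277db_ag.KEW.CA.PO

/-!
KEW L4: API of `IsLoc`, `IsAway`, etale maps, `Et1`, `EtN`, `EP`, `FinMod`.
-/

namespace KEW

universe u

open Polynomial

variable {R S T P Z : Type u} [CommRing R] [CommRing S] [CommRing T] [CommRing P] [CommRing Z]

theorem isLoc_algebraMap_iff (M : Submonoid R) [Algebra R S] :
    IsLoc (algebraMap R S) M ↔ IsLocalization M S := by
  have e : (algebraMap R S).toAlgebra = (inferInstance : Algebra R S) :=
    Algebra.algebra_ext _ _ fun _ => rfl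
  rw [IsLoc, e]

theorem isAway_algebraMap_iff (r : R) [Algebra R S] :
    IsAway (algebraMap R S) r ↔ IsLocalization.Away r S := isLoc_algebraMap_iff _

theorem exists_isLoc (M : Submonoid R) :
    ∃ (S : Type u) (_ : CommRing S) (l : R →+* S), IsLoc l M :=
  ⟨Localization M, inferInstance, algebraMap R _, (isLoc_algebraMap_iff M).2 inferInstance⟩

theorem exists_isAway (r : R) : ∃ (S : Type u) (_ : CommRing S) (l : R →+* S), IsAway l r :=
  exists_isLoc _

theorem isLoc_iff {l : R →+* S} {M : Submonoid R} : IsLoc l M ↔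
    (∀ y ∈ M, IsUnit (l y)) ∧ (∀ z : S, ∃ x : R, ∃ y ∈ M, z * l y = l x) ∧
      ∀ x : R, l x = 0 → ∃ y ∈ M, y * x = 0 := by
  let _ := l.toAlgebra
  constructor
  · intro h
    have : IsLocalization M S := h
    refine ⟨fun y hy => IsLocalization.map_units S (⟨y, hy⟩ : M), fun z => ?_, fun x hx => ?_⟩
    · obtain ⟨⟨x, y⟩, e⟩ := IsLocalization.surj M z
      exact ⟨x, y, y.2, e⟩
    · obtain ⟨y, e⟩ := (IsLocalization.map_eq_zero_iff M S x).1 hx
      exact ⟨y, y.2, e⟩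
  · rintro ⟨h1, h2, h3⟩
    refine (isLocalization_iff M S).2 ⟨fun y => h1 y y.2, fun z => ?_, fun {a b} hab => ?_⟩
    · obtain ⟨x, y, hy, e⟩ := h2 z
      exact ⟨⟨x, y, hy⟩, e⟩
    · obtain ⟨y, hy, e⟩ := h3 (a - b) (by rw [map_sub, sub_eq_zero]; exact hab)
      exact ⟨⟨y, hy⟩, by rwa [mul_sub, sub_eq_zero] at e⟩

theorem isAway_iff {l : R →+* S} {r : R} : IsAway l r ↔
    IsUnit (l r) ∧ (∀ z : S, ∃ (x : R) (n : ℕ), z * l r ^ n = l x) ∧
      ∀ x : R, l x = 0 → ∃ n : ℕ, r ^ n * x = 0 := by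
  rw [IsAway, isLoc_iff]
  refine and_congr ⟨fun h => h r (Submonoid.mem_powers r), ?_⟩
    (and_congr (forall_congr' fun z => exists_congr fun x => ?_)
      (forall₂_congr fun x _ => ?_))
  · rintro h _ ⟨n, rfl⟩
    rw [map_pow]
    exact h.pow n
  · exact ⟨fun ⟨_, ⟨n, e⟩, h⟩ => ⟨n, by rw [← map_pow, show r ^ n = _ from e, h]⟩,
      fun ⟨n, h⟩ => ⟨_, ⟨n, rfl⟩, by rw [map_pow, h]⟩⟩
  · exact ⟨fun ⟨_, ⟨n, e⟩, h⟩ => ⟨n, by rw [show r ^ n = _ from e, h]⟩,
      fun ⟨n, h⟩ => ⟨_, ⟨n, rfl⟩, h⟩⟩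

theorem IsLoc.exists_lift {l : R →+* S} {M : Submonoid R} (h : IsLoc l M) (k : R →+* Z)
    (hk : ∀ y ∈ M, IsUnit (k y)) : ∃ d : S →+* Z, d.comp l = k := by
  let _ := l.toAlgebra
  have : IsLocalization M S := h
  exact ⟨IsLocalization.lift (M := M) fun y => hk y y.2, IsLocalization.lift_comp _⟩

theorem IsLoc.hom_ext {l : R →+* S} {M : Submonoid R} (h : IsLoc l M) {d d' : S →+* Z}
    (w : d.comp l = d'.comp l) : d = d' := by
  let _ := l.toAlgebra
  have : IsLocalization M S := h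
  exact IsLocalization.ringHom_ext M w

theorem IsLoc.mem_map_iff {l : R →+* S} {M : Submonoid R} (h : IsLoc l M) (I : Ideal R) (x : R) :
    l x ∈ I.map l ↔ ∃ y ∈ M, y * x ∈ I := by
  let _ := l.toAlgebra
  have : IsLocalization M S := h
  exact IsLocalization.algebraMap_mem_map_algebraMap_iff M S I x

theorem IsLoc.flat {l : R →+* S} {M : Submonoid R} (h : IsLoc l M) : l.Flat := by
  let _ := l.toAlgebra
  have : IsLocalization M S := h
  exact IsLocalization.flat S M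

theorem IsLoc.noeth {l : R →+* S} {M : Submonoid R} (h : IsLoc l M) [IsNoetherianRing R] :
    IsNoetherianRing S := by
  let _ := l.toAlgebra
  have : IsLocalization M S := h
  exact IsLocalization.isNoetherianRing M S inferInstance

theorem IsLoc.isPO {l : R →+* S} {M : Submonoid R} (h : IsLoc l M) {g : R →+* T} {i : S →+* P}
    {l' : T →+* P} (h' : IsLoc l' (M.map g)) (w : i.comp l = l'.comp g) : IsPO l g i l' := by
  refine IsPO.of_universal w (fun Q _ a b hab => ?_) fun Q _ c c' _ h2 => h'.hom_ext h2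
  obtain ⟨c, hc⟩ := h'.exists_lift b (by
    rintro _ ⟨y, hy, rfl⟩
    rw [show b (g y) = a (l y) from (RingHom.congr_fun hab y).symm]
    exact ((isLoc_iff.1 h).1 y hy).map a)
  refine ⟨c, h.hom_ext ?_, hc⟩
  rw [RingHom.comp_assoc, w, ← RingHom.comp_assoc, hc, hab]

theorem Loc_comp {l : R →+* S} {M : Submonoid R} (h : IsLoc l M) {c : S →+* T}
    (hc : Function.Bijective c) : IsLoc (c.comp l) M := by
  obtain ⟨h1, h2, h3⟩ := isLoc_iff.1 h
  refine isLoc_iff.2 ⟨fun y hy => (h1 y hy).map c, fun z => ?_, fun x hx =>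
    h3 x (hc.1 (hx.trans (map_zero c).symm))⟩
  obtain ⟨z, rfl⟩ := hc.2 z
  obtain ⟨x, y, hy, e⟩ := h2 z
  exact ⟨x, y, hy, by rw [RingHom.comp_apply, RingHom.comp_apply, ← e, map_mul]⟩

theorem IsPO.isLoc {l : R →+* S} {M : Submonoid R} {g : R →+* T} {i : S →+* P} {l' : T →+* P}
    (h : IsPO l g i l') (hl : IsLoc l M) : IsLoc l' (M.map g) := by
  obtain ⟨P1, _, j1, h1⟩ := exists_isLoc (M.map g)
  obtain ⟨i1, hi1⟩ := hl.exists_lift (j1.comp g) fun y hy =>
    (isLoc_iff.1 h1).1 _ ⟨y, hy, rfl⟩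
  obtain ⟨e, -, he⟩ := (hl.isPO h1 hi1).exists_equiv h
  rw [← he]
  exact Loc_comp h1 e.bijective

theorem IsAway.isUnit {l : R →+* S} {r : R} (h : IsAway l r) : IsUnit (l r) :=
  (isAway_iff.1 h).1

theorem IsAway.surj {l : R →+* S} {r : R} (h : IsAway l r) (z : S) :
    ∃ (x : R) (n : ℕ), z * l r ^ n = l x := (isAway_iff.1 h).2.1 z

theorem IsAway.eq_zero {l : R →+* S} {r : R} (h : IsAway l r) {x : R} (hx : l x = 0) :
    ∃ n : ℕ, r ^ n * x = 0 := (isAway_iff.1 h).2.2 x hx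

theorem IsAway.exists_lift {l : R →+* S} {r : R} (h : IsAway l r) (k : R →+* Z)
    (hk : IsUnit (k r)) : ∃ d : S →+* Z, d.comp l = k := IsLoc.exists_lift h k (by
  rintro _ ⟨n, rfl⟩
  rw [map_pow]
  exact hk.pow n)

theorem IsAway.hom_ext {l : R →+* S} {r : R} (h : IsAway l r) {d d' : S →+* Z}
    (w : d.comp l = d'.comp l) : d = d' := IsLoc.hom_ext h w

theorem IsAway.mem_map_iff {l : R →+* S} {r : R} (h : IsAway l r) (I : Ideal R) (x : R) :
    l x ∈ I.map l ↔ ∃ n : ℕ, r ^ n * x ∈ I := (IsLoc.mem_map_iff h I x).trans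
  ⟨fun ⟨_, ⟨n, e⟩, h1⟩ => ⟨n, by rwa [show r ^ n = _ from e]⟩, fun ⟨n, h1⟩ => ⟨_, ⟨n, rfl⟩, h1⟩⟩

theorem IsAway.etale {l : R →+* S} {r : R} (h : IsAway l r) : l.Etale := by
  let _ := l.toAlgebra
  have : IsLocalization.Away r S := h
  exact Algebra.Etale.of_isLocalizationAway r

theorem IsAway.mem_subring {l : R →+* S} {r : R} (h : IsAway l r) (W : Subring S)
    (hl : ∀ x, l x ∈ W) (hr : ∀ z, z * l r = 1 → z ∈ W) (z : S) : z ∈ W := by
  obtain ⟨v, hv⟩ := h.isUnit.exists_left_inv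
  obtain ⟨x, n, e⟩ := h.surj z
  have h1 : z = l x * v ^ n := by rw [← e, mul_assoc, ← mul_pow, mul_comm (l r), hv, one_pow, mul_one]
  rw [h1]
  exact mul_mem (hl x) (pow_mem (hr v hv) n)

theorem IsAway.comp {l : R →+* S} {r s : R} (h : IsAway l r) {l' : S →+* T}
    (h' : IsAway l' (l s)) : IsAway (l'.comp l) (r * s) := by
  refine isAway_iff.2 ⟨?_, fun z => ?_, fun x hx => ?_⟩
  · rw [RingHom.comp_apply, map_mul, map_mul]
    exact (h.isUnit.map l').mul h'.isUnit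
  · obtain ⟨y, n, e⟩ := h'.surj z
    obtain ⟨x, m, e'⟩ := h.surj y
    refine ⟨x * r ^ n * s ^ m, n + m, ?_⟩
    simp only [RingHom.comp_apply, map_mul, map_pow, ← e', ← e]
    ring
  · obtain ⟨n, e⟩ := h'.eq_zero hx
    obtain ⟨m, e'⟩ := h.eq_zero (x := s ^ n * x) (by rwa [map_mul, map_pow])
    exact ⟨n + m, by linear_combination (r ^ n * s ^ m) * e'⟩

/-- `R[1/r] → R[1/(rs)]` is a localisation away from `s`. -/
theorem IsAway.of_comp {l : R →+* S} {r s : R} (h : IsAway l r) {l' : S →+* T}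
    (h' : IsAway (l'.comp l) (r * s)) : IsAway l' (l s) := by
  obtain ⟨v, hv⟩ := h.isUnit.exists_left_inv
  refine isAway_iff.2 ⟨?_, fun z => ?_, fun y hy => ?_⟩
  · have h1 := h'.isUnit
    rw [RingHom.comp_apply, map_mul, map_mul] at h1
    exact isUnit_of_mul_isUnit_right h1
  · obtain ⟨x, n, e⟩ := h'.surj z
    refine ⟨l x * v ^ n, n, ?_⟩
    have h1 : l' v ^ n * l' (l r) ^ n = 1 := by rw [← mul_pow, ← map_mul, hv, map_one, one_pow]
    simp only [RingHom.comp_apply, map_mul, mul_pow] at e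
    rw [map_mul, map_pow, ← e]
    linear_combination (-(z * l' (l s) ^ n)) * h1
  · obtain ⟨x, m, e⟩ := h.surj y
    obtain ⟨n, e'⟩ := h'.eq_zero (x := x) (by rw [RingHom.comp_apply, ← e, map_mul, hy, zero_mul])
    have h1 := congrArg l e'
    rw [map_mul, map_pow, map_mul, ← e, map_zero] at h1
    refine ⟨n, (h.isUnit.pow (n + m)).mul_right_eq_zero.1 ?_⟩
    linear_combination h1

/-- Elements with the same radical define the same localisation. -/
theorem IsAway.of_dvd_pow {l : R →+* S} {r s : R} (h : IsAway l r) {n k : ℕ} (h1 : r ∣ s ^ n)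
    (h2 : s ∣ r ^ k) : IsAway l s := by
  obtain ⟨c, hc⟩ := h1
  refine isAway_iff.2 ⟨?_, fun z => ?_, fun x hx => ?_⟩
  · refine isUnit_of_dvd_unit (map_dvd l h2) ?_
    rw [map_pow]
    exact h.isUnit.pow k
  · obtain ⟨x, m, e⟩ := h.surj z
    refine ⟨x * c ^ m, n * m, ?_⟩
    rw [pow_mul, ← map_pow, hc, map_mul, map_mul, map_pow, ← e]
    ring
  · obtain ⟨m, e⟩ := h.eq_zero hx
    refine ⟨n * m, ?_⟩
    rw [pow_mul, hc]
    linear_combination c ^ m * e

theorem isAway_of_bijective {l : R →+* S} (h : Function.Bijective l) {r : R} (hr : IsUnit r) :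
    IsAway l r := by
  refine isAway_iff.2 ⟨hr.map l, fun z => ?_, fun x hx => ⟨0, ?_⟩⟩
  · obtain ⟨x, rfl⟩ := h.2 z
    exact ⟨x, 0, by rw [pow_zero, mul_one]⟩
  · rw [h.1 (hx.trans (map_zero l).symm), mul_zero]

theorem IsAway.bijective {l : R →+* S} {r : R} (h : IsAway l r) (hr : IsUnit r) :
    Function.Bijective l := by
  refine ⟨(injective_iff_map_eq_zero l).2 fun x hx => ?_, fun z => ?_⟩
  · obtain ⟨n, e⟩ := h.eq_zero hx
    exact (hr.pow n).mul_right_eq_zero.1 e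
  · obtain ⟨v, hv⟩ := hr.exists_left_inv
    exact h.mem_subring l.range (fun x => ⟨x, rfl⟩) (fun y hy => ⟨v, by
      rw [← one_mul (l v), ← hy, mul_assoc, ← map_mul, mul_comm r, hv, map_one, mul_one]⟩) z

theorem IsAway.isPO {l : R →+* S} {r : R} (h : IsAway l r) {g : R →+* T} {i : S →+* P}
    {l' : T →+* P} (h' : IsAway l' (g r)) (w : i.comp l = l'.comp g) : IsPO l g i l' :=
  IsLoc.isPO h (by rwa [Submonoid.map_powers]) w

theorem IsPO.isAway {l : R →+* S} {r : R} {g : R →+* T} {i : S →+* P} {l' : T →+* P}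
    (h : IsPO l g i l') (hl : IsAway l r) : IsAway l' (g r) := by
  have h1 := h.isLoc hl
  rwa [Submonoid.map_powers] at h1

theorem IsAway.polynomial {l : R →+* S} {r : R} (h : IsAway l r) :
    IsAway (Polynomial.mapRingHom l) (C r) := (isPO_polynomial l).flip.isAway h

theorem IsAway.qmap_bijective {l : R →+* S} {r σ : R} {σ' : S} (h : IsAway l r)
    (hc : IsCoprime r σ) (hσ : l σ = σ') : Function.Bijective (qmap l hσ) := by
  subst hσ
  refine ⟨(injective_iff_map_eq_zero _).2 fun x hx => ?_, fun z => ?_⟩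
  · obtain ⟨x, rfl⟩ := Ideal.Quotient.mk_surjective x
    rw [qmap_mk, Ideal.Quotient.eq_zero_iff_mem, ← Set.image_singleton, ← Ideal.map_span,
      h.mem_map_iff] at hx
    obtain ⟨n, hn⟩ := hx
    rw [Ideal.Quotient.eq_zero_iff_mem, Ideal.mem_span_singleton] at *
    exact (hc.pow_left (m := n)).symm.dvd_of_dvd_mul_left hn
  · obtain ⟨z, rfl⟩ := Ideal.Quotient.mk_surjective z
    obtain ⟨x, n, e⟩ := h.surj z
    obtain ⟨a, b, hab⟩ := hc.pow_left (m := n)
    refine ⟨Ideal.Quotient.mk _ (a * x), ?_⟩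
    rw [qmap_mk, Ideal.Quotient.eq, Ideal.mem_span_singleton]
    have h1 := congrArg l hab
    rw [map_add, map_mul, map_mul, map_pow, map_one] at h1
    exact ⟨-(z * l b), by rw [map_mul, ← e]; linear_combination z * h1⟩

end KEW
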