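import Pool.Agent.P.MP_6277db_ag.KEW.CA.Val

/-!
KEW L4: norms of monogenic algebras, monic polynomials with prescribed residues.
Hints.  Use the basis `(AdjoinRoot.powerBasis' hp).basis` and `Algebra.norm_eq_matrix_det`; the matrix of
`amap f p σ` is the image of the matrix of `σ` (`AdjoinRoot.modByMonicHom`, `Polynomial.map_modByMonic`), or use
`Algebra.norm` base change along `Algebra.IsPushout`/`LinearMap.det_baseChange`.
`of_norm_mem_span`: `Algebra.dvd_algebraMap_norm_self`-like: adjugate or Cayley-Hamilton.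
`norm_rank_one`: the matrix of `e` is `v w^T` with `w · v = 1`;
`Matrix.det_one_add_replicateCol_mul_replicateRow`; base change by `norm_amap`-type lemma for the matrices.
`norm_monic`: `det (L • 1 + A) = charpoly (-A)` evaluated at `L`, or Leibniz expansion: only the identity permutation
contributes `L^r`.
-/

namespace KEW

universe u

open Polynomial

variable {R S S' : Type u} [CommRing R] [CommRing S] [CommRing S']

theorem Norm_repr_map {ι A A' : Type*} [Fintype ι] [DecidableEq ι] [CommRing A] [CommRing A']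
    [Algebra S A] [Algebra S' A'] (b : Module.Basis ι S A) (b' : Module.Basis ι S' A')
    (f : S →+* S') (g : A →+* A') (hg : ∀ s, g (algebraMap S A s) = algebraMap S' A' (f s))
    (hb : ∀ i, g (b i) = b' i) (σ : A) (i : ι) : b'.repr (g σ) i = f (b.repr σ i) := by
  have h : g σ = ∑ j, f (b.repr σ j) • b' j := by
    conv_lhs => rw [← b.sum_repr σ]
    rw [map_sum]
    refine Finset.sum_congr rfl fun j _ => ?_
    rw [Algebra.smul_def, Algebra.smul_def, map_mul, hg, hb]
  rw [h, b'.repr_sum_self]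

theorem Norm_mat_map {ι A A' : Type*} [Fintype ι] [DecidableEq ι] [CommRing A] [CommRing A']
    [Algebra S A] [Algebra S' A'] (b : Module.Basis ι S A) (b' : Module.Basis ι S' A')
    (f : S →+* S') (g : A →+* A') (hg : ∀ s, g (algebraMap S A s) = algebraMap S' A' (f s))
    (hb : ∀ i, g (b i) = b' i) (σ : A) :
    Algebra.leftMulMatrix b' (g σ) = (Algebra.leftMulMatrix b σ).map f := by
  ext i j
  rw [Matrix.map_apply, Algebra.leftMulMatrix_eq_repr_mul, Algebra.leftMulMatrix_eq_repr_mul,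
    ← hb, ← map_mul, Norm_repr_map b b' f g hg hb]

theorem Norm_basis_apply {p : S[X]} (hp : p.Monic) (i : Fin p.natDegree) :
    AdjoinRoot.powerBasisAux' hp i = AdjoinRoot.root p ^ (i : ℕ) :=
  (AdjoinRoot.powerBasis' hp).basis_eq_pow i

theorem Norm_exists_basis [Nontrivial S'] (f : S →+* S') {p : S[X]} (hp : p.Monic) :
    ∃ b' : Module.Basis (Fin p.natDegree) S' (AdjoinRoot (p.map f)), ∀ σ : AdjoinRoot p,
      Algebra.leftMulMatrix b' (amap f p σ) =
        (Algebra.leftMulMatrix (AdjoinRoot.powerBasisAux' hp) σ).map f := by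
  refine ⟨(AdjoinRoot.powerBasisAux' (hp.map f)).reindex (finCongr (hp.natDegree_map f)),
    fun σ => Norm_mat_map _ _ f (amap f p) (fun s => ?_) (fun i => ?_) σ⟩
  · rw [AdjoinRoot.algebraMap_eq, AdjoinRoot.algebraMap_eq, amap_of]
  · rw [Module.Basis.reindex_apply, Norm_basis_apply, Norm_basis_apply, map_pow, amap_root]
    rfl

theorem norm_amap (f : S →+* S') {p : S[X]} (hp : p.Monic) (σ : AdjoinRoot p) :
    Algebra.norm S' (amap f p σ) = f (Algebra.norm S σ) := by
  rcases subsingleton_or_nontrivial S' with h | h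
  · exact Subsingleton.elim _ _
  obtain ⟨b', hb'⟩ := Norm_exists_basis f hp
  rw [Algebra.norm_eq_matrix_det b', hb',
    Algebra.norm_eq_matrix_det (AdjoinRoot.powerBasisAux' hp), RingHom.map_det]
  rfl

theorem norm_sub_mem {p : S[X]} (hp : p.Monic) (I : Ideal S) {σ σ' : AdjoinRoot p}
    (h : σ - σ' ∈ I.map (AdjoinRoot.of p)) : Algebra.norm S σ - Algebra.norm S σ' ∈ I := by
  have hk : I.map (AdjoinRoot.of p) ≤ RingHom.ker (amap (Ideal.Quotient.mk I) p) := by
    rw [Ideal.map_le_iff_le_comap]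
    intro x hx
    rw [Ideal.mem_comap, RingHom.mem_ker, amap_of, Ideal.Quotient.eq_zero_iff_mem.2 hx, map_zero]
  have h1 := hk h
  rw [RingHom.mem_ker, map_sub, sub_eq_zero] at h1
  rw [← Ideal.Quotient.eq, ← norm_amap _ hp, ← norm_amap _ hp, h1]

theorem Norm_repr_mul {ι A : Type*} [Fintype ι] [DecidableEq ι] [CommRing A] [Algebra S A]
    (b : Module.Basis ι S A) (σ : A) (v : ι → S) :
    b.equivFun (σ * b.equivFun.symm v) = (Algebra.leftMulMatrix b σ).mulVec v := by
  have h := Algebra.leftMulMatrix_mulVec_repr b σ (b.equivFun.symm v)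
  have h2 : ⇑(b.repr (b.equivFun.symm v)) = v := b.equivFun.apply_symm_apply v
  rw [h2] at h
  rw [h]
  rfl

theorem dvd_of_norm {p : S[X]} (hp : p.Monic) (σ : AdjoinRoot p) :
    σ ∣ AdjoinRoot.of p (Algebra.norm S σ) := by
  set b := AdjoinRoot.powerBasisAux' hp
  refine ⟨b.equivFun.symm ((Algebra.leftMulMatrix b σ).adjugate.mulVec (b.equivFun 1)), ?_⟩
  apply b.equivFun.injective
  rw [Norm_repr_mul, Matrix.mulVec_mulVec, Matrix.mul_adjugate, Matrix.smul_mulVec,
    Matrix.one_mulVec, ← map_smul, Algebra.norm_eq_matrix_det b, ← AdjoinRoot.algebraMap_eq,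
    Algebra.algebraMap_eq_smul_one]

theorem norm_ne_zero [IsDomain S] {p : S[X]} (hp : p.Monic) {σ : AdjoinRoot p}
    (hσ : ∀ y, σ * y = 0 → y = 0) : Algebra.norm S σ ≠ 0 := by
  set b := AdjoinRoot.powerBasisAux' hp
  intro h
  rw [Algebra.norm_eq_matrix_det b] at h
  obtain ⟨v, hv, hv'⟩ := Matrix.exists_mulVec_eq_zero_iff.2 h
  apply hv
  have h1 : σ * b.equivFun.symm v = 0 := by
    apply b.equivFun.injective
    rw [Norm_repr_mul, hv', map_zero]
  have h2 := hσ _ h1
  rw [← b.equivFun.apply_symm_apply v, h2, map_zero]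

theorem Norm_dvd_repr {ι A : Type*} [CommRing A] [Algebra S A] (b : Module.Basis ι S A) {ω : S}
    {x : A} (h : algebraMap S A ω ∣ x) (i : ι) : ω ∣ b.repr x i := by
  obtain ⟨z, rfl⟩ := h
  rw [← Algebra.smul_def, map_smul, Finsupp.smul_apply, smul_eq_mul]
  exact Dvd.intro _ rfl

/-- A rank one idempotent modulo `ω`. -/
theorem norm_rank_one {p : S[X]} (hp : p.Monic) {ω : S} {e : AdjoinRoot p}
    (h1 : ∀ y : AdjoinRoot p, ∃ c : S, AdjoinRoot.of p ω ∣ e * (y - AdjoinRoot.of p c))
    (h2 : AdjoinRoot.of p ω ∣ e * (1 - e))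
    (h3 : ∀ c : S, AdjoinRoot.of p ω ∣ AdjoinRoot.of p c * e → ω ∣ c) (f : S →+* S') (c : S') :
    f ω ∣ Algebra.norm S' (1 + amap f p e * AdjoinRoot.of (p.map f) c) - (1 + c) := by
  rcases subsingleton_or_nontrivial S' with h | h
  · exact ⟨0, Subsingleton.elim _ _⟩
  obtain ⟨b', hb'⟩ := Norm_exists_basis f hp
  set b := AdjoinRoot.powerBasisAux' hp with hb
  choose w hw using fun j => h1 (b j)
  have hM : ∀ i j, ω ∣ Algebra.leftMulMatrix b e i j - b.repr e i * w j := by
    intro i j
    have h4 := Norm_dvd_repr b (hw j) i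
    rw [mul_sub, map_sub, Finsupp.sub_apply, ← Algebra.leftMulMatrix_eq_repr_mul, mul_comm e,
      ← AdjoinRoot.algebraMap_eq, ← Algebra.smul_def, map_smul, Finsupp.smul_apply, smul_eq_mul,
      mul_comm (w j)] at h4
    exact h4
  have htr : ω ∣ (∑ j, w j * b.repr e j) - 1 := by
    apply h3
    have h5 : AdjoinRoot.of p ω ∣ ∑ j, b.repr e j • (e * (b j - AdjoinRoot.of p (w j))) := by
      refine Finset.dvd_sum fun j _ => ?_
      rw [Algebra.smul_def]
      exact Dvd.dvd.mul_left (hw j) _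
    have h6 : ∑ j, b.repr e j • (e * (b j - AdjoinRoot.of p (w j))) =
        e * e - AdjoinRoot.of p (∑ j, w j * b.repr e j) * e := by
      have h7 : e * e = ∑ j, b.repr e j • (e * b j) := by
        conv_lhs => rw [← b.sum_repr e]
        rw [Finset.sum_mul]
        refine Finset.sum_congr rfl fun j _ => ?_
        rw [b.sum_repr e, smul_mul_assoc, mul_comm]
      rw [h7, map_sum, Finset.sum_mul, ← Finset.sum_sub_distrib]
      refine Finset.sum_congr rfl fun j _ => ?_
      rw [Algebra.smul_def, Algebra.smul_def, AdjoinRoot.algebraMap_eq, map_mul]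
      ring
    rw [h6] at h5
    have h8 : AdjoinRoot.of p (∑ j, w j * b.repr e j - 1) * e =
        -(e * e - AdjoinRoot.of p (∑ j, w j * b.repr e j) * e) - e * (1 - e) := by
      rw [map_sub, map_one]
      ring
    rw [h8]
    exact dvd_sub (dvd_neg.2 h5) h2
  rw [← Ideal.mem_span_singleton, ← Ideal.Quotient.eq]
  set q := Ideal.Quotient.mk (Ideal.span {f ω}) with hq
  have hqf : ∀ {x y : S}, ω ∣ x - y → q (f x) = q (f y) := by
    intro x y hxy
    rw [hq, Ideal.Quotient.eq, Ideal.mem_span_singleton, ← map_sub]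
    exact map_dvd f hxy
  rw [Algebra.norm_eq_matrix_det b', map_add, map_one, mul_comm, ← AdjoinRoot.algebraMap_eq,
    ← Algebra.smul_def, map_smul, hb', RingHom.map_det]
  have hmat : q.mapMatrix (1 + c • (Algebra.leftMulMatrix b e).map f) =
      1 + Matrix.replicateCol Unit (fun i => q c * q (f (b.repr e i))) *
        Matrix.replicateRow Unit (fun j => q (f (w j))) := by
    rw [map_add, map_one]
    congr 1
    ext i j
    rw [RingHom.mapMatrix_apply, Matrix.map_apply, Matrix.smul_apply, Matrix.map_apply,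
      smul_eq_mul, map_mul, hqf (hM i j), Matrix.mul_apply]
    simp only [Finset.univ_unique, Finset.sum_singleton, Matrix.replicateCol_apply,
      Matrix.replicateRow_apply, map_mul, mul_assoc]
  rw [hmat, Matrix.det_one_add_replicateCol_mul_replicateRow, map_add, map_one]
  congr 1
  have h9 := hqf htr
  rw [map_one, map_one, map_sum, map_sum] at h9
  calc (fun j => q (f (w j))) ⬝ᵥ (fun i => q c * q (f (b.repr e i)))
      = q c * ∑ j, q (f (w j * b.repr e j)) := by
        rw [dotProduct, Finset.mul_sum]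
        refine Finset.sum_congr rfl fun j _ => ?_
        rw [map_mul, map_mul]
        ring
    _ = q c := by rw [h9, mul_one]

theorem Norm_eval_monic {χ : R[X][X]} (hχ : χ.Monic) :
    ∃ d0 : ℕ, ∀ (L : R[X]) (d : ℕ), d0 ≤ d → L.IsMonicOfDegree d →
      (χ.eval L).IsMonicOfDegree (χ.natDegree * d) := by
  refine ⟨(Finset.range χ.natDegree).sup (fun k => (χ.coeff k).natDegree) + 1,
    fun L d hd hL => ?_⟩
  have hlead : (L ^ χ.natDegree).IsMonicOfDegree (χ.natDegree * d) := by
    rw [mul_comm]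
    exact hL.pow _
  rw [eval_eq_sum_range, Finset.sum_range_succ, hχ.coeff_natDegree, one_mul]
  rcases Nat.eq_zero_or_pos χ.natDegree with h0 | h0
  · rw [h0, Finset.range_zero, Finset.sum_empty, zero_add]
    rw [h0] at hlead
    exact hlead
  refine IsMonicOfDegree.add_left ?_ hlead
  have hpos : 0 < χ.natDegree * d := Nat.mul_pos h0 (by omega)
  refine lt_of_le_of_lt (natDegree_sum_le_of_forall_le _ _ (n := χ.natDegree * d - 1)
    fun k hk => ?_) (by omega)
  have hk' := Finset.mem_range.1 hk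
  have h1 : (χ.coeff k).natDegree ≤
      (Finset.range χ.natDegree).sup (fun k => (χ.coeff k).natDegree) :=
    Finset.le_sup (f := fun k => (χ.coeff k).natDegree) hk
  have h2 : (L ^ k).natDegree ≤ k * d := by
    rw [← hL.natDegree_eq]
    exact natDegree_pow_le
  have h3 : (k + 1) * d ≤ χ.natDegree * d := Nat.mul_le_mul_right d hk'
  have h4 := natDegree_mul_le (p := χ.coeff k) (q := L ^ k)
  rw [add_mul, one_mul] at h3
  omega

theorem norm_monic {p : R[X][X]} (hp : p.Monic) (σ : AdjoinRoot p) :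
    ∃ d0 : ℕ, ∀ (L : R[X]) (d : ℕ), d0 ≤ d → L.IsMonicOfDegree d →
      (Algebra.norm R[X] (AdjoinRoot.of p L + σ)).IsMonicOfDegree (p.natDegree * d) := by
  rcases subsingleton_or_nontrivial R with h | h
  · refine ⟨0, fun L d _ _ => ?_⟩
    rw [isMonicOfDegree_iff_of_subsingleton, natDegree_of_subsingleton, zero_mul]
  set b := AdjoinRoot.powerBasisAux' hp
  obtain ⟨d0, hd0⟩ := Norm_eval_monic (Matrix.charpoly_monic (-(Algebra.leftMulMatrix b σ)))
  refine ⟨d0, fun L d hd hL => ?_⟩
  have h1 := hd0 L d hd hL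
  rw [Matrix.charpoly_natDegree_eq_dim, Fintype.card_fin, Matrix.eval_charpoly,
    sub_neg_eq_add] at h1
  rw [Algebra.norm_eq_matrix_det b, map_add, ← AdjoinRoot.algebraMap_eq, AlgHom.commutes]
  exact h1

theorem monic_crt [Nontrivial R] {h : R[X]} (hh : h.Monic) (r : R[X]) {d : ℕ}
    (hd : h.natDegree ≤ d) : ∃ q : R[X], q.IsMonicOfDegree d ∧ h ∣ q - r := by
  have h1 : (h * X ^ (d - h.natDegree)).IsMonicOfDegree d := by
    have h2 := (IsMonicOfDegree.mk rfl hh).mul (isMonicOfDegree_X_pow R (d - h.natDegree))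
    rwa [Nat.add_sub_cancel' hd] at h2
  have h3 : (r %ₘ h).degree < (h * X ^ (d - h.natDegree)).degree := by
    refine (degree_modByMonic_lt r hh).trans_le ?_
    rw [degree_eq_natDegree hh.ne_zero, degree_eq_natDegree h1.monic.ne_zero, h1.natDegree_eq]
    exact_mod_cast hd
  refine ⟨h * X ^ (d - h.natDegree) + r %ₘ h, ⟨?_, h1.monic.add_of_left h3⟩, ?_⟩
  · rw [natDegree_add_eq_left_of_degree_lt h3, h1.natDegree_eq]
  · refine ⟨X ^ (d - h.natDegree) - r /ₘ h, ?_⟩
    rw [modByMonic_eq_sub_mul_div]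
    ring

theorem monic_crt2 [Nontrivial R] {h h' : R[X]} (hh : h.Monic) (hh' : h'.Monic)
    (hc : IsCoprime h h') (r r' : R[X]) {d : ℕ} (hd : h.natDegree + h'.natDegree ≤ d) :
    ∃ q : R[X], q.IsMonicOfDegree d ∧ h ∣ q - r ∧ h' ∣ q - r' := by
  obtain ⟨a, b, hab⟩ := hc
  obtain ⟨q, hq, c, hc⟩ := monic_crt (hh.mul hh') (r' * a * h + r * b * h') (d := d)
    (by rw [hh.natDegree_mul hh']; exact hd)
  refine ⟨q, hq, ⟨h' * c + r' * a - r * a, ?_⟩, ⟨h * c + r * b - r' * b, ?_⟩⟩
  · linear_combination hc + r * hab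
  · linear_combination hc + r' * hab

theorem degLT_of_isMonicOfDegree (φ : R →+* S) (u : S) {q : R[X]} {d : ℕ}
    (hq : q.IsMonicOfDegree d) : DegLT φ u (q.eval₂ φ u - u ^ d) d := by
  have h1 : q.eval₂ φ u - u ^ d = (q - X ^ d).eval₂ φ u := by
    rw [eval₂_sub, eval₂_X_pow]
  rw [h1]
  apply degLT_eval₂
  rcases subsingleton_or_nontrivial R with h | h
  · rw [degree_of_subsingleton]
    exact WithBot.bot_lt_coe d
  · have h2 : q.degree = d := by
      rw [degree_eq_natDegree hq.monic.ne_zero, hq.natDegree_eq]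
    rw [← h2]
    refine degree_sub_lt_left ?_ hq.monic.ne_zero ?_
    · rw [h2, degree_X_pow]
    · rw [hq.monic.leadingCoeff, leadingCoeff_X_pow]

/-- Two monic polynomials of the same degree, congruent modulo `h` and prime to `h`. -/
theorem vb_monic {l : R[X] →+* S} {h q0 q1 : R[X]} (hl : IsAway l h) {d : ℕ}
    (h0 : q0.IsMonicOfDegree d) (h1 : q1.IsMonicOfDegree d) (hc : IsCoprime q0 h)
    (hr : q1 - q0 ∈ (Ideal.span {h}).radical) : VB (l.comp C) (l q0) (l q1) := by
  have hint : (Polynomial.eval₂RingHom (C : R →+* R[X]) X).IsIntegral :=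
    RingHom.isIntegral_of_surjective _ fun y => ⟨y, eval₂_C_X⟩
  have e0 := degLT_of_isMonicOfDegree (C : R →+* R[X]) X h0
  have e1 := degLT_of_isMonicOfDegree (C : R →+* R[X]) X h1
  rw [eval₂_C_X] at e0 e1
  exact vb_of_lead hint hl e0 e1 hc hr

end KEW
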