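import Pool.Agent.P.MP_6277db_ag.KEW.CA.Defs

/-!
KEW L4: API of `IsPO` (pushout squares of rings).
Hints: `CategoryTheory.IsPushout` API (`desc`, `hom_ext`, `paste_horiz`, `paste_vert`, `of_left`, `flip`),
`CommRingCat.isPushout_iff_isPushout` after `algebraize`, `RingHom.IsStableUnderBaseChange` together with
`RingHom.isStableUnderCobaseChange_toMorphismProperty_iff` or `Algebra.IsPushout.equiv`.
-/

namespace KEW

universe u

open Polynomial

variable {R S T P Z : Type u} [CommRing R] [CommRing S] [CommRing T] [CommRing P] [CommRing Z]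
  {f : R →+* S} {g : R →+* T} {i : S →+* P} {j : T →+* P}

section aux

open CategoryTheory

variable {Q S' T' P' : Type u} [CommRing Q] [CommRing S'] [CommRing T'] [CommRing P']

theorem PO_exists (f : R →+* S) (g : R →+* T) :
    ∃ (P : Type u) (_ : CommRing P) (i : S →+* P) (j : T →+* P), IsPO f g i j := by
  algebraize [f, g]
  exact ⟨_, _, _, _, CommRingCat.isPushout_tensorProduct R S T⟩

theorem PO_comm (h : IsPO f g i j) : i.comp f = j.comp g :=
  congrArg CommRingCat.Hom.hom h.w

theorem PO_apply (h : IsPO f g i j) (r : R) : i (f r) = j (g r) :=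
  RingHom.congr_fun (PO_comm h) r

theorem PO_symm (h : IsPO f g i j) : IsPO g f j i := IsPushout.flip h

theorem PO_desc (h : IsPO f g i j) (a : S →+* Q) (b : T →+* Q) (hab : a.comp f = b.comp g) :
    ∃ c : P →+* Q, c.comp i = a ∧ c.comp j = b := by
  have w : CommRingCat.ofHom f ≫ CommRingCat.ofHom a = CommRingCat.ofHom g ≫ CommRingCat.ofHom b :=
    congrArg CommRingCat.ofHom hab
  exact ⟨(IsPushout.desc h _ _ w).hom, congrArg CommRingCat.Hom.hom (IsPushout.inl_desc h _ _ w),
    congrArg CommRingCat.Hom.hom (IsPushout.inr_desc h _ _ w)⟩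

theorem PO_ext (h : IsPO f g i j) {c c' : P →+* Q} (h1 : c.comp i = c'.comp i)
    (h2 : c.comp j = c'.comp j) : c = c' := by
  have : CommRingCat.ofHom c = CommRingCat.ofHom c' :=
    IsPushout.hom_ext h (congrArg CommRingCat.ofHom h1) (congrArg CommRingCat.ofHom h2)
  exact congrArg CommRingCat.Hom.hom this

theorem PO_mk (w : i.comp f = j.comp g)
    (hd : ∀ (Q : Type u) [CommRing Q] (a : S →+* Q) (b : T →+* Q), a.comp f = b.comp g →
      ∃ c : P →+* Q, c.comp i = a ∧ c.comp j = b)
    (he : ∀ (Q : Type u) [CommRing Q] (c c' : P →+* Q), c.comp i = c'.comp i →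
      c.comp j = c'.comp j → c = c') : IsPO f g i j := by
  refine ⟨⟨congrArg CommRingCat.ofHom w⟩, ⟨Limits.PushoutCocone.isColimitAux' _ fun s => ?_⟩⟩
  have hs : s.inl.hom.comp f = s.inr.hom.comp g := congrArg CommRingCat.Hom.hom s.condition
  have H := hd s.pt s.inl.hom s.inr.hom hs
  refine ⟨CommRingCat.ofHom H.choose, congrArg CommRingCat.ofHom H.choose_spec.1,
    congrArg CommRingCat.ofHom H.choose_spec.2, fun {m} h1 h2 => ?_⟩
  refine CommRingCat.hom_ext (he s.pt m.hom H.choose ?_ ?_)
  · rw [H.choose_spec.1]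
    exact congrArg CommRingCat.Hom.hom h1
  · rw [H.choose_spec.2]
    exact congrArg CommRingCat.Hom.hom h2

/-- Pasting in the direction of `g`. -/
theorem PO_paste {g' : T →+* T'} {i' : P →+* P'} {j' : T' →+* P'} (h : IsPO f g i j)
    (h' : IsPO j g' i' j') : IsPO f (g'.comp g) (i'.comp i) j' :=
  IsPushout.flip (IsPushout.paste_horiz (IsPushout.flip h) (IsPushout.flip h'))

/-- Cancellation in the direction of `g`. -/
theorem PO_cancel {g' : T →+* T'} {i' : P →+* P'} {j' : T' →+* P'} (h : IsPO f g i j)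
    (h' : IsPO f (g'.comp g) (i'.comp i) j') (w : i'.comp j = j'.comp g') : IsPO j g' i' j' := by
  have h1 : IsPushout (CommRingCat.ofHom g ≫ CommRingCat.ofHom g') (CommRingCat.ofHom f)
      (CommRingCat.ofHom j') (CommRingCat.ofHom i ≫ CommRingCat.ofHom i') := IsPushout.flip h'
  exact IsPushout.flip (IsPushout.of_left h1 (congrArg CommRingCat.ofHom w.symm) (IsPushout.flip h))

/-- Pasting in the direction of `f`. -/
theorem PO_paste' {f' : S →+* S'} {i' : S' →+* P'} {j' : P →+* P'} (h : IsPO f g i j)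
    (h' : IsPO f' i i' j') : IsPO (f'.comp f) g i' (j'.comp j) :=
  PO_symm (PO_paste (PO_symm h) (PO_symm h'))

/-- Cancellation in the direction of `f`. -/
theorem PO_cancel' {f' : S →+* S'} {i' : S' →+* P'} {j' : P →+* P'} (h : IsPO f g i j)
    (h' : IsPO (f'.comp f) g i' (j'.comp j)) (w : i'.comp f' = j'.comp i) : IsPO f' i i' j' :=
  PO_symm (PO_cancel (PO_symm h) (PO_symm h') w.symm)

theorem PO_congr {f' : R →+* S} {g' : R →+* T} {i' : S →+* P} {j' : T →+* P} (h : IsPO f g i j)
    (h1 : f = f') (h2 : g = g') (h3 : i = i') (h4 : j = j') : IsPO f' g' i' j' := by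
  subst h1 h2 h3 h4
  exact h

theorem PO_closure (h : IsPO f g i j) : Subring.closure (Set.range i ∪ Set.range j) = ⊤ :=
  CommRingCat.closure_range_union_range_eq_top_of_isPushout h

theorem PO_induction (h : IsPO f g i j) {p : P → Prop} (h1 : ∀ s t, p (i s * j t))
    (h2 : ∀ x y, p x → p y → p (x + y)) (z : P) : p z := by
  let N : Subring P :=
    { carrier := AddSubmonoid.closure {z | ∃ s t, z = i s * j t}
      zero_mem' := zero_mem _
      add_mem' := fun a b => add_mem a b
      one_mem' := AddSubmonoid.subset_closure ⟨1, 1, by simp⟩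
      neg_mem' := by
        intro x hx
        induction hx using AddSubmonoid.closure_induction with
        | mem x hx =>
          obtain ⟨s, t, rfl⟩ := hx
          exact AddSubmonoid.subset_closure ⟨-s, t, by simp⟩
        | zero => simp
        | add x y _ _ a b => rw [neg_add]; exact add_mem a b
      mul_mem' := by
        intro x y hx hy
        induction hx using AddSubmonoid.closure_induction with
        | mem x hx =>
          obtain ⟨s, t, rfl⟩ := hx
          induction hy using AddSubmonoid.closure_induction with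
          | mem y hy =>
            obtain ⟨s', t', rfl⟩ := hy
            exact AddSubmonoid.subset_closure ⟨s * s', t * t', by simp only [map_mul]; ring⟩
          | zero => simp
          | add x y _ _ a b => rw [mul_add]; exact add_mem a b
        | zero => simp
        | add x y _ _ a b => rw [add_mul]; exact add_mem a b }
  have hN : z ∈ N := by
    have : Subring.closure (Set.range i ∪ Set.range j) ≤ N := by
      rw [Subring.closure_le]
      rintro _ (⟨s, rfl⟩ | ⟨t, rfl⟩)
      · exact AddSubmonoid.subset_closure ⟨s, 1, by simp⟩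
      · exact AddSubmonoid.subset_closure ⟨1, t, by simp⟩
    exact this (by rw [PO_closure h]; trivial)
  have hN' : z ∈ AddSubmonoid.closure {z | ∃ s t, z = i s * j t} := hN
  clear hN
  induction hN' using AddSubmonoid.closure_induction with
  | mem x hx =>
    obtain ⟨s, t, rfl⟩ := hx
    exact h1 s t
  | zero => simpa using h1 0 0
  | add x y _ _ a b => exact h2 x y a b

theorem PO_prop {W : ∀ {R S : Type u} [CommRing R] [CommRing S], (R →+* S) → Prop}
    (hW : RingHom.IsStableUnderBaseChange W) (h : IsPO f g i j) (hf : W f) : W j :=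
  (RingHom.isStableUnderCobaseChange_toMorphismProperty_iff.2 hW).1
    (f := CommRingCat.ofHom f) (IsPushout.flip h) hf

theorem PO_etale (h : IsPO f g i j) (hf : f.Etale) : j.Etale :=
  PO_prop RingHom.Etale.isStableUnderBaseChange h hf

theorem PO_finite (h : IsPO f g i j) (hf : f.Finite) : j.Finite :=
  PO_prop RingHom.finite_isStableUnderBaseChange h hf

theorem PO_ft (h : IsPO f g i j) (hf : f.FiniteType) : j.FiniteType :=
  PO_prop RingHom.finiteType_isStableUnderBaseChange h hf

theorem PO_surjective (h : IsPO f g i j) (hf : Function.Surjective f) : Function.Surjective j :=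
  PO_prop RingHom.surjective_isStableUnderBaseChange h hf

theorem PO_bijective (h : IsPO f g i j) (hf : Function.Bijective f) : Function.Bijective j :=
  PO_prop RingHom.Bijective.isStableUnderBaseChange h hf

/-- A square with surjective `g`, `i` and matching kernels is a pushout. -/
theorem PO_of_surj (w : i.comp f = j.comp g) (hg : Function.Surjective g)
    (hi : Function.Surjective i) (hk : RingHom.ker i ≤ (RingHom.ker g).map f) : IsPO f g i j := by
  refine PO_mk w (fun Q _ a b hab => ?_) (fun Q _ c c' h1 _ => ?_)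
  · have hle : RingHom.ker i ≤ RingHom.ker a := by
      refine hk.trans ?_
      rw [Ideal.map_le_iff_le_comap]
      intro r hr
      rw [Ideal.mem_comap, RingHom.mem_ker, ← RingHom.comp_apply, hab, RingHom.comp_apply,
        (RingHom.mem_ker).1 hr, map_zero]
    have h1 : (i.liftOfSurjective hi ⟨a, hle⟩).comp i = a := i.liftOfSurjective_comp hi ⟨a, hle⟩
    refine ⟨_, h1, ?_⟩
    ext t
    obtain ⟨r, rfl⟩ := hg t
    rw [RingHom.comp_apply, ← j.comp_apply, ← w, RingHom.comp_apply, ← RingHom.comp_apply _ i, h1,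
      ← RingHom.comp_apply, hab, RingHom.comp_apply]
  · ext z
    obtain ⟨s, rfl⟩ := hi z
    exact RingHom.congr_fun h1 s

/-- The kernel of the base change of a surjection. -/
theorem PO_ker (h : IsPO f g i j) (hg : Function.Surjective g) :
    RingHom.ker i = (RingHom.ker g).map f := by
  refine le_antisymm (fun s hs => ?_) ?_
  · let J := (RingHom.ker g).map f
    have hle : RingHom.ker g ≤ RingHom.ker ((Ideal.Quotient.mk J).comp f) := fun r hr => by
      rw [RingHom.mem_ker, RingHom.comp_apply, Ideal.Quotient.eq_zero_iff_mem]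
      exact Ideal.mem_map_of_mem f hr
    obtain ⟨c, hc, -⟩ := PO_desc h (Ideal.Quotient.mk J) (g.liftOfSurjective hg ⟨_, hle⟩)
      (g.liftOfSurjective_comp hg ⟨_, hle⟩).symm
    rw [← Ideal.Quotient.eq_zero_iff_mem, ← hc, RingHom.comp_apply, (RingHom.mem_ker).1 hs,
      map_zero]
  · rw [Ideal.map_le_iff_le_comap]
    intro r hr
    rw [Ideal.mem_comap, RingHom.mem_ker, PO_apply h, (RingHom.mem_ker).1 hr, map_zero]

theorem PO_of_bijective (w : i.comp f = j.comp g) (hg : Function.Bijective g)
    (hi : Function.Bijective i) : IsPO f g i j :=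
  PO_of_surj w hg.2 hi.2 (by
    rw [(RingHom.injective_iff_ker_eq_bot i).1 hi.1]
    exact bot_le)

/-- Two pushouts of the same diagram are isomorphic. -/
theorem PO_unique {i' : S →+* P'} {j' : T →+* P'} (h : IsPO f g i j) (h' : IsPO f g i' j')
    {c : P →+* P'} (h1 : c.comp i = i') (h2 : c.comp j = j') : Function.Bijective c := by
  obtain ⟨d, hd1, hd2⟩ := PO_desc h' i j (PO_comm h)
  have e1 : d.comp c = RingHom.id P :=
    PO_ext h (by rw [RingHom.comp_assoc, h1, hd1]; rfl) (by rw [RingHom.comp_assoc, h2, hd2]; rfl)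
  have e2 : c.comp d = RingHom.id P' :=
    PO_ext h' (by rw [RingHom.comp_assoc, hd1, h1]; rfl) (by rw [RingHom.comp_assoc, hd2, h2]; rfl)
  exact Function.bijective_iff_has_inverse.2
    ⟨d, fun x => RingHom.congr_fun e1 x, fun x => RingHom.congr_fun e2 x⟩

theorem PO_comp_bijective (h : IsPO f g i j) {c : P →+* P'} (hc : Function.Bijective c) :
    IsPO f g (c.comp i) (c.comp j) :=
  PO_congr (PO_paste h (PO_of_bijective (f := j) (g := RingHom.id T) (i := c) (j := c.comp j) rfl
    Function.bijective_id hc)) rfl rfl rfl rfl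

theorem PO_poly (f : R →+* S) : IsPO (C : R →+* R[X]) f (mapRingHom f) (C : S →+* S[X]) := by
  refine PO_mk (by ext r; simp) (fun Q _ a b hab => ?_) (fun Q _ c c' h1 h2 => ?_)
  · refine ⟨eval₂RingHom b (a X), ?_, by ext r; simp⟩
    refine Polynomial.ringHom_ext (fun r => ?_) (by simp)
    simpa using (RingHom.congr_fun hab r).symm
  · refine Polynomial.ringHom_ext (fun r => RingHom.congr_fun h2 r) ?_
    simpa using RingHom.congr_fun h1 X

theorem PO_mvpoly (ι : Type) (f : R →+* S) :
    IsPO (MvPolynomial.C : R →+* MvPolynomial ι R) f (MvPolynomial.map f)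
      (MvPolynomial.C : S →+* MvPolynomial ι S) := by
  refine PO_mk (by ext r; simp) (fun Q _ a b hab => ?_) (fun Q _ c c' h1 h2 => ?_)
  · refine ⟨MvPolynomial.eval₂Hom b fun n => a (MvPolynomial.X n), ?_, by ext r; simp⟩
    refine MvPolynomial.ringHom_ext (fun r => ?_) (by simp)
    simpa using (RingHom.congr_fun hab r).symm
  · refine MvPolynomial.ringHom_ext (fun r => RingHom.congr_fun h2 r) fun n => ?_
    simpa using RingHom.congr_fun h1 (MvPolynomial.X n)

/-- The square of quotient maps. -/
theorem PO_qmap_of_surj (i : S →+* P) {σ : S} {σ' : P} (hσ : i σ = σ') :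
    IsPO i (Ideal.Quotient.mk (Ideal.span {σ})) (Ideal.Quotient.mk (Ideal.span {σ'}))
      (qmap i hσ) := by
  refine PO_of_surj rfl Ideal.Quotient.mk_surjective Ideal.Quotient.mk_surjective ?_
  rw [Ideal.mk_ker, Ideal.mk_ker, Ideal.map_span, Set.image_singleton, hσ]

theorem PO_quot (h : IsPO f g i j) {σ : S} {σ' : P} (hσ : i σ = σ') :
    IsPO ((Ideal.Quotient.mk (Ideal.span {σ})).comp f) g (qmap i hσ)
      ((Ideal.Quotient.mk (Ideal.span {σ'})).comp j) :=
  PO_paste' h (PO_symm (PO_qmap_of_surj i hσ))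

theorem PO_adj (f : R →+* S) (p : R[X]) :
    IsPO (AdjoinRoot.of p) f (amap f p) (AdjoinRoot.of (p.map f)) := by
  refine PO_mk (by ext r; simp) (fun Q _ a b hab => ?_) (fun Q _ c c' h1 h2 => ?_)
  · have hp : (p.map f).eval₂ b (a (AdjoinRoot.root p)) = 0 := by
      rw [eval₂_map, ← hab, ← hom_eval₂, AdjoinRoot.eval₂_root, map_zero]
    refine ⟨AdjoinRoot.lift b _ hp, ?_, by ext r; simp⟩
    refine AdjoinRoot.ringHom_ext ?_ (by simp)
    ext r
    simpa using (RingHom.congr_fun hab r).symm
  · refine AdjoinRoot.ringHom_ext h2 ?_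
    simpa using RingHom.congr_fun h1 (AdjoinRoot.root p)

theorem PO_et1_sq (h : IsPO f g i j) (u : S) :
    IsPO (eval₂RingHom f u) (mapRingHom g) i (eval₂RingHom j (i u)) := by
  refine PO_cancel' (PO_poly g) (PO_congr h ?_ rfl rfl ?_) ?_
  · ext r; simp
  · ext r; simp
  · refine Polynomial.ringHom_ext (fun r => ?_) (by simp)
    simpa using PO_apply h r

theorem PO_et1 (h : IsPO f g i j) {u : S} (hu : Et1 f u) : Et1 j (i u) :=
  PO_etale (PO_et1_sq h u) hu

theorem PO_etN {ι : Type} (h : IsPO f g i j) {x : ι → S} (hx : EtN f x) :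
    EtN j fun n => i (x n) := by
  refine PO_etale (f := MvPolynomial.eval₂Hom f x) (g := MvPolynomial.map g) (i := i)
    (PO_cancel' (PO_mvpoly ι g) (PO_congr h ?_ rfl rfl ?_) ?_) hx
  · ext r; simp
  · ext r; simp
  · refine MvPolynomial.ringHom_ext (fun r => ?_) (by simp)
    simpa using PO_apply h r

theorem PO_ep (h : IsPO f g i j) (hf : EP f) : EP j := by
  obtain ⟨n, x, hx⟩ := hf
  exact ⟨n, _, PO_etN h hx⟩

theorem PO_finMod (h : IsPO f g i j) {σ : S} (hσ : FinMod f (Ideal.span {σ})) :
    FinMod j (Ideal.span {i σ}) :=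
  PO_finite (PO_quot h rfl) hσ

theorem PO_quot' (i : S →+* P) (J : Ideal S) :
    IsPO (Ideal.Quotient.mk J) i (Ideal.quotientMap (J.map i) i Ideal.le_comap_map)
      (Ideal.Quotient.mk (J.map i)) := by
  refine PO_symm (PO_of_surj rfl Ideal.Quotient.mk_surjective Ideal.Quotient.mk_surjective ?_)
  rw [Ideal.mk_ker, Ideal.mk_ker]

theorem PO_etN_sq {ι : Type} (h : IsPO f g i j) (x : ι → S) :
    IsPO (MvPolynomial.eval₂Hom f x) (MvPolynomial.map g) i
      (MvPolynomial.eval₂Hom j (fun k => i (x k))) := by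
  refine PO_cancel' (PO_mvpoly ι g) (PO_congr h ?_ rfl rfl ?_) ?_
  · ext r; simp
  · ext r; simp
  · refine MvPolynomial.ringHom_ext (fun r => ?_) (by simp)
    simpa using PO_apply h r

end aux

theorem IsPO.comm (h : IsPO f g i j) : i.comp f = j.comp g := PO_comm h

theorem IsPO.comm_apply (h : IsPO f g i j) (r : R) : i (f r) = j (g r) := PO_apply h r

theorem IsPO.flip (h : IsPO f g i j) : IsPO g f j i := PO_symm h

theorem IsPO.exists_lift (h : IsPO f g i j) (k : S →+* Z) (l : T →+* Z) (w : k.comp f = l.comp g) :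
    ∃ d : P →+* Z, d.comp i = k ∧ d.comp j = l := PO_desc h k l w

theorem IsPO.hom_ext (h : IsPO f g i j) {d d' : P →+* Z} (hi : d.comp i = d'.comp i)
    (hj : d.comp j = d'.comp j) : d = d' := PO_ext h hi hj

theorem IsPO.of_universal (w : i.comp f = j.comp g)
    (hex : ∀ (Z : Type u) [CommRing Z] (k : S →+* Z) (l : T →+* Z), k.comp f = l.comp g →
      ∃ d : P →+* Z, d.comp i = k ∧ d.comp j = l)
    (hun : ∀ (Z : Type u) [CommRing Z] (d d' : P →+* Z), d.comp i = d'.comp i →
      d.comp j = d'.comp j → d = d') : IsPO f g i j := PO_mk w hex hun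

theorem exists_isPO (f : R →+* S) (g : R →+* T) :
    ∃ (P : Type u) (_ : CommRing P) (i : S →+* P) (j : T →+* P), IsPO f g i j := PO_exists f g

/-- The tensor product square. -/
theorem isPO_tensor [Algebra R S] [Algebra R T] :
    IsPO (algebraMap R S) (algebraMap R T)
      (Algebra.TensorProduct.includeLeftRingHom : S →+* TensorProduct R S T)
      (Algebra.TensorProduct.includeRight : T →ₐ[R] TensorProduct R S T).toRingHom :=
  CommRingCat.isPushout_tensorProduct R S T

theorem isPO_iff [Algebra R S] [Algebra R T] [Algebra S P] [Algebra T P] [Algebra R P]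
    [IsScalarTower R S P] [IsScalarTower R T P] :
    IsPO (algebraMap R S) (algebraMap R T) (algebraMap S P) (algebraMap T P) ↔
      Algebra.IsPushout R S T P := CommRingCat.isPushout_iff_isPushout

/-- Two pushouts are isomorphic. -/
theorem IsPO.exists_equiv (h : IsPO f g i j) {i' : S →+* Z} {j' : T →+* Z} (h' : IsPO f g i' j') :
    ∃ e : P ≃+* Z, (e : P →+* Z).comp i = i' ∧ (e : P →+* Z).comp j = j' := by
  obtain ⟨c, h1, h2⟩ := PO_desc h i' j' (PO_comm h')
  exact ⟨RingEquiv.ofBijective c (PO_unique h h' h1 h2), h1, h2⟩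

theorem IsPO.of_bijective (h : IsPO f g i j) {e : P →+* Z} (he : Function.Bijective e) :
    IsPO f g (e.comp i) (e.comp j) := PO_comp_bijective h he

theorem isPO_of_bijective (w : i.comp f = j.comp g) (hf : Function.Bijective f)
    (hj : Function.Bijective j) : IsPO f g i j := PO_symm (PO_of_bijective w.symm hf hj)

theorem isPO_id (f : R →+* S) : IsPO f (RingHom.id R) (RingHom.id S) f :=
  PO_of_bijective rfl Function.bijective_id Function.bijective_id

/-- Base change in two steps. -/
theorem IsPO.paste {T' : Type u} [CommRing T'] (h : IsPO f g i j) {g' : T →+* T'} {i' : P →+* Z}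
    {j' : T' →+* Z} (h' : IsPO j g' i' j') : IsPO f (g'.comp g) (i'.comp i) j' := PO_paste h h'

theorem IsPO.cancel {T' : Type u} [CommRing T'] (h : IsPO f g i j) {g' : T →+* T'} {i' : P →+* Z}
    {j' : T' →+* Z} (w : i'.comp j = j'.comp g') (h' : IsPO f (g'.comp g) (i'.comp i) j') :
    IsPO j g' i' j' := PO_cancel h h' w

/-- Base change of a composite. -/
theorem IsPO.paste' {S' : Type u} [CommRing S'] (h : IsPO f g i j) {f' : S →+* S'} {i' : S' →+* Z}
    {j' : P →+* Z} (h' : IsPO f' i i' j') : IsPO (f'.comp f) g i' (j'.comp j) := PO_paste' h h'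

theorem IsPO.cancel' {S' : Type u} [CommRing S'] (h : IsPO f g i j) {f' : S →+* S'} {i' : S' →+* Z}
    {j' : P →+* Z} (w : i'.comp f' = j'.comp i) (h' : IsPO (f'.comp f) g i' (j'.comp j)) :
    IsPO f' i i' j' := PO_cancel' h h' w

theorem IsPO.mem_subring (h : IsPO f g i j) (W : Subring P) (hi : ∀ s, i s ∈ W) (hj : ∀ t, j t ∈ W)
    (p : P) : p ∈ W :=
  PO_induction h (p := fun z => z ∈ W) (fun s t => mul_mem (hi s) (hj t))
    (fun _ _ => add_mem) p

theorem IsPO.induction (h : IsPO f g i j) {q : P → Prop} (h0 : q 0)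
    (hmul : ∀ s t, q (i s * j t)) (hadd : ∀ x y, q x → q y → q (x + y)) (p : P) : q p := by
  have _ := h0
  exact PO_induction h hmul hadd p

theorem IsPO.etale (h : IsPO f g i j) (hf : f.Etale) : j.Etale := PO_etale h hf

theorem IsPO.finite (h : IsPO f g i j) (hf : f.Finite) : j.Finite := PO_finite h hf

theorem IsPO.isIntegral (h : IsPO f g i j) (hf : f.IsIntegral) : j.IsIntegral :=
  PO_prop RingHom.isIntegral_isStableUnderBaseChange h hf

theorem IsPO.finiteType (h : IsPO f g i j) (hf : f.FiniteType) : j.FiniteType := PO_ft h hf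

theorem IsPO.finitePresentation (h : IsPO f g i j) (hf : f.FinitePresentation) :
    j.FinitePresentation := PO_prop RingHom.finitePresentation_isStableUnderBaseChange h hf

theorem IsPO.flat (h : IsPO f g i j) (hf : f.Flat) : j.Flat :=
  PO_prop RingHom.Flat.isStableUnderBaseChange h hf

theorem IsPO.surjective (h : IsPO f g i j) (hf : Function.Surjective f) : Function.Surjective j :=
  PO_surjective h hf

theorem IsPO.bijective (h : IsPO f g i j) (hf : Function.Bijective f) : Function.Bijective j :=
  PO_bijective h hf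

theorem IsPO.ker_eq (h : IsPO f g i j) (hf : Function.Surjective f) :
    RingHom.ker j = (RingHom.ker f).map g := PO_ker (PO_symm h) hf

theorem isPO_of_surjective (w : i.comp f = j.comp g) (hf : Function.Surjective f)
    (hj : Function.Surjective j) (hk : RingHom.ker j ≤ (RingHom.ker f).map g) : IsPO f g i j :=
  PO_symm (PO_of_surj w.symm hf hj hk)

theorem isPO_quot (I : Ideal R) (g : R →+* T) :
    IsPO (Ideal.Quotient.mk I) g (Ideal.quotientMap (I.map g) g Ideal.le_comap_map)
      (Ideal.Quotient.mk (I.map g)) := PO_quot' g I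

theorem IsPO.quotient (h : IsPO f g i j) (J : Ideal S) :
    IsPO ((Ideal.Quotient.mk J).comp f) g (Ideal.quotientMap (J.map i) i Ideal.le_comap_map)
      ((Ideal.Quotient.mk (J.map i)).comp j) := PO_paste' h (PO_quot' i J)

theorem IsPO.qmap (h : IsPO f g i j) {σ : S} {σ' : P} (hσ : i σ = σ') :
    IsPO ((Ideal.Quotient.mk (Ideal.span {σ})).comp f) g (qmap i hσ)
      ((Ideal.Quotient.mk (Ideal.span {σ'})).comp j) := PO_quot h hσ

theorem IsPO.finMod (h : IsPO f g i j) {J : Ideal S} (hf : FinMod f J) : FinMod j (J.map i) :=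
  PO_finite (PO_paste' h (PO_quot' i J)) hf

theorem IsPO.finMod_span (h : IsPO f g i j) {σ : S} (hf : FinMod f (Ideal.span {σ})) :
    FinMod j (Ideal.span {i σ}) := PO_finMod h hf

theorem isPO_polynomial (g : R →+* T) :
    IsPO (C : R →+* R[X]) g (Polynomial.mapRingHom g) (C : T →+* T[X]) := PO_poly g

theorem isPO_mvPolynomial (ι : Type) (g : R →+* T) :
    IsPO (MvPolynomial.C : R →+* MvPolynomial ι R) g (MvPolynomial.map g)
      (MvPolynomial.C : T →+* MvPolynomial ι T) := PO_mvpoly ι g

theorem IsPO.polynomial (h : IsPO f g i j) :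
    IsPO (Polynomial.mapRingHom f) (Polynomial.mapRingHom g) (Polynomial.mapRingHom i)
      (Polynomial.mapRingHom j) := by
  refine PO_cancel' (PO_poly g) (PO_congr (PO_paste' h (PO_poly i)) ?_ rfl rfl ?_) ?_
  · ext r; simp
  · ext r; simp
  · rw [Polynomial.mapRingHom_comp, Polynomial.mapRingHom_comp, PO_comm h]

theorem IsPO.eval₂ (h : IsPO f g i j) (u : S) :
    IsPO (Polynomial.eval₂RingHom f u) (Polynomial.mapRingHom g) i
      (Polynomial.eval₂RingHom j (i u)) := PO_et1_sq h u

theorem IsPO.eval₂Hom (h : IsPO f g i j) {ι : Type} (x : ι → S) :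
    IsPO (MvPolynomial.eval₂Hom f x) (MvPolynomial.map g) i
      (MvPolynomial.eval₂Hom j (fun k => i (x k))) := PO_etN_sq h x

theorem IsPO.et1 (h : IsPO f g i j) {u : S} (hu : Et1 f u) : Et1 j (i u) := PO_et1 h hu

theorem IsPO.etN (h : IsPO f g i j) {ι : Type} {x : ι → S} (hx : EtN f x) :
    EtN j (fun k => i (x k)) := PO_etN h hx

theorem IsPO.ep (h : IsPO f g i j) (hf : EP f) : EP j := PO_ep h hf

theorem isPO_adjoinRoot (g : R →+* T) (p : R[X]) :
    IsPO (AdjoinRoot.of p) g (amap g p) (AdjoinRoot.of (p.map g)) := PO_adj g p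

/-- A surjection `θ : S → D` of `R`-algebras and its base change `θ' : P → D'`. -/
theorem IsPO.ker_baseChange {D D' : Type u} [CommRing D] [CommRing D'] (h : IsPO f g i j)
    {θ : S →+* D} {θ' : P →+* D'} {k : D →+* D'} (hθ : Function.Surjective θ)
    (w : θ'.comp i = k.comp θ) (h' : IsPO (θ.comp f) g k (θ'.comp j)) :
    Function.Surjective θ' ∧ RingHom.ker θ' = (RingHom.ker θ).map i := by
  have h1 : IsPO θ i k θ' := PO_cancel' h h' w.symm
  exact ⟨PO_surjective h1 hθ, PO_ker (PO_symm h1) hθ⟩

/-- Base change of a section. -/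
theorem IsPO.section (h : IsPO f g i j) {s : S →+* R} (hs : s.comp f = RingHom.id R) :
    ∃ s' : P →+* T, s'.comp j = RingHom.id T ∧ s'.comp i = g.comp s ∧
      RingHom.ker s' = (RingHom.ker s).map i := by
  obtain ⟨s', h1, h2⟩ := PO_desc h (g.comp s) (RingHom.id T)
    (by rw [RingHom.comp_assoc, hs, RingHom.comp_id, RingHom.id_comp])
  have hsurj : Function.Surjective s := fun r => ⟨f r, RingHom.congr_fun hs r⟩
  have h3 : IsPO (s.comp f) g g (s'.comp j) := by
    rw [hs, h2]
    exact PO_symm (PO_of_bijective rfl Function.bijective_id Function.bijective_id)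
  exact ⟨s', h2, h1, PO_ker (PO_symm (PO_cancel' h h3 h1.symm)) hsurj⟩

end KEW
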