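import Pool.Agent.P.MP_6277db_ag.KEW.CA.Pres
import Pool.Agent.P.MP_6277db_ag.KEW.CA.Jac

/-!
KEW L4.3: standard form, overconvergence, lifting of etale algebras along surjections.
Hints.  An etale algebra has a presentation `S[x_1..x_n]/(f_1..f_n)` with invertible Jacobian
(`Algebra.Etale.iff_isStandardSmoothOfRelativeDimension_zero`, `Algebra.SubmersivePresentation`); prove
`etale_presentation` first.
`std_form`: `r_i ∈ S` with `x_i ≡ r_i` mod `π`; `f(r) = π c` (`EE.inj`), `Δ = det J(r)` is a unit mod `π`: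
`d Δ = 1 + π n`.  Taylor: `f(r + π w) = π (c + J(r) w + π h(w))`.  Use variables `y_1..y_n, y_0`, put
`c' = d adj(J) c`, `v = 1 + y_0`, `w = y - c'`, equations `y_0 = - π n (1 + y_0)` (so `v (1 + π n) = 1`) and
`y = π (n c' - n y - d adj(J) h(y - c'))`; they give `d adj(J) (c + J w + π h(w)) = 0`, multiply by `v J`.
`etale_lift_surj`: lift the `f_i`, `E = R[x]/(f)[1/Δ]`; etale by `jac`-type argument or
`Algebra.PreSubmersivePresentation`/`Algebra.IsStandardSmoothOfRelativeDimension`, or by `jac` with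
`𝔟 = ⊥`-like choices; `EtN (l ∘ C) f` on the locus where the Jacobian is invertible and `EtN.etale_quotient`.
-/

namespace KEW

universe u

variable {R S E E1 R0 E0 : Type u} [CommRing R] [CommRing S] [CommRing E] [CommRing E1] [CommRing R0]
  [CommRing E0]

open MvPolynomial in
/-- Taylor expansion to second order, as a polynomial identity. -/
theorem SF_taylor {n : ℕ} (π : S) (r : Fin n → S) (p : MvPolynomial (Fin n) S) :
    ∃ h : MvPolynomial (Fin n) S, eval₂Hom C (fun j => C (r j) + C π * X j) p =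
      C (eval r p) + C π * (∑ j, C (eval r (pderiv j p)) * X j) + C π ^ 2 * h := by
  induction p using MvPolynomial.induction_on with
  | C a => exact ⟨0, by simp⟩
  | add p q hp hq =>
    obtain ⟨h, hh⟩ := hp
    obtain ⟨g, hg⟩ := hq
    refine ⟨h + g, ?_⟩
    simp only [map_add, hh, hg, add_mul, Finset.sum_add_distrib]
    ring
  | mul_X p i hp =>
    obtain ⟨h, hh⟩ := hp
    refine ⟨h * C (r i) + (∑ j, C (eval r (pderiv j p)) * X j) * X i + C π * h * X i, ?_⟩
    have h1 : (∑ j, C (eval r (pderiv j (p * X i))) * X j : MvPolynomial (Fin n) S) =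
        (∑ j, C (eval r (pderiv j p)) * X j) * C (r i) + C (eval r p) * X i := by
      have h2 : ∀ j, (C (eval r (pderiv j (p * X i))) * X j : MvPolynomial (Fin n) S) =
          C (eval r (pderiv j p)) * X j * C (r i) +
            if j = i then C (eval r p) * X i else 0 := by
        intro j
        rw [pderiv_mul, map_add, map_mul, map_mul, eval_X, map_add, map_mul, map_mul]
        by_cases hj : j = i
        · rw [if_pos hj, hj, pderiv_X_self, map_one, map_one]
          ring
        · rw [if_neg hj, pderiv_X_of_ne (Ne.symm hj), map_zero, map_zero]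
          ring
      rw [Finset.sum_congr rfl fun j _ => h2 j, Finset.sum_add_distrib, Finset.sum_ite_eq',
        if_pos (Finset.mem_univ i), Finset.sum_mul]
    rw [map_mul, hh, eval₂Hom_X', h1, map_mul, eval_X, map_mul]
    ring

open MvPolynomial in
theorem SF_taylor_eval {n : ℕ} (π : S) (r : Fin n → S) (p : MvPolynomial (Fin n) S) :
    ∃ h : MvPolynomial (Fin n) S, ∀ (T : Type u) [CommRing T] (α : S →+* T) (w : Fin n → T),
      eval₂Hom α (fun j => α (r j) + α π * w j) p =
        α (eval r p) + α π * (∑ j, α (eval r (pderiv j p)) * w j) + α π ^ 2 * eval₂ α w h := by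
  obtain ⟨h, hh⟩ := SF_taylor π r p
  refine ⟨h, fun T _ α w => ?_⟩
  have h1 := congrArg (eval₂Hom α w) hh
  rw [map_eval₂Hom, eval₂Hom_comp_C] at h1
  simpa only [map_add, map_mul, map_pow, map_sum, eval₂Hom_C, eval₂Hom_X', coe_eval₂Hom] using h1

open MvPolynomial in
theorem SF_congr {n : ℕ} {ε : S →+* E1} (J : Ideal E1) {x : Fin n → E1} {r : Fin n → S}
    (h : ∀ i, x i - ε (r i) ∈ J) (p : MvPolynomial (Fin n) S) :
    eval₂Hom ε x p - ε (eval r p) ∈ J := by
  rw [← Ideal.Quotient.eq, map_eval₂Hom, eval₂_comp, eval₂_comp_left, coe_eval₂Hom]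
  congr 1
  funext i
  exact Ideal.Quotient.eq.2 (h i)

open MvPolynomial in
/-- The standard form, with variables indexed by `Option (Fin n)`. -/
theorem SF_std {π : S} {ε : S →+* E1} (hε : EE (Ideal.span {π}) ε) :
    ∃ (n : ℕ) (z : Option (Fin n) → MvPolynomial (Option (Fin n)) S),
      ∀ (T : Type u) [CommRing T] (α : S →+* T) (y : Option (Fin n) → T),
        (∀ k, y k = α π * MvPolynomial.eval₂ α y (z k)) → ∃ η : E1 →+* T, η.comp ε = α := by
  obtain ⟨n, x, f, hs, hk, hu⟩ := etale_presentation hε.etale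
  choose r hr using fun i => hε.surj (x i)
  have hc : ∀ k, ∃ c, c * π = eval r (f k) := fun k => by
    refine Ideal.mem_span_singleton'.1 (hε.inj _ ?_)
    have h1 := SF_congr _ hr (f k)
    have h2 : eval₂Hom ε x (f k) = 0 := by
      rw [← RingHom.mem_ker, hk]
      exact Ideal.subset_span ⟨k, rfl⟩
    rw [h2, zero_sub] at h1
    exact (Ideal.neg_mem_iff _).1 h1
  choose c hc using hc
  set J : Matrix (Fin n) (Fin n) S := Matrix.of fun i j => eval r (pderiv j (f i)) with hJ
  have hdet : eval r (Matrix.det (Matrix.of fun i j => pderiv j (f i))) = J.det := by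
    rw [RingHom.map_det]
    rfl
  obtain ⟨d, m, hm⟩ : ∃ d m : S, d * J.det = 1 + π * m := by
    obtain ⟨u', hu'⟩ := hu.exists_left_inv
    obtain ⟨d, hd⟩ := hε.surj u'
    have h1 := SF_congr _ hr (Matrix.det (Matrix.of fun i j => pderiv j (f i)))
    rw [hdet] at h1
    have h2 : ε (d * J.det - 1) ∈ (Ideal.span {π}).map ε := by
      have h3 : ε (d * J.det - 1) = -(u' - ε d) * ε J.det -
          u' * (eval₂Hom ε x (Matrix.det (Matrix.of fun i j => pderiv j (f i))) - ε J.det) := by
        rw [map_sub, map_mul, map_one, ← hu']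
        ring
      rw [h3]
      exact sub_mem (Ideal.mul_mem_right _ _ (neg_mem hd)) (Ideal.mul_mem_left _ _ h1)
    obtain ⟨m, hm⟩ := Ideal.mem_span_singleton'.1 (hε.inj _ h2)
    exact ⟨d, m, by rw [mul_comm π, hm]; ring⟩
  set A : Matrix (Fin n) (Fin n) S := d • J.adjugate with hA
  have hJA : ∀ k l, ∑ j, J k j * A j l = if k = l then 1 + π * m else 0 := fun k l => by
    rw [← Matrix.mul_apply, hA, Matrix.mul_smul, Matrix.mul_adjugate, smul_smul, hm,
      Matrix.smul_apply, Matrix.one_apply, smul_eq_mul, mul_ite, mul_one, mul_zero]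
  choose h hh using fun k => SF_taylor_eval π r (f k)
  let W : Fin n → MvPolynomial (Option (Fin n)) S := fun i =>
    X (some i) - (1 + X none) * ∑ l, C (A i l * c l)
  refine ⟨n, fun o => o.elim (-(C m * (1 + X none)))
    fun i => -((1 + X none) * ∑ l, C (A i l) * eval₂Hom C W (h l)), fun T _ α y hy => ?_⟩
  set w : Fin n → T := fun i => y (some i) - (1 + y none) * ∑ l, α (A i l) * α (c l) with hw
  have hW : (fun i => eval₂Hom α y (W i)) = w := by
    funext i
    simp only [W, hw, map_sub, map_mul, map_add, map_one, map_sum, eval₂Hom_C, eval₂Hom_X']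
  have h0 : (1 + y none) * (1 + α π * α m) = 1 := by
    have h1 := hy none
    rw [← coe_eval₂Hom] at h1
    simp only [Option.elim_none, map_neg, map_mul, map_add, map_one, eval₂Hom_C,
      eval₂Hom_X'] at h1
    linear_combination h1
  have h1 : ∀ i, w i = -(1 + y none) * ∑ l, α (A i l) * (α (c l) + α π * eval₂ α w (h l)) := by
    intro i
    have h2 := hy (some i)
    rw [← coe_eval₂Hom] at h2
    simp only [Option.elim_some, map_neg, map_mul, map_add, map_one, map_sum, eval₂Hom_C,
      eval₂Hom_X', map_eval₂Hom, eval₂Hom_comp_C, hW] at h2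
    have h3 : ∑ l, α (A i l) * (α (c l) + α π * eval₂ α w (h l)) =
        ∑ l, α (A i l) * α (c l) + α π * ∑ l, α (A i l) * eval₂Hom α w (h l) := by
      rw [Finset.mul_sum, ← Finset.sum_add_distrib]
      refine Finset.sum_congr rfl fun l _ => ?_
      rw [coe_eval₂Hom]
      ring
    have h4 : w i = y (some i) - (1 + y none) * ∑ l, α (A i l) * α (c l) := rfl
    rw [h3, h4]
    linear_combination h2
  have h2 : ∀ k, ∑ j, α (J k j) * w j = -(α (c k) + α π * eval₂ α w (h k)) := by
    intro k
    have h3 : ∀ j, α (J k j) * w j = -(1 + y none) *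
        ∑ l, α (J k j * A j l) * (α (c l) + α π * eval₂ α w (h l)) := fun j => by
      conv_lhs => rw [h1 j]
      rw [mul_left_comm, Finset.mul_sum]
      congr 1
      refine Finset.sum_congr rfl fun l _ => ?_
      rw [map_mul, mul_assoc]
    rw [Finset.sum_congr rfl fun j _ => h3 j, ← Finset.mul_sum, Finset.sum_comm]
    simp only [← Finset.sum_mul, ← map_sum, hJA]
    rw [Finset.sum_eq_single k (fun l _ hl => by rw [if_neg (Ne.symm hl), map_zero, zero_mul])
      (fun hl => absurd (Finset.mem_univ k) hl), if_pos rfl, map_add, map_one, map_mul]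
    linear_combination (-(α (c k) + α π * eval₂ α w (h k))) * h0
  have h3 : RingHom.ker (eval₂Hom ε x) ≤
      RingHom.ker (eval₂Hom α fun j => α (r j) + α π * w j) := by
    rw [hk, Ideal.span_le]
    rintro _ ⟨k, rfl⟩
    have h4 : ∑ j, α (eval r (pderiv j (f k))) * w j = -(α (c k) + α π * eval₂ α w (h k)) := h2 k
    rw [SetLike.mem_coe, RingHom.mem_ker, hh k, h4, ← hc k, map_mul]
    ring
  refine ⟨(eval₂Hom ε x).liftOfSurjective hs ⟨_, h3⟩, RingHom.ext fun s => ?_⟩
  have h4 := RingHom.liftOfSurjective_comp_apply (eval₂Hom ε x) hs ⟨_, h3⟩ (C s)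
  rw [eval₂Hom_C] at h4
  exact h4.trans (eval₂Hom_C _ _ s)

theorem std_form {π : S} {ε : S →+* E1} (hε : EE (Ideal.span {π}) ε) :
    ∃ (n : ℕ) (z : Fin n → MvPolynomial (Fin n) S), ∀ (T : Type u) [CommRing T] (α : S →+* T)
      (y : Fin n → T), (∀ k, y k = α π * MvPolynomial.eval₂ α y (z k)) →
        ∃ η : E1 →+* T, η.comp ε = α := by
  obtain ⟨n, z, hz⟩ := SF_std hε
  let e : Option (Fin n) ≃ Fin (n + 1) := finSuccEquivLast.symm
  refine ⟨n + 1, fun k => MvPolynomial.rename e (z (e.symm k)), fun T _ α y hy => ?_⟩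
  refine hz T α (y ∘ e) fun k => ?_
  have h1 := hy (e k)
  rwa [MvPolynomial.eval₂_rename, e.symm_apply_apply] at h1

/-- Overconvergence: a neighbourhood of `V(π)` extends over every model in which finitely many
elements `π z` lie in the ideal of definition. -/
theorem OCgen {π : S} {ε : S →+* E1} (hε : EE (Ideal.span {π}) ε) :
    ∃ Z : Finset S, ∀ (St T : Type u) [CommRing St] [CommRing T] (It : Ideal St) (α : S →+* T)
      (β : St →+* T), (∀ z ∈ Z, ∃ zt ∈ It, β zt = α (π * z)) →
        ∃ (E2 : Type u) (_ : CommRing E2) (ε2 : St →+* E2), EE It ε2 ∧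
          ∀ (T' : Type u) [CommRing T'] (γ : T →+* T') (δ : E2 →+* T'), δ.comp ε2 = γ.comp β →
            ∃ η : E1 →+* T', η.comp ε = γ.comp α := by
  classical
  obtain ⟨n, z, hz⟩ := std_form hε
  refine ⟨Finset.univ.biUnion fun k => (z k).support.image fun m => (z k).coeff m,
    fun St T _ _ It α β hZ => ?_⟩
  choose! zt hzt hβ using hZ
  have hmem : ∀ k, ∀ m ∈ (z k).support,
      (z k).coeff m ∈ Finset.univ.biUnion fun k => (z k).support.image fun m => (z k).coeff m :=
    fun k m hm => Finset.mem_biUnion.2 ⟨k, Finset.mem_univ k, Finset.mem_image_of_mem _ hm⟩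
  obtain ⟨E2, _, ρ, y, hρ, hy⟩ := ift_fix It
    (fun k => ∑ m ∈ (z k).support, MvPolynomial.monomial m (zt ((z k).coeff m))) fun k m => by
      rw [MvPolynomial.coeff_sum]
      refine Ideal.sum_mem _ fun m' hm' => ?_
      rw [MvPolynomial.coeff_monomial]
      split_ifs
      · exact hzt _ (hmem k m' hm')
      · exact zero_mem _
  refine ⟨E2, inferInstance, ρ, hρ, fun T' _ γ δ hδ => hz T' (γ.comp α) (δ ∘ y) fun k => ?_⟩
  have h1 := congrArg δ (hy k)
  rw [MvPolynomial.eval₂_comp_left, hδ, MvPolynomial.eval₂_sum] at h1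
  rw [Function.comp_apply, h1, MvPolynomial.eval₂_eq, Finset.mul_sum]
  refine Finset.sum_congr rfl fun m hm => ?_
  rw [MvPolynomial.eval₂_monomial, RingHom.comp_apply, hβ _ (hmem k m hm), ← RingHom.comp_apply,
    map_mul, mul_assoc]
  rfl

end KEW
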