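import Pool.Agent.P.MP_6277db_ag.KEW.CA.Val
import Pool.Agent.P.MP_6277db_ag.KEW.CA.ZMT
import Pool.Agent.P.MP_6277db_ag.KEW.CA.EEApi

/-!
KEW L4.2, first half: the family `u^M + Σ λ_a u^(M-a) G_a` with finite zero locus.
Hints.  `zmt_etale` for `R[X] → E`, `𝔟 = ker s0` gives `St ⊆ E` finite over `R[X]` and `Q0`, `s0 Q0 = 1`;
`1 - Q0 ∈ u E`, so `Q0^n (1 - Q0) ∈ u St`; put `Q = Q0^n`, `n ≥ 1`: `Q (1 - Q) ∈ u St`.
`u` is a nonzerodivisor (`Et1.monic_regular`).  In `L = St[1/u]` consider the `R`-submodules `N = Q L`,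
`F_M = u^(-M) Q (u, Q)^M` (increasing in `M`) and `F_inf = {z ∈ N | |z| < 1 for every valuation with
R ⊆ O, |u| > 1}`.  If `x_i` generate `St` as an `R[X]`-module then `u^k Q x_i` lies in `F_0` for `k ≥ 0` and in `F_inf`
for `k ≤ -n0` (`DegLT.exists_of_integral`), so `N ⧸ (F_0 + F_inf)` is a finite module over the noetherian
ring `R` and `F_M + F_inf` is constant for `M ≥ M0`.  For `a > M0` write `u^(-a) Q^(a+1) = f + g`, `f ∈ F_M0`,
`g ∈ F_inf`; `G_a = u^a g = Q^(a+1) - u^a f ∈ Q (u,Q)^a`, `s0 G_a = 1`, `DegLT φ u G_a a`.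
`sr_family`: if `|u| > 1` the term `u^M` wins; so `u ∈ O`, `St ⊆ O`; if `|Q| < 1` then `|Q| = |Q (1-Q)| ≤ |u|`, so
`u ≠ 0`, `|G_a| ≤ |Q| |u|^a < |u|^a` and `u^M` wins again; so `Q` is a unit of `O` and `E ⊆ St[1/Q] ⊆ O`.
-/

namespace KEW

universe u

open Polynomial

variable {R E St : Type u} [CommRing R] [CommRing E] [CommRing St]

theorem SR1_ne_zero {K : Type u} [Field K] (O : ValuationSubring K) {t : K} (ht : t ∉ O) :
    O.valuation t ≠ 0 := by
  intro h
  rw [(O.valuation.zero_iff).1 h] at ht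
  exact ht O.zero_mem

theorem SR1_cancel {φ : R →+* St} {u y : St} {k d : ℕ} (h : DegLT φ u (u ^ k * y) (k + d)) :
    DegLT φ u y d := by
  intro K _ O x hx hu
  have h1 := h K O x hx hu
  rw [map_mul, map_pow, map_mul, map_pow, pow_add] at h1
  exact lt_of_mul_lt_mul_left' h1

theorem SR1_dec {φ : R →+* St} {u Q : St} {n n0 : ℕ} {s : Fin n → St}
    (hs : ∀ z : St, ∃ c : Fin n → R[X], ∑ i, (c i).eval₂ φ u * s i = z)
    (hd : ∀ i, DegLT φ u (Q * s i) n0) (a : ℕ) (z : St) :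
    ∃ (y : St) (c : Fin n0 × Fin n → R), DegLT φ u (u ^ n0 * (Q * z) - u ^ (a + n0) * (Q * y) -
      u ^ a * ∑ j, φ (c j) * (u ^ (j.1 : ℕ) * (Q * s j.2))) (a + n0) := by
  classical
  have hadd : ∀ z z' : St, (∃ (y : St) (c : Fin n0 × Fin n → R), DegLT φ u (u ^ n0 * (Q * z) -
      u ^ (a + n0) * (Q * y) - u ^ a * ∑ j, φ (c j) * (u ^ (j.1 : ℕ) * (Q * s j.2))) (a + n0)) →
      (∃ (y : St) (c : Fin n0 × Fin n → R), DegLT φ u (u ^ n0 * (Q * z') -
      u ^ (a + n0) * (Q * y) - u ^ a * ∑ j, φ (c j) * (u ^ (j.1 : ℕ) * (Q * s j.2))) (a + n0)) →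
      ∃ (y : St) (c : Fin n0 × Fin n → R), DegLT φ u (u ^ n0 * (Q * (z + z')) -
      u ^ (a + n0) * (Q * y) - u ^ a * ∑ j, φ (c j) * (u ^ (j.1 : ℕ) * (Q * s j.2))) (a + n0) := by
    rintro z z' ⟨y, c, h⟩ ⟨y', c', h'⟩
    refine ⟨y + y', c + c', ?_⟩
    have h2 := h.add h'
    convert h2 using 1
    simp only [Pi.add_apply, map_add, add_mul, Finset.sum_add_distrib]
    ring
  have hzero : ∃ (y : St) (c : Fin n0 × Fin n → R), DegLT φ u (u ^ n0 * (Q * 0) -
      u ^ (a + n0) * (Q * y) - u ^ a * ∑ j, φ (c j) * (u ^ (j.1 : ℕ) * (Q * s j.2))) (a + n0) := by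
    refine ⟨0, 0, ?_⟩
    convert degLT_zero φ u (a + n0) using 1
    simp
  obtain ⟨c, rfl⟩ := hs z
  refine Finset.sum_induction _ (fun z => ∃ (y : St) (c : Fin n0 × Fin n → R), DegLT φ u
    (u ^ n0 * (Q * z) - u ^ (a + n0) * (Q * y) -
      u ^ a * ∑ j, φ (c j) * (u ^ (j.1 : ℕ) * (Q * s j.2))) (a + n0)) hadd hzero fun i _ => ?_
  induction c i using Polynomial.induction_on' with
  | add p q hp hq =>
    rw [eval₂_add, add_mul]
    exact hadd _ _ hp hq
  | monomial k r =>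
    rw [eval₂_monomial]
    by_cases h1 : a ≤ k
    · obtain ⟨e, rfl⟩ := Nat.exists_eq_add_of_le h1
      refine ⟨φ r * u ^ e * s i, 0, ?_⟩
      convert degLT_zero φ u (a + n0) using 1
      simp only [Pi.zero_apply, map_zero, zero_mul, Finset.sum_const_zero]
      ring
    · by_cases h2 : a ≤ k + n0
      · obtain ⟨e, he⟩ := Nat.exists_eq_add_of_le h2
        have he' : e < n0 := by omega
        refine ⟨0, Pi.single (⟨e, he'⟩, i) r, ?_⟩
        convert degLT_zero φ u (a + n0) using 1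
        rw [Finset.sum_eq_single (⟨e, he'⟩, i)]
        · rw [Pi.single_eq_same]
          have h3 : u ^ n0 * u ^ k = u ^ a * u ^ e := by
            rw [← pow_add, ← pow_add, add_comm n0, he]
          simp only
          linear_combination (φ r * Q * s i) * h3
        · intro j _ hj
          rw [Pi.single_eq_of_ne hj, map_zero, zero_mul]
        · intro h
          exact absurd (Finset.mem_univ _) h
      · refine ⟨0, 0, ?_⟩
        have h3 := (((hd i).pow_mul (k + n0)).const_mul r).mono (d' := a + n0) (by omega)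
        convert h3 using 1
        simp only [Pi.zero_apply, map_zero, zero_mul, Finset.sum_const_zero]
        ring

theorem sr_chain [IsNoetherianRing R] {φ : R →+* St} {u Q : St}
    (hfin : (Polynomial.eval₂RingHom φ u).Finite) (hu : ∀ y, u * y = 0 → y = 0) :
    ∃ M0 : ℕ, ∀ a, M0 < a → ∃ G : St, G ∈ Ideal.span {Q} * Ideal.span {u, Q} ^ a ∧
      u ∣ G - Q ^ (a + 1) ∧ DegLT φ u G a := by
  classical
  obtain ⟨n, s, hs⟩ : ∃ (n : ℕ) (s : Fin n → St),
      ∀ z : St, ∃ c : Fin n → R[X], ∑ i, (c i).eval₂ φ u * s i = z := by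
    let _ := (Polynomial.eval₂RingHom φ u).toAlgebra
    have : Module.Finite R[X] St := hfin
    obtain ⟨n, s, hs⟩ := Module.Finite.exists_fin (R := R[X]) (M := St)
    refine ⟨n, s, fun z => ?_⟩
    have hz : z ∈ Submodule.span R[X] (Set.range s) := hs ▸ Submodule.mem_top
    exact (Submodule.mem_span_range_iff_exists_fun R[X]).1 hz
  choose d hd using fun i => DegLT.exists_of_integral (hfin.to_isIntegral (Q * s i))
  obtain ⟨n0, hn0⟩ : ∃ n0, ∀ i, DegLT φ u (Q * s i) n0 :=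
    ⟨Finset.univ.sup d, fun i => (hd i).mono (Finset.le_sup (f := d) (Finset.mem_univ i))⟩
  let π : (Fin n0 × Fin n → R) → St := fun c => ∑ j, φ (c j) * (u ^ (j.1 : ℕ) * (Q * s j.2))
  have πadd : ∀ c c', π (c + c') = π c + π c' := fun c c' => by
    simp only [π, Pi.add_apply, map_add, add_mul, Finset.sum_add_distrib]
  have πsmul : ∀ (r : R) c, π (r • c) = φ r * π c := fun r c => by
    simp only [π, Pi.smul_apply, smul_eq_mul, map_mul, Finset.mul_sum, mul_assoc]
  have πzero : π 0 = 0 := by simp [π]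
  let D : ℕ → Submodule R (Fin n0 × Fin n → R) := fun M =>
    { carrier := {c | ∃ w ∈ Ideal.span {Q} * Ideal.span {u, Q} ^ M,
        DegLT φ u (u ^ M * π c - u ^ n0 * w) (M + n0)}
      add_mem' := by
        rintro c c' ⟨w, hw, h⟩ ⟨w', hw', h'⟩
        refine ⟨w + w', add_mem hw hw', ?_⟩
        convert h.add h' using 1
        rw [πadd]; ring
      zero_mem' := ⟨0, zero_mem _, by
        convert degLT_zero φ u (M + n0) using 1
        rw [πzero]; ring⟩
      smul_mem' := by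
        rintro r c ⟨w, hw, h⟩
        refine ⟨φ r * w, Ideal.mul_mem_left _ _ hw, ?_⟩
        convert h.const_mul r using 1
        rw [πsmul]; ring }
  have hu1 : u ∈ Ideal.span {u, Q} := Ideal.subset_span (by simp)
  have hQ1 : Q ∈ Ideal.span {u, Q} := Ideal.subset_span (by simp)
  have hup : ∀ (M e : ℕ) (w : St), w ∈ Ideal.span {Q} * Ideal.span {u, Q} ^ M →
      u ^ e * w ∈ Ideal.span {Q} * Ideal.span {u, Q} ^ (M + e) := fun M e w hw => by
    rw [pow_add, ← mul_assoc, mul_comm (u ^ e)]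
    exact Ideal.mul_mem_mul hw (Ideal.pow_mem_pow hu1 e)
  have hmono : Monotone D := by
    intro M M' hM c hc
    obtain ⟨e, rfl⟩ := Nat.exists_eq_add_of_le hM
    obtain ⟨w, hw, h⟩ := hc
    refine ⟨u ^ e * w, hup M e w hw, ?_⟩
    convert h.pow_mul e using 1
    · ring
    · omega
  obtain ⟨M0, hM0⟩ := monotone_stabilizes_iff_noetherian.2 inferInstance ⟨D, hmono⟩
  refine ⟨M0, fun a ha => ?_⟩
  obtain ⟨y, c, h⟩ := SR1_dec hs hn0 a (Q ^ a)
  have hw : Q ^ (a + 1) - u ^ a * (Q * y) ∈ Ideal.span {Q} * Ideal.span {u, Q} ^ a := by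
    refine sub_mem ?_ ?_
    · rw [pow_succ']
      exact Ideal.mul_mem_mul (Ideal.mem_span_singleton_self Q) (Ideal.pow_mem_pow hQ1 a)
    · rw [mul_comm (u ^ a)]
      exact Ideal.mul_mem_mul (Ideal.mul_mem_right _ _ (Ideal.mem_span_singleton_self Q))
        (Ideal.pow_mem_pow hu1 a)
  have hc : c ∈ D a := by
    refine ⟨_, hw, ?_⟩
    convert h.neg using 1
    simp only [π]
    ring
  have hc' : c ∈ D M0 := by
    have e : D M0 = D a := hM0 a ha.le
    rw [e]
    exact hc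
  obtain ⟨w, hw', h'⟩ := hc'
  obtain ⟨e, rfl⟩ := Nat.exists_eq_add_of_lt ha
  refine ⟨Q ^ (M0 + e + 1 + 1) - u ^ (M0 + e + 1) * (Q * y) - u ^ (e + 1) * w,
    sub_mem hw (hup M0 (e + 1) w hw'), ⟨-(u ^ (M0 + e) * (Q * y)) - u ^ e * w, by ring⟩, ?_⟩
  refine SR1_cancel (k := n0) ?_
  have h2 := (h'.pow_mul (e + 1)).mono (d' := M0 + e + 1 + n0) (by omega)
  convert h.add h2 using 1
  · simp only [π]
    ring
  · omega

theorem SR1_wins {K : Type u} [Field K] (O : ValuationSubring K) {t : K} {g lam : ℕ → K} {M0 M : ℕ}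
    (ht : O.valuation t ≠ 0) (hl : ∀ a, lam a ∈ O)
    (hg : ∀ a, M0 < a → O.valuation (g a) < O.valuation t ^ a) :
    t ^ M + ∑ a ∈ Finset.Ioc M0 M, lam a * (t ^ (M - a) * g a) ≠ 0 := by
  intro h
  have h1 : O.valuation (∑ a ∈ Finset.Ioc M0 M, lam a * (t ^ (M - a) * g a)) <
      O.valuation t ^ M := by
    refine O.valuation.map_sum_lt (pow_ne_zero _ ht) fun a ha => ?_
    obtain ⟨h2, h3⟩ := Finset.mem_Ioc.1 ha
    rw [map_mul, map_mul, map_pow]
    calc _ ≤ 1 * (O.valuation t ^ (M - a) * O.valuation (g a)) :=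
          mul_le_mul_left ((O.valuation_le_one_iff _).2 (hl a)) _
      _ < O.valuation t ^ (M - a) * O.valuation t ^ a := by
          rw [one_mul]
          exact mul_lt_mul_of_pos_left (hg a h2) (pow_pos (zero_lt_iff.2 ht) _)
      _ = _ := by rw [← pow_add, Nat.sub_add_cancel h3]
  rw [eq_neg_of_add_eq_zero_right h, Valuation.map_neg, map_pow] at h1
  exact lt_irrefl _ h1

theorem SR1_mul {K : Type u} [Field K] (O : ValuationSubring K) (x : St →+* K) {I J : Ideal St}
    {c d : O.ValueGroup} (hI : ∀ y ∈ I, O.valuation (x y) ≤ c) (hJ : ∀ y ∈ J, O.valuation (x y) ≤ d) :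
    ∀ y ∈ I * J, O.valuation (x y) ≤ c * d := by
  intro y hy
  refine Submodule.mul_induction_on hy (fun p hp q hq => ?_) fun p q hp hq => ?_
  · rw [map_mul, map_mul]
    exact mul_le_mul' (hI p hp) (hJ q hq)
  · rw [map_add]
    exact O.valuation.map_add_le hp hq

theorem SR1_bound {K : Type u} [Field K] (O : ValuationSubring K) (x : St →+* K)
    (hx : ∀ y, x y ∈ O) {u Q : St} (h : O.valuation (x Q) ≤ O.valuation (x u)) (a : ℕ) :
    ∀ y ∈ Ideal.span {Q} * Ideal.span {u, Q} ^ a,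
      O.valuation (x y) ≤ O.valuation (x Q) * O.valuation (x u) ^ a := by
  have h0 : ∀ r y, O.valuation (x (r * y)) ≤ O.valuation (x y) := fun r y => by
    rw [map_mul, map_mul]
    exact mul_le_of_le_one_left' ((O.valuation_le_one_iff _).2 (hx r))
  refine SR1_mul O x (fun y hy => ?_) ?_
  · obtain ⟨r, rfl⟩ := Ideal.mem_span_singleton'.1 hy
    exact h0 r Q
  · induction a with
    | zero =>
      intro y _
      rw [pow_zero]
      exact (O.valuation_le_one_iff _).2 (hx y)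
    | succ a ih =>
      rw [pow_succ, pow_succ]
      refine SR1_mul O x ih fun y hy => ?_
      obtain ⟨r, r', rfl⟩ := Ideal.mem_span_pair.1 hy
      rw [map_add]
      exact O.valuation.map_add_le (h0 r u) ((h0 r' Q).trans h)

theorem sr_family [IsNoetherianRing R] {φ : R →+* E} {u : E} (hu : Et1 φ u) {s0 : E →+* R}
    (hs : s0.comp φ = RingHom.id R) (hk : RingHom.ker s0 = Ideal.span {u}) :
    ∃ (Q : E) (M0 : ℕ) (G : ℕ → E), s0 Q = 1 ∧ (∀ a, s0 (G a) = 1) ∧
      ∀ (M : ℕ) (K : Type u) [Field K] (O : ValuationSubring K) (x : E →+* K) (lam : ℕ → K),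
        (∀ r, x (φ r) ∈ O) → (∀ a, lam a ∈ O) → x Q ≠ 0 →
        x u ^ M + ∑ a ∈ Finset.Ioc M0 M, lam a * (x u ^ (M - a) * x (G a)) = 0 →
        (x Q)⁻¹ ∈ O ∧ ∀ y, x y ∈ O := by
  classical
  have hs' : ∀ r, s0 (φ r) = r := fun r => RingHom.congr_fun hs r
  have hfm : FinMod (Polynomial.eval₂RingHom φ u) (Ideal.span {u}) := by
    refine RingHom.Finite.of_surjective _ fun y => ?_
    obtain ⟨y, rfl⟩ := Ideal.Quotient.mk_surjective y
    refine ⟨C (s0 y), ?_⟩
    rw [RingHom.comp_apply, coe_eval₂RingHom, eval₂_C, Ideal.Quotient.eq, ← hk, RingHom.mem_ker,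
      map_sub, hs', sub_self]
  obtain ⟨St, _, φ0, ι, Q0, w, hfin, hinj, hQ0, hloc⟩ := zmt_etale hu _ hfm
  have w' : ∀ p, ι (φ0 p) = p.eval₂ φ u := fun p => RingHom.congr_fun w p
  have wu : ι (φ0 X) = u := by rw [w', eval₂_X]
  have wr : ∀ r, ι (φ0 (C r)) = φ r := fun r => by rw [w', eval₂_C]
  have e0 : Polynomial.eval₂RingHom (φ0.comp C) (φ0 X) = φ0 := by
    refine Polynomial.ringHom_ext (fun r => ?_) ?_
    · rw [coe_eval₂RingHom, eval₂_C, RingHom.comp_apply]
    · rw [coe_eval₂RingHom, eval₂_X]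
  have hsu : s0 u = 0 := by
    rw [← RingHom.mem_ker, hk]
    exact Ideal.mem_span_singleton_self u
  have hsQ : s0 (ι Q0) = 1 := by
    rw [← hk, RingHom.mem_ker, map_sub, map_one, sub_eq_zero] at hQ0
    exact hQ0
  obtain ⟨e, he⟩ := Ideal.mem_span_singleton'.1 hQ0
  obtain ⟨n, z0, hz0⟩ := hloc e
  have hz1 : Q0 ^ n * (Q0 - 1) = z0 * φ0 X := by
    refine hinj ?_
    rw [map_mul, map_mul, map_pow, map_sub, map_one, wu, ← he, ← hz0, mul_assoc]
  have hreg : ∀ y, φ0 X * y = 0 → y = 0 := fun y hy => by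
    refine hinj ?_
    rw [map_zero]
    refine hu.monic_regular monic_X ?_
    rw [eval₂_X, ← wu, ← map_mul, hy, map_zero]
  obtain ⟨M0, hM0⟩ := sr_chain (φ := φ0.comp C) (u := φ0 X) (Q := Q0 ^ (n + 1))
    (by rw [e0]; exact hfin) hreg
  choose! G hG1 hG2 hG3 using hM0
  refine ⟨ι (Q0 ^ (n + 1)), M0, fun a => if M0 < a then ι (G a) else 1, ?_, fun a => ?_, ?_⟩
  · rw [map_pow, map_pow, hsQ, one_pow]
  · beta_reduce
    split_ifs with ha
    · obtain ⟨y, hy⟩ := hG2 a ha
      rw [sub_eq_iff_eq_add.1 hy]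
      simp only [map_add, map_mul, map_pow, wu, hsu, hsQ, zero_mul, one_pow, zero_add]
    · exact map_one s0
  intro M K _ O x lam hx hlam hQ heq
  have hxu : x u ∈ O := by
    by_contra hxu
    refine SR1_wins O (SR1_ne_zero O hxu) hlam (fun a ha => ?_) heq
    have h1 := hG3 a ha K O (x.comp ι) (fun r => by
      rw [RingHom.comp_apply, RingHom.comp_apply, wr]; exact hx r)
      (by rw [RingHom.comp_apply, wu]; exact hxu)
    rw [RingHom.comp_apply, RingHom.comp_apply, wu] at h1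
    beta_reduce
    rw [if_pos ha]
    exact h1
  have hSt : ∀ y, (x.comp ι) y ∈ O := fun y =>
    mem_of_isIntegralElem (hfin.to_isIntegral y) O (x.comp ι) fun p => by
      rw [RingHom.comp_apply, w']
      exact eval₂_mem O x hx hxu p
  have hle : ∀ y, O.valuation (x (ι y)) ≤ 1 := fun y => (O.valuation_le_one_iff _).2 (hSt y)
  have hv : O.valuation (x (ι Q0)) = 1 := by
    by_contra hne
    have hlt : O.valuation (x (ι Q0)) < 1 := lt_of_le_of_ne (hle Q0) hne
    have h1 : O.valuation (x (ι Q0) - 1) = 1 := by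
      rw [← Valuation.map_neg, neg_sub]
      exact O.valuation.map_one_sub_of_lt hlt
    have h2 : O.valuation (x (ι Q0)) ^ n = O.valuation (x (ι z0)) * O.valuation (x u) := by
      have h3 := congrArg (fun y => O.valuation (x (ι y))) hz1
      simpa only [map_mul, map_pow, map_sub, map_one, h1, mul_one, wu] using h3
    have h3 : O.valuation (x (ι (Q0 ^ (n + 1)))) ≤ O.valuation (x u) := by
      rw [map_pow, map_pow, map_pow, pow_succ, h2]
      exact (mul_le_of_le_one_right' hlt.le).trans (mul_le_of_le_one_left' (hle z0))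
    have h4 : O.valuation (x (ι (Q0 ^ (n + 1)))) < 1 := by
      rw [map_pow, map_pow, map_pow]
      exact pow_lt_one₀ zero_le hlt n.succ_ne_zero
    have h5 : O.valuation (x u) ≠ 0 := fun h0 => by
      rw [h0, le_zero_iff] at h3
      exact hQ (O.valuation.zero_iff.1 h3)
    refine SR1_wins O h5 hlam (fun a ha => ?_) heq
    have h6 := SR1_bound O (x.comp ι) hSt (u := φ0 X) (Q := Q0 ^ (n + 1))
      (by rw [RingHom.comp_apply, RingHom.comp_apply, wu]; exact h3) a (G a) (hG1 a ha)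
    rw [RingHom.comp_apply, RingHom.comp_apply, RingHom.comp_apply, wu] at h6
    beta_reduce
    rw [if_pos ha]
    refine h6.trans_lt ?_
    exact mul_lt_of_lt_one_left (pow_pos (zero_lt_iff.2 h5) a) h4
  refine ⟨?_, fun y => ?_⟩
  · rw [← O.valuation_le_one_iff, map_inv₀, map_pow, map_pow, map_pow, hv, one_pow, inv_one]
  · obtain ⟨k, z, hz⟩ := hloc y
    have h1 := hle z
    rw [← hz, map_mul, map_mul, map_pow, map_pow, hv, one_pow, one_mul] at h1
    exact (O.valuation_le_one_iff _).1 h1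

end KEW
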