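import Pool.Agent.P.MP_6277db_ag.KEW.CA.SR2a
import Pool.Agent.P.MP_6277db_ag.KEW.CA.FP3
import Pool.Agent.P.MP_6277db_ag.KEW.CA.Jac

/-!
KEW L4.2, second half: solving `Φ_λ ≡ 0` on `V((u - a) q^m)`.
Hints.  `M = m e0 + 1`.  `R1 = MvPolynomial (Fin M) R`, variable `k < M - e0` is `λ_(M-k)`, variable
`M - e0 + j` is `c_j`; `q = X^e0 + Σ c_j X^j`, `ω = (X - a) q^m` monic of degree `M`, `D = AdjoinRoot ω`,
`I1 = I R1 + (z)`, `J = I1 D + (root)`, `D ⧸ J = R ⧸ I`.  `HL` (for `C = R[X] → E`, section given by `s0`) gives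
`B ∈ EE(R1, I1)` and `θ : E → B[X]/ω`.  Let `f_k ∈ B` be the coordinates of `θ Φ` (`AdjoinRoot.modByMonicHom`,
`AdjoinRoot.mk_leftInverse`), `J1 = ker e = I B + (z)`, `J2 = I B + J1^2`.  `θ (G a) = mk (1 + X H_a) + J1 D`;
`X^M - ω ≡ - m X^(M-e0) c(X)` mod `J2`; for `p` with coefficients in `J1`, `p %ₘ ω ≡ p` mod `J2` in degrees `< M`
(reduce everything modulo `J2`: there `ω = X^M + w`, `J1 w = 0`).  So `f_k ≡ coeff_k (Σ λ_a X^(M-a) (1 + X H_a) - m X^(M-e0) c)`,
which is triangular: induction on `k` gives `z_k ∈ (f) + J2` (`sr_triangular`).  `IFT` gives `ψ : B → R'`; push `θ` along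
`AdjoinRoot.map ψ`.
`sr_ker`: `Y = ψ R[u] + u^M Y`, so `ker θ ⊆ (u^M) + I Y = (Φ) + I Y`; `Y ⧸ Φ → D` is a surjection of finite modules
onto a free module, it splits, so its kernel `K` is finite with `K = I K`; Nakayama.
-/

namespace KEW

universe u

open Polynomial

variable {R E Y : Type u} [CommRing R] [CommRing E] [CommRing Y]

/-- The universal monic polynomial of degree `e0`. -/
noncomputable def SR2_c (e0 M : ℕ) (z : ℕ → R) : R[X] :=
  ∑ j ∈ Finset.range e0, C (z (M - e0 + j)) * X ^ j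

theorem SR2_c_map (e0 M : ℕ) (z : ℕ → R) (f : R →+* Y) :
    (SR2_c e0 M z).map f = SR2_c e0 M (fun i => f (z i)) := by
  simp [SR2_c, Polynomial.map_sum]

theorem SR2_c_degree (e0 M : ℕ) (z : ℕ → R) : (SR2_c e0 M z).degree < e0 := by
  unfold SR2_c
  refine (Polynomial.degree_sum_le _ _).trans_lt ?_
  refine (Finset.sup_lt_iff (WithBot.bot_lt_coe e0)).mpr fun j hj => ?_
  exact (Polynomial.degree_C_mul_X_pow_le j _).trans_lt
    (WithBot.coe_lt_coe.mpr (Finset.mem_range.mp hj))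

theorem SR2_c_coeff (e0 M : ℕ) (z : ℕ → R) {j : ℕ} (hj : j < e0) :
    (SR2_c e0 M z).coeff j = z (M - e0 + j) := by
  unfold SR2_c
  rw [Polynomial.finsetSum_coeff, Finset.sum_eq_single j]
  · simp
  · intro b _ hb
    simp [Polynomial.coeff_X_pow, hb.symm]
  · intro h
    exact absurd (Finset.mem_range.mpr hj) h

theorem SR2_c_mem (e0 M : ℕ) {z : ℕ → R} {J : Ideal R} (hz : ∀ i, z i ∈ J) :
    SR2_c e0 M z ∈ J.map (C : R →+* R[X]) :=
  Ideal.sum_mem _ fun _ _ => Ideal.mul_mem_right _ _ (Ideal.mem_map_of_mem _ (hz _))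

theorem SR2_monic (e0 M : ℕ) (z : ℕ → R) : (X ^ e0 + SR2_c e0 M z).Monic :=
  Polynomial.monic_X_pow_add (SR2_c_degree e0 M z)

theorem SR2_add_pow {x c : R} (hc : c * c = 0) (n : ℕ) :
    (x + c) ^ (n + 1) = x ^ (n + 1) + (n + 1 : ℕ) * x ^ n * c := by
  induction n with
  | zero => simp
  | succ n ih =>
    rw [pow_succ, ih]
    push_cast
    linear_combination ((n : R) + 1) * x ^ n * hc

theorem SR2_core {J : Ideal R} (hJ : J * J = ⊥) {m : ℕ} (hm0 : 0 < m)
    (hm : ∃ c : R, c * m - 1 ∈ J) (e0 : ℕ) (z : ℕ → R) (hz : ∀ i, z i ∈ J) (H : ℕ → R[X])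
    (hd : X * (X ^ e0 + SR2_c e0 (m * e0 + 1) z) ^ m ∣ X ^ (m * e0 + 1) +
      ∑ k ∈ Finset.Ioc e0 (m * e0 + 1), C (z (m * e0 + 1 - k)) *
        (X ^ (m * e0 + 1 - k) * (1 + X * H k))) {i : ℕ} (hi : i < m * e0 + 1) : z i = 0 := by
  obtain ⟨n, rfl⟩ : ∃ n, m = n + 1 := ⟨m - 1, by omega⟩
  set M := (n + 1) * e0 + 1 with hM
  have hMe : M - e0 = n * e0 + 1 := by
    rw [hM, add_mul, one_mul]; omega
  have hJC : ∀ p q : R[X], p ∈ J.map (C : R →+* R[X]) → q ∈ J.map (C : R →+* R[X]) → p * q = 0 := by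
    intro p q hp hq
    have := Ideal.mul_mem_mul hp hq
    rwa [← Ideal.map_mul, hJ, Ideal.map_bot, Ideal.mem_bot] at this
  set c := SR2_c e0 M z with hc
  have hcJ : c ∈ J.map (C : R →+* R[X]) := SR2_c_mem e0 M hz
  set w : R[X] := ((n + 1 : ℕ) : R[X]) * X ^ (n * e0 + 1) * c with hw
  have hwJ : w ∈ J.map (C : R →+* R[X]) := Ideal.mul_mem_left _ _ hcJ
  have hω : X * (X ^ e0 + c) ^ (n + 1) = X ^ M + w := by
    rw [SR2_add_pow (hJC c c hcJ hcJ), hw, hM]
    ring
  set Λ : R[X] := ∑ k ∈ Finset.Ioc e0 M, C (z (M - k)) * (X ^ (M - k) * (1 + X * H k)) with hΛ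
  have hΛJ : Λ ∈ J.map (C : R →+* R[X]) :=
    Ideal.sum_mem _ fun _ _ => Ideal.mul_mem_right _ _ (Ideal.mem_map_of_mem _ (hz _))
  rw [hω] at hd
  obtain ⟨T, hT⟩ := hd
  have hT1 : Λ - w = (X ^ M + w) * (T - 1) := by linear_combination hT
  have hTJ : T - 1 ∈ J.map (C : R →+* R[X]) := by
    have h1 : X ^ M * (T - 1) ∈ J.map (C : R →+* R[X]) := by
      have : X ^ M * (T - 1) = Λ - w - w * (T - 1) := by linear_combination -hT1
      rw [this]
      exact Ideal.sub_mem _ (Ideal.sub_mem _ hΛJ hwJ) (Ideal.mul_mem_right _ _ hwJ)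
    rw [Ideal.mem_map_C_iff] at h1 ⊢
    intro k
    have := h1 (k + M)
    rwa [Polynomial.coeff_X_pow_mul] at this
  have hT2 : Λ - w = X ^ M * (T - 1) := by
    rw [hT1, add_mul, hJC w _ hwJ hTJ, add_zero]
  have hco : ∀ k, k < M → Λ.coeff k = w.coeff k := by
    intro k hk
    have : (Λ - w).coeff k = 0 := by
      rw [hT2, Polynomial.coeff_X_pow_mul', if_neg (by omega)]
    rwa [Polynomial.coeff_sub, sub_eq_zero] at this
  have hw' : w = X ^ (n * e0 + 1) * (C ((n + 1 : ℕ) : R) * c) := by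
    rw [hw, map_natCast]; ring
  have hlam : ∀ i, i < n * e0 + 1 → z i = 0 := by
    intro i
    induction i using Nat.strong_induction_on with
    | _ i ih =>
      intro hi
      have hiM : i < M := by omega
      have h1 := hco i hiM
      rw [hw', Polynomial.coeff_X_pow_mul', if_neg (by omega), hΛ, Polynomial.finsetSum_coeff,
        Finset.sum_eq_single (M - i)] at h1
      · have e1 : M - (M - i) = i := by omega
        rw [e1, Polynomial.coeff_C_mul, Polynomial.coeff_X_pow_mul', if_pos le_rfl] at h1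
        simpa using h1
      · intro k hk hne
        rw [Finset.mem_Ioc] at hk
        rw [Polynomial.coeff_C_mul, Polynomial.coeff_X_pow_mul']
        split_ifs with h
        · rw [ih (M - k) (by omega) (by omega), zero_mul]
        · rw [mul_zero]
      · intro h
        exact absurd (Finset.mem_Ioc.mpr ⟨by omega, by omega⟩) h
  by_cases hi' : i < n * e0 + 1
  · exact hlam i hi'
  · have hΛ0 : Λ = 0 := by
      refine Finset.sum_eq_zero fun k hk => ?_
      rw [Finset.mem_Ioc] at hk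
      rw [hlam (M - k) (by omega), map_zero, zero_mul]
    have h1 := hco i hi
    have hj : i - (n * e0 + 1) < e0 := by omega
    rw [hΛ0, hw', Polynomial.coeff_X_pow_mul', if_pos (by omega), Polynomial.coeff_C_mul,
      hc, SR2_c_coeff e0 M z hj, Polynomial.coeff_zero] at h1
    have e1 : M - e0 + (i - (n * e0 + 1)) = i := by omega
    rw [e1] at h1
    obtain ⟨d, hd⟩ := hm
    have h2 : (d * ((n + 1 : ℕ) : R) - 1) * z i = 0 := by
      have := Ideal.mul_mem_mul hd (hz i)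
      rwa [hJ, Ideal.mem_bot] at this
    linear_combination -h2 - d * h1

theorem SR2_om_map (e0 M m : ℕ) (a : R) (z : ℕ → R) (f : R →+* Y) :
    ((X - C a) * (X ^ e0 + SR2_c e0 M z) ^ m).map f =
      (X - C (f a)) * (X ^ e0 + SR2_c e0 M (fun i => f (z i))) ^ m := by
  simp [SR2_c_map]

theorem SR2_map_mk {p : R[X]} {q : Y[X]} (f : R →+* Y) (h : q ∣ p.map f) (r : R[X]) :
    AdjoinRoot.map f p q h (AdjoinRoot.mk p r) = AdjoinRoot.mk q (r.map f) := by
  have : (AdjoinRoot.map f p q h).comp (AdjoinRoot.mk p) =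
      (AdjoinRoot.mk q).comp (Polynomial.mapRingHom f) := by
    refine Polynomial.ringHom_ext (fun r => ?_) ?_
    · simp [AdjoinRoot.mk_C]
    · simp [AdjoinRoot.mk_X]
  exact RingHom.congr_fun this r

theorem SR2_map_ideal {p : R[X]} {q : Y[X]} (f : R →+* Y) (h : q ∣ p.map f) {J : Ideal R}
    {J' : Ideal Y} (hJ : ∀ x ∈ J, f x ∈ J') :
    (J.map (AdjoinRoot.of p) ⊔ Ideal.span {AdjoinRoot.root p}).map (AdjoinRoot.map f p q h) ≤
      J'.map (AdjoinRoot.of q) ⊔ Ideal.span {AdjoinRoot.root q} := by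
  rw [Ideal.map_sup, Ideal.map_map, Ideal.map_span, Set.image_singleton, AdjoinRoot.map_root]
  refine sup_le_sup_right ?_ _
  rw [Ideal.map_le_iff_le_comap]
  intro x hx
  rw [Ideal.mem_comap, RingHom.comp_apply, AdjoinRoot.map_of]
  exact Ideal.mem_map_of_mem _ (hJ x hx)

theorem SR2_rep {p : R[X]} {J : Ideal R} {y : AdjoinRoot p}
    (hy : y - 1 ∈ J.map (AdjoinRoot.of p) ⊔ Ideal.span {AdjoinRoot.root p}) :
    ∃ H P : R[X], P ∈ J.map (C : R →+* R[X]) ∧ y = AdjoinRoot.mk p (1 + X * H + P) := by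
  obtain ⟨y1, h1, y2, h2, h⟩ := Submodule.mem_sup.mp hy
  have e : J.map (AdjoinRoot.of p) = (J.map (C : R →+* R[X])).map (AdjoinRoot.mk p) := by
    rw [Ideal.map_map]; rfl
  rw [e, Ideal.mem_map_iff_of_surjective _ AdjoinRoot.mk_surjective] at h1
  obtain ⟨P, hP, rfl⟩ := h1
  obtain ⟨t, rfl⟩ := Ideal.mem_span_singleton'.mp h2
  obtain ⟨H, rfl⟩ := AdjoinRoot.mk_surjective t
  refine ⟨H, P, hP, ?_⟩
  rw [map_add, map_add, map_mul, map_one, AdjoinRoot.mk_X]
  linear_combination -h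

theorem sr_solve {φ : R →+* E} {u : E} (hu : Et1 φ u) {s0 : E →+* R}
    (hs : s0.comp φ = RingHom.id R) (h0 : s0 u = 0) (I : Ideal R) {m : ℕ} (hm0 : 0 < m)
    (hm : ∃ c : R, c * m - 1 ∈ I) {a : R} (ha : a ∈ I) (e0 : ℕ) (G : ℕ → E)
    (hG : ∀ k, s0 (G k) = 1) :
    ∃ (R' : Type u) (_ : CommRing R') (ρ : R →+* R') (lam : ℕ → R') (q : R'[X])
      (θ : E →+* AdjoinRoot ((X - C (ρ a)) * q ^ m)), EE I ρ ∧ (∀ k, lam k ∈ I.map ρ) ∧ q.Monic ∧
      q - X ^ e0 ∈ (I.map ρ).map (C : R' →+* R'[X]) ∧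
      θ.comp φ = (AdjoinRoot.of _).comp ρ ∧ θ u = AdjoinRoot.root _ ∧
      (∀ y, θ y - AdjoinRoot.of _ (ρ (s0 y)) ∈
        (I.map ρ).map (AdjoinRoot.of ((X - C (ρ a)) * q ^ m)) ⊔ Ideal.span {AdjoinRoot.root _}) ∧
      θ u ^ (m * e0 + 1) + ∑ k ∈ Finset.Ioc e0 (m * e0 + 1),
        AdjoinRoot.of _ (lam k) * (θ u ^ (m * e0 + 1 - k) * θ (G k)) = 0 := by
  classical
  set M := m * e0 + 1 with hM
  let R1 := MvPolynomial (Fin M) R
  let c1 : R →+* R1 := MvPolynomial.C
  let z1 : ℕ → R1 := fun i => if h : i < M then MvPolynomial.X ⟨i, h⟩ else 0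
  let e1 : R1 →+* R ⧸ I := MvPolynomial.eval₂Hom (Ideal.Quotient.mk I) (fun _ => 0)
  have he1c : ∀ r, e1 (c1 r) = Ideal.Quotient.mk I r := fun r => MvPolynomial.eval₂Hom_C _ _ r
  have he1z : ∀ i, e1 (z1 i) = 0 := by
    intro i
    by_cases h : i < M
    · simp only [z1, dif_pos h]
      exact MvPolynomial.eval₂Hom_X' _ _ _
    · simp only [z1, dif_neg h, map_zero]
  have ha0 : Ideal.Quotient.mk I a = 0 := Ideal.Quotient.eq_zero_iff_mem.mpr ha
  -- the reduction of `ω` at a point killing `a` and the `z`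
  have hred : ∀ {B Z : Type u} [CommRing B] [CommRing Z] (f : B →+* Z) (b : B) (z : ℕ → B),
      f b = 0 → (∀ i, f (z i) = 0) →
      ((X - C b) * (X ^ e0 + SR2_c e0 M z) ^ m).map f = X ^ M := by
    intro B Z _ _ f b z hb hz
    rw [SR2_om_map, hb]
    have : SR2_c e0 M (fun i => f (z i)) = 0 := by
      simp [SR2_c, hz]
    rw [this, hM]
    simp only [map_zero, sub_zero, add_zero]
    ring
  have hmon : ∀ {B : Type u} [CommRing B] (b : B) (z : ℕ → B),
      ((X - C b) * (X ^ e0 + SR2_c e0 M z) ^ m).Monic := fun b z =>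
    (Polynomial.monic_X_sub_C b).mul ((SR2_monic e0 M z).pow m)
  set ω1 : R1[X] := (X - C (c1 a)) * (X ^ e0 + SR2_c e0 M z1) ^ m with hω1
  let J : Ideal (AdjoinRoot ω1) :=
    (RingHom.ker e1).map (AdjoinRoot.of ω1) ⊔ Ideal.span {AdjoinRoot.root ω1}
  have hJ : J ≤ ((RingHom.ker e1).map (AdjoinRoot.of ω1)).radical := by
    refine sup_le Ideal.le_radical ?_
    rw [Ideal.span_le, Set.singleton_subset_iff]
    refine ⟨M, ?_⟩
    have h1 : X ^ M - ω1 ∈ (RingHom.ker e1).map (C : R1 →+* R1[X]) := by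
      rw [← Polynomial.ker_mapRingHom, RingHom.mem_ker, Polynomial.coe_mapRingHom,
        Polynomial.map_sub, hred e1 _ _ (by rw [he1c, ha0]) he1z]
      simp
    have h2 := Ideal.mem_map_of_mem (AdjoinRoot.mk ω1) h1
    rw [Ideal.map_map, map_sub, AdjoinRoot.mk_self, sub_zero, map_pow, AdjoinRoot.mk_X] at h2
    exact h2
  obtain ⟨B, _, ρ1, hρ1, hB⟩ := HL (finite_adjoinRoot_of (hmon (c1 a) z1)) (RingHom.ker e1) hJ hu
    (Polynomial.eval₂RingHom ((AdjoinRoot.of ω1).comp c1) (AdjoinRoot.root ω1))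
    ((Ideal.Quotient.mk J).comp (((AdjoinRoot.of ω1).comp c1).comp s0)) (by
      refine Polynomial.ringHom_ext (fun r => ?_) ?_
      · have : s0 (φ r) = r := RingHom.congr_fun hs r
        simp [this]
      · have : Ideal.Quotient.mk J (AdjoinRoot.root ω1) = 0 :=
          Ideal.Quotient.eq_zero_iff_mem.mpr
            (Ideal.mem_sup_right (Ideal.mem_span_singleton_self _))
        simp [h0, this])
  obtain ⟨e, he, hker⟩ := hρ1.point
  let zB : ℕ → B := fun i => ρ1 (z1 i)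
  let φB : R →+* B := ρ1.comp c1
  have heφ : e.comp φB = Ideal.Quotient.mk I := by
    ext r
    have := RingHom.congr_fun he (c1 r)
    rw [RingHom.comp_apply, he1c] at this
    exact this
  have hez : ∀ i, e (zB i) = 0 := fun i => (RingHom.congr_fun he (z1 i)).trans (he1z i)
  set ωB : B[X] := (X - C (φB a)) * (X ^ e0 + SR2_c e0 M zB) ^ m with hωB
  have hdB : ωB ∣ ω1.map ρ1 := by rw [hω1, SR2_om_map]; rfl
  obtain ⟨θ1, hθ1, hθ1'⟩ := hB (AdjoinRoot ωB) (AdjoinRoot.map ρ1 ω1 ωB hdB) (AdjoinRoot.of ωB)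
    (RingHom.ext fun r => AdjoinRoot.map_of ρ1 ω1 ωB hdB r)
  have hθφ : ∀ r, θ1 (φ r) = AdjoinRoot.of ωB (φB r) := by
    intro r
    have := RingHom.congr_fun hθ1 (C r)
    simpa [φB] using this
  have hθu : θ1 u = AdjoinRoot.root ωB := by
    have := RingHom.congr_fun hθ1 X
    simpa using this
  have hθc : ∀ y, θ1 y - AdjoinRoot.of ωB (φB (s0 y)) ∈
      (RingHom.ker e).map (AdjoinRoot.of ωB) ⊔ Ideal.span {AdjoinRoot.root ωB} := by
    intro y
    have h1 := hθ1' y (AdjoinRoot.of ω1 (c1 (s0 y))) rfl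
    rw [AdjoinRoot.map_of] at h1
    refine SR2_map_ideal ρ1 hdB (fun x hx => ?_) h1
    rw [hker]
    exact Ideal.mem_map_of_mem _ hx
  have hGr : ∀ k, ∃ H P : B[X], P ∈ (RingHom.ker e).map (C : B →+* B[X]) ∧
      θ1 (G k) = AdjoinRoot.mk ωB (1 + X * H + P) := by
    intro k
    have := hθc (G k)
    rw [hG k, map_one, map_one] at this
    exact SR2_rep this
  choose H P hP hHP using hGr
  set Φ : B[X] := X ^ M + ∑ k ∈ Finset.Ioc e0 M,
    C (zB (M - k)) * (X ^ (M - k) * (1 + X * H k + P k)) with hΦ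
  have hωBm : ωB.Monic := hmon _ _
  let f : Fin M → B := fun k => (Φ %ₘ ωB).coeff k
  have hfco : ∀ {Z : Type u} [CommRing Z] (g : B →+* Z), (∀ k, g (f k) = 0) →
      (Φ %ₘ ωB).map g = 0 := by
    intro Z _ g hg
    ext k
    rw [Polynomial.coeff_map, Polynomial.coeff_zero]
    by_cases hk : k < M
    · exact hg ⟨k, hk⟩
    · rcases subsingleton_or_nontrivial B with hB0 | hB0
      · rw [Subsingleton.elim ((Φ %ₘ ωB).coeff k) 0, map_zero]
      · have h1 := Polynomial.degree_modByMonic_lt Φ hωBm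
        have h2 : ωB.degree ≤ M := by
          have h3 : (X ^ e0 + SR2_c e0 M zB).degree ≤ (e0 : WithBot ℕ) :=
            (Polynomial.degree_add_le _ _).trans
              (max_le (Polynomial.degree_X_pow_le _) (SR2_c_degree _ _ _).le)
          have h4 : ((X ^ e0 + SR2_c e0 M zB) ^ m).degree ≤ (m : WithBot ℕ) * e0 :=
            Polynomial.degree_pow_le_of_le m h3
          have h5 := Polynomial.degree_mul_le_of_le (Polynomial.degree_X_sub_C_le (φB a)) h4
          refine h5.trans (le_of_eq ?_)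
          rw [hM]; push_cast; rw [add_comm]
        rw [Polynomial.coeff_eq_zero_of_degree_lt, map_zero]
        exact (h1.trans_le h2).trans_le (by exact_mod_cast Nat.le_of_not_lt hk)
  have hef : ∀ k, e (f k) = 0 := by
    intro k
    have h1 : (Φ %ₘ ωB).map e = 0 := by
      rw [Polynomial.map_modByMonic e hωBm, hωB,
        hred e _ _ ((RingHom.congr_fun heφ a).trans ha0) hez, hΦ]
      simp [Polynomial.map_sum, hez]
    have := congrArg (fun p => Polynomial.coeff p k) h1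
    simpa using this
  have hEt : EtN φB (fun k : Fin M => ρ1 (MvPolynomial.X k)) := (etN_X (Fin M)).comp hρ1.etale
  have hzf : ∀ k : Fin M, ρ1 (MvPolynomial.X k) ∈
      Ideal.span (Set.range f) ⊔ RingHom.ker e ^ 2 ⊔ I.map φB := by
    intro k
    set N : Ideal B := Ideal.span (Set.range f) ⊔ RingHom.ker e ^ 2 ⊔ I.map φB with hN
    let π : B →+* B ⧸ N := Ideal.Quotient.mk N
    have hπf : ∀ k, π (f k) = 0 := fun k => Ideal.Quotient.eq_zero_iff_mem.mpr
      (Ideal.mem_sup_left (Ideal.mem_sup_left (Ideal.subset_span ⟨k, rfl⟩)))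
    have hπI : ∀ r ∈ I, π (φB r) = 0 := fun r hr => Ideal.Quotient.eq_zero_iff_mem.mpr
      (Ideal.mem_sup_right (Ideal.mem_map_of_mem _ hr))
    have hJJ : (RingHom.ker e).map π * (RingHom.ker e).map π = ⊥ := by
      rw [← Ideal.map_mul, ← pow_two, Ideal.map_eq_bot_iff_le_ker, Ideal.mk_ker]
      exact le_sup_right.trans le_sup_left
    have hzJ : ∀ i, π (zB i) ∈ (RingHom.ker e).map π := fun i => Ideal.mem_map_of_mem _ (hez i)
    have hdvd : ωB.map π ∣ Φ.map π := by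
      rw [← Polynomial.modByMonic_eq_zero_iff_dvd (hωBm.map π),
        ← Polynomial.map_modByMonic π hωBm]
      exact hfco π hπf
    have hΦπ : Φ.map π = X ^ M + ∑ k ∈ Finset.Ioc e0 M,
        C (π (zB (M - k))) * (X ^ (M - k) * (1 + X * (H k).map π)) := by
      rw [hΦ, Polynomial.map_add, Polynomial.map_sum, Polynomial.map_pow, Polynomial.map_X]
      congr 1
      refine Finset.sum_congr rfl fun k _ => ?_
      have h1 : C (π (zB (M - k))) * (P k).map π = 0 := by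
        ext i
        rw [Polynomial.coeff_C_mul, Polynomial.coeff_map, Polynomial.coeff_zero]
        have := Ideal.mul_mem_mul (hzJ (M - k))
          (Ideal.mem_map_of_mem π (Ideal.mem_map_C_iff.mp (hP k) i))
        rwa [hJJ, Ideal.mem_bot] at this
      simp only [Polynomial.map_mul, Polynomial.map_add, Polynomial.map_pow, Polynomial.map_X,
        Polynomial.map_C, Polynomial.map_one]
      linear_combination X ^ (M - k) * h1
    rw [hΦπ, hωB, SR2_om_map, hπI a ha, map_zero, sub_zero] at hdvd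
    have hm' : ∃ c : B ⧸ N, c * m - 1 ∈ (RingHom.ker e).map π := by
      obtain ⟨c, hc⟩ := hm
      refine ⟨π (φB c), ?_⟩
      have := hπI _ hc
      rw [map_sub, map_sub, map_mul, map_mul, map_natCast, map_natCast, map_one, map_one] at this
      rw [this]
      exact Ideal.zero_mem _
    have := SR2_core hJJ hm0 hm' e0 (fun i => π (zB i)) hzJ (fun k => (H k).map π) hdvd k.2
    have e2 : zB k = ρ1 (MvPolynomial.X k) := by
      simp only [zB, z1, dif_pos k.2]
    rw [e2] at this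
    exact Ideal.Quotient.eq_zero_iff_mem.mp this
  obtain ⟨R', _, ψ, hψ, hψf, hψe⟩ := IFT hEt I e heφ hef hzf
  have hd' : (X - C ((ψ.comp φB) a)) * (X ^ e0 + SR2_c e0 M (fun i => ψ (zB i))) ^ m ∣
      ωB.map ψ := by rw [hωB, SR2_om_map]; rfl
  refine ⟨R', _, ψ.comp φB, fun k => ψ (zB (M - k)), X ^ e0 + SR2_c e0 M (fun i => ψ (zB i)),
    (AdjoinRoot.map ψ ωB _ hd').comp θ1, hψ, fun k => hψe _ (hez _), SR2_monic _ _ _, ?_, ?_, ?_,
    ?_, ?_⟩
  · rw [add_sub_cancel_left]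
    exact SR2_c_mem _ _ fun i => hψe _ (hez i)
  · ext r
    simp [hθφ]
  · simp [hθu]
  · intro y
    have h1 := SR2_map_ideal ψ hd' (J := RingHom.ker e) (J' := I.map (ψ.comp φB))
      (fun x hx => hψe x hx) (Ideal.mem_map_of_mem _ (hθc y))
    rw [map_sub, AdjoinRoot.map_of] at h1
    exact h1
  · have h1 : AdjoinRoot.mk ωB Φ = θ1 u ^ M + ∑ k ∈ Finset.Ioc e0 M,
        AdjoinRoot.of ωB (zB (M - k)) * (θ1 u ^ (M - k) * θ1 (G k)) := by
      rw [hΦ, map_add, map_sum, map_pow, AdjoinRoot.mk_X, hθu]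
      congr 1
      refine Finset.sum_congr rfl fun k _ => ?_
      rw [map_mul, map_mul, map_pow, AdjoinRoot.mk_X, AdjoinRoot.mk_C, hHP]
    have h2 : AdjoinRoot.mk ωB Φ = AdjoinRoot.mk ωB (Φ %ₘ ωB) := by
      rw [AdjoinRoot.mk_eq_mk]
      refine ⟨Φ /ₘ ωB, ?_⟩
      have := Polynomial.modByMonic_add_div Φ ωB
      linear_combination -this
    have h3 := congrArg (AdjoinRoot.map ψ ωB _ hd') h1
    rw [h2, SR2_map_mk, hfco ψ hψf, map_zero] at h3
    rw [h3]
    simp [map_sum]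

end KEW
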