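import Pool.Agent.P.MP_6277db_ag.KEW.CA.Et

/-!
KEW L4.2, second half: solving `Φ_λ ≡ 0` on `V((u - a) q^m)`.
Hints.  `M = m e0 + 1`.  `R1 = MvPolynomial (Fin M) R`, variable `k < M - e0` is `λ_(M-k)`, variable
`M - e0 + j` is `c_j`; `q = X^e0 + Σ c_j X^j`, `ω = (X - a) q^m` monic of degree `M`, `D = AdjoinRoot ω`,
`I1 = I R1 + (z)`, `J = I1 D + (root)`, `D ⧸ J = R ⧸ I`.  `HL` (for `C = R[X] → E`, section given by `s0`) gives
`B ∈ EE(R1, I1)` and `θ : E → B[X]/ω`.  Let `f_k ∈ B` be the coordinates of `θ Φ` (`AdjoinRoot.modByMonicHom`,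
`AdjoinRoot.mk_leftInverse`), `J1 = ker e = I B + (z)`, `J2 = I B + J1^2`.  `θ (G a) = mk (1 + X H_a) + J1 D`;
`X^M - ω ≡ - m X^(M-e0) c(X)` mod `J2`; for `p` with coefficients in `J1`, `p %ₘ ω ≡ p` mod `J2` in degrees `< M`
(reduce everything modulo `J2`: there `ω = X^M + w`, `J1 w = 0`).  So `f_k ≡ coeff_k (Σ λ_a X^(M-a) (1 + X H_a) - m X^(M-e0) c)`,
which is triangular: induction on `k` gives `z_k ∈ (f) + J2` (`sr_triangular`).  `IFT` gives `ψ : B → R'`; push `θ` along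
`AdjoinRoot.map ψ`.
`sr_ker`: `Y = ψ R[u] + u^M Y`, so `ker θ ⊆ (u^M) + I Y = (Φ) + I Y`; `Y ⧸ Φ → D` is a surjection of finite modules
onto a free module, it splits, so its kernel `K` is finite with `K = I K`; Nakayama.
-/

namespace KEW

universe u

open Polynomial

variable {R E Y : Type u} [CommRing R] [CommRing E] [CommRing Y]

theorem sr_triangular {n : ℕ} (N : Ideal R) (z f : Fin n → R) (A : Fin n → Fin n → R) (v : Fin n → R)
    (hf : ∀ k, f k ∈ N) (hv : ∀ k, ∃ c, c * v k - 1 ∈ N ⊔ Ideal.span (Set.range z))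
    (hsq : Ideal.span (Set.range z) ^ 2 ≤ N)
    (h : ∀ k, f k - (v k * z k + ∑ j ∈ Finset.univ.filter (· < k), A k j * z j) ∈ N) (k : Fin n) :
    z k ∈ N := by
  induction k using WellFoundedLT.induction with
  | ind k ih =>
    have h1 : ∑ j ∈ Finset.univ.filter (· < k), A k j * z j ∈ N :=
      sum_mem fun j hj => N.mul_mem_left _ (ih j (Finset.mem_filter.1 hj).2)
    have h2 := sub_mem (sub_mem (hf k) (h k)) h1
    rw [sub_sub_cancel, add_sub_cancel_right] at h2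
    obtain ⟨c, hc⟩ := hv k
    obtain ⟨a, ha, b, hb, hab⟩ := Submodule.mem_sup.1 hc
    have h3 : b * z k ∈ N := hsq (by
      rw [sq]
      exact Ideal.mul_mem_mul hb (Ideal.subset_span ⟨k, rfl⟩))
    have h4 : z k = c * (v k * z k) - a * z k - b * z k := by linear_combination z k * hab
    rw [h4]
    exact sub_mem (sub_mem (N.mul_mem_left _ h2) (N.mul_mem_right _ ha)) h3

theorem SR2a_expand {ψ : R →+* Y} {u : Y} (hu : ∀ y, ∃ r, u ∣ y - ψ r) (n : ℕ) (y : Y) :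
    ∃ (p : R[X]) (y' : Y), y = p.eval₂ ψ u + u ^ n * y' := by
  induction n with
  | zero => exact ⟨0, y, by simp⟩
  | succ n ih =>
    obtain ⟨p, y', h⟩ := ih
    obtain ⟨r, c, hc⟩ := hu y'
    refine ⟨p + X ^ n * C r, c, ?_⟩
    rw [eval₂_add, eval₂_mul, eval₂_X_pow, eval₂_C]
    linear_combination h + u ^ n * hc

theorem sr_ker {ψ : R →+* Y} {u Φ : Y} (I : Ideal R) {M : ℕ} {ω : R[X]} (hω : ω.Monic)
    (hωI : ω - X ^ M ∈ I.map (C : R →+* R[X])) (hu : ∀ y, ∃ r, u ∣ y - ψ r)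
    (hΦ : Φ - u ^ M ∈ I.map ψ) (hfin : FinMod ψ (Ideal.span {Φ})) (θ : Y →+* AdjoinRoot ω)
    (hθ : θ.comp ψ = AdjoinRoot.of ω) (hθu : θ u = AdjoinRoot.root ω) (hθΦ : θ Φ = 0) :
    ∃ w : R, w - 1 ∈ I ∧ ∀ y, θ y = 0 → Φ ∣ ψ w * y := by
  have hev : ∀ p : R[X], θ (p.eval₂ ψ u) = AdjoinRoot.mk ω p := fun p => by
    rw [hom_eval₂, hθ, hθu, ← AdjoinRoot.algebraMap_eq, ← aeval_def, AdjoinRoot.aeval_eq]
  have hker : ∀ y, θ y = 0 → y ∈ Ideal.span {Φ} ⊔ I.map ψ := fun y hy => by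
    obtain ⟨p, y', h⟩ := SR2a_expand hu M y
    obtain ⟨p', hp'⟩ := AdjoinRoot.mk_surjective (θ y')
    have h1 : ω ∣ p + X ^ M * p' := by
      rw [← AdjoinRoot.mk_eq_zero, map_add, map_mul, map_pow, AdjoinRoot.mk_X, hp', ← hev, ← hθu,
        ← map_pow, ← map_mul, ← map_add, ← h, hy]
    obtain ⟨g, hg⟩ := h1
    have h2 : (ω - X ^ M).eval₂ ψ u ∈ I.map ψ := by
      have h3 := Ideal.mem_map_of_mem (eval₂RingHom ψ u) hωI
      rw [Ideal.map_map] at h3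
      have h4 : (eval₂RingHom ψ u).comp C = ψ := RingHom.ext fun r => eval₂_C _ _
      rwa [h4] at h3
    have h5 := congrArg (eval₂ ψ u) hg
    rw [eval₂_add, eval₂_mul, eval₂_mul, eval₂_X_pow] at h5
    rw [eval₂_sub, eval₂_X_pow] at h2
    have h6 : y = (g.eval₂ ψ u - p'.eval₂ ψ u + y') * Φ + ((ω.eval₂ ψ u - u ^ M) * g.eval₂ ψ u
        - (Φ - u ^ M) * (g.eval₂ ψ u - p'.eval₂ ψ u + y')) := by linear_combination h + h5
    rw [h6]
    exact Submodule.add_mem_sup (Ideal.mul_mem_left _ _ (Ideal.mem_span_singleton_self Φ))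
      (sub_mem (Ideal.mul_mem_right _ _ h2) (Ideal.mul_mem_right _ _ hΦ))
  let _ := ψ.toAlgebra
  have hF : Module.Finite R (Y ⧸ Ideal.span {Φ}) := RingHom.finite_algebraMap.1 hfin
  let θa : Y →ₐ[R] AdjoinRoot ω :=
    { toRingHom := θ, commutes' := fun r => RingHom.congr_fun hθ r }
  let θb : (Y ⧸ Ideal.span {Φ}) →ₐ[R] AdjoinRoot ω := Ideal.Quotient.liftₐ _ θa fun a ha => by
    obtain ⟨c, rfl⟩ := Ideal.mem_span_singleton'.1 ha
    change θ (c * Φ) = 0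
    rw [map_mul, hθΦ, mul_zero]
  let σ : AdjoinRoot ω →ₗ[R] Y ⧸ Ideal.span {Φ} :=
    (Ideal.Quotient.mkₐ R (Ideal.span {Φ})).toLinearMap ∘ₗ (aeval u).toLinearMap ∘ₗ
      AdjoinRoot.modByMonicHom hω
  have hσ : ∀ d, θb (σ d) = d := fun d =>
    (hev (AdjoinRoot.modByMonicHom hω d)).trans (AdjoinRoot.mk_leftInverse hω d)
  let P : (Y ⧸ Ideal.span {Φ}) →ₗ[R] Y ⧸ Ideal.span {Φ} := LinearMap.id - σ ∘ₗ θb.toLinearMap
  have hP : ∀ x, P x = x - σ (θb x) := fun _ => rfl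
  have hP1 : ∀ x, θb x = 0 → P x = x := fun x hx => by rw [hP, hx, map_zero, sub_zero]
  have hle : (⊤ : Submodule R _).map P ≤ I • (⊤ : Submodule R _).map P := by
    rintro _ ⟨x, -, rfl⟩
    have h1 : θb (P x) = 0 := by rw [hP, map_sub, hσ, sub_self]
    rw [← hP1 _ h1, ← Submodule.map_smul'']
    refine Submodule.mem_map_of_mem ?_
    obtain ⟨y, hy⟩ := Ideal.Quotient.mk_surjective (P x)
    rw [← hy] at h1 ⊢
    obtain ⟨a, ha, b, hb, rfl⟩ := Submodule.mem_sup.1 (hker y h1)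
    rw [map_add, Ideal.Quotient.eq_zero_iff_mem.2 ha, zero_add, Ideal.smul_top_eq_map]
    have h2 := Ideal.mem_map_of_mem (Ideal.Quotient.mk (Ideal.span {Φ})) hb
    rw [Ideal.map_map] at h2
    exact h2
  obtain ⟨w, hw, h⟩ := Submodule.exists_sub_one_mem_and_smul_eq_zero_of_fg_of_le_smul I _
    (Module.Finite.fg_top.map P) hle
  refine ⟨w, hw, fun y hy => ?_⟩
  have h1 := h (Ideal.Quotient.mk _ y) ⟨_, Submodule.mem_top, hP1 _ hy⟩
  rw [Algebra.smul_def] at h1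
  exact Ideal.mem_span_singleton.1 (Ideal.Quotient.eq_zero_iff_mem.1 h1)

end KEW
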