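import Pool.Agent.P.MP_6277db_ag.KEW.CA.SR1
import Pool.Agent.P.MP_6277db_ag.KEW.CA.SR2

/-!
KEW L4.2: assembly of the rigidity core.
Hints.  Localise `E` by `exists_ee_of_section` (for `R[X] → E`, `π = eval 0`) so that `ker s0 = (u)`; `sr_family`;
invert `Q`; `sr_solve` on `EQ = E[1/e][1/Q]` with `e0 = M0`, `a = s1 u`; `Y0 = EQ ⊗_R R0`; `VB` from the valuative statement with
`lam k` replaced by `s * lam k` (`IsPO.mem_subring`, `IsAway.mem_subring`); `sr_ker` gives `w1`; `t1 = ev_a ∘ θ` and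
`ρ ∘ s1` are `R[X]`-maps congruent mod `I`, `UL_mod` gives `w2`.  Finally `R' = R0[1/(w1 w2)]`; for `τ : R' → T` take
`Y = Y0 ⊗_R0 T` and base change everything (`IsPO.section`, `IsPO.vb`, `IsPO.ker_baseChange`, `isPO_adjoinRoot`; beware
that `ω.map` has to be rewritten as `(X - C c) * q^m`: use `AdjoinRoot.map` with an explicit target polynomial or state an
auxiliary lemma for a general `ω` with `hω : ω = (X - C c) * q^m`).
-/

namespace KEW

universe u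

open Polynomial

variable {R E : Type u} [CommRing R] [CommRing E]

/-- Localisation of `E` on which the family has a finite zero locus. -/
theorem SR3_loc [IsNoetherianRing R] {φ : R →+* E} {u : E} (hu : Et1 φ u) {s0 : E →+* R}
    (hs0 : s0.comp φ = RingHom.id R) (h0 : s0 u = 0) :
    ∃ (E' : Type u) (_ : CommRing E') (l : E →+* E') (s : E' →+* R) (M0 : ℕ) (G : ℕ → E'),
      l.Etale ∧ s.comp l = s0 ∧ RingHom.ker s = Ideal.span {l u} ∧ (∀ a, s (G a) = 1) ∧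
      ∀ (M : ℕ) (K : Type u) [Field K] (O : ValuationSubring K) (x : E' →+* K) (lam : ℕ → K),
        (∀ r, x (l (φ r)) ∈ O) → (∀ a, lam a ∈ O) →
        x (l u) ^ M + ∑ a ∈ Finset.Ioc M0 M, lam a * (x (l u) ^ (M - a) * x (G a)) = 0 →
        ∀ y, x y ∈ O := by
  obtain ⟨e, E1, _, l1, s1, -, h1, h2, -, h3⟩ := exists_ee_of_section hu
    (π := Polynomial.evalRingHom 0) (fun r => ⟨C r, eval_C⟩) s0 (Polynomial.ringHom_ext
      (fun r => by simpa using RingHom.congr_fun hs0 r) (by simpa using h0))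
  rw [Polynomial.ker_evalRingHom, Ideal.map_span, Set.image_singleton] at h3
  simp only [map_zero, sub_zero, RingHom.comp_apply, coe_eval₂RingHom, eval₂_X] at h3
  obtain ⟨Q, M0, G, h4, h5, h6⟩ := sr_family (hu.comp h1.etale)
    (by rw [← RingHom.comp_assoc, h2, hs0]) h3
  obtain ⟨E2, _, l2, h7⟩ := exists_isAway Q
  obtain ⟨s2, h8⟩ := h7.exists_lift s1 (h4 ▸ isUnit_one)
  have h9 : ∀ y, s2 (l2 y) = s1 y := RingHom.congr_fun h8
  refine ⟨E2, inferInstance, l2.comp l1, s2, M0, fun a => l2 (G a), etale_comp h1.etale h7.etale,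
    by rw [← RingHom.comp_assoc, h8, h2], le_antisymm (fun z hz => ?_) ?_,
    fun a => (h9 _).trans (h5 a), fun M K _ O x lam hx hl he => ?_⟩
  · obtain ⟨y, n, hy⟩ := h7.surj z
    have h10 : y ∈ RingHom.ker s1 := by
      rw [RingHom.mem_ker, ← h9, ← hy, map_mul, RingHom.mem_ker.1 hz, zero_mul]
    rw [h3, Ideal.mem_span_singleton] at h10
    rw [Ideal.mem_span_singleton, ← (h7.isUnit.pow n).dvd_mul_right, hy]
    exact map_dvd l2 h10
  · rw [Ideal.span_singleton_le_iff_mem, RingHom.mem_ker, RingHom.comp_apply, h9,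
      ← RingHom.mem_ker, h3]
    exact Ideal.mem_span_singleton_self _
  · obtain ⟨h10, h11⟩ := h6 M K O (x.comp l2) lam hx hl (h7.isUnit.map x).ne_zero he
    refine h7.mem_subring (O.toSubring.comap x) h11 fun z hz => ?_
    have h12 : x z = (x (l2 Q))⁻¹ := eq_inv_of_mul_eq_one_left (by rw [← map_mul, hz, map_one])
    exact show x z ∈ O from h12 ▸ h10

theorem SR3_root (c : R) (p : R[X]) : ((X - C c) * p).eval₂ (RingHom.id R) c = 0 := by simp

theorem SR3_omega {J : Ideal R} {a : R} (ha : a ∈ J) {q : R[X]} {e : ℕ}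
    (hq : q - X ^ e ∈ J.map (C : R →+* R[X])) (m : ℕ) :
    (X - C a) * q ^ m - X ^ (m * e + 1) ∈ J.map (C : R →+* R[X]) := by
  rw [← Ideal.Quotient.eq] at hq ⊢
  rw [map_mul, map_sub, Ideal.Quotient.eq_zero_iff_mem.2 (Ideal.mem_map_of_mem _ ha), map_pow, hq,
    sub_zero, ← map_pow, ← map_mul, ← pow_mul, mul_comm e, pow_succ']

theorem SR3_surj {Y : Type u} [CommRing Y] {ω : R[X]} {ψ : R →+* Y} {u : Y}
    {θ : Y →+* AdjoinRoot ω} (h1 : θ.comp ψ = AdjoinRoot.of ω) (h2 : θ u = AdjoinRoot.root ω) :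
    Function.Surjective θ := fun z => by
  obtain ⟨p, rfl⟩ := AdjoinRoot.mk_surjective z
  refine ⟨p.eval₂ ψ u, ?_⟩
  rw [hom_eval₂, h1, h2]
  exact AdjoinRoot.aeval_eq p

theorem sr_core [IsNoetherianRing R] {φ : R →+* E} {u : E} (hu : Et1 φ u) (I : Ideal R) {m : ℕ}
    (hm0 : 0 < m) (hm : ∃ c : R, c * m - 1 ∈ I) {s0 s1 : E →+* R} (hs0 : s0.comp φ = RingHom.id R)
    (hs1 : s1.comp φ = RingHom.id R) (hI : ∀ y, s0 y - s1 y ∈ I) (h0 : s0 u = 0) :
    ∃ (R' : Type u) (_ : CommRing R') (ρ : R →+* R'), EE I ρ ∧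
      ∀ (T : Type u) [CommRing T] (τ : R' →+* T),
        ∃ (Y : Type u) (_ : CommRing Y) (ψ : T →+* Y) (ξ : E →+* Y) (t0 : Y →+* T) (Φ : Y) (e0 : ℕ)
          (c : T) (q ω : T[X]) (θ : Y →+* AdjoinRoot ω) (t1 : AdjoinRoot ω →+* T),
          ξ.comp φ = ψ.comp (τ.comp ρ) ∧ Et1 ψ (ξ u) ∧ t0.comp ψ = RingHom.id T ∧
          t0.comp ξ = (τ.comp ρ).comp s0 ∧ RingHom.ker t0 = Ideal.span {ξ u} ∧
          VB ψ (ξ u ^ (m * e0 + 1)) Φ ∧ q.Monic ∧ ω = (X - C c) * q ^ m ∧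
          θ.comp ψ = AdjoinRoot.of ω ∧ θ (ξ u) = AdjoinRoot.root ω ∧
          RingHom.ker θ = Ideal.span {Φ} ∧ t1.comp (AdjoinRoot.of ω) = RingHom.id T ∧
          t1 (AdjoinRoot.root ω) = c ∧ (t1.comp θ).comp ξ = (τ.comp ρ).comp s1 := by
  obtain ⟨E', _, l, s, e0, G, hl, hsl, hk, hG, hV⟩ := SR3_loc hu hs0 h0
  have hu' := hu.comp hl
  have hs : s.comp (l.comp φ) = RingHom.id R := by rw [← RingHom.comp_assoc, hsl, hs0]
  have hsy : ∀ y, s (l y) = s0 y := RingHom.congr_fun hsl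
  have ha : s1 u ∈ I := by simpa [h0] using hI u
  obtain ⟨R0, _, ρ0, lam, q, θ0, hρ, hlam, hq, hqI, hθφ, hθu, hθs, hθΦ⟩ :=
    sr_solve hu' hs ((hsy u).trans h0) I hm0 hm ha e0 G hG
  obtain ⟨Y0, _, i0, ψ0, p0⟩ := exists_isPO (l.comp φ) ρ0
  obtain ⟨θ1, hθi, hθψ⟩ := p0.exists_lift θ0 (AdjoinRoot.of _) hθφ
  have hθi' : ∀ y, θ1 (i0 y) = θ0 y := RingHom.congr_fun hθi
  have hθψ' : ∀ y, θ1 (ψ0 y) = AdjoinRoot.of _ y := RingHom.congr_fun hθψ
  obtain ⟨t, ht1, ht2, ht3⟩ := p0.section hs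
  rw [hk, Ideal.map_span, Set.image_singleton] at ht3
  obtain ⟨Φ, hΦ⟩ : ∃ Φ, Φ = i0 (l u) ^ (m * e0 + 1) + ∑ k ∈ Finset.Ioc e0 (m * e0 + 1),
    ψ0 (lam k) * (i0 (l u) ^ (m * e0 + 1 - k) * i0 (G k)) := ⟨_, rfl⟩
  have hΦ0 : θ1 Φ = 0 := by
    simp only [hΦ, map_add, map_sum, map_mul, map_pow, hθi', hθψ']
    exact hθΦ
  have hvb : VB ψ0 (i0 (l u) ^ (m * e0 + 1)) Φ := fun K _ O x c hx hc he => by
    refine p0.mem_subring (O.toSubring.comap x) (hV (m * e0 + 1) K O (x.comp i0)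
      (fun k => c * x (ψ0 (lam k))) (fun r => ?_) (fun k => mul_mem hc (hx _)) ?_) hx
    · exact show x (i0 ((l.comp φ) r)) ∈ O from p0.comm_apply r ▸ hx _
    · rw [← he, hΦ]
      simp only [map_add, map_sum, map_mul, map_pow, add_sub_cancel_left, Finset.mul_sum,
        RingHom.comp_apply, mul_assoc]
  have hω : ((X - C (ρ0 (s1 u))) * q ^ m).Monic := (monic_X_sub_C _).mul (hq.pow m)
  obtain ⟨w1, hw1, hw⟩ := sr_ker (I.map ρ0) hω (SR3_omega (Ideal.mem_map_of_mem _ ha) hqI m)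
    (u := i0 (l u)) (Φ := Φ)
    (fun y => ⟨t y, by
      rw [← Ideal.mem_span_singleton, ← ht3, RingHom.mem_ker, map_sub, sub_eq_zero]
      exact (RingHom.congr_fun ht1 _).symm⟩)
    (by
      rw [hΦ, add_sub_cancel_left]
      exact sum_mem fun k _ => Ideal.mul_mem_right _ _ (Ideal.mem_map_of_mem _ (hlam k)))
    (hvb.finMod_right (p0.et1 hu').finiteType) θ1 hθψ ((hθi' _).trans hθu) hΦ0
  obtain ⟨ev, hev1, hev2⟩ : ∃ ev : AdjoinRoot ((X - C (ρ0 (s1 u))) * q ^ m) →+* R0,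
      (∀ r, ev (AdjoinRoot.of _ r) = r) ∧ ev (AdjoinRoot.root _) = ρ0 (s1 u) :=
    ⟨AdjoinRoot.lift (RingHom.id R0) _ (SR3_root _ _), fun _ => AdjoinRoot.lift_of _,
      AdjoinRoot.lift_root _⟩
  obtain ⟨w2, hw2, hw'⟩ := UL_mod hu (ev.comp (θ0.comp l)) (ρ0.comp s1) (I := I.map ρ0)
    (Polynomial.ringHom_ext
      (fun r => by
        have h1 := RingHom.congr_fun hθφ r
        have h2 := RingHom.congr_fun hs1 r
        simp only [RingHom.comp_apply, RingHom.id_apply] at h1 h2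
        simp [h1, h2, hev1])
      (by simp [hθu, hev2]))
    (fun y => by
      have h1 : (I.map ρ0).map (AdjoinRoot.of ((X - C (ρ0 (s1 u))) * q ^ m)) ⊔
          Ideal.span {AdjoinRoot.root _} ≤ (I.map ρ0).comap ev := by
        refine sup_le (Ideal.map_le_iff_le_comap.2 fun r hr => ?_) ?_
        · rwa [Ideal.mem_comap, Ideal.mem_comap, hev1]
        · rw [Ideal.span_singleton_le_iff_mem, Ideal.mem_comap, hev2]
          exact Ideal.mem_map_of_mem _ ha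
      have h2 := h1 (hθs (l y))
      rw [Ideal.mem_comap, map_sub, hev1, hsy] at h2
      have h3 := add_mem h2 (Ideal.mem_map_of_mem ρ0 (hI y))
      rwa [map_sub, sub_add_sub_cancel] at h3)
  obtain ⟨R', _, l', hee, haw⟩ := exists_ee_isUnit (I.map ρ0) (r := w1 * w2) ⟨1, by
    have h1 := add_mem (Ideal.mul_mem_right w2 _ hw1) hw2
    rwa [sub_mul, one_mul, sub_add_sub_cancel, ← one_mul (w1 * w2)] at h1⟩
  refine ⟨R', inferInstance, l'.comp ρ0, hρ.comp hee, fun T _ τ => ?_⟩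
  have hun := haw.isUnit.map τ
  rw [map_mul, map_mul, IsUnit.mul_iff] at hun
  obtain ⟨g, hg⟩ : ∃ g, g = τ.comp l' := ⟨_, rfl⟩
  have hg1 : IsUnit (g w1) := hg ▸ hun.1
  have hg2 : IsUnit (g w2) := hg ▸ hun.2
  rw [← RingHom.comp_assoc, ← hg]
  obtain ⟨Y, _, i, ψ, p1⟩ := exists_isPO ψ0 g
  obtain ⟨t0, h1, h2, h3⟩ := p1.section ht1
  rw [ht3, Ideal.map_span, Set.image_singleton] at h3
  obtain ⟨θ, h4, h5⟩ := p1.exists_lift ((amap g _).comp θ1) (AdjoinRoot.of _) (by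
    rw [RingHom.comp_assoc, hθψ]
    exact RingHom.ext fun r => amap_of g _ r)
  have h4' : ∀ y, θ (i y) = amap g _ (θ1 y) := RingHom.congr_fun h4
  have h6 : ((X - C (ρ0 (s1 u))) * q ^ m).map g = (X - C (g (ρ0 (s1 u)))) * q.map g ^ m := by
    simp
  obtain ⟨t1, h7, h8⟩ : ∃ t1 : AdjoinRoot (((X - C (ρ0 (s1 u))) * q ^ m).map g) →+* T,
      (∀ r, t1 (AdjoinRoot.of _ r) = r) ∧ t1 (AdjoinRoot.root _) = g (ρ0 (s1 u)) :=
    ⟨AdjoinRoot.lift (RingHom.id T) _ (h6 ▸ SR3_root _ _), fun _ => AdjoinRoot.lift_of _,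
      AdjoinRoot.lift_root _⟩
  have h9 := (p1.ker_baseChange (SR3_surj hθψ ((hθi' _).trans hθu)) h4
    (by
      rw [hθψ, h5]
      exact isPO_adjoinRoot g _)).2
  have h10 : t1.comp (amap g _) = g.comp ev := AdjoinRoot.ringHom_ext
    (RingHom.ext fun r => by simp [h7, hev1]) (by simp [h8, hev2])
  refine ⟨Y, inferInstance, ψ, i.comp (i0.comp l), t0, i Φ, e0, g (ρ0 (s1 u)), q.map g, _, θ, t1,
    ?_, p1.et1 (p0.et1 hu'), h1, ?_, h3, ?_, hq.map g, h6, h5, ?_, le_antisymm ?_ ?_,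
    RingHom.ext h7, h8, ?_⟩
  · rw [RingHom.comp_assoc, RingHom.comp_assoc, p0.comm, ← RingHom.comp_assoc, p1.comm,
      RingHom.comp_assoc]
  · rw [← RingHom.comp_assoc, h2, RingHom.comp_assoc, ← RingHom.comp_assoc l, ht2,
      RingHom.comp_assoc, hsl, RingHom.comp_assoc]
  · simpa using p1.vb hvb
  · rw [RingHom.comp_apply, RingHom.comp_apply, h4', hθi', hθu, amap_root]
  · rw [h9]
    refine Ideal.map_le_iff_le_comap.2 fun y hy => ?_
    have h11 := map_dvd i (hw y hy)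
    rw [map_mul, p1.comm_apply, (hg1.map ψ).dvd_mul_left] at h11
    exact Ideal.mem_span_singleton.2 h11
  · rw [Ideal.span_singleton_le_iff_mem, RingHom.mem_ker, h4', hΦ0, map_zero]
  · rw [RingHom.comp_assoc s1, ← hw' T g hg2]
    refine RingHom.ext fun y => ?_
    simp only [RingHom.comp_apply, h4', hθi']
    exact RingHom.congr_fun h10 _

end KEW
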