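import Pool.Agent.P.MP_6277db_ag.KEW.CA.Et

/-!
KEW L4: valuative criterion of integrality, valuative degree bounds.
Hints.  `isIntegralElem_of_val`: the values at `y` of the monic polynomials over `R` form a multiplicative
set; if it misses `0` take a prime `p` disjoint from it (`Ideal.exists_le_prime_disjoint`), `K` the fraction
field of `S ⧸ p`, and use `iInf_valuationSubring_superset` (RingTheory/Valuation/LocalSubring): the
integral closure of the image of `R` is the intersection of the valuation subrings containing it.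
`finMod_of_val`: apply it to `S ⧸ J`; integral + finite type gives finite.
`DegLT.exists_of_integral`: if `y^n + Σ c_k(u) y^k = 0` and `d > max deg c_k` then `|y| ≥ |u|^d > 1` is
impossible.  `VB.finMod`: apply `finMod_of_val` to `S[X]` over `R[X]`.
-/

namespace KEW

universe u

open Polynomial

variable {R S T : Type u} [CommRing R] [CommRing S] [CommRing T]

theorem isIntegralElem_of_val (φ : R →+* S) (y : S)
    (h : ∀ (K : Type u) [Field K] (O : ValuationSubring K) (x : S →+* K),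
      (∀ r, x (φ r) ∈ O) → x y ∈ O) : φ.IsIntegralElem y := by
  by_contra hn
  let M : Submonoid S :=
    { carrier := {z | ∃ p : R[X], p.Monic ∧ p.eval₂ φ y = z}
      one_mem' := ⟨1, monic_one, eval₂_one _ _⟩
      mul_mem' := by
        rintro _ _ ⟨p, hp, rfl⟩ ⟨q, hq, rfl⟩
        exact ⟨p * q, hp.mul hq, eval₂_mul _ _⟩ }
  obtain ⟨p, hp, -, hd⟩ := Ideal.exists_le_prime_disjoint (⊥ : Ideal S) M (by
    rw [Set.disjoint_left]
    rintro z hz ⟨q, hq, rfl⟩
    exact hn ⟨q, hq, hz⟩)
  let x : S →+* FractionRing (S ⧸ p) :=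
    (algebraMap (S ⧸ p) (FractionRing (S ⧸ p))).comp (Ideal.Quotient.mk p)
  have h1 : x y ∈ (integralClosure (Subring.closure (Set.range (x.comp φ)))
      (FractionRing (S ⧸ p))).toSubring := by
    rw [← iInf_valuationSubring_superset, Subring.mem_iInf]
    exact fun V => h _ V.1 x fun r => V.2 ⟨r, rfl⟩
  obtain ⟨q, hq, hq0⟩ := h1
  let ψ : R →+* Subring.closure (Set.range (x.comp φ)) :=
    (x.comp φ).codRestrict _ fun r => Subring.subset_closure ⟨r, rfl⟩
  have hψ : Function.Surjective ψ := by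
    rintro ⟨a, ha⟩
    have h2 : Subring.closure (Set.range (x.comp φ)) ≤ (x.comp φ).range :=
      Subring.closure_le.2 fun _ hz => hz
    obtain ⟨r, hr⟩ := h2 ha
    exact ⟨r, Subtype.ext hr⟩
  obtain ⟨q', hq', -, hm⟩ := lifts_and_degree_eq_and_monic
    ((mem_lifts (f := ψ) q).2 (map_surjective ψ hψ q)) hq
  have h3 : x (q'.eval₂ φ y) = 0 := by
    rw [hom_eval₂, ← hq0, ← hq', eval₂_map]
    rfl
  have h4 : q'.eval₂ φ y ∈ p := by
    rw [← Ideal.Quotient.eq_zero_iff_mem]
    exact (map_eq_zero_iff _ (IsFractionRing.injective (S ⧸ p) (FractionRing (S ⧸ p)))).1 h3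
  exact Set.disjoint_left.1 hd h4 ⟨q', hm, rfl⟩

theorem mem_of_isIntegralElem {φ : R →+* S} {y : S} (hy : φ.IsIntegralElem y) {K : Type u} [Field K]
    (O : ValuationSubring K) (x : S →+* K) (hx : ∀ r, x (φ r) ∈ O) : x y ∈ O := by
  have h1 : ((algebraMap O K).comp ((x.comp φ).codRestrict O hx)).IsIntegralElem (x y) := hy.map x
  have h2 : IsIntegral O (x y) := h1.of_comp
  obtain ⟨a, ha⟩ := IsIntegrallyClosedIn.isIntegral_iff.1 h2
  rw [← ha]
  exact a.2

theorem finMod_of_val {φ : R →+* S} (hφ : φ.FiniteType) (J : Ideal S)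
    (h : ∀ (K : Type u) [Field K] (O : ValuationSubring K) (x : S →+* K), (∀ y ∈ J, x y = 0) →
      (∀ r, x (φ r) ∈ O) → ∀ y, x y ∈ O) : FinMod φ J := by
  refine RingHom.IsIntegral.to_finite (fun y => isIntegralElem_of_val _ y fun K _ O x hx => ?_)
    (hφ.comp_surjective Ideal.Quotient.mk_surjective)
  obtain ⟨z, rfl⟩ := Ideal.Quotient.mk_surjective y
  refine h K O (x.comp (Ideal.Quotient.mk J)) (fun w hw => ?_) hx z
  rw [RingHom.comp_apply, Ideal.Quotient.eq_zero_iff_mem.2 hw, map_zero]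

theorem FinMod.mem {φ : R →+* S} {J : Ideal S} (h : FinMod φ J) {K : Type u} [Field K]
    (O : ValuationSubring K) (x : S →+* K) (hJ : ∀ y ∈ J, x y = 0) (hx : ∀ r, x (φ r) ∈ O)
    (y : S) : x y ∈ O :=
  mem_of_isIntegralElem (RingHom.Finite.to_isIntegral h (Ideal.Quotient.mk J y)) O
    (Ideal.Quotient.lift J x hJ) hx

theorem eval₂_mem {φ : R →+* S} {K : Type u} [Field K] (O : ValuationSubring K) (x : S →+* K)
    (hx : ∀ r, x (φ r) ∈ O) {u : S} (hu : x u ∈ O) (p : R[X]) : x (p.eval₂ φ u) ∈ O := by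
  rw [eval₂_eq_sum_range, map_sum]
  refine sum_mem fun i _ => ?_
  rw [map_mul, map_pow]
  exact mul_mem (hx _) (pow_mem hu i)

theorem Val_one_lt {K : Type u} [Field K] (O : ValuationSubring K) {a : K} (ha : a ∉ O) :
    1 < O.valuation a := not_le.1 fun h => ha ((O.valuation_le_one_iff a).1 h)

theorem Val_eval_le {φ : R →+* S} {K : Type u} [Field K] (O : ValuationSubring K) (x : S →+* K)
    (hx : ∀ r, x (φ r) ∈ O) {u : S} (hu : x u ∉ O) {p : R[X]} {d : ℕ} (hp : p.natDegree ≤ d) :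
    O.valuation (x (p.eval₂ φ u)) ≤ O.valuation (x u) ^ d := by
  rw [eval₂_eq_sum_range, map_sum]
  refine O.valuation.map_sum_le fun i hi => ?_
  rw [map_mul, map_pow, map_mul, map_pow]
  have h1 : i ≤ d := (Nat.lt_succ_iff.1 (Finset.mem_range.1 hi)).trans hp
  exact (mul_le_of_le_one_left' ((O.valuation_le_one_iff _).2 (hx _))).trans
    (pow_le_pow_right₀ (Val_one_lt O hu).le h1)

theorem DegLT.exists_of_integral {φ : R →+* S} {u y : S}
    (hy : (Polynomial.eval₂RingHom φ u).IsIntegralElem y) : ∃ d, DegLT φ u y d := by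
  obtain ⟨P, hP, hP0⟩ := hy
  refine ⟨(Finset.range P.natDegree).sup (fun i => (P.coeff i).natDegree) + 1,
    fun K _ O x hx hu => ?_⟩
  by_contra hb
  rw [not_lt] at hb
  have ha := Val_one_lt O hu
  have h1 : 1 ≤ O.valuation (x y) := (one_le_pow₀ ha.le).trans hb
  have h0 : 0 < O.valuation (x y) := zero_lt_one.trans_le h1
  rw [eval₂_eq_sum_range, Finset.sum_range_succ, hP.coeff_natDegree, map_one, one_mul,
    add_eq_zero_iff_neg_eq] at hP0
  have h2 : O.valuation (x (∑ i ∈ Finset.range P.natDegree,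
      Polynomial.eval₂RingHom φ u (P.coeff i) * y ^ i)) < O.valuation (x y) ^ P.natDegree := by
    rw [map_sum]
    refine O.valuation.map_sum_lt (pow_pos h0 _).ne' fun i hi => ?_
    rw [map_mul, map_pow, map_mul, map_pow]
    have h3 : O.valuation (x (Polynomial.eval₂RingHom φ u (P.coeff i))) < O.valuation (x y) :=
      ((Val_eval_le O x hx hu (Finset.le_sup (f := fun i => (P.coeff i).natDegree) hi)).trans_lt
        (pow_lt_pow_right₀ ha (Nat.lt_succ_self _))).trans_le hb
    refine (mul_lt_mul_of_pos_right h3 (pow_pos h0 i)).trans_le ?_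
    rw [← pow_succ']
    exact pow_le_pow_right₀ h1 (Finset.mem_range.1 hi)
  rw [← map_pow, ← map_pow, ← hP0, map_neg, Valuation.map_neg] at h2
  exact lt_irrefl _ h2

theorem DegLT.mono {φ : R →+* S} {u y : S} {d d' : ℕ} (h : DegLT φ u y d) (hd : d ≤ d') :
    DegLT φ u y d' := fun K _ O x hx hu =>
  (h K O x hx hu).trans_le (pow_le_pow_right₀ (Val_one_lt O hu).le hd)

theorem degLT_zero (φ : R →+* S) (u : S) (d : ℕ) : DegLT φ u 0 d := fun K _ O x _ hu => by
  rw [map_zero, map_zero]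
  exact pow_pos (zero_lt_one.trans (Val_one_lt O hu)) d

theorem DegLT.add {φ : R →+* S} {u y z : S} {d : ℕ} (h : DegLT φ u y d) (h' : DegLT φ u z d) :
    DegLT φ u (y + z) d := fun K _ O x hx hu => by
  rw [map_add]
  exact O.valuation.map_add_lt (h K O x hx hu) (h' K O x hx hu)

theorem DegLT.neg {φ : R →+* S} {u y : S} {d : ℕ} (h : DegLT φ u y d) : DegLT φ u (-y) d :=
  fun K _ O x hx hu => by
    rw [map_neg, Valuation.map_neg]
    exact h K O x hx hu

theorem DegLT.sub {φ : R →+* S} {u y z : S} {d : ℕ} (h : DegLT φ u y d) (h' : DegLT φ u z d) :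
    DegLT φ u (y - z) d := by
  rw [sub_eq_add_neg]
  exact h.add h'.neg

theorem DegLT.const_mul {φ : R →+* S} {u y : S} {d : ℕ} (h : DegLT φ u y d) (r : R) :
    DegLT φ u (φ r * y) d := fun K _ O x hx hu => by
  rw [map_mul, map_mul]
  exact (mul_le_of_le_one_left' ((O.valuation_le_one_iff _).2 (hx r))).trans_lt (h K O x hx hu)

theorem DegLT.pow_mul {φ : R →+* S} {u y : S} {d : ℕ} (h : DegLT φ u y d) (k : ℕ) :
    DegLT φ u (u ^ k * y) (k + d) := fun K _ O x hx hu => by
  rw [map_mul, map_mul, map_pow, map_pow, pow_add]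
  exact mul_lt_mul_of_pos_left (h K O x hx hu) (pow_pos (zero_lt_one.trans (Val_one_lt O hu)) k)

theorem DegLT.mul {φ : R →+* S} {u y z : S} {d d' : ℕ} (h : DegLT φ u y d) (h' : DegLT φ u z d') :
    DegLT φ u (y * z) (d + d') := fun K _ O x hx hu => by
  rw [map_mul, map_mul, pow_add]
  exact mul_lt_mul'' (h K O x hx hu) (h' K O x hx hu) zero_le zero_le

theorem DegLT.sum {φ : R →+* S} {u : S} {d : ℕ} {ι : Type} (s : Finset ι) {y : ι → S}
    (h : ∀ k ∈ s, DegLT φ u (y k) d) : DegLT φ u (∑ k ∈ s, y k) d :=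
  Finset.sum_induction y (fun z => DegLT φ u z d) (fun _ _ => DegLT.add) (degLT_zero φ u d) h

theorem degLT_eval₂ (φ : R →+* S) (u : S) {p : R[X]} {d : ℕ} (hp : p.degree < d) :
    DegLT φ u (p.eval₂ φ u) d := by
  by_cases h0 : p = 0
  · rw [h0, eval₂_zero]
    exact degLT_zero φ u d
  · exact fun K _ O x hx hu => (Val_eval_le O x hx hu le_rfl).trans_lt
      (pow_lt_pow_right₀ (Val_one_lt O hu) ((natDegree_lt_iff_degree_lt h0).2 hp))

theorem DegLT.map {φ : R →+* S} {u y : S} {d : ℕ} (h : DegLT φ u y d) {R' : Type u} [CommRing R']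
    {f : R →+* R'} {φ' : R' →+* T} {g : S →+* T} (w : g.comp φ = φ'.comp f) :
    DegLT φ' (g u) (g y) d := fun K _ O x hx hu =>
  h K O (x.comp g) (fun r => by
    have h1 := RingHom.congr_fun w r
    simp only [RingHom.comp_apply] at h1 ⊢
    rw [h1]
    exact hx _) hu

/-- The leading term wins outside the unit disc. -/
theorem mem_of_lead {φ : R →+* S} {u y0 y1 : S} {d : ℕ} (h0 : DegLT φ u (y0 - u ^ d) d)
    (h1 : DegLT φ u (y1 - u ^ d) d) {K : Type u} [Field K] (O : ValuationSubring K) (x : S →+* K)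
    (hx : ∀ r, x (φ r) ∈ O) {s : K} (hs : s ∈ O) (h : x y0 + s * (x y1 - x y0) = 0) : x u ∈ O := by
  by_contra hu
  have h2 := (h1.sub h0) K O x hx hu
  have h3 : O.valuation (s * x (y1 - u ^ d - (y0 - u ^ d))) < O.valuation (x u) ^ d := by
    rw [map_mul]
    exact (mul_le_of_le_one_left' ((O.valuation_le_one_iff _).2 hs)).trans_lt h2
  have h4 := O.valuation.map_add_lt (h0 K O x hx hu) h3
  have h5 : x (y0 - u ^ d) + s * x (y1 - u ^ d - (y0 - u ^ d)) = -x u ^ d := by
    simp only [map_sub, map_pow]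
    linear_combination h
  rw [h5, Valuation.map_neg, map_pow] at h4
  exact lt_irrefl _ h4

theorem VB.finMod {φ : R →+* S} (hφ : φ.FiniteType) {σ0 σ1 : S} (h : VB φ σ0 σ1) :
    FinMod (Polynomial.mapRingHom φ) (Ideal.span {C σ0 + X * C (σ1 - σ0)}) := by
  refine finMod_of_val ((isPO_polynomial φ).flip.finiteType hφ) _ fun K _ O x hJ hx p => ?_
  have hX : x X ∈ O := by simpa using hx X
  have h1 : ∀ y, x (C y) ∈ O := by
    refine h K O (x.comp C) (x X) (fun r => by simpa using hx (C r)) hX ?_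
    simpa using hJ _ (Ideal.mem_span_singleton_self _)
  have h2 := eval₂_mem (φ := C) O x h1 hX p
  rwa [eval₂_C_X] at h2

theorem VB.finMod_left {φ : R →+* S} (hφ : φ.FiniteType) {σ0 σ1 : S} (h : VB φ σ0 σ1) :
    FinMod φ (Ideal.span {σ0}) :=
  finMod_of_val hφ _ fun K _ O x hJ hx => h K O x 0 hx O.zero_mem (by
    rw [hJ _ (Ideal.mem_span_singleton_self _), zero_mul, add_zero])

theorem VB.finMod_right {φ : R →+* S} (hφ : φ.FiniteType) {σ0 σ1 : S} (h : VB φ σ0 σ1) :
    FinMod φ (Ideal.span {σ1}) :=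
  finMod_of_val hφ _ fun K _ O x hJ hx => h K O x 1 hx O.one_mem (by
    rw [hJ _ (Ideal.mem_span_singleton_self _)]
    ring)

theorem IsPO.vb {R' : Type u} [CommRing R'] {φ : R →+* S} {f : R →+* R'} {g : S →+* T}
    {φ' : R' →+* T} (h : IsPO φ f g φ') {σ0 σ1 : S} (hv : VB φ σ0 σ1) : VB φ' (g σ0) (g σ1) :=
  fun K _ O x s hx hs h0 => h.mem_subring (O.toSubring.comap x)
    (hv K O (x.comp g) s (fun r => by
      rw [RingHom.comp_apply, h.comm_apply]
      exact hx _) hs h0) hx

/-- The standard family on an open part `D(Q)` of an integral `R[u]`-algebra. -/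
theorem vb_of_lead {φ : R →+* S} {u : S} (hint : (Polynomial.eval₂RingHom φ u).IsIntegral)
    {j : S →+* T} {Q : S} (hj : IsAway j Q) {σ0 σ1 : S} {d : ℕ} (h0 : DegLT φ u (σ0 - u ^ d) d)
    (h1 : DegLT φ u (σ1 - u ^ d) d) (hc : IsCoprime σ0 Q)
    (hr : σ1 - σ0 ∈ (Ideal.span {Q}).radical) : VB (j.comp φ) (j σ0) (j σ1) := by
  intro K _ O x s hx hs h
  have hu : x.comp j u ∈ O := mem_of_lead h0 h1 O (x.comp j) hx hs h
  have hS : ∀ y, x.comp j y ∈ O := fun y =>
    mem_of_isIntegralElem (hint y) O (x.comp j) (eval₂_mem O (x.comp j) hx hu)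
  have hle : ∀ y, O.valuation (x.comp j y) ≤ 1 := fun y => (O.valuation_le_one_iff _).2 (hS y)
  have hQ : O.valuation (x.comp j Q) = 1 := by
    by_contra hne
    have h2 : ∀ c, O.valuation (x.comp j (c * Q)) < 1 := fun c => by
      rw [map_mul, map_mul]
      exact (mul_le_of_le_one_left' (hle c)).trans_lt (lt_of_le_of_ne (hle Q) hne)
    obtain ⟨n, hn⟩ := hr
    obtain ⟨c, hc'⟩ := Ideal.mem_span_singleton'.1 hn
    have h3 : O.valuation (x.comp j (σ1 - σ0)) < 1 := by
      by_contra h4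
      have h5 := h2 c
      rw [hc', map_pow, map_pow] at h5
      exact absurd (one_le_pow₀ (not_lt.1 h4)) (not_le.2 h5)
    have h4 : x.comp j σ0 = -(s * x.comp j (σ1 - σ0)) := by
      simp only [RingHom.comp_apply, map_sub]
      linear_combination h
    obtain ⟨a, b, hab⟩ := hc
    have h5 : O.valuation (x.comp j (a * σ0)) < 1 := by
      rw [map_mul, map_mul, h4, Valuation.map_neg, map_mul]
      exact (mul_le_of_le_one_left' (hle a)).trans_lt
        ((mul_le_of_le_one_left' ((O.valuation_le_one_iff _).2 hs)).trans_lt h3)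
    have h6 := O.valuation.map_add_lt h5 (h2 b)
    rw [← map_add, hab, map_one, map_one] at h6
    exact lt_irrefl _ h6
  refine hj.mem_subring (O.toSubring.comap x) hS fun z hz => ?_
  have h2 := congrArg (fun t => O.valuation (x t)) hz
  simp only [map_mul, map_one] at h2
  rw [RingHom.comp_apply] at hQ
  rw [hQ, mul_one] at h2
  exact (O.valuation_le_one_iff _).1 h2.le

end KEW
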